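import Pool.Agent.H79.AU.Tb
import Pool.Agent.H34.RR.Ob
import Pool.Agent.H96.WP.Mq

/-!
# [H62 EX MOM] Moments of the number of rough sites in windows of any length

Proof.  `R = (RS x a L N).card`.  `R ^ n ≤ 2 ^ n * R (R-1) .. (R-n+1) + (2 n) ^ n` (if `R ≥ 2 n` every factor is `≥ R / 2`), the product is
the number of injective families of `n` rough sites, `(RJ (Fin n) x a L N).card` (`Fintype.card_embedding_eq`, or an injection from the
embeddings `Fin n ↪ RS x a L N`; only `descFactorial R n ≤ card RJ` is needed).  `∑ gw * card RJ ≤ C x (L + 1)^n / (log x)^n` by `totalBU` with `ι = Fin n`,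
`I j = Icc 0 L`, `b = P = L` (`BoxU L L I`, `log L ^ κ ≤ L` for `L ≥ H0`); `∑ gw ≤ C' x` by `Pool.Agent.H79.LS.gauss_gen` with `F = 1`.
For `n = 0` only the second is needed.
-/

set_option autoImplicit false

namespace Pool.Agent.H62.EX

open Finset Filter Pool.Agent.H21.MT Pool.Agent.H92.MM Pool.Agent.H61.UN Pool.Agent.H96.WP Pool.Agent.H34.RR

/-- `∑ gw ≤ C x` -/
private theorem sum_gw (x : ℝ) (hx4 : 4 ≤ x) :
    ∑ N ∈ Tx x, gw x N ≤ (4 * Real.exp (9 / 2) + 1) * x := by
  have h1 := Pool.Agent.H79.LS.gauss_gen x hx4 (fun _ => 1) (fun _ => zero_le_one) 1 zero_le_one ?_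
  · refine le_trans (le_of_eq ?_) (h1.trans (le_of_eq ?_))
    · refine sum_congr rfl (fun N _ => ?_)
      rw [mul_one]
    · ring
  · intro Y _
    rw [sum_const, Nat.card_Ioc, nsmul_eq_mul]
    rw [Nat.sub_zero, mul_one, one_mul]

private theorem card_filter_ge {α : Type} (s : Finset α) (p : α → Prop) (d : DecidablePred p) (h : ∀ y ∈ s, p y) :
    s.card ≤ (@Finset.filter α p d s).card := by
  rw [filter_true_of_mem h]

/-- powers against falling factorials -/
private theorem pow_le_desc (R n : ℕ) : R ^ n ≤ 2 ^ n * R.descFactorial n + (2 * n) ^ n := by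
  rcases Nat.lt_or_ge R (2 * n) with h | h
  · exact (Nat.pow_le_pow_left h.le n).trans (Nat.le_add_left _ _)
  · refine le_trans ?_ (Nat.le_add_right _ _)
    have h1 : R ^ n = ∏ _i ∈ range n, R := by rw [prod_const, card_range]
    have h2 : 2 ^ n * R.descFactorial n = ∏ i ∈ range n, (2 * (R - i)) := by
      rw [Nat.descFactorial_eq_prod_range, prod_mul_distrib, prod_const, card_range]
    rw [h1, h2]
    refine prod_le_prod (fun _ _ => Nat.zero_le _) (fun i hi => ?_)
    have := mem_range.1 hi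
    omega

/-- the falling factorial is at most the number of the injective families -/
private theorem desc_le_RJ (n : ℕ) (x a : ℝ) (L N : ℕ) :
    ((RS x a L N).card).descFactorial n ≤ (RJ (Fin n) x a L N).card := by
  classical
  have h1 : Fintype.card (Fin n ↪ {y // y ∈ RS x a L N}) = ((RS x a L N).card).descFactorial n := by
    rw [Fintype.card_embedding_eq, Fintype.card_coe, Fintype.card_fin]
  rw [← h1, ← Finset.card_univ]
  refine card_le_card_of_injOn (fun e i => ((e i : {y // y ∈ RS x a L N}) : ℕ)) ?_ ?_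
  · intro e _
    have h2 : ∀ i, ((e i : {y // y ∈ RS x a L N}) : ℕ) ≤ L ∧ Rgh (x ^ a) (N + ((e i : {y // y ∈ RS x a L N}) : ℕ)) :=
      fun i => mem_RS.1 (e i).2
    rw [mem_coe]
    rw [mem_RJ]
    refine ⟨⟨fun i => (h2 i).1, fun i j hij => e.injective (Subtype.ext hij)⟩, fun i => (h2 i).2⟩
  · intro e _ e' _ h
    refine Function.Embedding.ext (fun i => Subtype.ext ?_)
    exact congrFun h i

theorem momR (n : ℕ) (a : ℝ) (ha : 0 < a) : ∃ C H0 : ℝ, 0 < C ∧ 1 ≤ H0 ∧ ∀ᶠ x : ℝ in atTop, ∀ L : ℕ, H0 ≤ L →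
    ∑ N ∈ Tx x, gw x N * ((RS x a L N).card : ℝ) ^ n ≤ C * (1 + L / Real.log x) ^ n * x := by
  classical
  rcases Nat.eq_zero_or_pos n with h0 | hn
  · subst h0
    refine ⟨4 * Real.exp (9 / 2) + 1, 1, by positivity, le_refl 1, ?_⟩
    filter_upwards [eventually_ge_atTop (4 : ℝ)] with x hx4 L _
    refine le_trans (le_of_eq ?_) ((sum_gw x hx4).trans (le_of_eq ?_))
    · refine sum_congr rfl (fun N _ => ?_)
      rw [pow_zero, mul_one]
    · rw [pow_zero, mul_one]
  · have hne : Nonempty (Fin n) := ⟨⟨0, hn⟩⟩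
    obtain ⟨C, κ, hC, hT⟩ := Pool.Agent.H79.AU.totalBU (Fin n) a ha
    -- the first length
    obtain ⟨H1, hH1⟩ : ∃ H1 : ℝ, ∀ y : ℝ, H1 ≤ y → Real.log y ^ κ ≤ y := by
      have h1 := (Real.isLittleO_pow_log_id_atTop (n := κ)).bound (c := 1) one_pos
      obtain ⟨H1, h2⟩ := eventually_atTop.1 (h1.and (eventually_ge_atTop (0 : ℝ)))
      refine ⟨H1, fun y hy => ?_⟩
      obtain ⟨h3, h4⟩ := h2 y hy
      rw [one_mul, Real.norm_eq_abs, Real.norm_eq_abs, id, abs_of_nonneg h4] at h3
      exact (le_abs_self _).trans h3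
    obtain ⟨G, hG⟩ : ∃ G : ℝ, G = 4 * Real.exp (9 / 2) + 1 := ⟨_, rfl⟩
    have hG0 : 0 < G := by rw [hG]; positivity
    refine ⟨2 ^ n * (C * 2 ^ n) + (2 * n) ^ n * G, max H1 3, by positivity, (by norm_num : (1 : ℝ) ≤ 3).trans (le_max_right _ _), ?_⟩
    filter_upwards [hT, eventually_ge_atTop (4 : ℝ)] with x hx hx4 L hL
    have hL1 : H1 ≤ (L : ℝ) := (le_max_left _ _).trans hL
    have hL3 : (3 : ℝ) ≤ (L : ℝ) := (le_max_right _ _).trans hL
    have hx0 : 0 < x := by linarith
    have hlog : 0 < Real.log x := Real.log_pos (by linarith)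
    have h1 := hx L L hL3 (by linarith) (hH1 _ hL1) L (fun _ => Icc 0 L)
      (fun j => ⟨0, L, by rw [zero_add], by push_cast; linarith, by rw [zero_add]⟩)
    have h2 : ∑ N ∈ Tx x, gw x N * ((RJ (Fin n) x a L N).card : ℝ) ≤ C * x * ((L : ℝ) + 1) ^ n / Real.log x ^ n := by
      refine le_trans (sum_le_sum fun N _ => ?_) (h1.trans (le_of_eq ?_))
      · refine mul_le_mul_of_nonneg_left (Nat.cast_le.2 (card_filter_ge _ _ _ (fun h hh j => ?_))) (gw_pos x N).le
        rw [mem_Icc]
        exact ⟨Nat.zero_le _, (mem_RJ.1 hh).1.1 j⟩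
      · rw [prod_const, Nat.card_Icc, card_univ, Fintype.card_fin, Nat.sub_zero]
        push_cast
        rfl
    have hg : ∀ N ∈ Tx x, gw x N * ((RS x a L N).card : ℝ) ^ n ≤
        2 ^ n * (gw x N * ((RJ (Fin n) x a L N).card : ℝ)) + (2 * n) ^ n * gw x N := by
      intro N _
      have h3 : ((RS x a L N).card : ℝ) ^ n ≤ 2 ^ n * ((RJ (Fin n) x a L N).card : ℝ) + (2 * n) ^ n := by
        have h4 := (pow_le_desc (RS x a L N).card n).trans
          (Nat.add_le_add_right (Nat.mul_le_mul_left _ (desc_le_RJ n x a L N)) _)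
        exact_mod_cast h4
      have h5 := mul_le_mul_of_nonneg_left h3 (gw_pos x N).le
      refine h5.trans (le_of_eq ?_)
      ring
    refine (sum_le_sum hg).trans ?_
    rw [sum_add_distrib, ← mul_sum, ← mul_sum]
    have hr0 : 0 ≤ (L : ℝ) / Real.log x := div_nonneg (by linarith) hlog.le
    have h6 : 2 ^ n * ∑ N ∈ Tx x, gw x N * ((RJ (Fin n) x a L N).card : ℝ) ≤
        2 ^ n * (C * 2 ^ n) * ((1 + L / Real.log x) ^ n * x) := by
      have h7 : ((L : ℝ) + 1) ^ n / Real.log x ^ n ≤ 2 ^ n * (1 + L / Real.log x) ^ n := by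
        rw [← div_pow, ← mul_pow]
        refine pow_le_pow_left₀ (by positivity) ?_ n
        have h8 : ((L : ℝ) + 1) / Real.log x ≤ (2 * L) / Real.log x :=
          div_le_div_of_nonneg_right (by linarith) hlog.le
        have h9 : (2 * (L : ℝ)) / Real.log x = 2 * (L / Real.log x) := by ring
        rw [h9] at h8
        linarith
      have h10 : C * x * ((L : ℝ) + 1) ^ n / Real.log x ^ n ≤ C * x * (2 ^ n * (1 + L / Real.log x) ^ n) := by
        rw [mul_div_assoc]
        exact mul_le_mul_of_nonneg_left h7 (by positivity)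
      have h11 := mul_le_mul_of_nonneg_left (h2.trans h10) (by positivity : (0 : ℝ) ≤ 2 ^ n)
      refine h11.trans (le_of_eq ?_)
      ring
    have h12 : (2 * (n : ℝ)) ^ n * ∑ N ∈ Tx x, gw x N ≤ (2 * n) ^ n * G * ((1 + L / Real.log x) ^ n * x) := by
      have h13 := mul_le_mul_of_nonneg_left (sum_gw x hx4) (by positivity : (0 : ℝ) ≤ (2 * (n : ℝ)) ^ n)
      rw [← hG] at h13
      refine h13.trans ?_
      have h14 : x ≤ (1 + L / Real.log x) ^ n * x :=
        le_mul_of_one_le_left hx0.le (one_le_pow₀ (by linarith))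
      have h15 := mul_le_mul_of_nonneg_left h14 (by positivity : (0 : ℝ) ≤ (2 * (n : ℝ)) ^ n * G)
      refine le_trans (le_of_eq ?_) h15
      ring
    refine (add_le_add h6 h12).trans (le_of_eq ?_)
    ring

end Pool.Agent.H62.EX
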