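import Pool.Agent.H62.EX.Ob2
import Pool.Agent.H62.EX.Mom
import Pool.Agent.H34.RC.Mq

/-!
# [H62 EX SCS] Many patterns for every dense set of configurations, windows of any length up to a power of `log x`

Proof.  `t = L / log x`, `n = m s`, `𝓗_N = {v ∈ 𝓗 | R ∣ N, all N + v i rough, 1 < wc w v N}`.
`∑_{v ∈ 𝓗} box_class2`: `∑_{N ∈ Tx} gw |𝓗_N| ≥ c₀ |𝓗| x / (log x)^n ≥ c₀ c t^n x`.  Tail: `∑_{N > T x} gw |𝓗_N| ≤ (C/T) (2 t)^n x` by `tailBU`
(all rough injective families, `I j = Icc 0 L`, as in H62/EX/Siv), at most half of it for `T` large.  So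
`∑_{N ∈ Tx, N ≤ T x} gw |𝓗_N| ≥ (c₀ c/2) t^n x`.
Every `v ∈ 𝓗_N` has a `z ∈ F N` with `z j = v (i_j)`, the `i_j` distinct (`z` injective): `|𝓗_N| ≤ n^κ |F N| R_N^(n - κ)`, `R_N = |RS x a L N|` (choose `z`,
the `i_j`, and the other `n - κ` values in `RS`; if `𝓗_N` is nonempty then `κ ≤ n`).  A prime `N + z j`, `N ∈ Tx x`, is rough (`main_rough` of H96/WP/Mq),
so `|F N| ≤ R_N^κ`.  Cauchy-Schwarz with the weight `gw`:
`((c₀ c/2) t^n x)^2 ≤ n^(2κ) (∑_{N ≤ T x} gw |F N|) (∑ gw |F N| R_N^(2(n-κ))) ≤ n^(2κ) (∑_{N ≤ T x} |F N|) C (1 + t)^(2n - κ) x` by `momR`.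
`1 + t ≤ 2 max(1, t)`: `∑ |F N| ≥ δ t^(2n) max(1,t)^(κ - 2n) x`, which is `δ t^κ x` for `t ≥ 1` and `≥ δ t^(2n) t^κ x` for `t ≤ 1`.
-/

set_option autoImplicit false

namespace Pool.Agent.H62.EX

open Finset Filter Pool.Agent.H21.MT Pool.Agent.H92.MM Pool.Agent.H61.UN Pool.Agent.H96.WP Pool.Agent.H34.RR
open Pool.Agent.H34.RC

open Classical in
/-- families with given values at given places -/
private theorem card_fib {ι : Type} [Fintype ι] {κ : ℕ} (B : Finset (ι → ℕ)) (S : Finset ℕ)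
    (F : Finset (Fin κ → ℕ)) (hB : ∀ v ∈ B, (∀ i, v i ∈ S) ∧ ∃ z ∈ F, ∃ σ : Fin κ → ι,
      Function.Injective σ ∧ ∀ j, v (σ j) = z j) :
    B.card ≤ F.card * (Fintype.card ι ^ κ * S.card ^ (Fintype.card ι - κ)) := by
  obtain ⟨t, ht⟩ : ∃ t : (Fin κ → ℕ) × (Fin κ → ι) → ι → Finset ℕ, t = fun p i =>
    if h : ∃ j, p.2 j = i then {p.1 h.choose} else S := ⟨_, rfl⟩
  have h1 : B ⊆ (F ×ˢ (univ : Finset (Fin κ → ι)).filter Function.Injective).biUnion
      (fun p => Fintype.piFinset (t p)) := by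
    intro v hv
    obtain ⟨hv1, z, hz, σ, hσ, hσz⟩ := hB v hv
    rw [mem_biUnion]
    refine ⟨(z, σ), mem_product.2 ⟨hz, mem_filter.2 ⟨mem_univ _, hσ⟩⟩, ?_⟩
    rw [Fintype.mem_piFinset]
    intro i
    rw [ht]
    dsimp only
    split_ifs with h
    · rw [mem_singleton]
      have := h.choose_spec
      rw [← hσz, this]
    · exact hv1 i
  refine (card_le_card h1).trans (card_biUnion_le.trans ?_)
  have h2 : ∀ p ∈ F ×ˢ (univ : Finset (Fin κ → ι)).filter Function.Injective,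
      (Fintype.piFinset (t p)).card = S.card ^ (Fintype.card ι - κ) := by
    intro p hp
    have hp2 : Function.Injective p.2 := (mem_filter.1 (mem_product.1 hp).2).2
    rw [Fintype.card_piFinset]
    have h3 : ∀ i, (t p i).card = if (∃ j, p.2 j = i) then 1 else S.card := by
      intro i
      rw [ht]
      dsimp only
      split_ifs
      · exact card_singleton _
      · rfl
    rw [prod_congr rfl (fun i _ => h3 i), prod_ite, prod_const_one, one_mul, prod_const]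
    congr 1
    have h4 : (univ.filter (fun i => ¬ ∃ j, p.2 j = i)) = univ \ univ.image p.2 := by
      ext i
      simp
    rw [h4, card_sdiff_of_subset (subset_univ _), card_univ, card_image_of_injective _ hp2, card_univ, Fintype.card_fin]
  rw [sum_congr rfl h2, sum_const, smul_eq_mul, card_product, mul_assoc]
  refine Nat.mul_le_mul_left _ (Nat.mul_le_mul_right _ ?_)
  refine (card_le_univ _).trans (le_of_eq ?_)
  rw [Fintype.card_fun, Fintype.card_fin]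

/-- powers -/
private theorem pow_ineq (t : ℝ) (ht : 0 < t) (n κ : ℕ) (hκ : κ ≤ n) :
    (min 1 t) ^ (2 * n) * t ^ κ * (1 + t) ^ (2 * n - κ) ≤ 2 ^ (2 * n) * t ^ (2 * n) := by
  obtain ⟨M, hM⟩ : ∃ M : ℝ, M = max 1 t := ⟨_, rfl⟩
  have hM1 : 1 ≤ M := by rw [hM]; exact le_max_left _ _
  have hMt : t ≤ M := by rw [hM]; exact le_max_right _ _
  have h0 : 0 < min 1 t := lt_min one_pos ht
  have h1 : min 1 t * M = t := by
    rw [hM]
    rcases le_total 1 t with h | h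
    · rw [min_eq_left h, max_eq_right h, one_mul]
    · rw [min_eq_right h, max_eq_left h, mul_one]
  have h2 : (1 + t) ^ (2 * n - κ) ≤ (2 * M) ^ (2 * n - κ) :=
    pow_le_pow_left₀ (by linarith) (by linarith) _
  have h3 : t ^ κ ≤ M ^ κ := pow_le_pow_left₀ ht.le hMt _
  calc (min 1 t) ^ (2 * n) * t ^ κ * (1 + t) ^ (2 * n - κ)
      ≤ (min 1 t) ^ (2 * n) * M ^ κ * (2 * M) ^ (2 * n - κ) := by
        refine mul_le_mul (mul_le_mul_of_nonneg_left h3 (by positivity)) h2 (by positivity) (by positivity)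
    _ = (min 1 t) ^ (2 * n) * (M ^ κ * M ^ (2 * n - κ)) * 2 ^ (2 * n - κ) := by
        rw [mul_pow]
        ring
    _ = (min 1 t * M) ^ (2 * n) * 2 ^ (2 * n - κ) := by
        rw [← pow_add, mul_pow]
        congr 3
        omega
    _ ≤ 2 ^ (2 * n) * t ^ (2 * n) := by
        rw [h1, mul_comm]
        refine mul_le_mul_of_nonneg_right ?_ (by positivity)
        exact pow_le_pow_right₀ (by norm_num) (by omega)

/-- a family of rough sites -/
private theorem sameB {ι : Type} [Fintype ι] [DecidableEq ι] (x a : ℝ) (L N : ℕ) (B : Finset (ι → ℕ))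
    (hB : ∀ v ∈ B, v ∈ IJ ι L ∧ (∀ i, Rgh (x ^ a) (N + v i))) :
    B.card ≤ ((RJ ι x a L N).filter (fun h => ∀ j, h j ∈ (fun _ : ι => Icc 0 L) j)).card := by
  classical
  refine card_le_card fun v hv => ?_
  obtain ⟨h1, h2⟩ := hB v hv
  rw [mem_filter, mem_RJ]
  exact ⟨⟨mem_IJ.1 h1, h2⟩, fun j => mem_Icc.2 ⟨Nat.zero_le _, (mem_IJ.1 h1).1 j⟩⟩

private theorem boxB {ι : Type} (L : ℕ) : Pool.Agent.H62.AU.BoxU (L : ℝ) (L : ℝ) (fun _ : ι => Icc 0 L) := by
  intro i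
  refine ⟨0, L, by rw [zero_add], ?_, by rw [zero_add]⟩
  push_cast
  linarith

open Classical in
theorem sieveB (m : ℕ) (hm : 1 ≤ m) (κ : ℕ) : ∃ s : ℕ, 1 ≤ s ∧ ∀ A : ℕ, ∃ wd : ℕ, ∀ w : Fin m → ℝ, (∀ d, 0 ≤ w d) →
    100 ≤ ∑ d, w d → ∀ R : ℕ, 0 < R → primorial wd ∣ R → ∀ c : ℝ, 0 < c → ∃ δ T H0 : ℝ, 0 < δ ∧ 1 ≤ T ∧ 1 ≤ H0 ∧
      ∀ᶠ x : ℝ in atTop, ∀ L : ℕ, H0 ≤ L → (L : ℝ) ≤ Real.log x ^ A →
        ∀ 𝓗 : Finset (Fin m × Fin s → ℕ), (∀ v ∈ 𝓗, v ∈ IJ (Fin m × Fin s) L ∧ ∀ i, Nat.Coprime (v i) R) →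
          c * (L : ℝ) ^ (m * s) ≤ 𝓗.card → ∀ F : ℕ → Finset (Fin κ → ℕ),
          (∀ N, R ∣ N → ∀ v ∈ 𝓗, 1 < wc w v N → ∃ z ∈ F N, ∀ j, ∃ i, v i = z j) →
          (∀ N, ∀ z ∈ F N, Function.Injective z ∧ ∀ j, z j ≤ L ∧ (N + z j).Prime) →
            δ * (min 1 (L / Real.log x)) ^ (2 * (m * s)) * (L / Real.log x) ^ κ * x ≤
              ∑ N ∈ range (⌊T * x⌋₊ + 1), ((F N).card : ℝ) := by
  obtain ⟨s, a, hs, ha, ha1, hob⟩ := box_class2 m hm
  have hne : Nonempty (Fin m × Fin s) := ⟨(⟨0, by omega⟩, ⟨0, by omega⟩)⟩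
  have hcard : Fintype.card (Fin m × Fin s) = m * s := by
    rw [Fintype.card_prod, Fintype.card_fin, Fintype.card_fin]
  obtain ⟨Ct, κt, hCt, htail⟩ := Pool.Agent.H79.AU.tailBU (Fin m × Fin s) a ha
  rw [hcard] at htail
  obtain ⟨Cm, Hm, hCm, hHm, hmom⟩ := momR (2 * (m * s) - κ) a ha
  refine ⟨s, hs, fun A => ?_⟩
  obtain ⟨wd, hob⟩ := hob A
  refine ⟨wd, fun w hw hw100 R hR hRw c hc => ?_⟩
  obtain ⟨c0, hc0, hob⟩ := hob w hw hw100 R hR hRw
  obtain ⟨n, hn⟩ : ∃ n : ℕ, n = m * s := ⟨_, rfl⟩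
  rw [← hn] at hcard htail hmom hob
  have hn1 : 1 ≤ n := by rw [hn]; exact Nat.mul_pos hm hs
  have hn0 : (0 : ℝ) < n := by exact_mod_cast hn1
  -- constants
  have hT1 : (1 : ℝ) ≤ max 1 (2 * Ct * 2 ^ n / (c0 * c)) := le_max_left _ _
  have hT2 : 2 * Ct * 2 ^ n / (c0 * c) ≤ max 1 (2 * Ct * 2 ^ n / (c0 * c)) := le_max_right _ _
  generalize max 1 (2 * Ct * 2 ^ n / (c0 * c)) = T at hT1 hT2
  have hT0 : 0 < T := by linarith
  obtain ⟨H1, hH1⟩ : ∃ H1 : ℝ, ∀ y : ℝ, H1 ≤ y → Real.log y ^ κt ≤ y := by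
    have h1 := (Real.isLittleO_pow_log_id_atTop (n := κt)).bound (show (0 : ℝ) < 1 by norm_num)
    obtain ⟨H1, hH1⟩ := eventually_atTop.1 h1
    refine ⟨max H1 1, fun y hy => ?_⟩
    have h2 := hH1 y ((le_max_left _ _).trans hy)
    have h3 : 0 ≤ y := zero_le_one.trans ((le_max_right _ _).trans hy)
    rw [one_mul, id, Real.norm_eq_abs, Real.norm_eq_abs, abs_of_nonneg h3] at h2
    exact (le_abs_self _).trans h2
  refine ⟨(c0 * c / 2) ^ 2 / ((n : ℝ) ^ (2 * κ) * Cm * 2 ^ (2 * n)), T, max Hm (max 3 H1),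
    by positivity, hT1, hHm.trans (le_max_left _ _), ?_⟩
  have hlogt := Real.tendsto_log_atTop
  filter_upwards [hob, htail T hT1, hmom, eventually_ge_atTop (4 : ℝ),
    hlogt.eventually_ge_atTop 1] with x hob htail hmom hx4 hlog1
  intro L hLH0 hLA 𝓗 h𝓗 h𝓗c F hF1 hF2
  have hx0 : 0 < x := by linarith
  have hlog : 0 < Real.log x := by linarith
  have hLm : Hm ≤ L := (le_max_left _ _).trans hLH0
  have hL3 : (3 : ℝ) ≤ L := (le_max_left _ _).trans ((le_max_right _ _).trans hLH0)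
  have hLH1 : H1 ≤ L := (le_max_right _ _).trans ((le_max_right _ _).trans hLH0)
  have hL0 : (0 : ℝ) < L := by linarith
  have hL1 : 1 ≤ L := by
    have : (1 : ℝ) ≤ (L : ℝ) := by linarith
    exact_mod_cast this
  have hob := hob L hL1 hLA
  have hmom := hmom L hLm
  obtain ⟨t, ht⟩ : ∃ t : ℝ, t = L / Real.log x := ⟨_, rfl⟩
  have ht0 : 0 < t := by rw [ht]; positivity
  rw [← ht] at hmom ⊢
  rw [← hn] at h𝓗c ⊢
  obtain ⟨Y, hY⟩ : ∃ Y : ℝ, Y = t ^ n * x := ⟨_, rfl⟩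
  have hY0 : 0 < Y := by rw [hY]; positivity
  have hYL : Y = (L : ℝ) ^ n * (x / Real.log x ^ n) := by
    rw [hY, ht, div_pow]
    ring
  -- the two kinds of pairs
  obtain ⟨P1, hP1⟩ : ∃ P1 : (Fin m × Fin s → ℕ) → ℕ → Prop, P1 = fun (u : Fin m × Fin s → ℕ) (N : ℕ) =>
    T * x < (N : ℝ) ∧ ∀ i, Rgh (x ^ a) (N + u i) := ⟨_, rfl⟩
  obtain ⟨P3, hP3⟩ : ∃ P3 : (Fin m × Fin s → ℕ) → ℕ → Prop, P3 = fun (u : Fin m × Fin s → ℕ) (N : ℕ) =>
    (N : ℝ) ≤ T * x ∧ R ∣ N ∧ (∀ i, Rgh (x ^ a) (N + u i)) ∧ 1 < wc w u N := ⟨_, rfl⟩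
  have key : ∀ u ∈ 𝓗, c0 * x / Real.log x ^ n ≤
      ∑ N ∈ (Tx x).filter (P1 u), gw x N + ∑ N ∈ (Tx x).filter (P3 u), gw x N := by
    intro u hu
    refine (hob u (h𝓗 u hu).1 (h𝓗 u hu).2).trans ?_
    rw [sum_filter, sum_filter, sum_filter, ← sum_add_distrib]
    refine sum_le_sum fun N _ => ?_
    have hg := (gw_pos x N).le
    by_cases hE : R ∣ N ∧ (∀ i, Rgh (x ^ a) (N + u i)) ∧ 1 < wc w u N
    · rw [if_pos hE]
      have hE2 := hE.2.1
      have q1 : (0 : ℝ) ≤ if P1 u N then gw x N else 0 := by split_ifs <;> linarith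
      have q3 : (0 : ℝ) ≤ if P3 u N then gw x N else 0 := by split_ifs <;> linarith
      by_cases h1 : P1 u N
      · rw [if_pos h1]
        linarith
      · have h3 : P3 u N := by
          rw [hP3]
          refine ⟨?_, hE.1, hE2, hE.2.2⟩
          by_contra hc
          apply h1
          rw [hP1]
          exact ⟨lt_of_not_ge hc, hE2⟩
        rw [if_pos h3]
        linarith
    · rw [if_neg hE]
      have : (0 : ℝ) ≤ if P1 u N then gw x N else 0 := by split_ifs <;> linarith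
      have : (0 : ℝ) ≤ if P3 u N then gw x N else 0 := by split_ifs <;> linarith
      linarith
  have hS0 : c0 * c * Y ≤ ∑ u ∈ 𝓗, (∑ N ∈ (Tx x).filter (P1 u), gw x N +
      ∑ N ∈ (Tx x).filter (P3 u), gw x N) := by
    have h1 : ∑ u ∈ 𝓗, c0 * x / Real.log x ^ n ≤ _ := sum_le_sum key
    rw [sum_const, nsmul_eq_mul] at h1
    refine le_trans ?_ h1
    have h2 : 0 ≤ c0 * x / Real.log x ^ n := by positivity
    refine le_trans (le_of_eq ?_) (mul_le_mul_of_nonneg_right h𝓗c h2)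
    rw [hYL]
    ring
  rw [sum_add_distrib, main_swap, main_swap] at hS0
  -- far part
  have hF1' : ∑ N ∈ Tx x, gw x N * ((𝓗.filter (fun u => P1 u N)).card : ℝ) ≤ c0 * c / 2 * Y := by
    have hh := htail L L hL3 (by linarith) (hH1 L hLH1) L (fun _ => Icc 0 L) (boxB L)
    have h1 : ∑ N ∈ Tx x, gw x N * ((𝓗.filter (fun u => P1 u N)).card : ℝ) ≤
        ∑ N ∈ (Tx x).filter (fun N : ℕ => T * x < (N : ℝ)),
          gw x N * (((RJ (Fin m × Fin s) x a L N).filter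
            (fun h => ∀ j, h j ∈ (fun _ : Fin m × Fin s => Icc 0 L) j)).card : ℝ) := by
      rw [sum_filter]
      refine sum_le_sum fun N _ => ?_
      by_cases hN : T * x < (N : ℝ)
      · rw [if_pos hN]
        refine mul_le_mul_of_nonneg_left ?_ (gw_pos x N).le
        have h0 := sameB x a L N (𝓗.filter (fun u => P1 u N)) (by
          intro u hu
          rw [mem_filter, hP1] at hu
          exact ⟨(h𝓗 u hu.1).1, hu.2.2⟩)
        refine Nat.cast_le.2 (h0.trans (le_of_eq ?_))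
        congr
      · rw [if_neg hN]
        have : 𝓗.filter (fun u => P1 u N) = ∅ := by
          rw [filter_eq_empty_iff]
          intro u _ hu
          rw [hP1] at hu
          exact hN hu.1
        rw [this, card_empty, Nat.cast_zero, mul_zero]
    refine h1.trans ((le_of_eq (sum_congr rfl fun N _ => by congr)).trans (hh.trans ?_))
    have h2 : Ct / T * 2 ^ n ≤ c0 * c / 2 := by
      rw [div_le_iff₀ (by positivity)] at hT2
      rw [div_mul_eq_mul_div, div_le_iff₀ hT0]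
      linarith
    have hJprod : ∏ _k : Fin m × Fin s, (((Icc 0 L).card : ℕ) : ℝ) ≤ 2 ^ n * (L : ℝ) ^ n := by
      rw [prod_const, card_univ, hcard, ← mul_pow]
      refine pow_le_pow_left₀ (Nat.cast_nonneg _) ?_ _
      rw [Nat.card_Icc]
      push_cast
      have : (1 : ℝ) ≤ L := by exact_mod_cast hL1
      linarith
    calc Ct / T * x * (∏ _k : Fin m × Fin s, (((Icc 0 L).card : ℕ) : ℝ)) / Real.log x ^ n
        ≤ Ct / T * x * (2 ^ n * (L : ℝ) ^ n) / Real.log x ^ n := by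
          gcongr
      _ = Ct / T * 2 ^ n * Y := by
          rw [hYL]
          field_simp
      _ ≤ c0 * c / 2 * Y := mul_le_mul_of_nonneg_right h2 hY0.le
  have hmain : c0 * c / 2 * Y ≤ ∑ N ∈ Tx x, gw x N * ((𝓗.filter (fun u => P3 u N)).card : ℝ) := by
    linarith
  -- the pattern in a configuration
  have hpat : ∀ N ∈ Tx x, ∀ u ∈ 𝓗.filter (fun u => P3 u N), (∀ i, u i ∈ RS x a L N) ∧
      ∃ z ∈ F N, ∃ σ : Fin κ → Fin m × Fin s, Function.Injective σ ∧ ∀ j, u (σ j) = z j := by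
    intro N _ u hu
    rw [mem_filter, hP3] at hu
    obtain ⟨hu0, -, hu1, hu2, hu3⟩ := hu
    refine ⟨fun i => mem_RS.2 ⟨(mem_IJ.1 (h𝓗 u hu0).1).1 i, hu2 i⟩, ?_⟩
    obtain ⟨z, hz, hz1⟩ := hF1 N hu1 u hu0 hu3
    choose σ hσ using hz1
    refine ⟨z, hz, σ, fun j j' hjj => ?_, hσ⟩
    apply (hF2 N z hz).1
    rw [← hσ j, ← hσ j', hjj]
  -- the number of patterns
  obtain ⟨SF, hSF⟩ : ∃ SF : ℝ, SF = ∑ N ∈ range (⌊T * x⌋₊ + 1), ((F N).card : ℝ) := ⟨_, rfl⟩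
  rw [← hSF]
  have hSF0 : 0 ≤ SF := by
    rw [hSF]
    exact sum_nonneg fun N _ => Nat.cast_nonneg _
  have hκn : κ ≤ n := by
    by_contra hcon
    have h1 : ∑ N ∈ Tx x, gw x N * ((𝓗.filter (fun u => P3 u N)).card : ℝ) = 0 := by
      refine sum_eq_zero fun N hN => ?_
      have h2 : 𝓗.filter (fun u => P3 u N) = ∅ := by
        by_contra h3
        obtain ⟨u, hu⟩ := nonempty_iff_ne_empty.2 h3
        obtain ⟨-, z, -, σ, hσ, -⟩ := hpat N hN u hu
        have h4 := Fintype.card_le_of_injective σ hσ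
        rw [Fintype.card_fin, hcard] at h4
        exact hcon h4
      rw [h2, card_empty, Nat.cast_zero, mul_zero]
    rw [h1] at hmain
    have : 0 < c0 * c / 2 * Y := by positivity
    linarith
  obtain ⟨ρ, hρ⟩ : ∃ ρ : ℕ → ℝ, ρ = fun N => ((RS x a L N).card : ℝ) := ⟨_, rfl⟩
  have hρ0 : ∀ N, 0 ≤ ρ N := by
    intro N
    rw [hρ]
    exact Nat.cast_nonneg _
  obtain ⟨G, hG⟩ : ∃ G : ℕ → ℝ, G = fun N : ℕ => if (N : ℝ) ≤ T * x then ((F N).card : ℝ) else 0 := ⟨_, rfl⟩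
  have hG0 : ∀ N, 0 ≤ G N := by
    intro N
    rw [hG]
    dsimp only
    split_ifs
    · exact Nat.cast_nonneg _
    · exact le_refl _
  have hb1 : ∀ N ∈ Tx x, gw x N * ((𝓗.filter (fun u => P3 u N)).card : ℝ) ≤
      (n : ℝ) ^ κ * (gw x N * G N * ρ N ^ (n - κ)) := by
    intro N hN
    have h1 := card_fib (𝓗.filter (fun u => P3 u N)) (RS x a L N) (F N) (hpat N hN)
    rw [hcard] at h1
    have h2 : ((𝓗.filter (fun u => P3 u N)).card : ℝ) ≤ ((F N).card : ℝ) * ((n : ℝ) ^ κ * ρ N ^ (n - κ)) := by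
      have hρN : ρ N = ((RS x a L N).card : ℝ) := by rw [hρ]
      rw [hρN]
      exact_mod_cast h1
    by_cases hNT : (N : ℝ) ≤ T * x
    · have h3 : G N = ((F N).card : ℝ) := by
        rw [hG]
        dsimp only
        rw [if_pos hNT]
      rw [h3]
      refine (mul_le_mul_of_nonneg_left h2 (gw_pos x N).le).trans (le_of_eq ?_)
      ring
    · have h3 : 𝓗.filter (fun u => P3 u N) = ∅ := by
        rw [filter_eq_empty_iff]
        intro u _ hu
        rw [hP3] at hu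
        exact hNT hu.1
      rw [h3, card_empty, Nat.cast_zero, mul_zero]
      have := hG0 N
      have := hρ0 N
      have := (gw_pos x N).le
      positivity
  have hb2 : ∀ N ∈ Tx x, G N ≤ ρ N ^ κ := by
    intro N hN
    by_cases hNT : (N : ℝ) ≤ T * x
    · have h3 : G N = ((F N).card : ℝ) := by
        rw [hG]
        dsimp only
        rw [if_pos hNT]
      rw [h3]
      have h4 : F N ⊆ Fintype.piFinset (fun _ : Fin κ => RS x a L N) := by
        intro z hz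
        rw [Fintype.mem_piFinset]
        intro j
        have h5 := (hF2 N z hz).2 j
        exact mem_RS.2 ⟨h5.1, main_rough (by linarith) ha1 hN h5.2⟩
      have h6 := card_le_card h4
      rw [Fintype.card_piFinset, prod_const, card_univ, Fintype.card_fin] at h6
      have hρN : ρ N = ((RS x a L N).card : ℝ) := by rw [hρ]
      rw [hρN]
      exact_mod_cast h6
    · have h3 : G N = 0 := by
        rw [hG]
        dsimp only
        rw [if_neg hNT]
      rw [h3]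
      exact pow_nonneg (hρ0 N) _
  -- Cauchy-Schwarz
  have hcs : (∑ N ∈ Tx x, gw x N * G N * ρ N ^ (n - κ)) ^ 2 ≤
      (∑ N ∈ Tx x, gw x N * G N) * ∑ N ∈ Tx x, gw x N * G N * ρ N ^ (2 * (n - κ)) := by
    refine sum_sq_le_sum_mul_sum_of_sq_le_mul _ (fun N _ => ?_) (fun N _ => ?_) (fun N _ => le_of_eq ?_)
    · exact mul_nonneg (gw_pos x N).le (hG0 N)
    · exact mul_nonneg (mul_nonneg (gw_pos x N).le (hG0 N)) (pow_nonneg (hρ0 N) _)
    · rw [pow_mul']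
      ring
  have hA1 : ∑ N ∈ Tx x, gw x N * G N ≤ SF := by
    calc ∑ N ∈ Tx x, gw x N * G N ≤ ∑ N ∈ Tx x, G N :=
          sum_le_sum fun N _ => mul_le_of_le_one_left (hG0 N) (gw_le_one x N)
      _ = ∑ N ∈ (Tx x).filter (fun N : ℕ => (N : ℝ) ≤ T * x), ((F N).card : ℝ) := by
          rw [sum_filter, hG]
      _ ≤ SF := by
          rw [hSF]
          refine sum_le_sum_of_subset_of_nonneg (fun N hN => ?_) fun _ _ _ => Nat.cast_nonneg _
          rw [mem_range, Nat.lt_succ_iff]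
          exact Nat.le_floor (mem_filter.1 hN).2
  have hA2 : ∑ N ∈ Tx x, gw x N * G N * ρ N ^ (2 * (n - κ)) ≤ Cm * (1 + t) ^ (2 * n - κ) * x := by
    refine le_trans (sum_le_sum fun N hN => ?_) hmom
    have h1 : gw x N * G N * ρ N ^ (2 * (n - κ)) ≤ gw x N * ρ N ^ κ * ρ N ^ (2 * (n - κ)) :=
      mul_le_mul_of_nonneg_right (mul_le_mul_of_nonneg_left (hb2 N hN) (gw_pos x N).le) (pow_nonneg (hρ0 N) _)
    refine h1.trans (le_of_eq ?_)
    rw [mul_assoc, ← pow_add, show κ + 2 * (n - κ) = 2 * n - κ by omega, hρ]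
  have hfin : (c0 * c / 2 * Y) ^ 2 ≤ (n : ℝ) ^ (2 * κ) * (SF * (Cm * (1 + t) ^ (2 * n - κ) * x)) := by
    have h1 : c0 * c / 2 * Y ≤ (n : ℝ) ^ κ * ∑ N ∈ Tx x, gw x N * G N * ρ N ^ (n - κ) := by
      refine hmain.trans ((sum_le_sum hb1).trans (le_of_eq ?_))
      rw [mul_sum]
    have h2 : 0 ≤ c0 * c / 2 * Y := by positivity
    refine (pow_le_pow_left₀ h2 h1 2).trans ?_
    rw [mul_pow, ← pow_mul, mul_comm κ 2]
    refine mul_le_mul_of_nonneg_left (hcs.trans ?_) (by positivity)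
    refine mul_le_mul hA1 hA2 ?_ hSF0
    exact sum_nonneg fun N _ => mul_nonneg (mul_nonneg (gw_pos x N).le (hG0 N)) (pow_nonneg (hρ0 N) _)
  have hpi := pow_ineq t ht0 n κ hκn
  obtain ⟨D, hD⟩ : ∃ D : ℝ, D = (n : ℝ) ^ (2 * κ) * (Cm * (1 + t) ^ (2 * n - κ) * x) := ⟨_, rfl⟩
  have hD0 : 0 < D := by rw [hD]; positivity
  refine le_of_mul_le_mul_right ?_ hD0
  calc (c0 * c / 2) ^ 2 / ((n : ℝ) ^ (2 * κ) * Cm * 2 ^ (2 * n)) * min 1 t ^ (2 * n) * t ^ κ * x * D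
      = (c0 * c / 2) ^ 2 * x ^ 2 * ((min 1 t) ^ (2 * n) * t ^ κ * (1 + t) ^ (2 * n - κ)) / 2 ^ (2 * n) := by
        rw [hD]
        field_simp
    _ ≤ (c0 * c / 2) ^ 2 * x ^ 2 * (2 ^ (2 * n) * t ^ (2 * n)) / 2 ^ (2 * n) := by
        refine div_le_div_of_nonneg_right (mul_le_mul_of_nonneg_left hpi (by positivity)) (by positivity)
    _ = (c0 * c / 2 * Y) ^ 2 := by
        rw [hY, mul_pow, mul_pow, ← pow_mul, mul_comm n 2]
        field_simp
    _ ≤ SF * D := by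
        rw [hD]
        refine hfin.trans (le_of_eq ?_)
        ring

end Pool.Agent.H62.EX
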