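import Pool.Agent.H19.AU.Win

/-!
# [H62 EX XS] The scale: primes up to `T xs M + (log xs M)^A` have a number below `M`

As in `windowsU` of H19/AU/Win: `xs M = κ M log M` with `κ = 1 / (4 C T)`, `C` from the upper bound `π(X) ≤ C X / log X`.
-/

set_option autoImplicit false

namespace Pool.Agent.H62.EX

open Finset Filter

private theorem cnt_pcX : ∃ C : ℝ, 0 < C ∧ ∀ X : ℕ, 2 ≤ X →
    (Nat.primeCounting X : ℝ) ≤ C * X / Real.log X := by
  obtain ⟨C, hC, h⟩ := Pool.Agent.H5.Short.pi_le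
  refine ⟨C, hC, fun X hX => ?_⟩
  have h1 := h X hX
  have e : ((Icc 1 X).filter Nat.Prime).card = Nat.primeCounting X := by
    rw [Nat.primeCounting, Nat.primeCounting', Nat.count_eq_card_filter_range]
    congr 1
    ext p
    simp only [mem_filter, mem_Icc, mem_range]
    constructor
    · rintro ⟨⟨_, h2⟩, h3⟩
      exact ⟨by omega, h3⟩
    · rintro ⟨h1, h2⟩
      exact ⟨⟨h2.one_lt.le, by omega⟩, h2⟩
  rw [e] at h1
  exact h1

/-- `(log x)^A ≤ K x` for large `x` -/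
private theorem log_smallX (A : ℕ) (K : ℝ) (hK : 0 < K) : ∀ᶠ x : ℝ in atTop, Real.log x ^ A ≤ K * x := by
  have h1 := (Real.isLittleO_pow_log_id_atTop (n := A)).def hK
  filter_upwards [h1, eventually_ge_atTop (1 : ℝ)] with x hx hx1
  rw [Real.norm_of_nonneg (pow_nonneg (Real.log_nonneg hx1) A), id, Real.norm_of_nonneg (by linarith)] at hx
  exact hx

theorem xs_scale (T : ℝ) (hT : 1 ≤ T) (A : ℕ) : ∃ (κ : ℝ) (xs : ℕ → ℝ), 0 < κ ∧ Tendsto xs atTop atTop ∧
    ∀ᶠ M : ℕ in atTop, Real.log M ≤ Real.log (xs M) ∧ Real.log (xs M) ≤ 2 * Real.log M ∧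
      κ * (M * Real.log M) ≤ xs M ∧
      ∀ p : ℕ, p.Prime → (p : ℝ) ≤ T * xs M + Real.log (xs M) ^ A → Nat.count Nat.Prime p < M := by
  obtain ⟨C, hC, hpc⟩ := cnt_pcX
  obtain ⟨κ, hκ⟩ : ∃ κ : ℝ, κ = 1 / (4 * C * T) := ⟨_, rfl⟩
  have hT0 : 0 < T := by linarith
  have hκ0 : 0 < κ := by rw [hκ]; positivity
  have hCT : 4 * C * T * κ = 1 := by rw [hκ]; field_simp
  -- the scale
  have hlogM : Tendsto (fun M : ℕ => Real.log (M : ℝ)) atTop atTop :=
    Real.tendsto_log_atTop.comp tendsto_natCast_atTop_atTop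
  have hx : Tendsto (fun M : ℕ => κ * (M * Real.log (M : ℝ))) atTop atTop :=
    (tendsto_natCast_atTop_atTop.atTop_mul_atTop₀ hlogM).const_mul_atTop hκ0
  have hls : ∀ᶠ x : ℝ in atTop, Real.log x ^ A ≤ T * x := log_smallX A T hT0
  have hM1 : ∀ᶠ M : ℕ in atTop, κ * Real.log (M : ℝ) ≤ M := by
    have h1 := tendsto_natCast_atTop_atTop.eventually (log_smallX 1 (1 / κ) (by positivity))
    filter_upwards [h1] with M hM
    rw [pow_one] at hM
    have h2 := mul_le_mul_of_nonneg_left hM hκ0.le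
    rwa [← mul_assoc, mul_one_div_cancel hκ0.ne', one_mul] at h2
  refine ⟨κ, fun M => κ * (M * Real.log (M : ℝ)), hκ0, hx, ?_⟩
  filter_upwards [hx.eventually hls, hM1, hlogM.eventually_ge_atTop 1,
    hlogM.eventually_ge_atTop (1 / κ), hx.eventually_ge_atTop 2, eventually_ge_atTop 2,
    hlogM.eventually_ge_atTop (1 / (T * κ))] with M hM2 hM3 hM4 hM5 hM6 hM7 hM8
  obtain ⟨x, hxd⟩ : ∃ x : ℝ, x = κ * (M * Real.log (M : ℝ)) := ⟨_, rfl⟩
  rw [← hxd] at hM2 hM6 ⊢
  have hMr : (2 : ℝ) ≤ M := by exact_mod_cast hM7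
  have hlM : 0 < Real.log (M : ℝ) := by linarith
  have hx0 : 0 < x := by linarith
  -- `log M ≤ log x ≤ 2 log M`
  have hlx : Real.log x ≤ 2 * Real.log (M : ℝ) := by
    have h1 : x ≤ (M : ℝ) ^ 2 := by
      rw [hxd, sq]
      calc κ * (M * Real.log (M : ℝ)) = M * (κ * Real.log (M : ℝ)) := by ring
        _ ≤ M * M := mul_le_mul_of_nonneg_left hM3 (by linarith)
    have h2 := Real.log_le_log hx0 h1
    rw [Real.log_pow] at h2
    exact_mod_cast h2
  have hxl : Real.log (M : ℝ) ≤ Real.log x := by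
    refine Real.log_le_log (by linarith) ?_
    rw [hxd]
    have h1 : 1 ≤ κ * Real.log (M : ℝ) := by
      rw [div_le_iff₀ hκ0] at hM5
      linarith
    calc (M : ℝ) = M * 1 := (mul_one _).symm
      _ ≤ M * (κ * Real.log (M : ℝ)) := mul_le_mul_of_nonneg_left h1 (by linarith)
      _ = κ * (M * Real.log (M : ℝ)) := by ring
  refine ⟨hxl, hlx, le_refl x, fun p hpp hp => ?_⟩
  obtain ⟨Y, hYd⟩ : ∃ Y : ℕ, Y = ⌊2 * (T * x)⌋₊ := ⟨_, rfl⟩
  have h1 : p ≤ Y := by
    rw [hYd]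
    refine Nat.le_floor ?_
    linarith
  have hTx : 0 ≤ 2 * (T * x) := by positivity
  have h2 : (Y : ℝ) ≤ 2 * (T * x) := by rw [hYd]; exact Nat.floor_le hTx
  have h3 : (M : ℝ) ≤ Y := by
    have h4 := Nat.lt_floor_add_one (2 * (T * x))
    rw [← hYd] at h4
    have h5 : 2 * (T * x) = 2 * (T * κ * Real.log (M : ℝ)) * M := by rw [hxd]; ring
    have h6 : 1 ≤ T * κ * Real.log (M : ℝ) := by
      rw [div_le_iff₀ (by positivity)] at hM8
      linarith
    have h7 : 2 * (M : ℝ) ≤ 2 * (T * x) := by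
      rw [h5]
      nlinarith
    linarith
  have h4 : (2 : ℕ) ≤ Y := by
    have : M ≤ Y := by exact_mod_cast h3
    omega
  have h5 := hpc Y h4
  have h6 : (Nat.primeCounting p : ℝ) ≤ Nat.primeCounting Y := by
    exact_mod_cast Nat.monotone_primeCounting h1
  have h7 : Real.log (M : ℝ) ≤ Real.log (Y : ℝ) := Real.log_le_log (by linarith) h3
  have h8 : C * Y / Real.log (Y : ℝ) ≤ M := by
    rw [div_le_iff₀ (by linarith)]
    calc C * (Y : ℝ) ≤ C * (2 * (T * x)) := mul_le_mul_of_nonneg_left h2 hC.le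
      _ = (4 * C * T * κ) * (M * Real.log (M : ℝ)) / 2 := by rw [hxd]; ring
      _ = M * Real.log (M : ℝ) / 2 := by rw [hCT, one_mul]
      _ ≤ M * Real.log (M : ℝ) := by
          have : 0 ≤ (M : ℝ) * Real.log (M : ℝ) := by positivity
          linarith
      _ ≤ M * Real.log (Y : ℝ) := mul_le_mul_of_nonneg_left h7 (by linarith)
  have h9 : (Nat.primeCounting p : ℝ) ≤ M := by linarith
  have h10 : Nat.primeCounting p ≤ M := by exact_mod_cast h9
  rw [Nat.primeCounting, Nat.primeCounting', Nat.count_succ, if_pos hpp] at h10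
  omega

end Pool.Agent.H62.EX
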