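import Pool.Agent.H62.EX.Bs
import Pool.Agent.H62.EX.Scs
import Pool.Agent.H62.EX.Xs

/-!
# [H62 EX BL] Bohr boxes, windows longer than `log M`
-/

set_option autoImplicit false

namespace Pool.Agent.H62.EX

open Finset Filter Pool.Agent.H61.UN Pool.Agent.H34.RR

open Classical in
/-- many blocks with exactly one prime contain a bad tuple of primes of one colour -/
theorem win_pat0 {k s r J m : ℕ} (hk : 1 ≤ k) (hs : 1 ≤ s) (𝓑 : Set (Fin k → ℤ))
    (hmono : ∀ y : Fin (k + 1) → ℕ, df y ∈ 𝓑 → StrictMono y)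
    (χ : ℕ → Fin r) (N : ℕ) (e : Fin m ≃ Nd k J) (v : Fin m × Fin s → ℕ)
    (hT : Tr (fun _ : Unit => (0 : Fin (k + 1))) (fun _ => 𝓑) J (fun ν l => v (e.symm ν, l)))
    (h1 : 1 < wc (fun d => wt k J (e d) / r) v N) :
    ∃ (q : Fin r) (z : Fin (k + 1) → ℕ), df z ∈ 𝓑 ∧ ∀ i, (∃ i', v i' = z i) ∧ (N + z i).Prime ∧ χ (N + z i) = q := by
  have hr : 0 < r := (χ 0).pos
  have hr0 : (0 : ℝ) < r := by exact_mod_cast hr
  obtain ⟨y, hy⟩ : ∃ y : Nd k J → Fin s → ℕ, y = fun ν l => v (e.symm ν, l) := ⟨_, rfl⟩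
  rw [← hy] at hT
  obtain ⟨One, hOne⟩ : ∃ One : Fin r → Nd k J → Prop, One = fun q d =>
    (∃! l, (N + y d l).Prime) ∧ ∀ l, (N + y d l).Prime → χ (N + y d l) = q := ⟨_, rfl⟩
  -- some colour is heavy
  have hex : ∃ q : Fin r, 1 < ∑ d, if One q d then wt k J d else 0 := by
    by_contra hcon
    push Not at hcon
    have h2 : ∑ q : Fin r, ∑ d, (if One q d then wt k J d else 0) ≤ r := by
      calc ∑ q : Fin r, ∑ d, (if One q d then wt k J d else 0) ≤ ∑ _q : Fin r, (1 : ℝ) := sum_le_sum fun q _ => hcon q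
        _ = r := by simp
    rw [sum_comm] at h2
    have h3 : wc (fun d => wt k J (e d) / r) v N ≤
        (∑ d : Nd k J, ∑ q : Fin r, (if One q d then wt k J d else 0)) / r := by
      unfold wc
      rw [sum_div, ← Equiv.sum_comp e]
      refine sum_le_sum fun d _ => ?_
      by_cases hd : ∃! l : Fin s, (N + v (d, l)).Prime
      · rw [if_pos hd]
        refine div_le_div_of_nonneg_right ?_ hr0.le
        obtain ⟨l, hl, hl2⟩ := hd
        have h4 : One (χ (N + v (d, l))) (e d) := by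
          rw [hOne, hy]
          simp only [Equiv.symm_apply_apply]
          refine ⟨⟨l, hl, hl2⟩, fun l' hl' => ?_⟩
          rw [hl2 l' hl']
        have h5 : (if One (χ (N + v (d, l))) (e d) then wt k J (e d) else 0) ≤
            ∑ q : Fin r, (if One q (e d) then wt k J (e d) else 0) := by
          refine single_le_sum (f := fun q : Fin r => if One q (e d) then wt k J (e d) else 0) ?_ (mem_univ _)
          intro q _
          show 0 ≤ if One q (e d) then wt k J (e d) else 0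
          split_ifs
          · exact wt_nonneg _ _ _
          · exact le_rfl
        rw [if_pos h4] at h5
        exact h5
      · rw [if_neg hd]
        refine div_nonneg (sum_nonneg fun q _ => ?_) hr0.le
        split_ifs
        · exact wt_nonneg _ _ _
        · exact le_rfl
    have h4 : (∑ d : Nd k J, ∑ q : Fin r, (if One q d then wt k J d else 0)) / r ≤ 1 := by
      rw [div_le_one hr0]
      exact h2
    linarith
  obtain ⟨q, hq⟩ := hex
  obtain ⟨A, hA⟩ : ∃ A : Set ℕ, A = {x | (∃ i, v i = x) ∧ (N + x).Prime ∧ χ (N + x) = q} := ⟨_, rfl⟩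
  obtain ⟨a, z, hz1, hz2, -⟩ := det hk hs (fun _ : Unit => (0 : Fin (k + 1))) (fun _ => ∅)
    (fun a i hi => absurd hi (notMem_empty i)) (fun _ => 𝓑) (fun _ => hmono) A J y hT (One q)
    (by
      intro d hd
      rw [hOne] at hd
      obtain ⟨⟨l, hl, hl2⟩, hd2⟩ := hd
      refine ⟨l, ?_, fun l' hl' => ?_⟩
      · rw [hA]
        exact ⟨⟨(e.symm d, l), by rw [hy]⟩, hl, hd2 l hl⟩
      · rw [hA] at hl'
        rw [hl2 l' hl'.2.1])
    (by
      intro x hx _ _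
      rw [hA] at hx
      obtain ⟨i, hi⟩ := hx.1
      refine ⟨e i.1, i.2, ?_⟩
      rw [hy]
      simp only [Equiv.symm_apply_apply]
      exact hi)
    hq
  refine ⟨q, z, hz1, fun i => ?_⟩
  have h6 := (hz2 i).1
  rw [hA] at h6
  exact h6

/-- the bad tuples -/
def Bad0 {k r : ℕ} (W s₀ : ℕ) (χ : ℕ → Fin r) (M : ℕ) (V Thr : ℝ) : Set (Fin k → ℤ) :=
  Bad W s₀ χ M V Thr (⟨∅, fun i hi => absurd hi (notMem_empty i)⟩ : Lab k)

open Classical in
/-- the patterns of primes of one colour -/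
noncomputable def FN {k r : ℕ} (W s₀ : ℕ) (χ : ℕ → Fin r) (M : ℕ) (V Thr : ℝ) (L N : ℕ) : Finset (Fin (k + 1) → ℕ) :=
  (Fintype.piFinset (fun _ : Fin (k + 1) => range (L + 1))).filter (fun z => df z ∈ Bad0 W s₀ χ M V Thr ∧
    ∃ q : Fin r, ∀ j, (N + z j).Prime ∧ χ (N + z j) = q ∧ N + z j ≡ s₀ [MOD W])

open Classical in
/-- few patterns in all windows together -/
theorem sum_FN {k r : ℕ} (W s₀ : ℕ) (χ : ℕ → Fin r) (M : ℕ) (V Thr : ℝ) (hV : 0 < V) (hT : 0 ≤ Thr) (L : ℕ) (I : Finset ℕ)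
    (hI : ∀ N ∈ I, ∀ z : ℕ, z ≤ L → (N + z).Prime → Nat.count Nat.Prime (N + z) < M) :
    V * ∑ N ∈ I, ((FN (k := k) W s₀ χ M V Thr L N).card : ℝ) ≤ r * ((L : ℝ) + 1) ^ (k + 1) * Thr := by
  -- the index set: (u, q, z₀) and n
  obtain ⟨U, hU⟩ : ∃ U : Finset (Fin r × ℕ × (Fin k → ℕ)), U =
    ((univ : Finset (Fin r)) ×ˢ ((range (L + 1)) ×ˢ
      Fintype.piFinset (fun _ : Fin k => range (L + 1)))).filter
      (fun p => (fun j => (p.2.2 j : ℤ)) ∈ Bad0 W s₀ χ M V Thr) := ⟨_, rfl⟩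
  have hUc : (U.card : ℝ) ≤ r * ((L : ℝ) + 1) ^ (k + 1) := by
    have h1 : U.card ≤ r * ((L + 1) * (L + 1) ^ k) := by
      rw [hU]
      refine (card_filter_le _ _).trans (le_of_eq ?_)
      rw [card_product, card_product, card_univ, Fintype.card_fin, Fintype.card_piFinset, prod_const,
        card_range, card_univ, Fintype.card_fin]
    have h2 : (U.card : ℝ) ≤ ((r * ((L + 1) * (L + 1) ^ k) : ℕ) : ℝ) := by exact_mod_cast h1
    refine h2.trans (le_of_eq ?_)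
    push_cast
    ring
  obtain ⟨Cn, hCn⟩ : ∃ Cn : Fin r × ℕ × (Fin k → ℕ) → Finset ℕ, Cn = fun p => (range M).filter (fun n =>
    Pat W s₀ χ p.1 (∅ : Finset (Fin k)) (Fin.cons 0 p.2.2 : Fin (k + 1) → ℕ) (Nat.nth Nat.Prime n)) := ⟨_, rfl⟩
  have hkey : (I.sigma (fun N => FN (k := k) W s₀ χ M V Thr L N)).card ≤ (U.sigma Cn).card := by
    have hch : ∀ x : (Σ _ : ℕ, (Fin (k + 1) → ℕ)), ∃ q : Fin r, x ∈ I.sigma (fun N => FN (k := k) W s₀ χ M V Thr L N) →
        ∀ j, (x.1 + x.2 j).Prime ∧ χ (x.1 + x.2 j) = q ∧ x.1 + x.2 j ≡ s₀ [MOD W] := by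
      intro x
      by_cases hx : x ∈ I.sigma (fun N => FN (k := k) W s₀ χ M V Thr L N)
      · have h1 := (mem_sigma.1 hx).2
        unfold FN at h1
        rw [mem_filter] at h1
        obtain ⟨q, hq⟩ := h1.2.2
        exact ⟨q, fun _ => hq⟩
      · exact ⟨χ 0, fun h => absurd h hx⟩
    choose qq hqq using hch
    refine card_le_card_of_injOn (fun x => ⟨(qq x, x.2 0, fun j => x.2 j.succ - x.2 0),
      Nat.count Nat.Prime (x.1 + x.2 0)⟩) ?_ ?_
    · intro x hx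
      have hx' : x ∈ I.sigma (fun N => FN (k := k) W s₀ χ M V Thr L N) := hx
      have hq := hqq x hx'
      obtain ⟨hN, hz⟩ := mem_sigma.1 hx'
      unfold FN at hz
      rw [mem_filter, Fintype.mem_piFinset] at hz
      obtain ⟨hz1, hz2, -⟩ := hz
      have hzm : StrictMono x.2 := bad_mono W s₀ χ M V Thr _ x.2 hz2
      have hz0 : ∀ i, x.2 0 ≤ x.2 i := fun i => hzm.monotone (Fin.zero_le i)
      have hzL : ∀ i, x.2 i ≤ L := fun i => Nat.lt_succ_iff.1 (mem_range.1 (hz1 i))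
      rw [mem_coe, mem_sigma]
      refine ⟨?_, ?_⟩
      · rw [hU, mem_filter, mem_product, mem_product, Fintype.mem_piFinset]
        refine ⟨⟨mem_univ _, hz1 0, fun j => mem_range.2 (Nat.lt_succ_iff.2 ((Nat.sub_le _ _).trans (hzL _)))⟩, ?_⟩
        have h4 : (fun j : Fin k => ((x.2 j.succ - x.2 0 : ℕ) : ℤ)) = df x.2 := by
          funext j
          rw [df, Nat.cast_sub (hz0 _)]
        show (fun j : Fin k => ((x.2 j.succ - x.2 0 : ℕ) : ℤ)) ∈ Bad0 W s₀ χ M V Thr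
        rw [h4]
        exact hz2
      · rw [hCn]
        simp only [mem_filter, mem_range]
        refine ⟨hI x.1 hN (x.2 0) (hzL 0) (hq 0).1, ?_, fun i hi => absurd hi (notMem_empty i)⟩
        intro j
        rw [Nat.nth_count (hq 0).1]
        have h5 : x.1 + x.2 0 + (Fin.cons 0 (fun j : Fin k => x.2 j.succ - x.2 0) : Fin (k + 1) → ℕ) j = x.1 + x.2 j := by
          refine Fin.cases ?_ (fun j => ?_) j
          · simp
          · rw [Fin.cons_succ]
            have := hz0 j.succ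
            omega
        rw [h5]
        exact hq j
    · intro x hx y hy hxy
      have hx' : x ∈ I.sigma (fun N => FN (k := k) W s₀ χ M V Thr L N) := hx
      have hy' : y ∈ I.sigma (fun N => FN (k := k) W s₀ χ M V Thr L N) := hy
      have hqx := hqq x hx'
      have hqy := hqq y hy'
      obtain ⟨-, hzx⟩ := mem_sigma.1 hx'
      obtain ⟨-, hzy⟩ := mem_sigma.1 hy'
      unfold FN at hzx hzy
      rw [mem_filter] at hzx hzy
      have hzmx : StrictMono x.2 := bad_mono W s₀ χ M V Thr _ x.2 hzx.2.1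
      have hzmy : StrictMono y.2 := bad_mono W s₀ χ M V Thr _ y.2 hzy.2.1
      simp only [Sigma.mk.injEq, Prod.mk.injEq, heq_eq_eq] at hxy
      obtain ⟨⟨-, h0, hd⟩, hc⟩ := hxy
      have hn : x.1 + x.2 0 = y.1 + y.2 0 := by
        have h5 := Nat.nth_count (p := Nat.Prime) (hqx 0).1
        have h6 := Nat.nth_count (p := Nat.Prime) (hqy 0).1
        rw [← h5, ← h6, hc]
      have h1 : x.1 = y.1 := by omega
      have h2 : x.2 = y.2 := by
        funext i
        refine Fin.cases h0 (fun j => ?_) i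
        have h7 := congrFun hd j
        have h8 := hzmx.monotone (Fin.zero_le j.succ)
        have h9 := hzmy.monotone (Fin.zero_le j.succ)
        omega
      obtain ⟨x1, x2⟩ := x
      obtain ⟨y1, y2⟩ := y
      simp only at h1 h2
      rw [h1, h2]
  rw [card_sigma, card_sigma] at hkey
  have hkeyR : ∑ N ∈ I, ((FN (k := k) W s₀ χ M V Thr L N).card : ℝ) ≤ ∑ p ∈ U, ((Cn p).card : ℝ) := by exact_mod_cast hkey
  have h2 : ∀ p ∈ U, V * ((Cn p).card : ℝ) ≤ Thr := by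
    intro p hp
    rw [hU, mem_filter] at hp
    have h3 := hp.2.2 p.1
    have h4 : (fun j => ((Fin.cons 0 (fun j => (p.2.2 j : ℤ)) : Fin (k + 1) → ℤ) j).toNat) =
        (Fin.cons 0 p.2.2 : Fin (k + 1) → ℕ) := by
      funext i
      refine Fin.cases ?_ (fun j => ?_) i
      · simp
      · rw [Fin.cons_succ, Fin.cons_succ, Int.toNat_natCast]
    rw [h4] at h3
    rw [hCn]
    exact h3.le
  calc V * ∑ N ∈ I, ((FN (k := k) W s₀ χ M V Thr L N).card : ℝ) ≤ V * ∑ p ∈ U, ((Cn p).card : ℝ) :=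
        mul_le_mul_of_nonneg_left hkeyR hV.le
    _ = ∑ p ∈ U, V * ((Cn p).card : ℝ) := mul_sum _ _ _
    _ ≤ ∑ _p ∈ U, Thr := sum_le_sum h2
    _ = U.card * Thr := by rw [sum_const, nsmul_eq_mul]
    _ ≤ r * ((L : ℝ) + 1) ^ (k + 1) * Thr := mul_le_mul_of_nonneg_right hUc hT

open Classical in
theorem boxL (k r : ℕ) (hk : 1 ≤ k) (A W s₀ : ℕ) (hW : 0 < W) (hs₀ : Nat.Coprime s₀ W) (D : ℕ) (F : ℕ → ℝ) (hF : ∀ q, 0 < F q) :
    ∃ (Q : ℕ) (c d B : ℝ), 0 < c ∧ 0 < d ∧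
    ∀ (χ : ℕ → Fin r) (M : ℕ) (y : ℝ), B ≤ y → Real.log M < y → y ≤ Real.log M ^ A →
      ∃ (z q : ℕ) (α : Fin q → ℝ), 1 ≤ q ∧ q ≤ Q ∧ c * y ≤ z ∧ (z : ℝ) ≤ y ∧
        ((BadBox (fun a : Fin k → ℕ => Gd W s₀ χ D d M y a) z q α).card : ℝ) ≤ F q * (z : ℝ) ^ k := by
  rcases Nat.eq_zero_or_pos r with hr | hr
  · subst hr
    exact ⟨1, 1, 1, 1, one_pos, one_pos, fun χ => (χ 0).elim0⟩
  have hr0 : (0 : ℝ) < r := by exact_mod_cast hr
  have hk0 : (0 : ℝ) < k := by exact_mod_cast hk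
  obtain ⟨J, hJ⟩ : ∃ J : ℕ, J = 100 * k * r := ⟨_, rfl⟩
  have hJ1 : 1 ≤ J := by
    rw [hJ]
    exact Nat.mul_pos (Nat.mul_pos (by norm_num) hk) hr
  obtain ⟨m, hmd⟩ : ∃ m : ℕ, m = Fintype.card (Nd k J) := ⟨_, rfl⟩
  have hm : 1 ≤ m := by
    obtain ⟨J', rfl⟩ : ∃ J', J = J' + 1 := ⟨J - 1, by omega⟩
    rw [hmd, card_nd]
    omega
  obtain ⟨e⟩ : Nonempty (Fin m ≃ Nd k J) := by
    rw [hmd]
    exact ⟨(Fintype.equivFin _).symm⟩
  obtain ⟨s, hs, hsv⟩ := sieveB m hm (k + 1)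
  obtain ⟨wd, hsv⟩ := hsv (A + 1)
  obtain ⟨η, hη, hhyp⟩ := card_hyp hk F hF
  obtain ⟨R, hRd⟩ : ∃ R : ℕ, R = W * primorial wd := ⟨_, rfl⟩
  have hR : 0 < R := by rw [hRd]; exact Nat.mul_pos hW (primorial_pos wd)
  have hRw : primorial wd ∣ R := by rw [hRd]; exact Dvd.intro_left _ rfl
  have hWR : W ∣ R := by rw [hRd]; exact Dvd.intro _ rfl
  obtain ⟨ρ, hρ1, hρ2⟩ := exists_class W s₀ R hW hs₀ hR
  obtain ⟨c, Q, L0, hc, hconf⟩ := conf k s J R ρ hk hs hR (fun _ : Unit => (0 : Fin (k + 1))) η hη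
  have hw0 : ∀ d : Fin m, 0 ≤ (fun d => wt k J (e d) / r) d := fun d => div_nonneg (wt_nonneg _ _ _) hr0.le
  have hw1 : 100 ≤ ∑ d : Fin m, (fun d => wt k J (e d) / r) d := by
    rw [← Finset.sum_div, Equiv.sum_comp e (wt k J), sum_wt k J hk, hJ]
    rw [le_div_iff₀ hr0, le_div_iff₀ hk0]
    push_cast
    linarith
  obtain ⟨δ, T, H0, hδ, hT, hH0, hx⟩ := hsv _ hw0 hw1 R hR hRw c hc
  obtain ⟨κ, xs, hκ, hxs, hscale⟩ := xs_scale T hT (A + 1)
  have hev := (hxs.eventually hx).and ((hxs.eventually_gt_atTop 1).and hscale)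
  obtain ⟨M1, hM1⟩ := eventually_atTop.1 hev
  obtain ⟨δ', hδ'⟩ : ∃ δ' : ℝ, δ' = δ * (1 / 4) ^ (2 * (m * s)) * (κ / 2 ^ (k + 1)) := ⟨_, rfl⟩
  have hδ'0 : 0 < δ' := by rw [hδ']; positivity
  obtain ⟨d, hd⟩ : ∃ d : ℝ, d = δ' / (2 * (r * 2 ^ (k + 1))) := ⟨_, rfl⟩
  have hd1 : 0 < d := by rw [hd]; positivity
  obtain ⟨B, hBd⟩ : ∃ B : ℝ, B = max (Real.log ((M1 : ℝ) + 3) ^ A + 1) (L0 + 2 * Q + H0 + 2) := ⟨_, rfl⟩
  have hB1 : Real.log ((M1 : ℝ) + 3) ^ A + 1 ≤ B := hBd ▸ le_max_left _ _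
  have hB2 : L0 + 2 * Q + H0 + 2 ≤ B := hBd ▸ le_max_right _ _
  refine ⟨Q, 1 / (4 * (Q + 1)), d, B, by positivity, hd1, fun χ M y hB hyM hyA => ?_⟩
  have hL00 : (0 : ℝ) ≤ L0 := Nat.cast_nonneg _
  have hQ00 : (0 : ℝ) ≤ Q := Nat.cast_nonneg _
  have hy1 : 3 ≤ y := by linarith
  have hlM0 : 0 ≤ Real.log (M : ℝ) := Real.log_natCast_nonneg M
  have hMM : M1 + 3 ≤ M := by
    by_contra hcon
    have h1 : Real.log (M : ℝ) ≤ Real.log ((M1 : ℝ) + 3) := by
      rcases Nat.eq_zero_or_pos M with h0 | h0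
      · rw [h0, Nat.cast_zero, Real.log_zero]
        exact Real.log_nonneg (by linarith [(Nat.cast_nonneg M1 : (0 : ℝ) ≤ M1)])
      · refine Real.log_le_log (by exact_mod_cast h0) ?_
        have h2 : M ≤ M1 + 3 := by omega
        exact_mod_cast h2
    have h2 := pow_le_pow_left₀ hlM0 h1 A
    linarith
  have hM0 : (0 : ℝ) < M := by
    have : 0 < M := by omega
    exact_mod_cast this
  have hlM1 : 1 ≤ Real.log (M : ℝ) := by
    rw [Real.le_log_iff_exp_le hM0]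
    have h1 : (3 : ℝ) ≤ M := by
      have : 3 ≤ M := by omega
      exact_mod_cast this
    linarith [Real.exp_one_lt_d9]
  obtain ⟨hxx, hxs1, hlx1, hlx2, hlx3, hprime⟩ := hM1 M (by omega)
  generalize xs M = X at hxx hxs1 hlx1 hlx2 hlx3 hprime
  have hlX : 1 ≤ Real.log X := hlM1.trans hlx1
  -- the length
  obtain ⟨L, hLd⟩ : ∃ L : ℕ, L = ⌊y⌋₊ := ⟨_, rfl⟩
  have hLy : (L : ℝ) ≤ y := by
    rw [hLd]
    exact Nat.floor_le (by linarith)
  have hLy1 : y < L + 1 := by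
    rw [hLd]
    exact Nat.lt_floor_add_one _
  have hLL0 : L0 ≤ L := by
    have : (L0 : ℝ) ≤ L := by linarith
    exact_mod_cast this
  have hLQ : 2 * Q ≤ L := by
    have : (2 : ℝ) * Q ≤ L := by linarith
    exact_mod_cast this
  have hLH0 : H0 ≤ L := by linarith
  have hL1 : (1 : ℝ) ≤ L := hH0.trans hLH0
  have hL2 : y / 2 ≤ L := by linarith
  have hlXA : (L : ℝ) ≤ Real.log X ^ (A + 1) := by
    calc (L : ℝ) ≤ y := hLy
      _ ≤ Real.log M ^ A := hyA
      _ ≤ Real.log X ^ A := pow_le_pow_left₀ hlM0 hlx1 A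
      _ ≤ Real.log X ^ (A + 1) := pow_le_pow_right₀ hlX (Nat.le_succ A)
  obtain ⟨V, hV⟩ : ∃ V : ℝ, V = Real.log M ^ k := ⟨_, rfl⟩
  obtain ⟨Thr, hThr⟩ : ∃ Thr : ℝ, Thr = d * M := ⟨_, rfl⟩
  have hV0 : 0 < V := by rw [hV]; positivity
  have hThr0 : 0 ≤ Thr := by rw [hThr]; positivity
  by_contra hcon0
  have hH : Hyp k η Q L (⋃ _ : Unit, Bad0 W s₀ χ M V Thr) := by
    by_contra hH
    apply hcon0
    obtain ⟨z, q, α, hq1, hqQ, hz1, hz2, hz3⟩ := hhyp Q L hLQ (by exact_mod_cast hL1)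
      (⋃ _ : Unit, Bad0 W s₀ χ M V Thr) (fun a : Fin k → ℕ => Gd W s₀ χ D d M y a) (by
        intro a ha1 ha2 ha3
        unfold Gd at ha3
        push Not at ha3
        obtain ⟨G, hG, hG0, ha3⟩ := ha3
        have hG1 := hG0 hyM
        subst hG1
        rw [Set.mem_iUnion]
        refine ⟨(), ?_, fun q => ?_⟩
        · intro i i' hii
          refine Fin.cases (fun hii => ?_) (fun j hii => ?_) i hii
          · obtain ⟨j', rfl⟩ := Fin.exists_succ_eq.2 (Fin.pos_iff_ne_zero.1 hii)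
            rw [Fin.cons_zero, Fin.cons_succ]
            have : 0 < a j' := ha2 j'
            exact_mod_cast this
          · have hne : i' ≠ 0 := by
              rintro rfl
              exact absurd hii (by simp)
            obtain ⟨j', rfl⟩ := Fin.exists_succ_eq.2 hne
            rw [Fin.cons_succ, Fin.cons_succ]
            have h1 : a j < a j' := ha1 (Fin.succ_lt_succ_iff.1 hii)
            exact_mod_cast h1
        · have h1 := ha3 q
          have h2 : (fun j => ((Fin.cons 0 (fun j => (a j : ℤ)) : Fin (k + 1) → ℤ) j).toNat) =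
              (Fin.cons 0 a : Fin (k + 1) → ℕ) := by
            funext i
            refine Fin.cases ?_ (fun j => ?_) i
            · simp
            · rw [Fin.cons_succ, Fin.cons_succ, Int.toNat_natCast]
          rw [h2]
          rw [ncard_eq] at h1
          have h3 : min 1 (y / Real.log M) = 1 := by
            apply min_eq_left
            rw [le_div_iff₀ (by linarith)]
            linarith
          rw [h3, one_pow, mul_one] at h1
          rw [hV, hThr]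
          exact h1) hH
    refine ⟨z, q, α, hq1, hqQ, ?_, ?_, hz3⟩
    · have h1 : (L : ℝ) ≤ 2 * Q * z := by exact_mod_cast hz1
      have h2 : (0 : ℝ) ≤ z := Nat.cast_nonneg _
      rw [div_mul_eq_mul_div, div_le_iff₀ (by positivity)]
      nlinarith
    · have h1 : (z : ℝ) ≤ L := by exact_mod_cast hz2
      exact h1.trans hLy
  obtain ⟨𝓗, h𝓗1, h𝓗2⟩ := hconf L hLL0 (fun _ => Bad0 W s₀ χ M V Thr) hH m e
  have hcount := hxx L hLH0 hlXA 𝓗
    (fun v hv => ⟨(h𝓗2 v hv).1, fun i => by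
      have h4 : Nat.gcd ρ R = 1 := hρ1
      show Nat.gcd (v i) R = 1
      rw [← h4]
      exact Nat.ModEq.gcd_eq ((h𝓗2 v hv).2.1 i)⟩) h𝓗1 (fun N => FN W s₀ χ M V Thr L N) (by
        intro N hRN v hv hwc
        obtain ⟨hv1, hv2, hv3⟩ := h𝓗2 v hv
        obtain ⟨q, z, hz1, hz2⟩ := win_pat0 hk hs (Bad0 W s₀ χ M V Thr)
          (fun y hy => bad_mono W s₀ χ M V Thr _ y hy) χ N e v hv3 hwc
        refine ⟨z, ?_, fun j => (hz2 j).1⟩
        unfold FN
        rw [mem_filter, Fintype.mem_piFinset]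
        refine ⟨fun j => ?_, hz1, q, fun j => ⟨(hz2 j).2.1, (hz2 j).2.2, ?_⟩⟩
        · obtain ⟨i', hi'⟩ := (hz2 j).1
          rw [mem_range, ← hi']
          exact Nat.lt_succ_iff.2 ((mem_IJ.1 hv1).1 i')
        · obtain ⟨i', hi'⟩ := (hz2 j).1
          rw [← hi']
          have h4 : N ≡ 0 [MOD W] := Nat.modEq_zero_iff_dvd.2 (hWR.trans hRN)
          have h5 := h4.add ((hv2 i').of_dvd hWR)
          rw [Nat.zero_add] at h5
          exact h5.trans hρ2) (by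
        intro N z hz
        unfold FN at hz
        rw [mem_filter, Fintype.mem_piFinset] at hz
        obtain ⟨h1, h2, q, h3⟩ := hz
        exact ⟨(bad_mono W s₀ χ M V Thr _ z h2).injective,
          fun j => ⟨Nat.lt_succ_iff.1 (mem_range.1 (h1 j)), (h3 j).1⟩⟩)
  have hub := sum_FN (k := k) W s₀ χ M V Thr hV0 hThr0 L (range (⌊T * X⌋₊ + 1)) (by
    intro N hN z hz hp
    refine hprime _ hp ?_
    rw [mem_range, Nat.lt_succ_iff] at hN
    have h1 : (N : ℝ) ≤ T * X := (Nat.le_floor_iff (by positivity)).1 hN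
    have h2 : (z : ℝ) ≤ L := by exact_mod_cast hz
    push_cast
    linarith)
  -- comparison
  have h1 : V * (δ * (min 1 (L / Real.log X)) ^ (2 * (m * s)) * (L / Real.log X) ^ (k + 1) * X) ≤
      r * ((L : ℝ) + 1) ^ (k + 1) * Thr := (mul_le_mul_of_nonneg_left hcount hV0.le).trans hub
  have hlX0 : 0 < Real.log X := by linarith
  have h2 : (1 / 4 : ℝ) ≤ min 1 (L / Real.log X) := by
    refine le_min (by norm_num) ?_
    rw [le_div_iff₀ hlX0]
    linarith
  have h3 : (L : ℝ) ^ (k + 1) * M * (κ / 2 ^ (k + 1)) ≤ V * ((L / Real.log X) ^ (k + 1) * X) := by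
    have h4 : (L / (2 * Real.log M)) ^ (k + 1) ≤ (L / Real.log X) ^ (k + 1) := by
      refine pow_le_pow_left₀ (by positivity) ?_ _
      exact div_le_div_of_nonneg_left (by linarith) hlX0 hlx2
    have h5 : (L / (2 * Real.log M)) ^ (k + 1) * (κ * (M * Real.log M)) ≤ (L / Real.log X) ^ (k + 1) * X :=
      mul_le_mul h4 hlx3 (by positivity) (by positivity)
    have h6 := mul_le_mul_of_nonneg_left h5 hV0.le
    refine le_trans (le_of_eq ?_) h6
    have h7 : Real.log (M : ℝ) ≠ 0 := by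
      have : 0 < Real.log (M : ℝ) := by linarith
      exact this.ne'
    rw [hV, div_pow, mul_pow, pow_succ (Real.log (M : ℝ)) k]
    field_simp
  have h4 : ((L : ℝ) + 1) ^ (k + 1) ≤ 2 ^ (k + 1) * (L : ℝ) ^ (k + 1) := by
    rw [← mul_pow]
    exact pow_le_pow_left₀ (by positivity) (by linarith) _
  have h5 : δ * (1 / 4) ^ (2 * (m * s)) * ((L : ℝ) ^ (k + 1) * M * (κ / 2 ^ (k + 1))) ≤
      r * (2 ^ (k + 1) * (L : ℝ) ^ (k + 1)) * Thr := by
    calc δ * (1 / 4) ^ (2 * (m * s)) * ((L : ℝ) ^ (k + 1) * M * (κ / 2 ^ (k + 1)))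
        ≤ δ * (min 1 (L / Real.log X)) ^ (2 * (m * s)) * (V * ((L / Real.log X) ^ (k + 1) * X)) := by
          refine mul_le_mul ?_ h3 (by positivity) (by positivity)
          exact mul_le_mul_of_nonneg_left (pow_le_pow_left₀ (by norm_num) h2 _) hδ.le
      _ = V * (δ * (min 1 (L / Real.log X)) ^ (2 * (m * s)) * (L / Real.log X) ^ (k + 1) * X) := by ring
      _ ≤ r * ((L : ℝ) + 1) ^ (k + 1) * Thr := h1
      _ ≤ r * (2 ^ (k + 1) * (L : ℝ) ^ (k + 1)) * Thr := by gcongr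
  have h6 : δ * (1 / 4) ^ (2 * (m * s)) * ((L : ℝ) ^ (k + 1) * M * (κ / 2 ^ (k + 1))) =
      δ' * ((L : ℝ) ^ (k + 1) * M) := by rw [hδ']; ring
  have h7 : r * (2 ^ (k + 1) * (L : ℝ) ^ (k + 1)) * Thr = δ' * ((L : ℝ) ^ (k + 1) * M) / 2 := by
    rw [hThr, hd]
    field_simp
  have h8 : 0 < δ' * ((L : ℝ) ^ (k + 1) * M) := by positivity
  rw [h6, h7] at h5
  linarith

end Pool.Agent.H62.EX
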