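import Pool.Agent.H62.EX.Bw
import Pool.Agent.H62.EX.Bl

/-!
# [H62 EX BX] The Bohr box of every length `L` with `c log M < L ≤ (log M) ^ A`, and the union
-/

set_option autoImplicit false

namespace Pool.Agent.H62.EX

open Finset Filter Pool.Agent.H61.UN Pool.Agent.H34.RR

open Classical in
theorem boxW2 (k r : ℕ) (hk : 1 ≤ k) (A W s₀ : ℕ) (hW : 0 < W) (hs₀ : Nat.Coprime s₀ W) (D : ℕ) (F : ℕ → ℝ) (hF : ∀ q, 0 < F q)
    (c₀ : ℝ) (hc₀ : 0 < c₀) : ∃ (Q L₀ : ℕ) (d : ℝ), 0 < d ∧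
    ∀ (χ : ℕ → Fin r) (M L : ℕ), L₀ ≤ L → c₀ * Real.log M < L → (L : ℝ) ≤ Real.log M ^ A →
      ∃ (q : ℕ) (α : Fin q → ℝ), 1 ≤ q ∧ q ≤ Q ∧
        ((BBox (fun a : Fin k → ℕ => Gw W s₀ χ D c₀ d M L a) L q α).card : ℝ) ≤ F q * (L : ℝ) ^ k := by
  rcases Nat.eq_zero_or_pos r with hr | hr
  · subst hr
    exact ⟨1, 1, 1, one_pos, fun χ => (χ 0).elim0⟩
  have hr0 : (0 : ℝ) < r := by exact_mod_cast hr
  have hk0 : (0 : ℝ) < k := by exact_mod_cast hk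
  obtain ⟨J, hJ⟩ : ∃ J : ℕ, J = 100 * k * r := ⟨_, rfl⟩
  have hJ1 : 1 ≤ J := by
    rw [hJ]
    exact Nat.mul_pos (Nat.mul_pos (by norm_num) hk) hr
  obtain ⟨m, hmd⟩ : ∃ m : ℕ, m = Fintype.card (Nd k J) := ⟨_, rfl⟩
  have hm : 1 ≤ m := by
    obtain ⟨J', rfl⟩ : ∃ J', J = J' + 1 := ⟨J - 1, by omega⟩
    rw [hmd, card_nd]
    omega
  obtain ⟨e⟩ : Nonempty (Fin m ≃ Nd k J) := by
    rw [hmd]
    exact ⟨(Fintype.equivFin _).symm⟩
  obtain ⟨s, hs, hsv⟩ := sieveB m hm (k + 1)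
  obtain ⟨wd, hsv⟩ := hsv (A + 1)
  obtain ⟨R, hRd⟩ : ∃ R : ℕ, R = W * primorial wd := ⟨_, rfl⟩
  have hR : 0 < R := by rw [hRd]; exact Nat.mul_pos hW (primorial_pos wd)
  have hRw : primorial wd ∣ R := by rw [hRd]; exact Dvd.intro_left _ rfl
  have hWR : W ∣ R := by rw [hRd]; exact Dvd.intro _ rfl
  obtain ⟨ρ, hρ1, hρ2⟩ := exists_class W s₀ R hW hs₀ hR
  obtain ⟨c, Q, L0, hc, hconf⟩ := conf k s J R ρ hk hs hR (fun _ : Unit => (0 : Fin (k + 1))) F hF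
  have hw0 : ∀ d : Fin m, 0 ≤ (fun d => wt k J (e d) / r) d := fun d => div_nonneg (wt_nonneg _ _ _) hr0.le
  have hw1 : 100 ≤ ∑ d : Fin m, (fun d => wt k J (e d) / r) d := by
    rw [← Finset.sum_div, Equiv.sum_comp e (wt k J), sum_wt k J hk, hJ]
    rw [le_div_iff₀ hr0, le_div_iff₀ hk0]
    push_cast
    linarith
  obtain ⟨δ, T, H0, hδ, hT, hH0, hx⟩ := hsv _ hw0 hw1 R hR hRw c hc
  obtain ⟨κ, xs, hκ, hxs, hscale⟩ := xs_scale T hT (A + 1)
  have hev := (hxs.eventually hx).and ((hxs.eventually_gt_atTop 1).and hscale)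
  obtain ⟨M1, hM1⟩ := eventually_atTop.1 hev
  obtain ⟨c1, hc1⟩ : ∃ c1 : ℝ, c1 = min 1 (c₀ / 2) := ⟨_, rfl⟩
  have hc10 : 0 < c1 := by rw [hc1]; exact lt_min one_pos (by positivity)
  obtain ⟨δ', hδ'⟩ : ∃ δ' : ℝ, δ' = δ * c1 ^ (2 * (m * s)) * (κ / 2 ^ (k + 1)) := ⟨_, rfl⟩
  have hδ'0 : 0 < δ' := by rw [hδ']; positivity
  obtain ⟨d, hd⟩ : ∃ d : ℝ, d = δ' / (2 * (r * 2 ^ (k + 1))) := ⟨_, rfl⟩
  have hd1 : 0 < d := by rw [hd]; positivity
  obtain ⟨B, hBd⟩ : ∃ B : ℕ, B = max (max L0 ⌈H0⌉₊) (⌈Real.log ((M1 : ℝ) + 3) ^ A⌉₊ + 1) := ⟨_, rfl⟩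
  have hB1 : ⌈Real.log ((M1 : ℝ) + 3) ^ A⌉₊ + 1 ≤ B := hBd ▸ le_max_right _ _
  have hB2 : L0 ≤ B := hBd ▸ (le_max_left _ _).trans (le_max_left _ _)
  have hB3 : ⌈H0⌉₊ ≤ B := hBd ▸ (le_max_right _ _).trans (le_max_left _ _)
  refine ⟨Q, B, d, hd1, fun χ M L hB hyM hyA => ?_⟩
  have hLH0 : H0 ≤ L := by
    have h1 : (⌈H0⌉₊ : ℝ) ≤ L := by exact_mod_cast hB3.trans hB
    exact (Nat.le_ceil _).trans h1
  have hLL0 : L0 ≤ L := hB2.trans hB
  have hL1 : (1 : ℝ) ≤ L := hH0.trans hLH0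
  have hBL : Real.log ((M1 : ℝ) + 3) ^ A + 1 ≤ L := by
    have h1 : ((⌈Real.log ((M1 : ℝ) + 3) ^ A⌉₊ + 1 : ℕ) : ℝ) ≤ L := by exact_mod_cast hB1.trans hB
    push_cast at h1
    linarith [Nat.le_ceil (Real.log ((M1 : ℝ) + 3) ^ A)]
  have hlM0 : 0 ≤ Real.log (M : ℝ) := Real.log_natCast_nonneg M
  have hMM : M1 + 3 ≤ M := by
    by_contra hcon
    have h1 : Real.log (M : ℝ) ≤ Real.log ((M1 : ℝ) + 3) := by
      rcases Nat.eq_zero_or_pos M with h0 | h0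
      · rw [h0, Nat.cast_zero, Real.log_zero]
        exact Real.log_nonneg (by linarith [(Nat.cast_nonneg M1 : (0 : ℝ) ≤ M1)])
      · refine Real.log_le_log (by exact_mod_cast h0) ?_
        have h2 : M ≤ M1 + 3 := by omega
        exact_mod_cast h2
    have h2 := pow_le_pow_left₀ hlM0 h1 A
    linarith
  have hM0 : (0 : ℝ) < M := by
    have : 0 < M := by omega
    exact_mod_cast this
  have hlM1 : 1 ≤ Real.log (M : ℝ) := by
    rw [Real.le_log_iff_exp_le hM0]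
    have h1 : (3 : ℝ) ≤ M := by
      have : 3 ≤ M := by omega
      exact_mod_cast this
    linarith [Real.exp_one_lt_d9]
  obtain ⟨hxx, hxs1, hlx1, hlx2, hlx3, hprime⟩ := hM1 M (by omega)
  generalize xs M = X at hxx hxs1 hlx1 hlx2 hlx3 hprime
  have hlX : 1 ≤ Real.log X := hlM1.trans hlx1
  have hlXA : (L : ℝ) ≤ Real.log X ^ (A + 1) := by
    calc (L : ℝ) ≤ Real.log M ^ A := hyA
      _ ≤ Real.log X ^ A := pow_le_pow_left₀ hlM0 hlx1 A
      _ ≤ Real.log X ^ (A + 1) := pow_le_pow_right₀ hlX (Nat.le_succ A)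
  obtain ⟨V, hV⟩ : ∃ V : ℝ, V = Real.log M ^ k := ⟨_, rfl⟩
  obtain ⟨Thr, hThr⟩ : ∃ Thr : ℝ, Thr = d * M := ⟨_, rfl⟩
  have hV0 : 0 < V := by rw [hV]; positivity
  have hThr0 : 0 ≤ Thr := by rw [hThr]; positivity
  by_contra hcon0
  have hH : Hyp k F Q L (⋃ _ : Unit, Bad0 W s₀ χ M V Thr) := by
    by_contra hH
    apply hcon0
    exact bbox_hyp F Q L (⋃ _ : Unit, Bad0 W s₀ χ M V Thr) (fun a : Fin k → ℕ => Gw W s₀ χ D c₀ d M L a) (by
        intro a ha1 ha2 ha3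
        unfold Gw at ha3
        push Not at ha3
        obtain ⟨G, hG, hG0, ha3⟩ := ha3
        have hG1 := hG0 hyM
        subst hG1
        rw [Set.mem_iUnion]
        refine ⟨(), ?_, fun q => ?_⟩
        · intro i i' hii
          refine Fin.cases (fun hii => ?_) (fun j hii => ?_) i hii
          · obtain ⟨j', rfl⟩ := Fin.exists_succ_eq.2 (Fin.pos_iff_ne_zero.1 hii)
            rw [Fin.cons_zero, Fin.cons_succ]
            have : 0 < a j' := ha2 j'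
            exact_mod_cast this
          · have hne : i' ≠ 0 := by
              rintro rfl
              exact absurd hii (by simp)
            obtain ⟨j', rfl⟩ := Fin.exists_succ_eq.2 hne
            rw [Fin.cons_succ, Fin.cons_succ]
            have h1 : a j < a j' := ha1 (Fin.succ_lt_succ_iff.1 hii)
            exact_mod_cast h1
        · have h1 := ha3 q
          have h2 : (fun j => ((Fin.cons 0 (fun j => (a j : ℤ)) : Fin (k + 1) → ℤ) j).toNat) =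
              (Fin.cons 0 a : Fin (k + 1) → ℕ) := by
            funext i
            refine Fin.cases ?_ (fun j => ?_) i
            · simp
            · rw [Fin.cons_succ, Fin.cons_succ, Int.toNat_natCast]
          rw [h2]
          rw [ncard_eq] at h1
          have h3 : min 1 (L / Real.log M) ^ D ≤ 1 :=
            pow_le_one₀ (le_min zero_le_one (div_nonneg (Nat.cast_nonneg _) hlM0)) (min_le_left _ _)
          rw [hV, hThr]
          refine h1.trans_le ?_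
          calc d * min 1 (L / Real.log M) ^ D * M ≤ d * 1 * M := by gcongr
            _ = d * M := by ring) hH
  obtain ⟨𝓗, h𝓗1, h𝓗2⟩ := hconf L hLL0 (fun _ => Bad0 W s₀ χ M V Thr) hH m e
  have hcount := hxx L hLH0 hlXA 𝓗
    (fun v hv => ⟨(h𝓗2 v hv).1, fun i => by
      have h4 : Nat.gcd ρ R = 1 := hρ1
      show Nat.gcd (v i) R = 1
      rw [← h4]
      exact Nat.ModEq.gcd_eq ((h𝓗2 v hv).2.1 i)⟩) h𝓗1 (fun N => FN W s₀ χ M V Thr L N) (by
        intro N hRN v hv hwc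
        obtain ⟨hv1, hv2, hv3⟩ := h𝓗2 v hv
        obtain ⟨q, z, hz1, hz2⟩ := win_pat0 hk hs (Bad0 W s₀ χ M V Thr)
          (fun y hy => bad_mono W s₀ χ M V Thr _ y hy) χ N e v hv3 hwc
        refine ⟨z, ?_, fun j => (hz2 j).1⟩
        unfold FN
        rw [mem_filter, Fintype.mem_piFinset]
        refine ⟨fun j => ?_, hz1, q, fun j => ⟨(hz2 j).2.1, (hz2 j).2.2, ?_⟩⟩
        · obtain ⟨i', hi'⟩ := (hz2 j).1
          rw [mem_range, ← hi']
          exact Nat.lt_succ_iff.2 ((mem_IJ.1 hv1).1 i')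
        · obtain ⟨i', hi'⟩ := (hz2 j).1
          rw [← hi']
          have h4 : N ≡ 0 [MOD W] := Nat.modEq_zero_iff_dvd.2 (hWR.trans hRN)
          have h5 := h4.add ((hv2 i').of_dvd hWR)
          rw [Nat.zero_add] at h5
          exact h5.trans hρ2) (by
        intro N z hz
        unfold FN at hz
        rw [mem_filter, Fintype.mem_piFinset] at hz
        obtain ⟨h1, h2, q, h3⟩ := hz
        exact ⟨(bad_mono W s₀ χ M V Thr _ z h2).injective,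
          fun j => ⟨Nat.lt_succ_iff.1 (mem_range.1 (h1 j)), (h3 j).1⟩⟩)
  have hub := sum_FN (k := k) W s₀ χ M V Thr hV0 hThr0 L (range (⌊T * X⌋₊ + 1)) (by
    intro N hN z hz hp
    refine hprime _ hp ?_
    rw [mem_range, Nat.lt_succ_iff] at hN
    have h1 : (N : ℝ) ≤ T * X := (Nat.le_floor_iff (by positivity)).1 hN
    have h2 : (z : ℝ) ≤ L := by exact_mod_cast hz
    push_cast
    linarith)
  -- comparison
  have h1 : V * (δ * (min 1 (L / Real.log X)) ^ (2 * (m * s)) * (L / Real.log X) ^ (k + 1) * X) ≤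
      r * ((L : ℝ) + 1) ^ (k + 1) * Thr := (mul_le_mul_of_nonneg_left hcount hV0.le).trans hub
  have hlX0 : 0 < Real.log X := by linarith
  have h2 : c1 ≤ min 1 (L / Real.log X) := by
    rw [hc1]
    refine min_le_min le_rfl ?_
    rw [le_div_iff₀ hlX0]
    have h4 : c₀ / 2 * Real.log X ≤ c₀ / 2 * (2 * Real.log M) := mul_le_mul_of_nonneg_left hlx2 (by positivity)
    linarith
  have h3 : (L : ℝ) ^ (k + 1) * M * (κ / 2 ^ (k + 1)) ≤ V * ((L / Real.log X) ^ (k + 1) * X) := by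
    have h4 : (L / (2 * Real.log M)) ^ (k + 1) ≤ (L / Real.log X) ^ (k + 1) := by
      refine pow_le_pow_left₀ (by positivity) ?_ _
      exact div_le_div_of_nonneg_left (by linarith) hlX0 hlx2
    have h5 : (L / (2 * Real.log M)) ^ (k + 1) * (κ * (M * Real.log M)) ≤ (L / Real.log X) ^ (k + 1) * X :=
      mul_le_mul h4 hlx3 (by positivity) (by positivity)
    have h6 := mul_le_mul_of_nonneg_left h5 hV0.le
    refine le_trans (le_of_eq ?_) h6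
    have h7 : Real.log (M : ℝ) ≠ 0 := by
      have : 0 < Real.log (M : ℝ) := by linarith
      exact this.ne'
    rw [hV, div_pow, mul_pow, pow_succ (Real.log (M : ℝ)) k]
    field_simp
  have h4 : ((L : ℝ) + 1) ^ (k + 1) ≤ 2 ^ (k + 1) * (L : ℝ) ^ (k + 1) := by
    rw [← mul_pow]
    exact pow_le_pow_left₀ (by positivity) (by linarith) _
  have h5 : δ * c1 ^ (2 * (m * s)) * ((L : ℝ) ^ (k + 1) * M * (κ / 2 ^ (k + 1))) ≤
      r * (2 ^ (k + 1) * (L : ℝ) ^ (k + 1)) * Thr := by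
    calc δ * c1 ^ (2 * (m * s)) * ((L : ℝ) ^ (k + 1) * M * (κ / 2 ^ (k + 1)))
        ≤ δ * (min 1 (L / Real.log X)) ^ (2 * (m * s)) * (V * ((L / Real.log X) ^ (k + 1) * X)) := by
          refine mul_le_mul ?_ h3 (by positivity) (by positivity)
          exact mul_le_mul_of_nonneg_left (pow_le_pow_left₀ hc10.le h2 _) hδ.le
      _ = V * (δ * (min 1 (L / Real.log X)) ^ (2 * (m * s)) * (L / Real.log X) ^ (k + 1) * X) := by ring
      _ ≤ r * ((L : ℝ) + 1) ^ (k + 1) * Thr := h1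
      _ ≤ r * (2 ^ (k + 1) * (L : ℝ) ^ (k + 1)) * Thr := by gcongr
  have h6 : δ * c1 ^ (2 * (m * s)) * ((L : ℝ) ^ (k + 1) * M * (κ / 2 ^ (k + 1))) =
      δ' * ((L : ℝ) ^ (k + 1) * M) := by rw [hδ']; ring
  have h7 : r * (2 ^ (k + 1) * (L : ℝ) ^ (k + 1)) * Thr = δ' * ((L : ℝ) ^ (k + 1) * M) / 2 := by
    rw [hThr, hd]
    field_simp
  have h8 : 0 < δ' * ((L : ℝ) ^ (k + 1) * M) := by positivity
  rw [h6, h7] at h5
  linarith

theorem gw_mono {k r : ℕ} {W s₀ : ℕ} {χ : ℕ → Fin r} {D : ℕ} {c d d' : ℝ} {M : ℕ} {L : ℝ} (hL : 0 ≤ L) (hd : d' ≤ d)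
    {a : Fin k → ℕ} (h : Gw W s₀ χ D c d M L a) : Gw W s₀ χ D c d' M L a := by
  intro G h1 h2
  obtain ⟨q, hq⟩ := h G h1 h2
  refine ⟨q, le_trans ?_ hq⟩
  have h3 : 0 ≤ min 1 (L / Real.log M) := le_min zero_le_one (div_nonneg hL (Real.log_natCast_nonneg M))
  exact mul_le_mul_of_nonneg_right (mul_le_mul_of_nonneg_right hd (pow_nonneg h3 _)) (Nat.cast_nonneg _)

theorem bbox_mono {k : ℕ} {P P' : (Fin k → ℕ) → Prop} (h : ∀ a, P a → P' a) (L q : ℕ) (α : Fin q → ℝ) :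
    (BBox P' L q α).card ≤ (BBox P L q α).card := by
  classical
  refine card_le_card fun a ha => ?_
  unfold BBox at ha ⊢
  rw [mem_filter] at ha ⊢
  exact ⟨ha.1, ha.2.1, ha.2.2.1, fun h1 => ha.2.2.2 (h a h1)⟩

/-- **the box theorem** -/
theorem boxW (k r : ℕ) (hk : 1 ≤ k) : ∃ D : ℕ, ∀ A W s₀ : ℕ, 0 < W → Nat.Coprime s₀ W →
    ∀ F : ℕ → ℝ, (∀ q, 0 < F q) → ∃ (Q L₀ : ℕ) (c d : ℝ), 0 < c ∧ 0 < d ∧
    ∀ (χ : ℕ → Fin r) (M L : ℕ), L₀ ≤ L → (L : ℝ) ≤ Real.log M ^ A →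
      ∃ (q : ℕ) (α : Fin q → ℝ), 1 ≤ q ∧ q ≤ Q ∧
        ((BBox (fun a : Fin k → ℕ => Gw W s₀ χ D c d M L a) L q α).card : ℝ) ≤ F q * (L : ℝ) ^ k := by
  obtain ⟨D, hD⟩ := boxW1 k r hk
  refine ⟨D, fun A W s₀ hW hs F hF => ?_⟩
  obtain ⟨Q1, B1, c, d1, hc, hc1, hd1, h1⟩ := hD W s₀ hW hs F hF
  obtain ⟨Q2, B2, d2, hd2, h2⟩ := boxW2 k r hk A W s₀ hW hs D F hF c hc
  refine ⟨max Q1 Q2, max B1 B2, c, min d1 d2, hc, lt_min hd1 hd2, fun χ M L hB hL => ?_⟩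
  rcases le_or_gt (L : ℝ) (c * Real.log M) with hM | hM
  · obtain ⟨q, α, hq1, hq2, hq3⟩ := h1 χ M L ((le_max_left _ _).trans hB) hM
    refine ⟨q, α, hq1, hq2.trans (le_max_left _ _), le_trans ?_ hq3⟩
    exact_mod_cast bbox_mono (fun a ha => gw_mono (Nat.cast_nonneg _) (min_le_left _ _) ha) L q α
  · obtain ⟨q, α, hq1, hq2, hq3⟩ := h2 χ M L ((le_max_right _ _).trans hB) hM hL
    refine ⟨q, α, hq1, hq2.trans (le_max_right _ _), le_trans ?_ hq3⟩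
    exact_mod_cast bbox_mono (fun a ha => gw_mono (Nat.cast_nonneg _) (min_le_right _ _) ha) L q α

end Pool.Agent.H62.EX
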