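import Pool.Agent.H62.EX.Txt

/-!
# [H62 EX PL] E+: every scale, `m₀` independent of `ε`: assembly

From density Hales-Jewett (`DHJ`), the configurations (`Configs`) and the sieve (`sieveB`).
-/

set_option autoImplicit false

namespace Pool.Agent.H62.EX

open Finset Filter Pool.Agent.H61.UN Pool.Agent.H34.RR

/-- density Hales-Jewett for the alphabet `Fin K`, the density `δ` and the dimension `n` -/
def DHJ (K n : ℕ) (δ : ℝ) : Prop :=
  ∀ S : Finset (Fin n → Fin K), δ * (K : ℝ) ^ n ≤ S.card → ∃ l : Combinatorics.Line (Fin K) (Fin n), ∀ i, l i ∈ S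

/-- many configurations for every dense set `E` -/
def Configs (k n s R ρ : ℕ) : Prop :=
  ∃ C : ℕ, 1 ≤ C ∧ ∀ ε : ℝ, 0 < ε → ∃ (c : ℝ) (L0 : ℕ), 0 < c ∧ ∀ z : ℕ, L0 ≤ z → ∀ E : Finset (Fin k → ℕ),
    (∀ a ∈ E, StrictMono a ∧ ∀ j, 1 ≤ a j ∧ a j ≤ z) → ε * (z : ℝ) ^ k ≤ E.card →
      ∃ 𝓗 : Finset ((Fin n → Fin (k + 1)) × Fin s → ℕ), c * ((C * z : ℕ) : ℝ) ^ ((k + 1) ^ n * s) ≤ 𝓗.card ∧
        ∀ v ∈ 𝓗, v ∈ IJ ((Fin n → Fin (k + 1)) × Fin s) (C * z) ∧ (∀ i, v i ≡ ρ [MOD R]) ∧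
          ∀ (l : Combinatorics.Line (Fin (k + 1)) (Fin n)) (t : Fin (k + 1) → Fin s), ∃ b ∈ E, ∃ m : ℕ, 1 ≤ m ∧ m ≤ n ∧
            ∀ j : Fin k, v (l j.succ, t j.succ) = v (l 0, t 0) + R * m * b j

open Classical in
/-- a line of clusters with exactly one prime, all of one colour -/
theorem line_pat {k n m s r : ℕ} (hr : 0 < r) (hD : DHJ (k + 1) n (1 / (100 * r))) (hm : m = (k + 1) ^ n)
    (e : Fin m ≃ (Fin n → Fin (k + 1))) (χ : ℕ → Fin r) (N : ℕ) (v : Fin m × Fin s → ℕ)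
    (h1 : 1 < wc (fun _ : Fin m => (100 : ℝ) / m) v N) :
    ∃ (q : Fin r) (l : Combinatorics.Line (Fin (k + 1)) (Fin n)) (t : Fin (k + 1) → Fin s),
      ∀ i, (N + v (e.symm (l i), t i)).Prime ∧ χ (N + v (e.symm (l i), t i)) = q := by
  have hr0 : (0 : ℝ) < r := by exact_mod_cast hr
  have hm0 : (0 : ℝ) < m := by
    rw [hm]
    positivity
  -- the clusters with exactly one prime, of colour `q`
  obtain ⟨S, hS⟩ : ∃ S : Fin r → Finset (Fin m), S = fun q => univ.filter (fun d : Fin m =>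
    (∃! l : Fin s, (N + v (d, l)).Prime) ∧ ∀ l, (N + v (d, l)).Prime → χ (N + v (d, l)) = q) := ⟨_, rfl⟩
  have hex : ∃ q : Fin r, (m : ℝ) / (100 * r) < (S q).card := by
    by_contra hcon
    push Not at hcon
    have h2 : ((univ.filter (fun d : Fin m => ∃! l : Fin s, (N + v (d, l)).Prime)).card : ℝ) ≤ ∑ q : Fin r, ((S q).card : ℝ) := by
      have h3 : (univ.filter (fun d : Fin m => ∃! l : Fin s, (N + v (d, l)).Prime)) ⊆ univ.biUnion S := by
        intro d hd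
        rw [mem_filter] at hd
        obtain ⟨l, hl, hl2⟩ := hd.2
        rw [mem_biUnion]
        refine ⟨χ (N + v (d, l)), mem_univ _, ?_⟩
        rw [hS, mem_filter]
        refine ⟨mem_univ _, ⟨l, hl, hl2⟩, fun l' hl' => ?_⟩
        rw [hl2 l' hl']
      exact_mod_cast (card_le_card h3).trans card_biUnion_le
    have h3 : ∑ q : Fin r, ((S q).card : ℝ) ≤ r * ((m : ℝ) / (100 * r)) := by
      calc ∑ q : Fin r, ((S q).card : ℝ) ≤ ∑ _q : Fin r, (m : ℝ) / (100 * r) := sum_le_sum fun q _ => hcon q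
        _ = r * ((m : ℝ) / (100 * r)) := by rw [sum_const, card_univ, Fintype.card_fin, nsmul_eq_mul]
    have h4 : wc (fun _ : Fin m => (100 : ℝ) / m) v N =
        ((univ.filter (fun d : Fin m => ∃! l : Fin s, (N + v (d, l)).Prime)).card : ℝ) * (100 / m) := by
      unfold wc
      rw [← sum_filter, sum_const, nsmul_eq_mul]
    rw [h4] at h1
    have h5 : (r : ℝ) * ((m : ℝ) / (100 * r)) = m / 100 := by
      field_simp
    have h6 : ((univ.filter (fun d : Fin m => ∃! l : Fin s, (N + v (d, l)).Prime)).card : ℝ) * (100 / m) ≤ 1 := by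
      calc ((univ.filter (fun d : Fin m => ∃! l : Fin s, (N + v (d, l)).Prime)).card : ℝ) * (100 / m)
          ≤ (m / 100) * (100 / m) := mul_le_mul_of_nonneg_right (by linarith) (by positivity)
        _ = 1 := by field_simp
    linarith
  obtain ⟨q, hq⟩ := hex
  obtain ⟨l, hl⟩ := hD ((S q).map e.toEmbedding) (by
    rw [card_map]
    refine le_trans (le_of_eq ?_) hq.le
    rw [hm]
    push_cast
    ring)
  have hch : ∀ i : Fin (k + 1), ∃ t : Fin s, (N + v (e.symm (l i), t)).Prime ∧ χ (N + v (e.symm (l i), t)) = q := by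
    intro i
    obtain ⟨d, hd, hde⟩ := mem_map.1 (hl i)
    rw [hS, mem_filter] at hd
    obtain ⟨-, ⟨t, ht, -⟩, hc⟩ := hd
    have h2 : e.symm (l i) = d := by
      rw [← hde]
      exact e.symm_apply_apply d
    refine ⟨t, ?_⟩
    rw [h2]
    exact ⟨ht, hc t ht⟩
  choose t ht using hch
  exact ⟨q, l, t, ht⟩

theorem mem_bad0 {k r : ℕ} (W s₀ : ℕ) (χ : ℕ → Fin r) (M : ℕ) (V Thr : ℝ) (a : Fin k → ℕ) (ha1 : StrictMono a)
    (ha2 : ∀ j, 1 ≤ a j) (h : ∀ q : Fin r, V * ({n : ℕ | n < M ∧ Pat W s₀ χ q (∅ : Finset (Fin k))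
      (Fin.cons 0 a : Fin (k + 1) → ℕ) (Nat.nth Nat.Prime n)}.ncard : ℝ) < Thr) :
    (fun j => (a j : ℤ)) ∈ Bad0 W s₀ χ M V Thr := by
  classical
  refine ⟨?_, fun q => ?_⟩
  · intro i i' hii
    refine Fin.cases (fun hii => ?_) (fun j hii => ?_) i hii
    · obtain ⟨j', rfl⟩ := Fin.exists_succ_eq.2 (Fin.pos_iff_ne_zero.1 hii)
      rw [Fin.cons_zero, Fin.cons_succ]
      have : 0 < a j' := ha2 j'
      exact_mod_cast this
    · have hne : i' ≠ 0 := by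
        rintro rfl
        exact absurd hii (by simp)
      obtain ⟨j', rfl⟩ := Fin.exists_succ_eq.2 hne
      rw [Fin.cons_succ, Fin.cons_succ]
      have h1 : a j < a j' := ha1 (Fin.succ_lt_succ_iff.1 hii)
      exact_mod_cast h1
  · have h1 := h q
    have h2 : (fun j => ((Fin.cons 0 (fun j => (a j : ℤ)) : Fin (k + 1) → ℤ) j).toNat) =
        (Fin.cons 0 a : Fin (k + 1) → ℕ) := by
      funext i
      refine Fin.cases ?_ (fun j => ?_) i
      · simp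
      · rw [Fin.cons_succ, Fin.cons_succ, Int.toNat_natCast]
    rw [ncard_eq] at h1
    rw [h2]
    refine lt_of_le_of_lt (le_of_eq ?_) h1
    congr 3

open Classical in
theorem plusE (hDHJ : ∀ K : ℕ, 2 ≤ K → ∀ δ : ℝ, 0 < δ → ∃ n, 1 ≤ n ∧ DHJ K n δ)
    (hConf : ∀ k n s R ρ : ℕ, 1 ≤ k → 1 ≤ n → 1 ≤ s → 0 < R → Configs k n s R ρ) (k r : ℕ) (hk : 1 ≤ k) :
    ∃ D : ℕ, ∀ A W s₀ : ℕ, 0 < W → Nat.Coprime s₀ W → Txt.C1 k r D A W s₀ := by
  rcases Nat.eq_zero_or_pos r with hr | hr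
  · subst hr
    exact ⟨0, fun _ _ _ _ _ => ⟨0, fun ε _ => ⟨1, 1, one_pos, fun χ => (χ 0).elim0⟩⟩⟩
  have hr0 : (0 : ℝ) < r := by exact_mod_cast hr
  obtain ⟨n, hn, hD⟩ := hDHJ (k + 1) (by omega) (1 / (100 * r)) (by positivity)
  obtain ⟨m, hmd⟩ : ∃ m : ℕ, m = (k + 1) ^ n := ⟨_, rfl⟩
  have hm : 1 ≤ m := by
    rw [hmd]
    exact Nat.one_le_pow _ _ (by omega)
  have hcardW : Fintype.card (Fin n → Fin (k + 1)) = m := by
    rw [Fintype.card_fun, Fintype.card_fin, Fintype.card_fin, hmd]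
  obtain ⟨e⟩ : Nonempty (Fin m ≃ (Fin n → Fin (k + 1))) := by
    rw [← hcardW]
    exact ⟨(Fintype.equivFin _).symm⟩
  have hm0 : (0 : ℝ) < m := by exact_mod_cast hm
  obtain ⟨s, hs, hsv⟩ := sieveB m hm (k + 1)
  refine ⟨2 * (m * s), fun A W s₀ hW hs₀ => ?_⟩
  obtain ⟨wd, hsv⟩ := hsv (A + 1)
  obtain ⟨R, hRd⟩ : ∃ R : ℕ, R = W * primorial wd := ⟨_, rfl⟩
  have hR : 0 < R := by rw [hRd]; exact Nat.mul_pos hW (primorial_pos wd)
  have hRw : primorial wd ∣ R := by rw [hRd]; exact Dvd.intro_left _ rfl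
  have hWR : W ∣ R := by rw [hRd]; exact Dvd.intro _ rfl
  obtain ⟨ρ, hρ1, hρ2⟩ := exists_class W s₀ R hW hs₀ hR
  obtain ⟨C, hC, hconf⟩ := hConf k n s R ρ hk hn hs hR
  refine ⟨R * n, fun ε hε => ?_⟩
  obtain ⟨c, L0, hc, hconf⟩ := hconf ε hε
  have hw0 : ∀ d : Fin m, 0 ≤ (fun _ : Fin m => (100 : ℝ) / m) d := fun d => by positivity
  have hw1 : 100 ≤ ∑ d : Fin m, (fun _ : Fin m => (100 : ℝ) / m) d := by
    rw [sum_const, card_univ, Fintype.card_fin, nsmul_eq_mul, mul_div_cancel₀ _ hm0.ne']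
  obtain ⟨δ, T, H0, hδ, hT, hH0, hx⟩ := hsv _ hw0 hw1 R hR hRw c hc
  obtain ⟨κ, xs, hκ, hxs, hscale⟩ := xs_scale T hT (A + 1)
  have hev := (hxs.eventually hx).and ((hxs.eventually_gt_atTop 1).and hscale)
  obtain ⟨M1, hM1⟩ := eventually_atTop.1 hev
  obtain ⟨δ', hδ'⟩ : ∃ δ' : ℝ, δ' = δ * (1 / 2) ^ (2 * (m * s)) * (κ / 2 ^ (k + 1)) := ⟨_, rfl⟩
  have hδ'0 : 0 < δ' := by rw [hδ']; positivity
  obtain ⟨d, hd⟩ : ∃ d : ℝ, d = δ' / (2 * (r * 2 ^ (k + 1))) := ⟨_, rfl⟩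
  have hd1 : 0 < d := by rw [hd]; positivity
  obtain ⟨B, hBd⟩ : ∃ B : ℝ, B = max (max (L0 : ℝ) H0) (max (Real.log ((M1 : ℝ) + 3) ^ A + 1) ((C : ℝ) ^ A + 1)) := ⟨_, rfl⟩
  have hB1 : Real.log ((M1 : ℝ) + 3) ^ A + 1 ≤ B := hBd ▸ (le_max_left _ _).trans (le_max_right _ _)
  have hB4 : (C : ℝ) ^ A + 1 ≤ B := hBd ▸ (le_max_right _ _).trans (le_max_right _ _)
  have hB2 : (L0 : ℝ) ≤ B := hBd ▸ (le_max_left _ _).trans (le_max_left _ _)
  have hB3 : H0 ≤ B := hBd ▸ (le_max_right _ _).trans (le_max_left _ _)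
  refine ⟨B, d, hd1, fun χ M z hB hzA => ?_⟩
  have hzH0 : H0 ≤ z := hB3.trans hB
  have hz1 : (1 : ℝ) ≤ z := hH0.trans hzH0
  have hzL0 : L0 ≤ z := by exact_mod_cast hB2.trans hB
  have hlM0 : 0 ≤ Real.log (M : ℝ) := Real.log_natCast_nonneg M
  have hMM : M1 + 3 ≤ M := by
    by_contra hcon
    have h1 : Real.log (M : ℝ) ≤ Real.log ((M1 : ℝ) + 3) := by
      rcases Nat.eq_zero_or_pos M with h0 | h0
      · rw [h0, Nat.cast_zero, Real.log_zero]
        exact Real.log_nonneg (by linarith [(Nat.cast_nonneg M1 : (0 : ℝ) ≤ M1)])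
      · refine Real.log_le_log (by exact_mod_cast h0) ?_
        have h2 : M ≤ M1 + 3 := by omega
        exact_mod_cast h2
    have h2 := pow_le_pow_left₀ hlM0 h1 A
    linarith
  have hCM : (C : ℝ) ≤ Real.log M := by
    by_contra hcon
    have h2 := pow_le_pow_left₀ hlM0 (not_le.1 hcon).le A
    linarith
  have hM0 : (0 : ℝ) < M := by
    have : 0 < M := by omega
    exact_mod_cast this
  have hlM1 : 1 ≤ Real.log (M : ℝ) := by
    refine le_trans ?_ hCM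
    exact_mod_cast hC
  obtain ⟨hxx, hxs1, hlx1, hlx2, hlx3, hprime⟩ := hM1 M (by omega)
  generalize xs M = X at hxx hxs1 hlx1 hlx2 hlx3 hprime
  have hlX : 1 ≤ Real.log X := hlM1.trans hlx1
  -- the length
  obtain ⟨L, hLd⟩ : ∃ L : ℕ, L = C * z := ⟨_, rfl⟩
  have hzL : z ≤ L := by
    rw [hLd]
    exact Nat.le_mul_of_pos_left _ hC
  have hzLr : (z : ℝ) ≤ L := by exact_mod_cast hzL
  have hLH0 : H0 ≤ L := hzH0.trans hzLr
  have hL1 : (1 : ℝ) ≤ L := hz1.trans hzLr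
  have hLXA : (L : ℝ) ≤ Real.log X ^ (A + 1) := by
    calc (L : ℝ) = C * z := by rw [hLd]; push_cast; ring
      _ ≤ Real.log M * Real.log M ^ A := mul_le_mul hCM hzA (Nat.cast_nonneg _) hlM0
      _ = Real.log M ^ (A + 1) := by ring
      _ ≤ Real.log X ^ (A + 1) := pow_le_pow_left₀ hlM0 hlx1 _
  obtain ⟨τ, hτ⟩ : ∃ τ : ℝ, τ = min 1 (z / Real.log M) := ⟨_, rfl⟩
  have hτ0 : 0 < τ := by
    rw [hτ]
    exact lt_min one_pos (div_pos (by linarith) (by linarith))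
  obtain ⟨V, hV⟩ : ∃ V : ℝ, V = Real.log M ^ k := ⟨_, rfl⟩
  obtain ⟨Thr, hThr⟩ : ∃ Thr : ℝ, Thr = d * τ ^ (2 * (m * s)) * M := ⟨_, rfl⟩
  have hV0 : 0 < V := by rw [hV]; positivity
  have hThr0 : 0 ≤ Thr := by rw [hThr]; positivity
  by_contra hcon0
  push Not at hcon0
  rw [← hτ, ← hThr, ← hV] at hcon0
  obtain ⟨E, hE⟩ : ∃ E : Finset (Fin k → ℕ), E = ((Fintype.piFinset (fun _ : Fin k => Finset.Icc 1 z)).filter
    (fun a : Fin k → ℕ => StrictMono a ∧ ¬ ∃ m : ℕ, 1 ≤ m ∧ m ≤ R * n ∧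
      Txt.Many W s₀ χ ∅ (fun j => m * a j) M V Thr)) := ⟨_, rfl⟩
  obtain ⟨𝓗, h𝓗1, h𝓗2⟩ := hconf z hzL0 E (by
    intro a ha
    rw [hE, mem_filter, Fintype.mem_piFinset] at ha
    exact ⟨ha.2.1, fun j => mem_Icc.1 (ha.1 j)⟩) (by
    rw [hE]
    refine le_trans hcon0.le (le_of_eq ?_)
    congr 2
    ext a
    simp only [mem_filter, not_exists, not_and])
  rw [← hmd] at h𝓗1
  -- transport to `Fin m`
  obtain ⟨𝓗', h𝓗'⟩ : ∃ 𝓗' : Finset (Fin m × Fin s → ℕ), 𝓗' = 𝓗.image (fun v p => v (e p.1, p.2)) := ⟨_, rfl⟩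
  have hcard : 𝓗'.card = 𝓗.card := by
    rw [h𝓗']
    refine card_image_of_injective _ ?_
    intro v v' hvv
    funext p
    have h1 := congrFun hvv (e.symm p.1, p.2)
    simp only [Equiv.apply_symm_apply] at h1
    exact h1
  have hmem : ∀ v ∈ 𝓗', v ∈ IJ (Fin m × Fin s) L ∧ (∀ i, v i ≡ ρ [MOD R]) ∧
      ∀ (l : Combinatorics.Line (Fin (k + 1)) (Fin n)) (t : Fin (k + 1) → Fin s), ∃ b ∈ E, ∃ m : ℕ, 1 ≤ m ∧ m ≤ n ∧
        ∀ j : Fin k, v (e.symm (l j.succ), t j.succ) = v (e.symm (l 0), t 0) + R * m * b j := by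
    intro v hv
    rw [h𝓗'] at hv
    obtain ⟨v', hv', rfl⟩ := mem_image.1 hv
    obtain ⟨h1, h2, h3⟩ := h𝓗2 v' hv'
    rw [← hLd, mem_IJ] at h1
    refine ⟨mem_IJ.2 ⟨fun i => h1.1 _, ?_⟩, fun i => h2 _, fun l t => ?_⟩
    · intro p p' hpp
      have h4 := h1.2 hpp
      rw [Prod.mk.injEq] at h4
      exact Prod.ext (e.injective h4.1) h4.2
    · obtain ⟨b, hb, m', h4, h5, h6⟩ := h3 l t
      refine ⟨b, hb, m', h4, h5, fun j => ?_⟩
      simp only [Equiv.apply_symm_apply]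
      exact h6 j
  have hcount := hxx L hLH0 hLXA 𝓗'
    (fun v hv => ⟨(hmem v hv).1, fun i => by
      have h4 : Nat.gcd ρ R = 1 := hρ1
      show Nat.gcd (v i) R = 1
      rw [← h4]
      exact Nat.ModEq.gcd_eq ((hmem v hv).2.1 i)⟩) (by
      rw [hcard, hLd]
      exact h𝓗1) (fun N => FN W s₀ χ M V Thr L N) (by
        intro N hRN v hv hwc
        obtain ⟨hv1, hv2, hv3⟩ := hmem v hv
        obtain ⟨q, l, t, hlt⟩ := line_pat hr hD hmd e χ N v hwc
        obtain ⟨b, hb, m', hm1, hm2, hm3⟩ := hv3 l t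
        refine ⟨fun i => v (e.symm (l i), t i), ?_, fun j => ⟨_, rfl⟩⟩
        unfold FN
        rw [mem_filter, Fintype.mem_piFinset]
        refine ⟨fun j => ?_, ?_, q, fun j => ⟨(hlt j).1, (hlt j).2, ?_⟩⟩
        · rw [mem_range]
          exact Nat.lt_succ_iff.2 ((mem_IJ.1 hv1).1 _)
        · have h4 : df (fun i => v (e.symm (l i), t i)) = fun j => ((R * m' * b j : ℕ) : ℤ) := by
            funext j
            have h5 := hm3 j
            rw [df, h5]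
            push_cast
            ring
          rw [h4]
          rw [hE, mem_filter, Fintype.mem_piFinset] at hb
          obtain ⟨hb1, hb2, hb3⟩ := hb
          push Not at hb3
          have hRm : 1 ≤ R * m' := Nat.mul_pos hR hm1
          have hb4 := hb3 (R * m') hRm (Nat.mul_le_mul_left _ hm2)
          refine mem_bad0 W s₀ χ M V Thr (fun j => R * m' * b j) ?_ ?_ ?_
          · intro i j hij
            exact Nat.mul_lt_mul_of_pos_left (hb2 hij) hRm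
          · intro j
            exact Nat.mul_pos hRm (mem_Icc.1 (hb1 j)).1
          · intro q'
            by_contra hcon
            exact hb4 ⟨q', not_lt.1 hcon⟩
        · have h4 : N ≡ 0 [MOD W] := Nat.modEq_zero_iff_dvd.2 (hWR.trans hRN)
          have h5 := h4.add ((hv2 (e.symm (l j), t j)).of_dvd hWR)
          rw [Nat.zero_add] at h5
          exact h5.trans hρ2) (by
        intro N z hz
        unfold FN at hz
        rw [mem_filter, Fintype.mem_piFinset] at hz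
        obtain ⟨h1, h2, q, h3⟩ := hz
        exact ⟨(bad_mono W s₀ χ M V Thr _ z h2).injective,
          fun j => ⟨Nat.lt_succ_iff.1 (mem_range.1 (h1 j)), (h3 j).1⟩⟩)
  have hub := sum_FN (k := k) W s₀ χ M V Thr hV0 hThr0 L (range (⌊T * X⌋₊ + 1)) (by
    intro N hN z hz hp
    refine hprime _ hp ?_
    rw [mem_range, Nat.lt_succ_iff] at hN
    have h1 : (N : ℝ) ≤ T * X := (Nat.le_floor_iff (by positivity)).1 hN
    have h2 : (z : ℝ) ≤ L := by exact_mod_cast hz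
    push_cast
    linarith)
  -- comparison
  have h1 : V * (δ * (min 1 (L / Real.log X)) ^ (2 * (m * s)) * (L / Real.log X) ^ (k + 1) * X) ≤
      r * ((L : ℝ) + 1) ^ (k + 1) * Thr := (mul_le_mul_of_nonneg_left hcount hV0.le).trans hub
  have hlX0 : 0 < Real.log X := by linarith
  have h2 : 1 / 2 * τ ≤ min 1 (L / Real.log X) := by
    refine le_min ?_ ?_
    · have : τ ≤ 1 := by rw [hτ]; exact min_le_left _ _
      linarith
    · have h3 : τ ≤ z / Real.log M := by rw [hτ]; exact min_le_right _ _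
      rw [le_div_iff₀ (by linarith)] at h3
      rw [le_div_iff₀ hlX0]
      have h4 : 1 / 2 * τ * Real.log X ≤ 1 / 2 * τ * (2 * Real.log M) := mul_le_mul_of_nonneg_left hlx2 (by positivity)
      linarith
  have h3 : (L : ℝ) ^ (k + 1) * M * (κ / 2 ^ (k + 1)) ≤ V * ((L / Real.log X) ^ (k + 1) * X) := by
    have h4 : (L / (2 * Real.log M)) ^ (k + 1) ≤ (L / Real.log X) ^ (k + 1) := by
      refine pow_le_pow_left₀ (by positivity) ?_ _
      exact div_le_div_of_nonneg_left (by linarith) hlX0 hlx2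
    have h5 : (L / (2 * Real.log M)) ^ (k + 1) * (κ * (M * Real.log M)) ≤ (L / Real.log X) ^ (k + 1) * X :=
      mul_le_mul h4 hlx3 (by positivity) (by positivity)
    have h6 := mul_le_mul_of_nonneg_left h5 hV0.le
    refine le_trans (le_of_eq ?_) h6
    have h7 : Real.log (M : ℝ) ≠ 0 := by
      have : 0 < Real.log (M : ℝ) := by linarith
      exact this.ne'
    rw [hV, div_pow, mul_pow, pow_succ (Real.log (M : ℝ)) k]
    field_simp
  have h4 : ((L : ℝ) + 1) ^ (k + 1) ≤ 2 ^ (k + 1) * (L : ℝ) ^ (k + 1) := by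
    rw [← mul_pow]
    exact pow_le_pow_left₀ (by positivity) (by linarith) _
  have h5 : δ * (1 / 2 * τ) ^ (2 * (m * s)) * ((L : ℝ) ^ (k + 1) * M * (κ / 2 ^ (k + 1))) ≤
      r * (2 ^ (k + 1) * (L : ℝ) ^ (k + 1)) * Thr := by
    calc δ * (1 / 2 * τ) ^ (2 * (m * s)) * ((L : ℝ) ^ (k + 1) * M * (κ / 2 ^ (k + 1)))
        ≤ δ * (min 1 (L / Real.log X)) ^ (2 * (m * s)) * (V * ((L / Real.log X) ^ (k + 1) * X)) := by
          refine mul_le_mul ?_ h3 (by positivity) (by positivity)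
          exact mul_le_mul_of_nonneg_left (pow_le_pow_left₀ (by positivity) h2 _) hδ.le
      _ = V * (δ * (min 1 (L / Real.log X)) ^ (2 * (m * s)) * (L / Real.log X) ^ (k + 1) * X) := by ring
      _ ≤ r * ((L : ℝ) + 1) ^ (k + 1) * Thr := h1
      _ ≤ r * (2 ^ (k + 1) * (L : ℝ) ^ (k + 1)) * Thr := by gcongr
  have h6 : δ * (1 / 2 * τ) ^ (2 * (m * s)) * ((L : ℝ) ^ (k + 1) * M * (κ / 2 ^ (k + 1))) =
      δ' * (τ ^ (2 * (m * s)) * ((L : ℝ) ^ (k + 1) * M)) := by rw [hδ', mul_pow]; ring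
  have h7 : r * (2 ^ (k + 1) * (L : ℝ) ^ (k + 1)) * Thr = δ' * (τ ^ (2 * (m * s)) * ((L : ℝ) ^ (k + 1) * M)) / 2 := by
    rw [hThr, hd]
    field_simp
  have h8 : 0 < δ' * (τ ^ (2 * (m * s)) * ((L : ℝ) ^ (k + 1) * M)) := by positivity
  rw [h6, h7] at h5
  linarith

end Pool.Agent.H62.EX
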