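import Mathlib

/-!
# [H62 EX CRT] Composite numbers at prescribed positions by the Chinese remainder theorem
-/

set_option autoImplicit false

namespace Pool.Agent.H62.EX

open Finset

/-- positions different from all `v p` can be made composite -/
theorem crt_pos {P : Type} [Fintype P] (R : ℕ) (hR : 0 < R) (v : P → ℕ) (hcop : ∀ p, Nat.Coprime (v p) R) (G : Finset ℤ)
    (hd : ∀ g ∈ G, ∀ p, g ≠ v p) :
    ∃ R' N₁ : ℕ, 0 < R' ∧ R ∣ R' ∧ R ∣ N₁ ∧ (∀ p, Nat.Coprime (N₁ + v p) R') ∧
      ∃ K : ℕ, ∀ N : ℕ, K ≤ N → R' ∣ N → ∀ g ∈ G, ∀ p' : ℕ, (p' : ℤ) = N + N₁ + g → ¬ p'.Prime := by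
  classical
  obtain ⟨K, hK⟩ : ∃ K : ℕ, K = ∑ p, v p + ∑ g ∈ G, g.natAbs + R + 1 := ⟨_, rfl⟩
  have hvK : ∀ p, v p + ∑ g ∈ G, g.natAbs < K := by
    intro p
    have := single_le_sum (f := v) (fun _ _ => Nat.zero_le _) (mem_univ p)
    omega
  have hgK : ∀ g ∈ G, ∀ p, |(v p : ℤ) - g| < K := by
    intro g hg p
    have h1 := single_le_sum (f := fun g : ℤ => g.natAbs) (fun _ _ => Nat.zero_le _) hg
    have h2 := hvK p
    have h3 : ((v p : ℤ) - g).natAbs ≤ v p + g.natAbs := by
      have := Int.natAbs_sub_le (v p : ℤ) g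
      simpa using this
    rw [Int.abs_eq_natAbs]
    have h4 : ((v p : ℤ) - g).natAbs < K := by
      omega
    exact_mod_cast h4
  let e := Fintype.equivFin {g // g ∈ G}
  obtain ⟨l, hl⟩ : ∃ l : {g // g ∈ G} → ℕ, l = fun g => Nat.nth Nat.Prime (K + (e g : ℕ)) := ⟨_, rfl⟩
  have hlp : ∀ g, (l g).Prime := by
    intro g
    rw [hl]
    exact Nat.prime_nth_prime _
  have hlK : ∀ g, K < l g := by
    intro g
    rw [hl]
    have := Nat.add_two_le_nth_prime (K + (e g : ℕ))
    show K < Nat.nth Nat.Prime (K + (e g : ℕ))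
    omega
  have hinj : Function.Injective l := by
    intro g g' h
    rw [hl] at h
    have h1 : K + (e g : ℕ) = K + (e g' : ℕ) := Nat.nth_injective Nat.infinite_setOfPred_prime h
    exact e.injective (Fin.ext (by omega))
  have hcop2 : ∀ g g', g ≠ g' → Nat.Coprime (l g) (l g') := fun g g' h =>
    (Nat.coprime_primes (hlp g) (hlp g')).2 fun h' => h (hinj h')
  have hcopR : ∀ g, Nat.Coprime (l g) R := by
    intro g
    rw [(hlp g).coprime_iff_not_dvd]
    intro h
    have h1 := Nat.le_of_dvd hR h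
    have h2 := hlK g
    omega
  obtain ⟨y, hy⟩ := Nat.chineseRemainderOfFinset
    (fun o : Option {g // g ∈ G} => o.elim 0 (fun g => ((-(g : ℤ)) % (l g : ℤ)).toNat))
    (fun o : Option {g // g ∈ G} => o.elim R l) univ (by
      intro o _
      cases o with
      | none => exact hR.ne'
      | some g => exact (hlp g).ne_zero) (by
      intro o _ o' _ hoo
      cases o with
      | none =>
        cases o' with
        | none => exact absurd rfl hoo
        | some g => exact (hcopR g).symm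
      | some g =>
        cases o' with
        | none => exact hcopR g
        | some g' => exact hcop2 g g' fun h => hoo (by rw [h]))
  have hyR : R ∣ y := by
    have h1 := hy none (mem_univ _)
    exact (Nat.modEq_zero_iff_dvd).1 h1
  have hyl : ∀ g : {g // g ∈ G}, (l g : ℤ) ∣ y + (g : ℤ) := by
    intro g
    have h1 : y ≡ ((-(g : ℤ)) % (l g : ℤ)).toNat [MOD l g] := hy (some g) (mem_univ _)
    have hl0 : (0 : ℤ) < l g := by exact_mod_cast (hlp g).pos
    have h2 := (Int.natCast_modEq_iff).2 h1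
    rw [Int.toNat_of_nonneg (Int.emod_nonneg _ hl0.ne')] at h2
    have h3 : (y : ℤ) ≡ -(g : ℤ) [ZMOD l g] := h2.trans (Int.mod_modEq _ _)
    have h4 := h3.add_right (g : ℤ)
    rw [neg_add_cancel] at h4
    exact Int.modEq_zero_iff_dvd.1 h4
  refine ⟨R * ∏ g, l g, y, Nat.mul_pos hR (prod_pos fun g _ => (hlp g).pos), Dvd.intro _ rfl, hyR, fun p => ?_,
    ∑ g, l g + K + 1, fun N hN hRN g hg p' hp' hpr => ?_⟩
  · rw [Nat.coprime_mul_iff_right]
    constructor
    · obtain ⟨y', rfl⟩ := hyR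
      rw [Nat.add_comm]
      exact (Nat.coprime_add_mul_left_left _ _ _).2 (hcop p)
    · rw [Nat.coprime_prod_right_iff]
      intro g _
      refine Nat.Coprime.symm ((hlp g).coprime_iff_not_dvd.2 fun h => ?_)
      have h1 : (l g : ℤ) ∣ ((y + v p : ℕ) : ℤ) := by exact_mod_cast h
      have h2 := dvd_sub h1 (hyl g)
      have h3 : ((y + v p : ℕ) : ℤ) - (y + (g : ℤ)) = (v p : ℤ) - g := by
        push_cast
        ring
      rw [h3] at h2
      have h4 : (v p : ℤ) - g = 0 := by
        refine Int.eq_zero_of_abs_lt_dvd h2 ((hgK g g.2 p).trans ?_)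
        exact_mod_cast hlK g
      exact hd g g.2 p (by linarith)
  · have h1 : (l ⟨g, hg⟩ : ℤ) ∣ N := by
      have h1 : l ⟨g, hg⟩ ∣ N := (dvd_prod_of_mem l (mem_univ _)).trans ((Dvd.intro_left _ rfl).trans hRN)
      exact_mod_cast h1
    have h2 : (l ⟨g, hg⟩ : ℤ) ∣ p' := by
      rw [hp', add_assoc]
      exact dvd_add h1 (hyl ⟨g, hg⟩)
    have h3 : l ⟨g, hg⟩ ∣ p' := by exact_mod_cast h2
    rcases (Nat.dvd_prime hpr).1 h3 with h4 | h4
    · exact (hlp _).one_lt.ne' h4
    · have h5 := single_le_sum (f := l) (fun _ _ => Nat.zero_le _) (mem_univ ⟨g, hg⟩)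
      have h6 := single_le_sum (f := fun g : ℤ => g.natAbs) (fun _ _ => Nat.zero_le _) hg
      have h7 : (g.natAbs : ℤ) ≤ K := by
        have : g.natAbs ≤ K := by omega
        exact_mod_cast this
      have h8 : -(g.natAbs : ℤ) ≤ g := by
        have := neg_abs_le g
        rw [Int.abs_eq_natAbs] at this
        exact this
      have h9 : ((∑ g, l g + K + 1 : ℕ) : ℤ) ≤ N := by exact_mod_cast hN
      have h10 : ((l ⟨g, hg⟩ : ℕ) : ℤ) ≤ ((∑ g, l g : ℕ) : ℤ) := by exact_mod_cast h5
      have h11 : (0 : ℤ) ≤ y := Nat.cast_nonneg _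
      rw [h4] at h10
      push_cast at h9
      push_cast at h10
      linarith

end Pool.Agent.H62.EX
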