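import Pool.Agent.H48.EP.Ban

/-!
# [H62 EX LIN] Configurations which avoid finitely many linear relations
-/

set_option autoImplicit false

namespace Pool.Agent.H62.EX

open Finset Filter Pool.Agent.H48.EP

/-- one linear relation is rare -/
theorem coinL {P : Type} [Fintype P] [DecidableEq P] (N : ℕ) (hN0 : 0 < N) (C : P → ℤ) (hC : C ≠ 0) (g : ℤ) :
    dn {u : P → Fin N | ∑ p, C p * ((u p : ℕ) : ℤ) = g} ≤ 1 / N := by
  classical
  have hNe : Nonempty (Fin N) := ⟨⟨0, hN0⟩⟩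
  have hNr : (0 : ℝ) < N := by exact_mod_cast hN0
  obtain ⟨p₀, hp₀⟩ : ∃ p, C p ≠ 0 := by
    by_contra hcon
    push Not at hcon
    exact hC (funext hcon)
  have hinj : Function.Injective (fun _ : Unit => p₀) := fun _ _ _ => rfl
  unfold dn
  rw [Ex_extend (fun _ : Unit => p₀) hinj]
  refine Ex_le_const fun x => ?_
  obtain ⟨h₀, hh₀⟩ : ∃ h₀ : ℤ, h₀ = g - ∑ p ∈ univ.erase p₀, C p * ((x p : ℕ) : ℤ) := ⟨_, rfl⟩
  have hsum : ∀ t : Unit → Fin N, ∑ p, C p * (((Function.extend (fun _ : Unit => p₀) t x p : Fin N) : ℕ) : ℤ) = g ↔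
      C p₀ * ((t () : ℕ) : ℤ) = h₀ := by
    intro t
    have e1 : Function.extend (fun _ : Unit => p₀) t x p₀ = t () := hinj.extend_apply t x ()
    rw [← add_sum_erase _ _ (mem_univ p₀), e1, hh₀]
    have e2 : ∑ p ∈ univ.erase p₀, C p * (((Function.extend (fun _ : Unit => p₀) t x p : Fin N) : ℕ) : ℤ) =
        ∑ p ∈ univ.erase p₀, C p * ((x p : ℕ) : ℤ) := by
      refine sum_congr rfl fun p hp => ?_
      have e2 : Function.extend (fun _ : Unit => p₀) t x p = x p := by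
        rw [Function.extend_apply']
        rintro ⟨_, h⟩
        exact (ne_of_mem_erase hp) h.symm
      rw [e2]
    rw [e2]
    constructor
    · intro h
      linarith
    · intro h
      linarith
  have h1 : Ex (fun t : Unit → Fin N => ({u : P → Fin N | ∑ p, C p * ((u p : ℕ) : ℤ) = g}).indicator (fun _ => (1 : ℝ))
      (Function.extend (fun _ : Unit => p₀) t x)) =
      dn {t : Unit → Fin N | C p₀ * ((t () : ℕ) : ℤ) = h₀} := by
    refine Ex_congr fun t => ?_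
    by_cases h : C p₀ * ((t () : ℕ) : ℤ) = h₀
    · rw [Set.indicator_of_mem (show t ∈ {t : Unit → Fin N | C p₀ * ((t () : ℕ) : ℤ) = h₀} from h),
        Set.indicator_of_mem]
      exact (hsum t).2 h
    · rw [Set.indicator_of_notMem (show t ∉ {t : Unit → Fin N | C p₀ * ((t () : ℕ) : ℤ) = h₀} from h),
        Set.indicator_of_notMem]
      intro h2
      exact h ((hsum t).1 h2)
  rw [h1]
  have h2 := dn_mul_card {t : Unit → Fin N | C p₀ * ((t () : ℕ) : ℤ) = h₀}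
  have h3 : {t : Unit → Fin N | C p₀ * ((t () : ℕ) : ℤ) = h₀}.ncard ≤ 1 := by
    rw [Set.ncard_le_one_iff]
    intro t t' ht ht'
    have h4 : C p₀ * ((t () : ℕ) : ℤ) = h₀ := ht
    have h5 : C p₀ * ((t' () : ℕ) : ℤ) = h₀ := ht'
    have h6 : ((t () : ℕ) : ℤ) = (t' () : ℕ) := mul_left_cancel₀ hp₀ (h4.trans h5.symm)
    funext i
    have h7 : (t () : ℕ) = (t' () : ℕ) := by exact_mod_cast h6
    exact Fin.ext h7
  have h4 : (({t : Unit → Fin N | C p₀ * ((t () : ℕ) : ℤ) = h₀}.ncard : ℕ) : ℝ) ≤ 1 := by exact_mod_cast h3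
  rw [← h2, Fintype.card_fun, Fintype.card_unit, pow_one, Fintype.card_fin] at h4
  rw [le_div_iff₀ hNr]
  exact h4

/-- a dense family contains a map which satisfies none of finitely many linear relations -/
theorem exists_avoidL {P : Type} [Fintype P] [DecidableEq P] {Λ : Type} [Fintype Λ] (N : ℕ) (hN0 : 0 < N) (c : ℝ)
    (hc : (Fintype.card Λ : ℝ) < c * N) (U : Set (P → Fin N)) (hU : c ≤ dn U) (C : Λ → P → ℤ) (g : Λ → ℤ)
    (hC : ∀ l, C l ≠ 0) : ∃ u ∈ U, ∀ l, ∑ p, C l p * ((u p : ℕ) : ℤ) ≠ g l := by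
  classical
  have hNr : (0 : ℝ) < N := by exact_mod_cast hN0
  by_contra hcon
  push Not at hcon
  have h1 : dn U ≤ ∑ l : Λ, dn {u : P → Fin N | ∑ p, C l p * ((u p : ℕ) : ℤ) = g l} := by
    unfold dn
    rw [← Ex_sum]
    refine Ex_mono fun u => ?_
    have h0 : ∀ l ∈ (univ : Finset Λ), (0 : ℝ) ≤
        ({u : P → Fin N | ∑ p, C l p * ((u p : ℕ) : ℤ) = g l}).indicator (fun _ => (1 : ℝ)) u :=
      fun l _ => Set.indicator_nonneg (fun _ _ => zero_le_one) u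
    by_cases hu : u ∈ U
    · rw [Set.indicator_of_mem hu]
      obtain ⟨l, hl⟩ := hcon u hu
      refine le_trans ?_ (single_le_sum h0 (mem_univ l))
      rw [Set.indicator_of_mem (show u ∈ {u : P → Fin N | ∑ p, C l p * ((u p : ℕ) : ℤ) = g l} from hl)]
    · rw [Set.indicator_of_notMem hu]
      exact sum_nonneg h0
  have h2 : ∑ l : Λ, dn {u : P → Fin N | ∑ p, C l p * ((u p : ℕ) : ℤ) = g l} ≤ (univ : Finset Λ).card • (1 / (N : ℝ)) :=
    sum_le_card_nsmul _ _ _ fun l _ => coinL N hN0 (C l) (hC l) (g l)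
  rw [nsmul_eq_mul, card_univ] at h2
  have h4 : c ≤ (Fintype.card Λ : ℝ) * (1 / (N : ℝ)) := hU.trans (h1.trans h2)
  rw [mul_one_div, le_div_iff₀ hNr] at h4
  linarith

/-- one configuration of clusters, with arbitrary shifts of the clusters, without the linear relations of a finite list -/
theorem one_confL {k : ℕ} {δ : ℝ} (S : Sys k δ) (s : ℕ) (hs : 1 ≤ s) (Λ : Type) [Fintype Λ] (ε : ℝ) (hε : 0 < ε) :
    ∃ z₀ : ℕ, ∀ z : ℕ, z₀ ≤ z → ∀ E : Finset (Fin k → ℤ), (∀ b ∈ E, ∀ i, |b i| ≤ z) →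
      ε * (z : ℝ) ^ k ≤ E.card → ∀ (τ : Fin S.m → ℤ) (C : Λ → Fin S.m × Fin s → ℤ) (g : Λ → ℤ), (∀ l, C l ≠ 0) →
      ∃ u : Fin S.m × Fin s → ℤ, Function.Injective (fun p => u p + τ p.1) ∧ (∀ l, ∑ p, C l p * u p ≠ g l) ∧
        ∀ (a : Fin S.L) (t : Fin (k + 1) → Fin s), ∃ b ∈ E, ∀ i : Fin k,
            u (S.e a i.succ, t i.succ) - u (S.e a 0, t 0) = S.μ a * b i := by
  classical
  obtain ⟨K, hK⟩ : ∃ K, K = 2 * k * S.n + 1 := ⟨_, rfl⟩
  have hK0 : 0 < K := by omega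
  have hKr : (0 : ℝ) < K := by exact_mod_cast hK0
  obtain ⟨c₁, hc₁, hrem⟩ := removal S.e S.inj S.lin S.cov (ε / (K : ℝ) ^ (k + 1)) (by positivity)
  obtain ⟨c₂, hc₂⟩ : ∃ c₂, c₂ = c₁ ^ (s ^ S.m) := ⟨_, rfl⟩
  have hc₂0 : 0 < c₂ := by
    rw [hc₂]
    positivity
  -- the relations for the injectivity
  obtain ⟨Q, hQ⟩ : ∃ Q : ℕ, Q = Fintype.card (Λ ⊕ {pq : (Fin S.m × Fin s) × (Fin S.m × Fin s) // pq.1 ≠ pq.2}) := ⟨_, rfl⟩
  refine ⟨⌈(Q : ℝ) / c₂⌉₊ + 1, ?_⟩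
  intro z hz E hE hEc τ C g hC
  have hz1 : 1 ≤ z := by omega
  have hzr : (0 : ℝ) < z := by exact_mod_cast hz1
  obtain ⟨N, hN⟩ : ∃ N, N = K * z := ⟨_, rfl⟩
  have hzN : z ≤ N := by
    rw [hN]
    exact Nat.le_mul_of_pos_left z hK0
  have hN0 : 0 < N := by omega
  have hNe : Nonempty (Fin N) := ⟨⟨0, hN0⟩⟩
  have hTr := trivial_copies S z hz1 E hE
  rw [← hK, ← hN] at hTr
  obtain ⟨T, hT1, hT2, hT3⟩ := hTr
  have h1 := hrem (Fin N) (fun a => FE (S.μ a) E) T hT1 hT2 (by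
    rw [Fintype.card_fin, Fintype.card_fin, hT3, hN]
    push_cast
    rw [mul_pow, ← mul_assoc, div_mul_cancel₀ _ (by positivity), pow_succ]
    calc ε * ((z : ℝ) ^ k * z) = z * (ε * (z : ℝ) ^ k) := by ring
      _ ≤ z * E.card := mul_le_mul_of_nonneg_left hEc hzr.le)
  have h2 := blowup (V := Fin S.m) (X := Fin N) s hs {x | ∀ a, x ∘ S.e a ∈ FE (S.μ a) E}
  rw [Fintype.card_fin] at h2
  have h3 : c₂ ≤ dn {u : Fin S.m × Fin s → Fin N | ∀ t : Fin S.m → Fin s,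
      (fun v => u (v, t v)) ∈ {x : Fin S.m → Fin N | ∀ a, x ∘ S.e a ∈ FE (S.μ a) E}} := by
    rw [hc₂]
    exact (pow_le_pow_left₀ hc₁.le h1 _).trans h2
  obtain ⟨u, hu, hav⟩ := exists_avoidL (P := Fin S.m × Fin s)
    (Λ := Λ ⊕ {pq : (Fin S.m × Fin s) × (Fin S.m × Fin s) // pq.1 ≠ pq.2}) N hN0 c₂ (by
    rw [← hQ]
    have h5 : (Q : ℝ) / c₂ < N := by
      refine lt_of_le_of_lt (Nat.le_ceil _) ?_
      have : ⌈(Q : ℝ) / c₂⌉₊ < N := by omega
      exact_mod_cast this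
    rw [div_lt_iff₀ hc₂0] at h5
    linarith) _ h3 (Sum.elim C (fun pq p => (if p = pq.1.1 then 1 else 0) - (if p = pq.1.2 then 1 else 0)))
    (Sum.elim g (fun pq => τ pq.1.2.1 - τ pq.1.1.1)) (by
    rintro (l | pq)
    · exact hC l
    · intro h
      have h4 := congrFun h pq.1.1
      simp only [Sum.elim_inr, if_true, Pi.zero_apply, if_neg pq.2] at h4
      norm_num at h4)
  refine ⟨fun p => ((u p : ℕ) : ℤ), ?_, fun l => hav (Sum.inl l), fun a t => ?_⟩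
  · intro p q hpq
    by_contra hne
    apply hav (Sum.inr ⟨(p, q), hne⟩)
    simp only [Sum.elim_inr, sub_mul, ite_mul, one_mul, zero_mul, sum_sub_distrib, sum_ite_eq', mem_univ, if_true]
    simp only at hpq
    linarith
  -- extend the choice
  have hsel : ∃ t' : Fin S.m → Fin s, ∀ i, t' (S.e a i) = t i := by
    refine ⟨Function.extend (S.e a) t (fun _ => ⟨0, hs⟩), fun i => ?_⟩
    exact (S.inj a).extend_apply t _ i
  obtain ⟨t', ht'⟩ := hsel
  obtain ⟨b, hb, hbd⟩ := hu t' a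
  refine ⟨b, hb, fun i => ?_⟩
  have h5 := hbd i
  simp only [Function.comp_apply, ht'] at h5
  exact h5

end Pool.Agent.H62.EX
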