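import Pool.Agent.H34.EQ.Bip
import Pool.Agent.H62.EX.Lin
import Pool.Agent.H62.EX.Crt

/-!
# [H62 EX BXO] Exact patterns in a box of the lattice generated by `a`, for one nonsingular matrix

For almost all `a` there is a multiplier `m` such that for every subset `F` of `{0, M_1, .., M_k}` (rows of `M`) there are infinitely
many `t` such that, for the `x` in the box `|x_i| ≤ N`, `t + m (x . a)` is prime exactly for `x ∈ F`.
-/

set_option autoImplicit false

namespace Pool.Agent.H62.EX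

open Finset Filter Pool.Agent.H34.RR Pool.Agent.H61.UN Pool.Agent.H21.MT Pool.Agent.H92.MM Pool.Agent.H48.EP

/-- for the `x` in the box `t + m (x . a)` is prime exactly for `x ∈ F`, and then it is `≡ s₀ (mod W)` of colour `q` -/
def BoxPat {k r : ℕ} (W s₀ : ℕ) (χ : ℕ → Fin r) (q : Fin r) (N : ℕ) (F : Finset (Fin k → ℤ)) (m : ℕ) (a : Fin k → ℤ)
    (t : ℕ) : Prop :=
  ∀ x : Fin k → ℤ, (∀ i, |x i| ≤ N) → ∃ p' : ℕ, (p' : ℤ) = t + m * ∑ i, x i * a i ∧ (x ∈ F → Pr W s₀ χ q p') ∧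
    (x ∉ F → ¬ p'.Prime)

/-- the origin and the rows of `M` -/
def rws {k : ℕ} (M : Matrix (Fin k) (Fin k) ℤ) : Fin (k + 1) → (Fin k → ℤ) := Fin.cons 0 (fun i => M i)

/-- barycentric coordinates, times the determinant -/
def bary {k : ℕ} (M : Matrix (Fin k) (Fin k) ℤ) (x : Fin k → ℤ) : Fin (k + 1) → ℤ :=
  Fin.cons (M.det - ∑ i, Matrix.vecMul x M.adjugate i) (Matrix.vecMul x M.adjugate)

theorem sum_bary {k : ℕ} (M : Matrix (Fin k) (Fin k) ℤ) (x : Fin k → ℤ) : ∑ j, bary M x j = M.det := by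
  rw [Fin.sum_univ_succ]
  unfold bary
  simp only [Fin.cons_zero, Fin.cons_succ]
  ring

theorem vecMul_adj {k : ℕ} (M : Matrix (Fin k) (Fin k) ℤ) (x : Fin k → ℤ) :
    Matrix.vecMul (Matrix.vecMul x M.adjugate) M = M.det • x := by
  rw [Matrix.vecMul_vecMul, Matrix.adjugate_mul, Matrix.vecMul_smul, Matrix.vecMul_one]

theorem dot_adj {k : ℕ} (M : Matrix (Fin k) (Fin k) ℤ) (x a : Fin k → ℤ) :
    ∑ i, Matrix.vecMul x M.adjugate i * M.mulVec a i = M.det * ∑ i, x i * a i := by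
  have h1 : dotProduct (Matrix.vecMul x M.adjugate) (M.mulVec a) = dotProduct (M.det • x) a := by
    rw [Matrix.dotProduct_mulVec, vecMul_adj]
  rw [smul_dotProduct] at h1
  exact h1

theorem bary_single {k : ℕ} {M : Matrix (Fin k) (Fin k) ℤ} (hM : M.det ≠ 0) {x : Fin k → ℤ} {j₀ : Fin (k + 1)}
    (h : ∀ j, bary M x j = if j = j₀ then M.det else 0) : x = rws M j₀ := by
  have h1 : ∀ i, Matrix.vecMul x M.adjugate i = if i.succ = j₀ then M.det else 0 := by
    intro i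
    have := h i.succ
    unfold bary at this
    rwa [Fin.cons_succ] at this
  have h2 : ∀ j, M.det * x j = ∑ i, (if i.succ = j₀ then M.det else 0) * M i j := by
    intro j
    have h3 := congrFun (vecMul_adj M x) j
    rw [Pi.smul_apply, smul_eq_mul] at h3
    rw [← h3]
    show ∑ i, Matrix.vecMul x M.adjugate i * M i j = _
    refine sum_congr rfl fun i _ => ?_
    rw [h1]
  funext j
  refine mul_left_cancel₀ hM ?_
  rw [h2]
  unfold rws
  refine Fin.cases ?_ (fun i₀ => ?_) j₀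
  · rw [Fin.cons_zero]
    rw [Pi.zero_apply, mul_zero]
    refine sum_eq_zero fun i _ => ?_
    rw [if_neg (Fin.succ_ne_zero i), zero_mul]
  · rw [Fin.cons_succ, sum_eq_single i₀]
    · rw [if_pos rfl]
    · intro i _ hi
      rw [if_neg (fun h => hi (Fin.succ_injective _ h)), zero_mul]
    · intro h
      exact absurd (mem_univ _) h

/-- the box without the origin and the rows -/
noncomputable def bxF {k : ℕ} (N : ℕ) (M : Matrix (Fin k) (Fin k) ℤ) : Finset (Fin k → ℤ) := by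
  classical
  exact (Fintype.piFinset (fun _ : Fin k => Icc (-(N : ℤ)) N)).filter (fun x => ∀ j, x ≠ rws M j)

theorem mem_bxF {k N : ℕ} {M : Matrix (Fin k) (Fin k) ℤ} {x : Fin k → ℤ} :
    x ∈ bxF N M ↔ (∀ i, |x i| ≤ N) ∧ ∀ j, x ≠ rws M j := by
  classical
  unfold bxF
  rw [mem_filter, Fintype.mem_piFinset]
  refine and_congr (forall_congr' fun i => ?_) Iff.rfl
  rw [mem_Icc, abs_le]

/-- the linear form of a coincidence -/
def cof {k : ℕ} {Q : Type} [DecidableEq Q] (M : Matrix (Fin k) (Fin k) ℤ) (x : Fin k → ℤ) (pt : Fin (k + 1) → Q) (p : Q)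
    (p' : Q) : ℤ :=
  M.det * (if p' = p then 1 else 0) - ∑ j, bary M x j * (if p' = pt j then 1 else 0)

theorem cof_ne {k N : ℕ} {Q : Type} [DecidableEq Q] {M : Matrix (Fin k) (Fin k) ℤ} (hM : M.det ≠ 0) {x : Fin k → ℤ}
    (hx : x ∈ bxF N M) (pt : Fin (k + 1) → Q) (hpt : Function.Injective pt) (p : Q) : cof M x pt p ≠ 0 := by
  intro h
  have hev : ∀ j, bary M x j = if pt j = p then M.det else 0 := by
    intro j
    have h1 := congrFun h (pt j)
    unfold cof at h1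
    rw [Pi.zero_apply, sum_eq_single j (fun j' _ hj' => by rw [if_neg (fun h => hj' (hpt h).symm), mul_zero])
      (fun h => absurd (mem_univ _) h), if_pos rfl, mul_one] at h1
    by_cases h2 : pt j = p
    · rw [if_pos h2] at h1 ⊢
      linarith
    · rw [if_neg h2] at h1 ⊢
      linarith
  by_cases hp : ∃ j₀, pt j₀ = p
  · obtain ⟨j₀, hj₀⟩ := hp
    refine (mem_bxF.1 hx).2 j₀ (bary_single hM fun j => ?_)
    rw [hev j]
    by_cases h2 : j = j₀
    · rw [if_pos h2, if_pos (by rw [h2, hj₀])]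
    · rw [if_neg h2, if_neg (fun h => h2 (hpt (h.trans hj₀.symm)))]
  · push Not at hp
    have h1 := sum_bary M x
    rw [sum_eq_zero (fun j _ => by rw [hev j, if_neg (hp j)])] at h1
    exact hM h1.symm

theorem sum_cof {k : ℕ} {Q : Type} [Fintype Q] [DecidableEq Q] (M : Matrix (Fin k) (Fin k) ℤ) (x : Fin k → ℤ)
    (pt : Fin (k + 1) → Q) (p : Q) (f : Q → ℤ) :
    ∑ p', cof M x pt p p' * f p' = M.det * f p - ∑ j, bary M x j * f (pt j) := by
  unfold cof
  simp only [sub_mul, sum_sub_distrib]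
  congr 1
  · rw [sum_eq_single p]
    · rw [if_pos rfl, mul_one]
    · intro p' _ hp'
      rw [if_neg hp', mul_zero, zero_mul]
    · intro h
      exact absurd (mem_univ _) h
  · simp only [sum_mul]
    rw [sum_comm]
    refine sum_congr rfl fun j _ => ?_
    rw [sum_eq_single (pt j)]
    · rw [if_pos rfl, mul_one]
    · intro p' _ hp'
      rw [if_neg hp', mul_zero, zero_mul]
    · intro h
      exact absurd (mem_univ _) h

theorem mulVec_le {k : ℕ} (M : Matrix (Fin k) (Fin k) ℤ) (a : Fin k → ℤ) (z : ℕ) (ha : ∀ j, |a j| ≤ z) (i : Fin k) :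
    |M.mulVec a i| ≤ (((∑ i, ∑ j, (M i j).natAbs + 1) * z : ℕ) : ℤ) := by
  have h1 : |M.mulVec a i| ≤ ∑ j, |M i j| * z := by
    show |∑ j, M i j * a j| ≤ _
    refine (abs_sum_le_sum_abs _ _).trans (sum_le_sum fun j _ => ?_)
    rw [abs_mul]
    exact mul_le_mul_of_nonneg_left (ha j) (abs_nonneg _)
  have h2 : ∑ j, |M i j| * (z : ℤ) = ((∑ j, (M i j).natAbs * z : ℕ) : ℤ) := by
    push_cast
    refine sum_congr rfl fun j _ => ?_
    rfl
  rw [h2] at h1
  refine h1.trans ?_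
  rw [← sum_mul]
  have h3 : ∑ j, (M i j).natAbs ≤ ∑ i, ∑ j, (M i j).natAbs + 1 := by
    have := single_le_sum (f := fun i => ∑ j, (M i j).natAbs) (fun _ _ => Nat.zero_le _) (mem_univ i)
    omega
  exact_mod_cast Nat.mul_le_mul_right z h3

theorem mulVec_inj {k : ℕ} {M : Matrix (Fin k) (Fin k) ℤ} (hM : M.det ≠ 0) : Function.Injective (fun a => M.mulVec a) := by
  intro a a' h
  have h1 : M.mulVec (a - a') = 0 := by
    rw [Matrix.mulVec_sub]
    exact sub_eq_zero.2 h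
  exact sub_eq_zero.1 (Matrix.eq_zero_of_mulVec_eq_zero hM h1)

/-- all patterns for `M` occur infinitely often -/
def Bgood {k r : ℕ} (W s₀ : ℕ) (χ : ℕ → Fin r) (N : ℕ) (M : Matrix (Fin k) (Fin k) ℤ) (m : ℕ) (a : Fin k → ℤ) : Prop :=
  ∀ J : Finset (Fin (k + 1)), ∃ q : Fin r, {t : ℕ | BoxPat W s₀ χ q N (J.image (rws M)) m a t}.Infinite

open Classical in
/-- **exact patterns in a box for one matrix** -/
theorem box_one (k r N : ℕ) (M : Matrix (Fin k) (Fin k) ℤ) (hM : M.det ≠ 0) : ∃ n P : ℕ, 0 < P ∧ ∀ c : Fin n → ℕ, (∀ i, 1 ≤ c i) →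
    ∀ ε : ℝ, 0 < ε → ∃ B : ℕ, ∀ W s₀ : ℕ, 0 < W → Nat.Coprime s₀ W → ∀ (χ : ℕ → Fin r) (z : ℕ), B ≤ z → ∀ b : Fin k → ℤ,
      (((Fintype.piFinset (fun j : Fin k => Ioc (b j) (b j + z))).filter (fun a => ¬ ∃ I : Finset (Fin n), I.Nonempty ∧
        Bgood W s₀ χ N M (P * W * ∑ i ∈ I, c i) a)).card : ℝ) ≤ ε * (z : ℝ) ^ k := by
  rcases Nat.eq_zero_or_pos r with hr | hr
  · subst hr
    exact ⟨0, 1, one_pos, fun _ _ _ _ => ⟨0, fun _ _ _ _ χ => (χ 0).elim0⟩⟩
  have hr0 : (0 : ℝ) < r := by exact_mod_cast hr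
  obtain ⟨n, m, hm, hsys⟩ := Pool.Agent.H34.EQ.sys_words_c k (1 / (100 * (r : ℝ))) (by positivity)
  obtain ⟨s, wd, hs, hsv⟩ := one_prime m hm
  obtain ⟨P, hPd⟩ : ∃ P : ℕ, P = primorial wd := ⟨_, rfl⟩
  have hP : 0 < P := by rw [hPd]; exact primorial_pos wd
  refine ⟨n, P, hP, fun c hc ε hε => ?_⟩
  obtain ⟨S, hSm, hSI⟩ := hsys c hc
  subst hSm
  -- the number of choices of the subset for each multiplier
  obtain ⟨Nf, hNf⟩ : ∃ Nf : ℕ, Nf = Fintype.card (Finset (Fin n) → Finset (Fin (k + 1))) := ⟨_, rfl⟩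
  have hNf0 : (0 : ℝ) < Nf := by
    rw [hNf]
    exact_mod_cast Fintype.card_pos
  obtain ⟨Cz, hCz⟩ : ∃ Cz : ℕ, Cz = ∑ i, ∑ j, (M i j).natAbs + 1 := ⟨_, rfl⟩
  have hCz1 : 1 ≤ Cz := by omega
  have hCz0 : (0 : ℝ) < Cz := by exact_mod_cast hCz1
  obtain ⟨z₀, hz₀⟩ := one_confL S (s + 1) (by omega)
    (Fin S.L × (Fin (k + 1) → Fin (s + 1)) × {x : Fin k → ℤ // x ∈ bxF N M} × (Fin S.m × Fin (s + 1)))
    (ε / (Nf * (Cz : ℝ) ^ k)) (by positivity)
  refine ⟨z₀, fun W s₀ hW hs₀ χ z hz b => ?_⟩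
  obtain ⟨R, hRd⟩ : ∃ R : ℕ, R = P * W := ⟨_, rfl⟩
  have hR : 0 < R := by rw [hRd]; exact Nat.mul_pos hP hW
  have hRw : primorial wd ∣ R := by rw [hRd, hPd]; exact Dvd.intro _ rfl
  have hWR : W ∣ R := by rw [hRd]; exact Dvd.intro_left _ rfl
  have : NeZero W := ⟨hW.ne'⟩
  obtain ⟨ρ, hρ1, hρ2, hρ3⟩ := Nat.forall_exists_prime_gt_and_modEq R hW.ne' hs₀
  have hρR := Nat.coprime_of_lt_prime hR.ne' hρ1 hρ2
  by_contra hcon
  rw [not_le] at hcon
  obtain ⟨E, hE⟩ : ∃ E : Finset (Fin k → ℤ), E = (Fintype.piFinset (fun j : Fin k => Ioc (b j) (b j + z))).filter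
      (fun a => ¬ ∃ I : Finset (Fin n), I.Nonempty ∧ Bgood W s₀ χ N M (P * W * ∑ i ∈ I, c i) a) := ⟨_, rfl⟩
  rw [← hE] at hcon
  -- a bad subset for each multiplier
  have hch : ∀ (a : Fin k → ℤ) (I : Finset (Fin n)), ∃ J : Finset (Fin (k + 1)), a ∈ E → I.Nonempty →
      ∀ q : Fin r, ¬ {t : ℕ | BoxPat W s₀ χ q N (J.image (rws M)) (P * W * ∑ i ∈ I, c i) a t}.Infinite := by
    intro a I
    by_cases ha : a ∈ E
    · by_cases hI : I.Nonempty
      · have h1 := ha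
        rw [hE, mem_filter] at h1
        have h2 : ¬ Bgood W s₀ χ N M (P * W * ∑ i ∈ I, c i) a := fun h => h1.2 ⟨I, hI, h⟩
        unfold Bgood at h2
        push Not at h2
        obtain ⟨F, hF⟩ := h2
        exact ⟨F, fun _ _ q => Set.not_infinite.2 (hF q)⟩
      · exact ⟨∅, fun _ h => absurd h hI⟩
    · exact ⟨∅, fun h => absurd h ha⟩
  choose φ hφ using hch
  obtain ⟨f, -, hf⟩ := Finset.exists_le_card_fiber_of_nsmul_le_card_of_maps_to (s := E)
    (t := (univ : Finset (Finset (Fin n) → Finset (Fin (k + 1))))) (f := φ) (b := ε / Nf * (z : ℝ) ^ k)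
    (fun _ _ => mem_univ _) univ_nonempty (by
      rw [card_univ, ← hNf, nsmul_eq_mul]
      refine le_trans (le_of_eq ?_) hcon.le
      field_simp)
  obtain ⟨Ef, hEf⟩ : ∃ Ef : Finset (Fin k → ℤ), Ef = E.filter (fun a => φ a = f) := ⟨_, rfl⟩
  rw [← hEf] at hf
  -- the image of the translate
  obtain ⟨E', hE'⟩ : ∃ E' : Finset (Fin k → ℤ), E' = Ef.image (fun a => M.mulVec (a - b)) := ⟨_, rfl⟩
  have hEc : E'.card = Ef.card := by
    rw [hE']
    exact card_image_of_injective _ (fun x y h => sub_left_injective (mulVec_inj hM h))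
  have hEz : ∀ a ∈ E', ∀ i, |a i| ≤ ((Cz * z : ℕ) : ℤ) := by
    intro a ha i
    rw [hE', mem_image] at ha
    obtain ⟨a', ha', rfl⟩ := ha
    rw [hEf, mem_filter, hE, mem_filter, Fintype.mem_piFinset] at ha'
    rw [hCz]
    refine mulVec_le M _ z (fun j => ?_) i
    have h1 := mem_Ioc.1 (ha'.1.1 j)
    rw [Pi.sub_apply, abs_le]
    constructor
    · have : (0 : ℤ) ≤ z := Nat.cast_nonneg _
      linarith [h1.1]
    · linarith [h1.2]
  -- the relations which must be avoided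
  obtain ⟨τ, hτ⟩ : ∃ τ : Fin S.m → ℤ, τ = fun v => ∑ i, (S.c v i : ℤ) * M.mulVec b i := ⟨_, rfl⟩
  have hptinj : ∀ (a : Fin S.L) (t : Fin (k + 1) → Fin (s + 1)), Function.Injective (fun j => (S.e a j, t j)) := by
    intro a t j j' h
    rw [Prod.mk.injEq] at h
    exact S.inj a h.1
  obtain ⟨u, hu1, hu3, hu2⟩ := hz₀ (Cz * z) (hz.trans (Nat.le_mul_of_pos_left z hCz1)) E' hEz (by
    rw [hEc]
    refine le_trans (le_of_eq ?_) hf
    push_cast
    rw [mul_pow]
    field_simp) τ (fun l => cof M l.2.2.1.1 (fun j => (S.e l.1 j, l.2.1 j)) l.2.2.2)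
    (fun l => - ∑ p, cof M l.2.2.1.1 (fun j => (S.e l.1 j, l.2.1 j)) l.2.2.2 p * τ p.1)
    (fun l => cof_ne hM l.2.2.1.2 _ (hptinj _ _) _)
  obtain ⟨w, hw⟩ : ∃ w : Fin S.m × Fin (s + 1) → ℤ, w = fun p => u p + τ p.1 := ⟨_, rfl⟩
  have hw1 : Function.Injective w := by rw [hw]; exact hu1
  obtain ⟨Mb, hMb⟩ : ∃ Mb : ℤ, Mb = ∑ p, |w p| := ⟨_, rfl⟩
  have hwM : ∀ p, 0 ≤ w p + Mb := by
    intro p
    have h1 := single_le_sum (f := fun p => |w p|) (fun _ _ => abs_nonneg _) (mem_univ p)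
    have h2 := neg_abs_le (w p)
    rw [hMb]
    linarith
  obtain ⟨v, hv⟩ : ∃ v : Fin S.m × Fin (s + 1) → ℕ, v = fun p => ρ + R * (w p + Mb).toNat := ⟨_, rfl⟩
  have hvz : ∀ p, (v p : ℤ) = ρ + R * (w p + Mb) := by
    intro p
    rw [hv]
    push_cast
    rw [Int.toNat_of_nonneg (hwM p)]
  have hRz : (0 : ℤ) < R := by exact_mod_cast hR
  have hv1 : Function.Injective v := by
    intro p p' hpp
    apply hw1
    have h1 : (v p : ℤ) = v p' := by rw [hpp]
    rw [hvz, hvz] at h1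
    have h2 : (R : ℤ) * (w p + Mb) = R * (w p' + Mb) := by linarith
    have h3 := mul_left_cancel₀ hRz.ne' h2
    linarith
  have hv2 : ∀ p, v p ≡ ρ [MOD R] := by
    intro p
    rw [hv]
    show (ρ + R * (w p + Mb).toNat) % R = ρ % R
    rw [Nat.add_mul_mod_self_left]
  have hv3 : ∀ p, Nat.Coprime (v p) R := by
    intro p
    have h4 : Nat.gcd ρ R = 1 := hρR
    show Nat.gcd (v p) R = 1
    rw [← h4]
    exact Nat.ModEq.gcd_eq (hv2 p)
  have hv4 : ∀ (a : Fin S.L) (t : Fin (k + 1) → Fin (s + 1)), ∃ a₁ ∈ Ef, ∀ i : Fin k,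
      (v (S.e a i.succ, t i.succ) : ℤ) - (v (S.e a 0, t 0) : ℤ) = ((R * S.μ a : ℕ) : ℤ) * M.mulVec a₁ i := by
    intro a t
    obtain ⟨b', hb', hbd⟩ := hu2 a t
    rw [hE', mem_image] at hb'
    obtain ⟨a₁, ha₁, rfl⟩ := hb'
    refine ⟨a₁, ha₁, fun i => ?_⟩
    rw [hvz, hvz, hw, hτ]
    have h1 := hbd i
    have h2 : ∑ j, (S.c (S.e a i.succ) j : ℤ) * M.mulVec b j =
        ∑ j, (S.c (S.e a 0) j : ℤ) * M.mulVec b j + S.μ a * M.mulVec b i := by
      rw [← sub_eq_iff_eq_add', ← sum_sub_distrib, sum_eq_single i]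
      · rw [S.smp, if_pos rfl]
        push_cast
        ring
      · intro j _ hj
        rw [S.smp, if_neg (Ne.symm hj), Nat.add_zero, sub_self]
      · intro hh
        exact absurd (mem_univ _) hh
    dsimp only
    rw [h2]
    rw [Matrix.mulVec_sub, Pi.sub_apply] at h1
    push_cast
    linear_combination (R : ℤ) * h1
  choose A1 hA1 hA2 using hv4
  -- the positions of the other points of the box
  obtain ⟨pos, hpos⟩ : ∃ pos : Fin S.L → (Fin (k + 1) → Fin (s + 1)) → (Fin k → ℤ) → ℤ, pos = fun a t x =>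
      (v (S.e a 0, t 0) : ℤ) + ((R * S.μ a : ℕ) : ℤ) * ∑ i, x i * A1 a t i := ⟨_, rfl⟩
  have hrow : ∀ (a : Fin S.L) (t : Fin (k + 1) → Fin (s + 1)) (j : Fin (k + 1)), pos a t (rws M j) = v (S.e a j, t j) := by
    intro a t j
    rw [hpos]
    unfold rws
    refine Fin.cases ?_ (fun i => ?_) j
    · dsimp only
      rw [Fin.cons_zero]
      simp
    · dsimp only
      rw [Fin.cons_succ]
      have h1 := hA2 a t i
      have h2 : ∑ i', M i i' * A1 a t i' = M.mulVec (A1 a t) i := rfl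
      rw [h2]
      linarith
  have hcoin : ∀ (a : Fin S.L) (t : Fin (k + 1) → Fin (s + 1)) (x : Fin k → ℤ), x ∈ bxF N M → ∀ p, pos a t x ≠ v p := by
    intro a t x hx p hp
    apply hu3 (a, t, ⟨x, hx⟩, p)
    dsimp only
    have h1 : M.det * pos a t x = ∑ j, bary M x j * (v (S.e a j, t j) : ℤ) := by
      rw [hpos]
      dsimp only
      have h2 : M.det * ((v (S.e a 0, t 0) : ℤ) + ((R * S.μ a : ℕ) : ℤ) * ∑ i, x i * A1 a t i) =
          M.det * (v (S.e a 0, t 0) : ℤ) + ((R * S.μ a : ℕ) : ℤ) * (M.det * ∑ i, x i * A1 a t i) := by ring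
      rw [h2, ← dot_adj, mul_sum, Fin.sum_univ_succ]
      unfold bary
      simp only [Fin.cons_zero, Fin.cons_succ]
      have h3 : ∀ i ∈ (univ : Finset (Fin k)), ((R * S.μ a : ℕ) : ℤ) * (Matrix.vecMul x M.adjugate i * M.mulVec (A1 a t) i) =
          Matrix.vecMul x M.adjugate i * (v (S.e a i.succ, t i.succ) : ℤ) -
            Matrix.vecMul x M.adjugate i * (v (S.e a 0, t 0) : ℤ) := by
        intro i _
        have h4 := hA2 a t i
        linear_combination -(Matrix.vecMul x M.adjugate i) * h4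
      rw [sum_congr rfl h3, sum_sub_distrib, ← sum_mul]
      ring
    rw [hp] at h1
    have h5 := sum_cof M x (fun j => (S.e a j, t j)) p (fun p' => (v p' : ℤ))
    rw [h1, sub_self] at h5
    have h6 : ∑ p', cof M x (fun j => (S.e a j, t j)) p p' * (v p' : ℤ) =
        (ρ + R * Mb) * ∑ p', cof M x (fun j => (S.e a j, t j)) p p' * 1 +
          R * (∑ p', cof M x (fun j => (S.e a j, t j)) p p' * u p' + ∑ p', cof M x (fun j => (S.e a j, t j)) p p' * τ p'.1) := by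
      rw [mul_sum, ← sum_add_distrib, mul_sum, ← sum_add_distrib]
      refine sum_congr rfl fun p' _ => ?_
      rw [hvz, hw]
      ring
    rw [h6, sum_cof M x (fun j => (S.e a j, t j)) p (fun _ => 1)] at h5
    have h7 : ∑ j, bary M x j * 1 = M.det := by
      simp only [mul_one]
      exact sum_bary M x
    rw [h7, mul_one, sub_self, mul_zero, zero_add] at h5
    have h8 := (mul_eq_zero.1 h5).resolve_left hRz.ne'
    linarith
  obtain ⟨Gs, hGs⟩ : ∃ Gs : Finset ℤ, Gs = (univ : Finset (Fin S.m)).image (fun d => (v (d, Fin.last s) : ℤ)) ∪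
      ((univ : Finset (Fin S.L × (Fin (k + 1) → Fin (s + 1)))) ×ˢ bxF N M).image (fun l => pos l.1.1 l.1.2 l.2) := ⟨_, rfl⟩
  obtain ⟨R', N₁, hR', hRR', hRN, hcop, K, hK⟩ := crt_pos (P := Fin S.m × Fin s) R hR (fun p => v (p.1, p.2.castSucc))
    (fun p => hv3 _) Gs (by
      intro g hg p hgp
      rw [hGs, mem_union] at hg
      rcases hg with hg | hg
      · obtain ⟨d, -, rfl⟩ := mem_image.1 hg
        have h1 : v (d, Fin.last s) = v (p.1, p.2.castSucc) := by exact_mod_cast hgp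
        have h2 := hv1 h1
        rw [Prod.mk.injEq] at h2
        exact (Fin.castSucc_lt_last p.2).ne' h2.2
      · obtain ⟨l, hl, rfl⟩ := mem_image.1 hg
        exact hcoin l.1.1 l.1.2 l.2 (mem_product.1 hl).2 _ hgp)
  -- primes
  have hp : ∀ N₀ : ℕ, ∃ N' : ℕ, N₀ ≤ N' ∧ (∀ g ∈ Gs, ∀ p' : ℕ, (p' : ℤ) = N' + N₁ + g → ¬ p'.Prime) ∧
      ∃ x : Fin r × Fin S.L × (Fin (k + 1) → Fin s), ∀ j, Pr W s₀ χ x.1 (N' + N₁ + v (S.e x.2.1 j, (x.2.2 j).castSucc)) := by
    intro N₀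
    obtain ⟨N', hN, hRN', hwc⟩ := hsv R' hR' (hRw.trans hRR') (fun p => N₁ + v (p.1, p.2.castSucc)) (by
      intro p p' hpp
      have h1 : v (p.1, p.2.castSucc) = v (p'.1, p'.2.castSucc) := by
        simp only at hpp
        omega
      have h2 := hv1 h1
      rw [Prod.mk.injEq] at h2
      exact Prod.ext h2.1 (Fin.castSucc_injective _ h2.2)) hcop (max N₀ K)
    obtain ⟨q, a, t, hat⟩ := pick hr S χ N' (fun p => N₁ + v (p.1, p.2.castSucc)) hwc
    refine ⟨N', (le_max_left _ _).trans hN, fun g hg => hK N' ((le_max_right _ _).trans hN) hRN' g hg, (q, a, t), fun j => ?_⟩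
    have h0 := hat j
    simp only [← Nat.add_assoc] at h0
    refine ⟨h0.1, h0.2, ?_⟩
    have h4 : N' + N₁ ≡ 0 [MOD W] := Nat.modEq_zero_iff_dvd.2 (hWR.trans (dvd_add (hRR'.trans hRN') hRN))
    have h6 := h4.add ((hv2 (S.e a j, (t j).castSucc)).of_dvd hWR)
    rw [Nat.zero_add] at h6
    exact h6.trans hρ3
  obtain ⟨x, hx⟩ : ∃ x : Fin r × Fin S.L × (Fin (k + 1) → Fin s), ∀ N₀ : ℕ, ∃ N' : ℕ, N₀ ≤ N' ∧
      (∀ g ∈ Gs, ∀ p' : ℕ, (p' : ℤ) = N' + N₁ + g → ¬ p'.Prime) ∧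
      ∀ j, Pr W s₀ χ x.1 (N' + N₁ + v (S.e x.2.1 j, (x.2.2 j).castSucc)) := by
    by_contra hcon2
    push Not at hcon2
    choose g hg using hcon2
    obtain ⟨N', hN, hd, x, hx⟩ := hp (∑ x, g x)
    have h1 := single_le_sum (f := g) (fun _ _ => Nat.zero_le _) (mem_univ x)
    obtain ⟨j, hj⟩ := hg x N' (h1.trans hN) hd
    exact hj (hx j)
  obtain ⟨q, a, t⟩ := x
  obtain ⟨I, hI, hIμ⟩ := hSI a
  -- the subset is determined by the multiplier
  obtain ⟨J, hJ⟩ : ∃ J : Finset (Fin (k + 1)), J = f I := ⟨_, rfl⟩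
  obtain ⟨t', ht'⟩ : ∃ t' : Fin (k + 1) → Fin (s + 1), t' = fun j => if j ∈ J then (t j).castSucc else Fin.last s := ⟨_, rfl⟩
  obtain ⟨a₁, ha₁d⟩ : ∃ a₁, a₁ = A1 a t' := ⟨_, rfl⟩
  have ha₁ := hA1 a t'
  rw [← ha₁d, hEf, mem_filter] at ha₁
  have hbad := hφ a₁ I ha₁.1 hI q
  rw [ha₁.2, ← hJ, ← hIμ, ← hRd] at hbad
  apply hbad
  rw [← Set.not_finite]
  intro hfin
  obtain ⟨Bd, hBd⟩ := hfin.bddAbove
  obtain ⟨N', hN, hcomp, hx2⟩ := hx (Bd + 1 + ∑ g ∈ Gs, g.natAbs)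
  have h1 : N' + N₁ + v (S.e a 0, t' 0) ≤ Bd := hBd (by
    intro x hx
    have hposx : ((N' + N₁ + v (S.e a 0, t' 0) : ℕ) : ℤ) + ((R * S.μ a : ℕ) : ℤ) * ∑ i, x i * a₁ i =
        ((N' + N₁ : ℕ) : ℤ) + pos a t' x := by
      rw [hpos, ha₁d]
      push_cast
      ring
    by_cases hr1 : ∃ j, x = rws M j
    · -- a vertex of the simplex
      have hex : ∃ j, x = rws M j ∧ (x ∈ J.image (rws M) ↔ j ∈ J) := by
        by_cases hxJ : x ∈ J.image (rws M)
        · obtain ⟨j, hj, hjx⟩ := mem_image.1 hxJ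
          exact ⟨j, hjx.symm, fun _ => hj, fun _ => hxJ⟩
        · obtain ⟨j, hj⟩ := hr1
          exact ⟨j, hj, fun h => absurd h hxJ, fun h => by rw [hj]; exact mem_image_of_mem _ h⟩
      obtain ⟨j, hj, hjJ⟩ := hex
      refine ⟨N' + N₁ + v (S.e a j, t' j), ?_, fun h => ?_, fun h => ?_⟩
      · rw [hposx, hj, hrow]
        push_cast
        ring
      · rw [ht']
        show Pr W s₀ χ q (N' + N₁ + v (S.e a j, if j ∈ J then (t j).castSucc else Fin.last s))
        rw [if_pos (hjJ.1 h)]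
        exact hx2 j
      · rw [ht']
        show ¬ (N' + N₁ + v (S.e a j, if j ∈ J then (t j).castSucc else Fin.last s)).Prime
        rw [if_neg (fun h2 => h (hjJ.2 h2))]
        refine hcomp (v (S.e a j, Fin.last s) : ℤ) ?_ _ (by push_cast; ring)
        rw [hGs]
        exact mem_union_left _ (mem_image_of_mem _ (mem_univ _))
    · push Not at hr1
      have hxb : x ∈ bxF N M := mem_bxF.2 ⟨hx, hr1⟩
      have hg : pos a t' x ∈ Gs := by
        rw [hGs]
        exact mem_union_right _ (mem_image.2 ⟨((a, t'), x), mem_product.2 ⟨mem_univ _, hxb⟩, rfl⟩)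
      have hge : 0 ≤ ((N' + N₁ : ℕ) : ℤ) + pos a t' x := by
        have h2 := single_le_sum (f := fun g : ℤ => g.natAbs) (fun _ _ => Nat.zero_le _) hg
        have h3 : -((pos a t' x).natAbs : ℤ) ≤ pos a t' x := by
          have := neg_abs_le (pos a t' x)
          rw [Int.abs_eq_natAbs] at this
          exact this
        have h4 : ((pos a t' x).natAbs : ℤ) ≤ ((N' + N₁ : ℕ) : ℤ) := by
          have : (pos a t' x).natAbs ≤ N' + N₁ := by
            have h5 : (pos a t' x).natAbs ≤ ∑ g ∈ Gs, g.natAbs := h2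
            omega
          exact_mod_cast this
        linarith
      refine ⟨(((N' + N₁ : ℕ) : ℤ) + pos a t' x).toNat, ?_, fun h => ?_, fun _ => ?_⟩
      · rw [Int.toNat_of_nonneg hge, hposx]
      · obtain ⟨j, -, hjx⟩ := mem_image.1 h
        exact absurd hjx.symm (hr1 j)
      · refine hcomp _ hg _ ?_
        rw [Int.toNat_of_nonneg hge]
        push_cast
        ring)
  omega

end Pool.Agent.H62.EX
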