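import Pool.Agent.H62.EX.Abd
import Pool.Agent.H61.UN.Def

/-!
# [H62 EX CNF] Many injective configurations in one residue class
-/

set_option autoImplicit false

namespace Pool.Agent.H62.EX

open Finset Pool.Agent.H61.UN

/-- the number of functions which are not injective -/
theorem card_noninj (n : ℕ) (c : ℝ) (hc : 0 < c) : ∃ L0 : ℕ, ∀ L : ℕ, L0 ≤ L → 1 ≤ L ∧
    (1 - c) * (L : ℝ) ^ n ≤ (L.descFactorial n : ℝ) := by
  obtain ⟨L0, hL0⟩ := exists_nat_ge ((n : ℝ) ^ 2 / c + n + 1)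
  refine ⟨L0, fun L hL => ?_⟩
  have hLr : (n : ℝ) ^ 2 / c + n + 1 ≤ L := hL0.trans (by exact_mod_cast hL)
  have hn0 : (0 : ℝ) ≤ (n : ℝ) ^ 2 / c := by positivity
  have hn1 : (0 : ℝ) ≤ n := Nat.cast_nonneg n
  have hL1 : (1 : ℝ) ≤ L := by linarith
  have hLpos : (0 : ℝ) < L := by linarith
  refine ⟨by exact_mod_cast hL1, ?_⟩
  have h1 : (L + 1 - n) ^ n ≤ L.descFactorial n := Nat.pow_sub_le_descFactorial L n
  have h2 : ((L + 1 - n : ℕ) : ℝ) ^ n ≤ (L.descFactorial n : ℝ) := by exact_mod_cast h1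
  refine le_trans ?_ h2
  have hnL : n ≤ L + 1 := by
    have : (n : ℝ) ≤ L := by linarith
    have : n ≤ L := by exact_mod_cast this
    omega
  rw [Nat.cast_sub hnL]
  push_cast
  have h3 : (L : ℝ) * (1 - n / L) ≤ (L : ℝ) + 1 - n := by
    field_simp
    linarith
  have h4 : 0 ≤ (1 : ℝ) - n / L := by
    rw [sub_nonneg, div_le_one hLpos]
    linarith
  have h5 : 1 + (n : ℝ) * (-(n / L)) ≤ (1 + -((n : ℝ) / L)) ^ n := by
    refine one_add_mul_le_pow ?_ n
    have : (n : ℝ) / L ≤ 1 := by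
      rw [div_le_one hLpos]
      linarith
    linarith
  have h6 : (n : ℝ) * (n / L) ≤ c := by
    rw [← mul_div_assoc, div_le_iff₀ hLpos]
    have h7 : (n : ℝ) ^ 2 / c ≤ L := by linarith
    rw [div_le_iff₀ hc] at h7
    nlinarith
  have h8 : 1 - c ≤ (1 - (n : ℝ) / L) ^ n := by
    have e1 : (1 : ℝ) - n / L = 1 + -((n : ℝ) / L) := by ring
    rw [e1]
    linarith
  calc (1 - c) * (L : ℝ) ^ n ≤ (1 - (n : ℝ) / L) ^ n * (L : ℝ) ^ n :=
        mul_le_mul_of_nonneg_right h8 (by positivity)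
    _ = ((L : ℝ) * (1 - n / L)) ^ n := by rw [mul_pow]; ring
    _ ≤ ((L : ℝ) + 1 - n) ^ n := pow_le_pow_left₀ (by positivity) h3 n

/-- numbers `≡ ρ (mod R)` -/
theorem card_one (R ρ : ℕ) (hR : 0 < R) (L : ℕ) (hL : 2 * R ≤ L) :
    1 / (2 * (R : ℝ)) * L ≤ (((range L).filter (fun x => x ≡ ρ [MOD R])).card : ℝ) := by
  have h1 := Nat.count_modEq_card (b := L) hR ρ
  rw [Nat.count_eq_card_filter_range] at h1
  rw [h1]
  have hRr : (0 : ℝ) < R := by exact_mod_cast hR
  have h2 : L < R * (L / R + 1) := Nat.lt_mul_div_succ L hR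
  have h3 : (L : ℝ) < R * ((L / R : ℕ) + 1) := by exact_mod_cast h2
  have h4 : 2 ≤ L / R := (Nat.le_div_iff_mul_le hR).2 hL
  have h5 : (2 : ℝ) ≤ ((L / R : ℕ) : ℝ) := by exact_mod_cast h4
  have h6 : (0 : ℝ) ≤ ((if ρ % R < L % R then 1 else 0 : ℕ) : ℝ) := Nat.cast_nonneg _
  rw [Nat.cast_add, div_mul_eq_mul_div, one_mul, div_le_iff₀ (by positivity)]
  have h7 : (L : ℝ) ≤ ((L / R : ℕ) : ℝ) * (2 * R) := by nlinarith
  have h8 : 0 ≤ ((if ρ % R < L % R then 1 else 0 : ℕ) : ℝ) * (2 * R) := by positivity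
  linarith

open Classical in
private theorem card_inj {ι : Type} [Fintype ι] [DecidableEq ι] (L : ℕ) :
    L.descFactorial (Fintype.card ι) ≤
      ((Fintype.piFinset (fun _ : ι => range L)).filter Function.Injective).card := by
  have h1 : Fintype.card (ι ↪ Fin L) = L.descFactorial (Fintype.card ι) := by
    rw [Fintype.card_embedding_eq, Fintype.card_fin]
  rw [← h1, ← card_univ]
  refine card_le_card_of_injOn (fun f : ι ↪ Fin L => fun i => (f i : ℕ)) ?_ ?_
  · intro f _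
    rw [mem_coe, mem_filter, Fintype.mem_piFinset]
    exact ⟨fun i => mem_range.2 (f i).2, fun i i' h => f.injective (Fin.ext h)⟩
  · intro f _ g _ hfg
    ext i
    exact congrFun hfg i

open Classical in
theorem conf (k s J R ρ : ℕ) (hk : 1 ≤ k) (hs : 1 ≤ s) (hR : 0 < R) {Λ : Type} [Fintype Λ] (pos : Λ → Fin (k + 1))
    (η : ℕ → ℝ) (hη : ∀ q, 0 < η q) : ∃ (c : ℝ) (Q L0 : ℕ), 0 < c ∧ ∀ L : ℕ, L0 ≤ L →
      ∀ 𝓑 : Λ → Set (Fin k → ℤ), Hyp k η Q L (⋃ a, 𝓑 a) → ∀ (m : ℕ) (e : Fin m ≃ Nd k J),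
        ∃ 𝓗 : Finset (Fin m × Fin s → ℕ), c * (L : ℝ) ^ (m * s) ≤ 𝓗.card ∧
          ∀ v ∈ 𝓗, v ∈ IJ (Fin m × Fin s) L ∧ (∀ i, v i ≡ ρ [MOD R]) ∧
            Tr pos 𝓑 J (fun ν l => v (e.symm ν, l)) := by
  obtain ⟨c, Q, hc, h⟩ := abund k s hk hs pos η hη J (1 / (2 * (R : ℝ))) (by positivity)
  obtain ⟨L1, hL1⟩ := card_noninj (Fintype.card (Nd k J) * s) (c / 2) (by positivity)
  refine ⟨c / 2, Q, max L1 (2 * R), by positivity, fun L hL 𝓑 hH m e => ?_⟩
  obtain ⟨hL0, hdf⟩ := hL1 L ((le_max_left _ _).trans hL)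
  obtain ⟨S, hS⟩ : ∃ S : Finset ℕ, S = (range L).filter (fun x => x ≡ ρ [MOD R]) := ⟨_, rfl⟩
  have hSL : S ⊆ range L := by rw [hS]; exact filter_subset _ _
  have hcard : m = Fintype.card (Nd k J) := by
    rw [← Fintype.card_congr e, Fintype.card_fin]
  have h1 := h L hL0 𝓑 hH S hSL (by
    rw [hS]
    exact card_one R ρ hR L ((le_max_right _ _).trans hL))
  rw [← hcard] at h1 hdf
  obtain ⟨Y, hY⟩ : ∃ Y : Finset (Nd k J → Fin s → ℕ), Y =
    (Fintype.piFinset (fun _ : Nd k J => Fintype.piFinset (fun _ : Fin s => S))).filter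
      (fun y => Tr pos 𝓑 J y) := ⟨_, rfl⟩
  have hYc : c * (L : ℝ) ^ (m * s) ≤ Y.card := by
    rw [hY]
    exact h1
  obtain ⟨P, hP⟩ : ∃ P : Finset (Fin m × Fin s → ℕ), P = Fintype.piFinset (fun _ => range L) := ⟨_, rfl⟩
  have hPc : P.card = L ^ (m * s) := by
    rw [hP, Fintype.card_piFinset, prod_const, card_range, card_univ, Fintype.card_prod, Fintype.card_fin,
      Fintype.card_fin]
  have hin : L.descFactorial (m * s) ≤ (P.filter Function.Injective).card := by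
    have h2 := card_inj (ι := Fin m × Fin s) L
    rw [Fintype.card_prod, Fintype.card_fin, Fintype.card_fin] at h2
    rw [hP]
    exact h2
  have hni : (((P.filter (fun v => ¬ Function.Injective v)).card : ℕ) : ℝ) ≤ c / 2 * (L : ℝ) ^ (m * s) := by
    have h2 := card_filter_add_card_filter_not (s := P) (fun v => Function.Injective v)
    rw [hPc] at h2
    have h3 : (((P.filter (fun v => Function.Injective v)).card : ℕ) : ℝ) +
        ((P.filter (fun v => ¬ Function.Injective v)).card : ℕ) = (L : ℝ) ^ (m * s) := by exact_mod_cast h2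
    have h4 : ((L.descFactorial (m * s) : ℕ) : ℝ) ≤ ((P.filter Function.Injective).card : ℕ) := by
      exact_mod_cast hin
    have h5 : (((P.filter (fun v => Function.Injective v)).card : ℕ) : ℝ) =
      ((P.filter Function.Injective).card : ℕ) := rfl
    linarith
  obtain ⟨𝓗, h𝓗⟩ : ∃ 𝓗 : Finset (Fin m × Fin s → ℕ), 𝓗 = (Fintype.piFinset (fun _ => S)).filter
    (fun v => Function.Injective v ∧ Tr pos 𝓑 J (fun ν l => v (e.symm ν, l))) := ⟨_, rfl⟩
  refine ⟨𝓗, ?_, fun v hv => ?_⟩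
  · have h2 : Y.card ≤ (𝓗 ∪ P.filter (fun v => ¬ Function.Injective v)).card := by
      refine card_le_card_of_injOn (fun y p => y (e p.1) p.2) ?_ ?_
      · intro y hy
        have hy' : y ∈ Y := hy
        rw [hY, mem_filter, Fintype.mem_piFinset] at hy'
        obtain ⟨hy1, hy2⟩ := hy'
        have hy3 : ∀ ν l, y ν l ∈ S := fun ν l => Fintype.mem_piFinset.1 (hy1 ν) l
        rw [mem_coe, mem_union]
        by_cases hi : Function.Injective (fun p : Fin m × Fin s => y (e p.1) p.2)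
        · left
          rw [h𝓗, mem_filter, Fintype.mem_piFinset]
          refine ⟨fun p => hy3 _ _, hi, ?_⟩
          have h3 : (fun (ν : Nd k J) (l : Fin s) => y (e (e.symm ν)) l) = y := by
            funext ν l
            rw [Equiv.apply_symm_apply]
          show Tr pos 𝓑 J (fun (ν : Nd k J) (l : Fin s) => y (e (e.symm ν)) l)
          rw [h3]
          exact hy2
        · right
          rw [mem_filter, hP, Fintype.mem_piFinset]
          exact ⟨fun p => hSL (hy3 _ _), hi⟩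
      · intro y _ y' _ hyy
        funext ν l
        have h3 := congrFun hyy (e.symm ν, l)
        simp only [Equiv.apply_symm_apply] at h3
        exact h3
    have h3 : (Y.card : ℝ) ≤ 𝓗.card + (P.filter (fun v => ¬ Function.Injective v)).card := by
      exact_mod_cast h2.trans (card_union_le _ _)
    linarith
  · rw [h𝓗, mem_filter, Fintype.mem_piFinset] at hv
    obtain ⟨hv1, hv2, hv3⟩ := hv
    refine ⟨mem_IJ.2 ⟨fun i => (mem_range.1 (hSL (hv1 i))).le, hv2⟩, fun i => ?_, hv3⟩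
    have h2 := hv1 i
    rw [hS, mem_filter] at h2
    exact h2.2

end Pool.Agent.H62.EX
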