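import Pool.Agent.H62.EX.Df

/-!
# [H62 EX DRAFT] THEOREM E: the final statement
-/

set_option autoImplicit false

namespace Pool.Agent.H62.EX

open Finset

/-- the numbers `p + b j` are primes `≡ s₀ (mod W)` of colour `q` and for `i ∈ G` there is no prime of colour `q` between
`p + b i` and `p + b (i + 1)` -/
def Pat {k r : ℕ} (W s₀ : ℕ) (χ : ℕ → Fin r) (q : Fin r) (G : Finset (Fin k)) (b : Fin (k + 1) → ℕ) (p : ℕ) : Prop :=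
  (∀ j, (p + b j).Prime ∧ χ (p + b j) = q ∧ p + b j ≡ s₀ [MOD W]) ∧
    ∀ i ∈ G, ∀ y : ℕ, p + b i.castSucc < y → y < p + b i.succ → ¬ (y.Prime ∧ χ y = q)

/-- at most one pair of adjacent gaps -/
def OnePair {k : ℕ} (G : Finset (Fin k)) : Prop :=
  ∀ i ∈ G, ∀ i' ∈ G, ∀ l ∈ G, ∀ l' ∈ G, i.succ = i'.castSucc → l.succ = l'.castSucc → i = l

open Classical in
/-- **THEOREM E** -/
def ThmE : Prop := ∀ k r : ℕ, 1 ≤ k → ∃ D : ℕ, ∀ W s₀ : ℕ, 0 < W → Nat.Coprime s₀ W →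
  ∀ ε : ℝ, 0 < ε → ∃ (m₀ : ℕ) (c d B : ℝ), 0 < c ∧ 0 < d ∧
  ∀ (χ : ℕ → Fin r) (M : ℕ) (t : ℝ), t ≤ 1 → B ≤ t * Real.log M →
    ∃ z : ℕ, c * (t * Real.log M) ≤ z ∧ (z : ℝ) ≤ t * Real.log M ∧
      (((Fintype.piFinset (fun _ : Fin k => Icc 1 z)).filter (fun a => StrictMono a ∧
        ¬ ∃ m : ℕ, 1 ≤ m ∧ m ≤ m₀ ∧ ∀ G : Finset (Fin k), OnePair G → ∃ q : Fin r,
          d * t ^ D * M ≤ (t * Real.log M) ^ k * ({n : ℕ | n < M ∧ Pat W s₀ χ q G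
            (fun j => m * (Fin.cons 0 a : Fin (k + 1) → ℕ) j) (Nat.nth Nat.Prime n)}.ncard : ℝ))).card : ℝ) ≤
        ε * (z : ℝ) ^ k

end Pool.Agent.H62.EX
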