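import Pool.Agent.H62.EX.Det
import Pool.Agent.H62.EX.Draft
import Pool.Agent.H34.RR.Ob

/-!
# [H62 EX WPT] A good window contains a bad pattern
-/

set_option autoImplicit false

namespace Pool.Agent.H62.EX

open Finset Pool.Agent.H34.RR

open Classical in
theorem win_pat {k s r J m : ℕ} (hk : 1 ≤ k) (hs : 1 ≤ s) {Λ : Type} (pos : Λ → Fin (k + 1))
    (G : Λ → Finset (Fin k)) (hG : ∀ a, ∀ i ∈ G a, ∀ i' ∈ G a, i.succ = i'.castSucc → i.succ = pos a)
    (𝓑 : Λ → Set (Fin k → ℤ)) (hmono : ∀ a, ∀ y : Fin (k + 1) → ℕ, df y ∈ 𝓑 a → StrictMono y)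
    (W s₀ : ℕ) (χ : ℕ → Fin r) (N L : ℕ) (e : Fin m ≃ Nd k J) (v : Fin m × Fin s → ℕ) (hv : ∀ i, v i ≤ L)
    (hT : Tr pos 𝓑 J (fun ν l => v (e.symm ν, l)))
    (h1 : 1 < wc (fun d => wt k J (e d) / r) v N)
    (hcl : ∀ i, N + v i ≡ s₀ [MOD W]) (hw : ∀ y : ℕ, y ≤ L → (N + y).Prime → ∃ i, v i = y) :
    ∃ (a : Λ) (q : Fin r) (z : Fin (k + 1) → ℕ), df z ∈ 𝓑 a ∧ (∀ i, z i ≤ L) ∧
      Pat W s₀ χ q (G a) (fun i => z i - z 0) (N + z 0) := by
  have hr : 0 < r := (χ 0).pos
  have hr0 : (0 : ℝ) < r := by exact_mod_cast hr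
  obtain ⟨y, hy⟩ : ∃ y : Nd k J → Fin s → ℕ, y = fun ν l => v (e.symm ν, l) := ⟨_, rfl⟩
  rw [← hy] at hT
  obtain ⟨One, hOne⟩ : ∃ One : Fin r → Nd k J → Prop, One = fun q d =>
    (∃! l, (N + y d l).Prime) ∧ ∀ l, (N + y d l).Prime → χ (N + y d l) = q := ⟨_, rfl⟩
  -- some colour is heavy
  have hex : ∃ q : Fin r, 1 < ∑ d, if One q d then wt k J d else 0 := by
    by_contra hcon
    push Not at hcon
    have h2 : ∑ q : Fin r, ∑ d, (if One q d then wt k J d else 0) ≤ r := by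
      calc ∑ q : Fin r, ∑ d, (if One q d then wt k J d else 0) ≤ ∑ _q : Fin r, (1 : ℝ) := sum_le_sum fun q _ => hcon q
        _ = r := by simp
    rw [sum_comm] at h2
    have h3 : wc (fun d => wt k J (e d) / r) v N ≤
        (∑ d : Nd k J, ∑ q : Fin r, (if One q d then wt k J d else 0)) / r := by
      unfold wc
      rw [sum_div, ← Equiv.sum_comp e]
      refine sum_le_sum fun d _ => ?_
      by_cases hd : ∃! l : Fin s, (N + v (d, l)).Prime
      · rw [if_pos hd]
        refine div_le_div_of_nonneg_right ?_ hr0.le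
        obtain ⟨l, hl, hl2⟩ := hd
        have h4 : One (χ (N + v (d, l))) (e d) := by
          rw [hOne, hy]
          simp only [Equiv.symm_apply_apply]
          refine ⟨⟨l, hl, hl2⟩, fun l' hl' => ?_⟩
          rw [hl2 l' hl']
        have h5 : (if One (χ (N + v (d, l))) (e d) then wt k J (e d) else 0) ≤
            ∑ q : Fin r, (if One q (e d) then wt k J (e d) else 0) := by
          refine single_le_sum (f := fun q : Fin r => if One q (e d) then wt k J (e d) else 0) ?_ (mem_univ _)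
          intro q _
          show 0 ≤ if One q (e d) then wt k J (e d) else 0
          split_ifs
          · exact wt_nonneg _ _ _
          · exact le_rfl
        rw [if_pos h4] at h5
        exact h5
      · rw [if_neg hd]
        refine div_nonneg (sum_nonneg fun q _ => ?_) hr0.le
        split_ifs
        · exact wt_nonneg _ _ _
        · exact le_rfl
    have h4 : (∑ d : Nd k J, ∑ q : Fin r, (if One q d then wt k J d else 0)) / r ≤ 1 := by
      rw [div_le_one hr0]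
      exact h2
    linarith
  obtain ⟨q, hq⟩ := hex
  obtain ⟨A, hA⟩ : ∃ A : Set ℕ, A = {x | x ≤ L ∧ (N + x).Prime ∧ χ (N + x) = q} := ⟨_, rfl⟩
  have hyL : ∀ d l, y d l ≤ L := by
    intro d l
    rw [hy]
    exact hv _
  obtain ⟨a, z, hz1, hz2, hz3⟩ := det hk hs pos G hG 𝓑 hmono A J y hT (One q)
    (by
      intro d hd
      rw [hOne] at hd
      obtain ⟨⟨l, hl, hl2⟩, hd2⟩ := hd
      refine ⟨l, ?_, fun l' hl' => ?_⟩
      · rw [hA]
        exact ⟨hyL d l, hl, hd2 l hl⟩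
      · rw [hA] at hl'
        rw [hl2 l' hl'.2.1])
    (by
      intro x hx _ _
      rw [hA] at hx
      obtain ⟨i, hi⟩ := hw x hx.1 hx.2.1
      refine ⟨e i.1, i.2, ?_⟩
      rw [hy]
      simp only [Equiv.symm_apply_apply]
      exact hi)
    hq
  have hzm := hmono a z hz1
  have hz0 : ∀ i, z 0 ≤ z i := fun i => hzm.monotone (Fin.zero_le i)
  have hzA : ∀ i, z i ≤ L ∧ (N + z i).Prime ∧ χ (N + z i) = q := fun i => by
    have := (hz2 i).1
    rw [hA] at this
    exact this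
  have hadd : ∀ i, N + z 0 + (z i - z 0) = N + z i := fun i => by
    have := hz0 i
    omega
  refine ⟨a, q, z, hz1, fun i => (hzA i).1, fun i => ?_, fun i hi x hx1 hx2 hx => ?_⟩
  · show (N + z 0 + (z i - z 0)).Prime ∧ χ (N + z 0 + (z i - z 0)) = q ∧ N + z 0 + (z i - z 0) ≡ s₀ [MOD W]
    rw [hadd]
    refine ⟨(hzA i).2.1, (hzA i).2.2, ?_⟩
    obtain ⟨i', hi'⟩ := hw (z i) (hzA i).1 (hzA i).2.1
    rw [← hi']
    exact hcl i'
  · simp only [hadd] at hx1 hx2
    obtain ⟨x', rfl⟩ : ∃ x', x = N + x' := ⟨x - N, by omega⟩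
    have h2 : x' ≤ L := by
      have := (hzA i.succ).1
      omega
    exact hz3 i hi x' (by rw [hA]; exact ⟨h2, hx.1, hx.2⟩) (by omega) (by omega)

end Pool.Agent.H62.EX
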