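import Pool.Agent.H62.EX.Hy
import Pool.Agent.H62.EX.Cnf
import Pool.Agent.H62.EX.Wpt
import Pool.Agent.H62.EX.Siv
import Pool.Agent.H62.AU.Core
import Pool.Agent.H62.AU.Fin

/-!
# [H62 EX ASM] THEOREM E: assembly
-/

set_option autoImplicit false

namespace Pool.Agent.H62.EX

open Finset Filter Pool.Agent.H61.UN Pool.Agent.H34.RR

/-- the labels -/
abbrev Lab (k : ℕ) : Type := {G : Finset (Fin k) // OnePair G}

theorem exists_pos (k : ℕ) : ∃ pos : Lab k → Fin (k + 1), ∀ a : Lab k, ∀ i ∈ a.1, ∀ i' ∈ a.1,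
    i.succ = i'.castSucc → i.succ = pos a := by
  have h : ∀ a : Lab k, ∃ p : Fin (k + 1), ∀ i ∈ a.1, ∀ i' ∈ a.1, i.succ = i'.castSucc → i.succ = p := by
    intro a
    by_cases hex : ∃ i ∈ a.1, ∃ i' ∈ a.1, i.succ = i'.castSucc
    · obtain ⟨i, hi, i', hi', hii⟩ := hex
      refine ⟨i.succ, fun l hl l' hl' hll => ?_⟩
      rw [a.2 i hi i' hi' l hl l' hl' hii hll]
    · exact ⟨0, fun i hi i' hi' hii => absurd ⟨i, hi, i', hi', hii⟩ hex⟩
  choose pos hpos using h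
  exact ⟨pos, hpos⟩

open Classical in
/-- the bad tuples -/
def Bad {k r : ℕ} (W s₀ : ℕ) (χ : ℕ → Fin r) (M : ℕ) (V Thr : ℝ) (a : Lab k) : Set (Fin k → ℤ) :=
  {b | StrictMono (Fin.cons 0 b : Fin (k + 1) → ℤ) ∧ ∀ q : Fin r,
    V * (((range M).filter (fun n => Pat W s₀ χ q a.1 (fun j => ((Fin.cons 0 b : Fin (k + 1) → ℤ) j).toNat)
      (Nat.nth Nat.Prime n))).card : ℝ) < Thr}

theorem bad_mono {k r : ℕ} (W s₀ : ℕ) (χ : ℕ → Fin r) (M : ℕ) (V Thr : ℝ) (a : Lab k) (y : Fin (k + 1) → ℕ)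
    (hy : df y ∈ Bad W s₀ χ M V Thr a) : StrictMono y := by
  have h1 : StrictMono (Fin.cons 0 (df y) : Fin (k + 1) → ℤ) := hy.1
  have h2 : ∀ i, (Fin.cons 0 (df y) : Fin (k + 1) → ℤ) i = (y i : ℤ) - y 0 := by
    intro i
    refine Fin.cases ?_ (fun j => ?_) i
    · simp
    · simp [df]
  intro i i' hii
  have h3 := h1 hii
  rw [h2, h2] at h3
  have : (y i : ℤ) < y i' := by linarith
  exact_mod_cast this

theorem ncard_eq (M : ℕ) (P : ℕ → Prop) [DecidablePred P] :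
    ({n : ℕ | n < M ∧ P n}.ncard) = ((range M).filter P).card := by
  rw [← Set.ncard_coe_finset]
  congr 1
  ext n
  simp

open Classical in
/-- if the tuple `a` is not good then all its small multiples are bad -/
theorem bad_of {k r : ℕ} (W s₀ : ℕ) (χ : ℕ → Fin r) (M : ℕ) (V Thr : ℝ) (a : Fin k → ℕ) (m : ℕ) (hm : 1 ≤ m)
    (ha : ∀ j, 1 ≤ a j) (hmono : StrictMono a)
    (h : ¬ ∀ G : Finset (Fin k), OnePair G → ∃ q : Fin r, Thr ≤ V * ({n : ℕ | n < M ∧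
      Pat W s₀ χ q G (fun j => m * (Fin.cons 0 a : Fin (k + 1) → ℕ) j) (Nat.nth Nat.Prime n)}.ncard : ℝ)) :
    (fun j => (m : ℤ) * (a j : ℤ)) ∈ ⋃ a : Lab k, Bad W s₀ χ M V Thr a := by
  push Not at h
  obtain ⟨G, hG, h⟩ := h
  rw [Set.mem_iUnion]
  refine ⟨⟨G, hG⟩, ?_, fun q => ?_⟩
  · intro i i' hii
    have hm0 : (0 : ℤ) < m := by exact_mod_cast hm
    refine Fin.cases (fun hii => ?_) (fun j hii => ?_) i hii
    · obtain ⟨j', rfl⟩ := Fin.exists_succ_eq.2 (Fin.pos_iff_ne_zero.1 hii)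
      rw [Fin.cons_zero, Fin.cons_succ]
      have : (0 : ℤ) < a j' := by exact_mod_cast ha j'
      positivity
    · have hne : i' ≠ 0 := by
        rintro rfl
        exact absurd hii (by simp)
      obtain ⟨j', rfl⟩ := Fin.exists_succ_eq.2 hne
      rw [Fin.cons_succ, Fin.cons_succ]
      have h1 : a j < a j' := hmono (Fin.succ_lt_succ_iff.1 hii)
      have h2 : (a j : ℤ) < a j' := by exact_mod_cast h1
      exact mul_lt_mul_of_pos_left h2 hm0
  · have h1 := h q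
    rw [ncard_eq] at h1
    have h2 : (fun j => ((Fin.cons 0 (fun j => (m : ℤ) * (a j : ℤ)) : Fin (k + 1) → ℤ) j).toNat) =
        fun j => m * (Fin.cons 0 a : Fin (k + 1) → ℕ) j := by
      funext i
      refine Fin.cases ?_ (fun j => ?_) i
      · simp
      · rw [Fin.cons_succ, Fin.cons_succ]
        have h3 : (m : ℤ) * (a j : ℤ) = ((m * a j : ℕ) : ℤ) := by push_cast; ring
        rw [h3, Int.toNat_natCast]
    rw [h2]
    exact h1

open Classical in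
/-- the union bound -/
theorem union_bd {k r : ℕ} (W s₀ : ℕ) (χ : ℕ → Fin r) (M L : ℕ) (V Thr : ℝ) (hV : 0 < V) (hT : 0 ≤ Thr) (P : ℕ → Prop)
    (hP : ∀ n, P n → ∃ (a : Lab k) (q : Fin r) (u : Fin k → ℕ), (∀ j, u j ≤ L) ∧
      (fun j => (u j : ℤ)) ∈ Bad W s₀ χ M V Thr a ∧
      Pat W s₀ χ q a.1 (Fin.cons 0 u : Fin (k + 1) → ℕ) (Nat.nth Nat.Prime n)) :
    V * ({n : ℕ | n < M ∧ P n}.ncard : ℝ) ≤ Fintype.card (Lab k) * r * ((L : ℝ) + 1) ^ k * Thr := by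
  obtain ⟨I, hI⟩ : ∃ I : Finset (Lab k × Fin r × (Fin k → ℕ)), I =
    ((univ : Finset (Lab k)) ×ˢ ((univ : Finset (Fin r)) ×ˢ
      Fintype.piFinset (fun _ : Fin k => range (L + 1)))).filter
      (fun p => (fun j => (p.2.2 j : ℤ)) ∈ Bad W s₀ χ M V Thr p.1) := ⟨_, rfl⟩
  have hIc : (I.card : ℝ) ≤ Fintype.card (Lab k) * r * ((L : ℝ) + 1) ^ k := by
    have h1 : I.card ≤ Fintype.card (Lab k) * (r * (L + 1) ^ k) := by
      rw [hI]
      refine (card_filter_le _ _).trans (le_of_eq ?_)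
      rw [card_product, card_product, card_univ, card_univ, Fintype.card_fin, Fintype.card_piFinset, prod_const,
        card_range, card_univ, Fintype.card_fin]
    have h2 : (I.card : ℝ) ≤ ((Fintype.card (Lab k) * (r * (L + 1) ^ k) : ℕ) : ℝ) := by exact_mod_cast h1
    refine h2.trans (le_of_eq ?_)
    push_cast
    ring
  rw [ncard_eq]
  have hsub : (range M).filter P ⊆ I.biUnion (fun p => (range M).filter (fun n =>
      Pat W s₀ χ p.2.1 p.1.1 (Fin.cons 0 p.2.2 : Fin (k + 1) → ℕ) (Nat.nth Nat.Prime n))) := by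
    intro n hn
    rw [mem_filter] at hn
    obtain ⟨a, q, u, hu1, hu2, hu3⟩ := hP n hn.2
    rw [mem_biUnion]
    refine ⟨(a, q, u), ?_, mem_filter.2 ⟨hn.1, hu3⟩⟩
    rw [hI, mem_filter, mem_product, mem_product, Fintype.mem_piFinset]
    exact ⟨⟨mem_univ _, mem_univ _, fun j => mem_range.2 (Nat.lt_succ_of_le (hu1 j))⟩, hu2⟩
  have h1 : (((range M).filter P).card : ℝ) ≤ ∑ p ∈ I, (((range M).filter (fun n =>
      Pat W s₀ χ p.2.1 p.1.1 (Fin.cons 0 p.2.2 : Fin (k + 1) → ℕ) (Nat.nth Nat.Prime n))).card : ℝ) := by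
    exact_mod_cast (card_le_card hsub).trans card_biUnion_le
  have h2 : ∀ p ∈ I, V * (((range M).filter (fun n =>
      Pat W s₀ χ p.2.1 p.1.1 (Fin.cons 0 p.2.2 : Fin (k + 1) → ℕ) (Nat.nth Nat.Prime n))).card : ℝ) ≤ Thr := by
    intro p hp
    rw [hI, mem_filter] at hp
    have h3 := hp.2.2 p.2.1
    have h4 : (fun j => ((Fin.cons 0 (fun j => (p.2.2 j : ℤ)) : Fin (k + 1) → ℤ) j).toNat) =
        (Fin.cons 0 p.2.2 : Fin (k + 1) → ℕ) := by
      funext i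
      refine Fin.cases ?_ (fun j => ?_) i
      · simp
      · rw [Fin.cons_succ, Fin.cons_succ, Int.toNat_natCast]
    rw [h4] at h3
    exact h3.le
  calc V * (((range M).filter P).card : ℝ) ≤ V * ∑ p ∈ I, (((range M).filter (fun n =>
          Pat W s₀ χ p.2.1 p.1.1 (Fin.cons 0 p.2.2 : Fin (k + 1) → ℕ) (Nat.nth Nat.Prime n))).card : ℝ) :=
          mul_le_mul_of_nonneg_left h1 hV.le
      _ = ∑ p ∈ I, V * (((range M).filter (fun n =>
          Pat W s₀ χ p.2.1 p.1.1 (Fin.cons 0 p.2.2 : Fin (k + 1) → ℕ) (Nat.nth Nat.Prime n))).card : ℝ) := mul_sum _ _ _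
      _ ≤ ∑ _p ∈ I, Thr := sum_le_sum h2
      _ = I.card * Thr := by rw [sum_const, nsmul_eq_mul]
      _ ≤ Fintype.card (Lab k) * r * ((L : ℝ) + 1) ^ k * Thr := mul_le_mul_of_nonneg_right hIc hT

/-- a class prime to a larger modulus -/
theorem exists_class (W s₀ R : ℕ) (hW : 0 < W) (hs : Nat.Coprime s₀ W) (hR : 0 < R) :
    ∃ ρ : ℕ, Nat.Coprime ρ R ∧ ρ ≡ s₀ [MOD W] := by
  have : NeZero W := ⟨hW.ne'⟩
  obtain ⟨p, hp1, hp2, hp3⟩ := Nat.forall_exists_prime_gt_and_modEq R hW.ne' hs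
  exact ⟨p, Nat.coprime_of_lt_prime hR.ne' hp1 hp2, hp3⟩

/-- every prime has a number -/
theorem exists_nth {p : ℕ} (hp : p.Prime) : ∃ n, Nat.nth Nat.Prime n = p :=
  ⟨Nat.count Nat.Prime p, Nat.nth_count hp⟩

open Classical in
theorem thmE : ThmE := by
  intro k r hk
  rcases Nat.eq_zero_or_pos r with hr | hr
  · subst hr
    exact ⟨0, fun _ _ _ _ ε _ => ⟨1, 1, 1, 1, one_pos, one_pos, fun χ => (χ 0).elim0⟩⟩
  have hr0 : (0 : ℝ) < r := by exact_mod_cast hr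
  have hk0 : (0 : ℝ) < k := by exact_mod_cast hk
  obtain ⟨J, hJ⟩ : ∃ J : ℕ, J = 100 * k * r := ⟨_, rfl⟩
  have hJ1 : 1 ≤ J := by
    rw [hJ]
    exact Nat.mul_pos (Nat.mul_pos (by norm_num) hk) hr
  obtain ⟨m, hmd⟩ : ∃ m : ℕ, m = Fintype.card (Nd k J) := ⟨_, rfl⟩
  have hm : 1 ≤ m := by
    obtain ⟨J', rfl⟩ : ∃ J', J = J' + 1 := ⟨J - 1, by omega⟩
    rw [hmd, card_nd]
    omega
  obtain ⟨e⟩ : Nonempty (Fin m ≃ Nd k J) := by
    rw [hmd]
    exact ⟨(Fintype.equivFin _).symm⟩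
  obtain ⟨s, wd, hs, hsv⟩ := sieveE m hm
  refine ⟨m * s, fun W s₀ hW hs₀ ε hε => ?_⟩
  obtain ⟨η, hη, hhyp⟩ := hyp_of k ε hε
  obtain ⟨pos, hpos⟩ := exists_pos k
  obtain ⟨R, hRd⟩ : ∃ R : ℕ, R = W * primorial wd := ⟨_, rfl⟩
  have hR : 0 < R := by rw [hRd]; exact Nat.mul_pos hW (primorial_pos wd)
  have hRw : primorial wd ∣ R := by rw [hRd]; exact Dvd.intro_left _ rfl
  have hWR : W ∣ R := by rw [hRd]; exact Dvd.intro _ rfl
  obtain ⟨ρ, hρ1, hρ2⟩ := exists_class W s₀ R hW hs₀ hR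
  obtain ⟨c, Q, L0, hc, hconf⟩ := conf k s J R ρ hk hs hR pos η hη
  obtain ⟨m₁, hm₁, hhyp⟩ := hhyp Q
  have hm₁r : (1 : ℝ) ≤ m₁ := by exact_mod_cast hm₁
  have hw0 : ∀ d : Fin m, 0 ≤ (fun d => wt k J (e d) / r) d := fun d => div_nonneg (wt_nonneg _ _ _) hr0.le
  have hw1 : 100 ≤ ∑ d : Fin m, (fun d => wt k J (e d) / r) d := by
    rw [← Finset.sum_div, Equiv.sum_comp e (wt k J), sum_wt k J hk, hJ]
    rw [le_div_iff₀ hr0, le_div_iff₀ hk0]
    push_cast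
    linarith
  obtain ⟨lam, δ, θ, T, H0, hlam, hlam1, hδ, hθ, hT, hH0, hx⟩ := hsv _ hw0 hw1 R hR hRw c hc
  obtain ⟨d0, xs, hd0, hxs, hwin⟩ := Pool.Agent.H62.AU.winU T hT
  have hev := (hxs.eventually hx).and ((hxs.eventually_gt_atTop 1).and hwin)
  obtain ⟨M1, hM1⟩ := eventually_atTop.1 hev
  obtain ⟨Kc, hKc⟩ : ∃ Kc : ℝ, Kc = (Fintype.card (Lab k) + 1) * r * 2 ^ k := ⟨_, rfl⟩
  have hKc0 : 0 < Kc := by rw [hKc]; positivity
  obtain ⟨d, hd⟩ : ∃ d : ℝ, d = d0 * (δ * (lam / 4) ^ (m * s)) / (2 * Kc) := ⟨_, rfl⟩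
  have hd1 : 0 < d := by rw [hd]; positivity
  obtain ⟨B, hBd⟩ : ∃ B : ℝ, B = max (Real.log ((M1 : ℝ) + 1)) ((L0 + m₁ + H0 + 2) / lam) := ⟨_, rfl⟩
  have hB1 : Real.log ((M1 : ℝ) + 1) ≤ B := hBd ▸ le_max_left _ _
  have hB2 : (L0 + m₁ + H0 + 2) / lam ≤ B := hBd ▸ le_max_right _ _
  refine ⟨m₁, lam / (2 * m₁), d, B, by positivity, hd1, fun χ M t ht hB => ?_⟩
  by_contra hcon
  push Not at hcon
  obtain ⟨y, hy⟩ : ∃ y, y = t * Real.log M := ⟨_, rfl⟩
  rw [← hy] at hB hcon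
  have hyB : L0 + m₁ + H0 + 2 ≤ lam * y := by
    rw [div_le_iff₀ hlam] at hB2
    nlinarith
  have hL00 : (0 : ℝ) ≤ L0 := Nat.cast_nonneg _
  have hy1 : 1 ≤ y := by
    by_contra hc2
    push Not at hc2
    nlinarith
  have hy0 : 0 < y := by linarith
  have hlM0 : 0 ≤ Real.log (M : ℝ) := Real.log_natCast_nonneg M
  have ht0 : 0 < t := by
    by_contra hc2
    have := mul_nonpos_of_nonpos_of_nonneg (not_lt.1 hc2) hlM0
    linarith
  have hlM : y ≤ Real.log M := by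
    rw [hy]
    calc t * Real.log M ≤ 1 * Real.log M := mul_le_mul_of_nonneg_right ht hlM0
      _ = Real.log M := one_mul _
  have hM0 : (0 : ℝ) < M := by
    by_contra hc2
    have h2 : (M : ℝ) = 0 := le_antisymm (not_lt.1 hc2) (Nat.cast_nonneg M)
    rw [h2, Real.log_zero] at hlM
    linarith
  have hMM : M1 ≤ M := by
    have h1 : Real.log ((M1 : ℝ) + 1) ≤ Real.log M := hB1.trans (hB.trans hlM)
    have h2 : (M1 : ℝ) + 1 ≤ M := (Real.log_le_log_iff (by positivity) hM0).1 h1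
    have h3 : ((M1 + 1 : ℕ) : ℝ) ≤ M := by
      push_cast
      exact h2
    have h4 : M1 + 1 ≤ M := by exact_mod_cast h3
    omega
  obtain ⟨hxx, hxs1, hlx1, hlx2, hwin⟩ := hM1 M hMM
  generalize xs M = X at hxx hxs1 hlx1 hlx2 hwin
  have hlX : 0 < Real.log X := by linarith
  -- the length
  obtain ⟨L, hLd⟩ : ∃ L : ℕ, L = ⌊lam * y⌋₊ := ⟨_, rfl⟩
  have hLy : (L : ℝ) ≤ lam * y := by
    rw [hLd]
    exact Nat.floor_le (by positivity)
  have hLy1 : lam * y < L + 1 := by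
    rw [hLd]
    exact Nat.lt_floor_add_one _
  have hLy2 : (L : ℝ) ≤ y := hLy.trans (by nlinarith)
  have hm₁0 : (0 : ℝ) ≤ m₁ := by linarith
  have hLL0 : L0 ≤ L := by
    have : (L0 : ℝ) ≤ L := by linarith
    exact_mod_cast this
  have hLm₁ : m₁ ≤ L := by
    have : (m₁ : ℝ) ≤ L := by linarith
    exact_mod_cast this
  have hLH0 : H0 ≤ L := by linarith
  have hL1 : (1 : ℝ) ≤ L := hH0.trans hLH0
  have hL2 : lam * y / 2 ≤ L := by linarith
  -- the bad tuples are dense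
  obtain ⟨V, hV⟩ : ∃ V : ℝ, V = y ^ k := ⟨_, rfl⟩
  obtain ⟨Thr, hThr⟩ : ∃ Thr : ℝ, Thr = d * t ^ (m * s) * M := ⟨_, rfl⟩
  have hV0 : 0 < V := by rw [hV]; positivity
  have hThr0 : 0 ≤ Thr := by rw [hThr]; positivity
  have hH := hhyp L hLm₁ (⋃ a : Lab k, Bad W s₀ χ M V Thr a) (by
    intro z hz1 hz2
    have h1 : (L : ℝ) ≤ m₁ * z := by exact_mod_cast hz1
    have h2 : (z : ℝ) ≤ L := by exact_mod_cast hz2
    have h3 := hcon z (by
      rw [div_mul_eq_mul_div, div_le_iff₀ (by positivity)]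
      nlinarith) (h2.trans hLy2)
    refine h3.trans_le (Nat.cast_le.2 (card_le_card ?_))
    intro a ha
    rw [mem_filter, Fintype.mem_piFinset] at ha ⊢
    refine ⟨ha.1, ha.2.1, fun n hn1 hn2 => ?_⟩
    refine bad_of W s₀ χ M V Thr a n hn1 (fun j => (mem_Icc.1 (ha.1 j)).1) ha.2.1 fun hcon2 => ?_
    obtain ⟨G, hG, h4⟩ := ha.2.2 n hn1 hn2
    obtain ⟨q, hq⟩ := hcon2 G hG
    have h5 := h4 q
    rw [← hV, ← hThr] at h5
    linarith)
  obtain ⟨𝓗, h𝓗1, h𝓗2⟩ := hconf L hLL0 (Bad W s₀ χ M V Thr) hH m e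
  have hcount := hxx L hLH0 (by
    refine hLy.trans (mul_le_mul_of_nonneg_left (hlM.trans hlx1) hlam.le)) 𝓗
    (fun v hv => ⟨(h𝓗2 v hv).1, fun i => by
      have h4 : Nat.gcd ρ R = 1 := hρ1
      show Nat.gcd (v i) R = 1
      rw [← h4]
      exact Nat.ModEq.gcd_eq ((h𝓗2 v hv).2.1 i)⟩) h𝓗1
  obtain ⟨P, hP⟩ : ∃ P : ℕ → Prop, P = fun n => ∃ (a : Lab k) (q : Fin r) (u : Fin k → ℕ), (∀ j, u j ≤ L) ∧
      (fun j => (u j : ℤ)) ∈ Bad W s₀ χ M V Thr a ∧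
      Pat W s₀ χ q a.1 (Fin.cons 0 u : Fin (k + 1) → ℕ) (Nat.nth Nat.Prime n) := ⟨_, rfl⟩
  have hfin := hwin P (δ * (L / Real.log X) ^ (m * s)) _ (by positivity) hcount (by
    intro N hN
    rw [mem_filter, mem_range, Nat.lt_succ_iff] at hN
    obtain ⟨h1, h2, h3, v, hv, hwc, hpr⟩ := hN
    have hX0 : 0 < X := by linarith
    refine ⟨(Nat.le_floor_iff (by positivity)).1 h1, ?_⟩
    obtain ⟨hv1, hv2, hv3⟩ := h𝓗2 v hv
    obtain ⟨a, q, z, hz1, hz2, hz3⟩ := win_pat hk hs pos (fun a => a.1) hpos (Bad W s₀ χ M V Thr)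
      (fun a y hy => bad_mono W s₀ χ M V Thr a y hy) W s₀ χ N L e v (mem_IJ.1 hv1).1 hv3 hwc
      (fun i => by
        have h4 : N ≡ 0 [MOD W] := Nat.modEq_zero_iff_dvd.2 (hWR.trans h3)
        have h5 := h4.add ((hv2 i).of_dvd hWR)
        rw [Nat.zero_add] at h5
        exact h5.trans hρ2) hpr
    have hzm := bad_mono W s₀ χ M V Thr a z hz1
    have hz0 : ∀ i, z 0 ≤ z i := fun i => hzm.monotone (Fin.zero_le i)
    have hp : (N + z 0).Prime := by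
      have h4 := (hz3.1 0).1
      simp only [Nat.sub_self, Nat.add_zero] at h4
      exact h4
    obtain ⟨n, hn⟩ := exists_nth hp
    refine ⟨n, ?_, ?_, ?_⟩
    · rw [hP]
      refine ⟨a, q, fun j => z j.succ - z 0, fun j => (Nat.sub_le _ _).trans (hz2 _), ?_, ?_⟩
      · have h4 : (fun j : Fin k => ((z j.succ - z 0 : ℕ) : ℤ)) = df z := by
          funext j
          rw [df, Nat.cast_sub (hz0 _)]
        rw [h4]
        exact hz1
      · rw [hn]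
        have h4 : (Fin.cons 0 (fun j : Fin k => z j.succ - z 0) : Fin (k + 1) → ℕ) = fun i => z i - z 0 := by
          funext i
          refine Fin.cases ?_ (fun j => ?_) i
          · simp
          · rw [Fin.cons_succ]
        rw [h4]
        exact hz3
    · rw [hn]
      exact Nat.le_add_right _ _
    · rw [hn]
      push_cast
      have h4 : (z 0 : ℝ) ≤ L := by exact_mod_cast hz2 0
      linarith)
  have hub := union_bd W s₀ χ M L V Thr hV0 hThr0 P (by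
    intro n hn
    rw [hP] at hn
    exact hn)
  -- comparison
  have h1 : V * (d0 * (δ * (L / Real.log X) ^ (m * s)) * M) ≤
      Fintype.card (Lab k) * r * ((L : ℝ) + 1) ^ k * Thr := (mul_le_mul_of_nonneg_left hfin hV0.le).trans hub
  have h2 : ((L : ℝ) + 1) ^ k ≤ 2 ^ k * V := by
    rw [hV, ← mul_pow]
    refine pow_le_pow_left₀ (by positivity) ?_ k
    linarith
  have h3 : lam / 4 * t ≤ L / Real.log X := by
    rw [le_div_iff₀ hlX]
    have h4 : lam / 4 * t * Real.log X ≤ lam / 4 * t * (2 * Real.log M) :=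
      mul_le_mul_of_nonneg_left hlx2 (by positivity)
    have h5 : lam / 4 * t * (2 * Real.log M) = lam * y / 2 := by rw [hy]; ring
    linarith
  have h4 : (lam / 4) ^ (m * s) * t ^ (m * s) ≤ (L / Real.log X) ^ (m * s) := by
    rw [← mul_pow]
    exact pow_le_pow_left₀ (by positivity) h3 _
  have h5 : V * (d0 * (δ * ((lam / 4) ^ (m * s) * t ^ (m * s))) * M) ≤ V * (Kc * Thr) := by
    calc V * (d0 * (δ * ((lam / 4) ^ (m * s) * t ^ (m * s))) * M)
        ≤ V * (d0 * (δ * (L / Real.log X) ^ (m * s)) * M) := by gcongr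
      _ ≤ Fintype.card (Lab k) * r * ((L : ℝ) + 1) ^ k * Thr := h1
      _ ≤ Fintype.card (Lab k) * r * (2 ^ k * V) * Thr := by gcongr
      _ ≤ (Fintype.card (Lab k) + 1) * r * (2 ^ k * V) * Thr := by
          gcongr
          linarith
      _ = V * (Kc * Thr) := by rw [hKc]; ring
  have h6 := le_of_mul_le_mul_left h5 hV0
  have h7 : Kc * Thr = d0 * (δ * ((lam / 4) ^ (m * s) * t ^ (m * s))) * M / 2 := by
    rw [hThr, hd]
    field_simp
  have h8 : 0 < d0 * (δ * ((lam / 4) ^ (m * s) * t ^ (m * s))) * M := by positivity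
  linarith

end Pool.Agent.H62.EX
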