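import Pool.Agent.H62.EX.Draft

/-!
# [H62 EX INF] The infinite clause with counts: the statement

For every colouring and every infinite set `𝓜₀` there are an infinite `𝓜 ⊆ 𝓜₀` and a Bohr set `B` such that almost all
increasing tuples `a ∈ B ^ k` are good: for every `G` with at most one adjacent pair there is a colour with
`≥ c M / (log M) ^ D` patterns below the `M`-th prime for all large `M ∈ 𝓜`.

Proof (helper34).  `D = m s` of the sieve (`box_class1` for a fixed configuration).  Choose `𝓜` diagonally such that for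
all of the countably many `(a, G, q)` the quotient `(log M) ^ D * count / M` has a limit in `[0, ∞]` along `𝓜`.  Bad: for some `G`
all these limits are `0`.  If the bad tuples had positive upper Banach density in every Bohr set, there would be a finite tree
of bad tuples (as in `dil_all`), all values `≡ ρ (mod R)`; the sieve for this one tree, `M → ∞` in `𝓜`, gives
one bad `(a, G, q)` with count `≥ δ M / (log M) ^ D` for infinitely many `M ∈ 𝓜`: contradiction.
-/

set_option autoImplicit false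

namespace Pool.Agent.H62.EX

open Finset

open Classical in
/-- the infinite clause with counts -/
def ThmI : Prop := ∀ k r : ℕ, 1 ≤ k → ∃ D : ℕ, ∀ W s₀ : ℕ, 0 < W → Nat.Coprime s₀ W →
  ∀ (χ : ℕ → Fin r) (𝓜₀ : Set ℕ), 𝓜₀.Infinite → ∃ 𝓜 : Set ℕ, 𝓜 ⊆ 𝓜₀ ∧ 𝓜.Infinite ∧
    ∃ (J : ℕ) (α : Fin J → ℝ) (ρ : ℝ), 0 < ρ ∧ ∀ ε : ℝ, 0 < ε → ∃ X₀ : ℕ, ∀ (z : ℕ) (b : Fin k → ℕ), X₀ ≤ z →
      (((Fintype.piFinset (fun j : Fin k => Icc (b j + 1) (b j + z))).filter (fun a : Fin k → ℕ => StrictMono a ∧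
        (∀ j i, ∃ n : ℤ, |(a j : ℝ) * α i - n| < ρ) ∧
        ¬ ∀ G : Finset (Fin k), OnePair G → ∃ (q : Fin r) (c : ℝ) (M₁ : ℕ), 0 < c ∧ ∀ M ∈ 𝓜, M₁ ≤ M →
          c * M ≤ Real.log M ^ D * ({n : ℕ | n < M ∧ Pat W s₀ χ q G (Fin.cons 0 a : Fin (k + 1) → ℕ)
            (Nat.nth Nat.Prime n)}.ncard : ℝ))).card : ℝ) ≤ ε * (z : ℝ) ^ k

end Pool.Agent.H62.EX
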