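import Pool.Agent.H62.EX.Reg

/-!
# [H62 EX COR] Dense sets contain many translates of the tuples of a set which is dense in all Bohr boxes

Proof.  `N = 4 L`, `f = 1_S` on `ZMod N` (`S ⊆ range L`), `Ev f = |S| / N ≥ δ / 4 =: δ'`.
`reg` with `κ` so small that `k √κ ≤ δ'^(k+1) / 4` and
`g q = η (7 q + 8) δ'^(k+1) / (8 (k+1) 4^k)`-like; `Q' = 7 Q + 8`.  Given `q, γ, u`: let `q' = 7 q + 8` and `α : Fin q' → ℝ`,
`α_i = (γ_i : ℝ) / N` (padded with `0`).  By `Hyp` the set `𝒜` of the `a ∈ 𝓑`, `|a_j| ≤ L / q'`, `|a_j α_i - m| ≤ 1 / q'`, has at least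
`η q' L^k` elements; `‖stdAddChar (γ_i a_j) - 1‖ ≤ 2π |a_j α_i - m| ≤ 1 / q`.
For `a ∈ 𝒜`, `C = (0, a)`: `Ev (∏ u(t + C_i)) ≥ Ev (u^(k+1)) - ∑_j Ev |u(t + a_j) - u t| ≥ δ'^(k+1) - k √κ ≥ (3/4) δ'^(k+1)` (Jensen
`inner_le_nnorm_mul_nnorm`/`inv_pow_le..` or `pow_arith_mean_le_arith_mean_pow`, Cauchy-Schwarz).
Sum over `C = (s, s + a)`, `s : ZMod N`, `a ∈ 𝒜` (injective for `L ≥ 1` as `|a_j| ≤ L < N/2`): by `unif_corr` with `m = k + 1`,
`N ∑_{a ∈ 𝒜} Ev (∏ f(t + C_i)) ≥ N |𝒜| (3/4) δ'^(k+1) - (k+1) (g q) N^(k+1) ≥ N |𝒜| δ'^(k+1) / 2`.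
`N ∑_a Ev (..)` counts the pairs `(t, a)` with `t + C_i ∈ S` for all `i`; `t ∈ S` is a number in `[0, L)`, `t + a_j` is in `(-L, 2L)` and is
congruent to an element of `S ⊆ [0, L)` modulo `4 L`, so it is this element; `y = (t, t + a)`, `df y = a ∈ 𝓑`.
-/

set_option autoImplicit false

namespace Pool.Agent.H62.EX

open Finset

theorem cor_abs_prod {ι : Type*} (s : Finset ι) (x y : ι → ℝ) (hx : ∀ i ∈ s, 0 ≤ x i ∧ x i ≤ 1)
    (hy : ∀ i ∈ s, 0 ≤ y i ∧ y i ≤ 1) :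
    |∏ i ∈ s, x i - ∏ i ∈ s, y i| ≤ ∑ i ∈ s, |x i - y i| := by
  classical
  induction s using Finset.induction_on with
  | empty => simp
  | insert a s ha ih =>
    rw [prod_insert ha, prod_insert ha, sum_insert ha]
    have ih' := ih (fun i hi => hx i (mem_insert_of_mem hi)) (fun i hi => hy i (mem_insert_of_mem hi))
    have hxa := hx a (mem_insert_self a s)
    have hya := hy a (mem_insert_self a s)
    have hPx0 : 0 ≤ ∏ i ∈ s, x i := prod_nonneg fun i hi => (hx i (mem_insert_of_mem hi)).1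
    have hPx1 : ∏ i ∈ s, x i ≤ 1 :=
      prod_le_one (fun i hi => (hx i (mem_insert_of_mem hi)).1) (fun i hi => (hx i (mem_insert_of_mem hi)).2)
    have e : x a * ∏ i ∈ s, x i - y a * ∏ i ∈ s, y i =
        (x a - y a) * ∏ i ∈ s, x i + y a * (∏ i ∈ s, x i - ∏ i ∈ s, y i) := by ring
    rw [e]
    refine (abs_add_le _ _).trans (add_le_add ?_ ?_)
    · rw [abs_mul, abs_of_nonneg hPx0]
      exact mul_le_of_le_one_right (abs_nonneg _) hPx1
    · rw [abs_mul, abs_of_nonneg hya.1]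
      exact (mul_le_of_le_one_left (abs_nonneg _) hya.2).trans ih'

theorem cor_ev_mono {N : ℕ} [NeZero N] {f g : ZMod N → ℝ} (h : ∀ t, f t ≤ g t) : Ev f ≤ Ev g := by
  unfold Ev
  have : (0 : ℝ) ≤ N := Nat.cast_nonneg N
  gcongr
  exact h _

theorem cor_ev_pow {N : ℕ} [NeZero N] {f : ZMod N → ℝ} (h : ∀ t, 0 ≤ f t) (n : ℕ) :
    (Ev f) ^ n ≤ Ev (fun t => f t ^ n) := by
  have hN : (N : ℝ) ≠ 0 := Nat.cast_ne_zero.2 (NeZero.ne N)
  have := Real.pow_arith_mean_le_arith_mean_pow (univ : Finset (ZMod N)) (fun _ => 1 / (N : ℝ)) f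
    (fun _ _ => by positivity) (by simp [ZMod.card, hN]) (fun i _ => h i) n
  unfold Ev
  rw [← mul_sum, ← mul_sum] at this
  rw [div_eq_mul_one_div, mul_comm, div_eq_mul_one_div (∑ t, f t ^ n), mul_comm (∑ t, f t ^ n)]
  exact this

theorem cor_ev_abs {N : ℕ} [NeZero N] (f : ZMod N → ℝ) {κ : ℝ} (h : Ev (fun t => f t ^ 2) ≤ κ) :
    Ev (fun t => |f t|) ≤ √κ := by
  apply Real.le_sqrt_of_sq_le
  refine (cor_ev_pow (fun t => abs_nonneg (f t)) 2).trans ?_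
  simp only [sq_abs]
  exact h

theorem cor_ev_sub {N : ℕ} [NeZero N] (f g : ZMod N → ℝ) :
    Ev (fun t => f t - g t) = Ev f - Ev g := by
  unfold Ev
  rw [sum_sub_distrib, sub_div]

theorem cor_ev_sum {N : ℕ} [NeZero N] {ι : Type*} (s : Finset ι) (f : ι → ZMod N → ℝ) :
    Ev (fun t => ∑ i ∈ s, f i t) = ∑ i ∈ s, Ev (f i) := by
  unfold Ev
  rw [sum_comm, sum_div]

theorem cor_u {N : ℕ} [NeZero N] (k : ℕ) (u : ZMod N → ℝ) (hu : ∀ t, 0 ≤ u t ∧ u t ≤ 1) (κ : ℝ)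
    (c : Fin k → ZMod N) (h : ∀ j, Ev (fun t => (u (t + c j) - u t) ^ 2) ≤ κ) :
    (Ev u) ^ (k + 1) - k * √κ ≤ Ev (fun t => ∏ i : Fin (k + 1), u (t + (Fin.cons 0 c : Fin (k + 1) → ZMod N) i)) := by
  have h1 : ∀ t, u t ^ (k + 1) - ∑ j : Fin k, |u (t + c j) - u t| ≤
      ∏ i : Fin (k + 1), u (t + (Fin.cons 0 c : Fin (k + 1) → ZMod N) i) := by
    intro t
    rw [Fin.prod_univ_succ]
    simp only [Fin.cons_zero, add_zero, Fin.cons_succ]
    have h2 := cor_abs_prod (univ : Finset (Fin k)) (fun j => u (t + c j)) (fun _ => u t)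
      (fun i _ => hu _) (fun i _ => hu _)
    rw [prod_const, card_univ, Fintype.card_fin] at h2
    have h3 := (abs_le.1 h2).1
    have h4 : 0 ≤ ∑ j : Fin k, |u (t + c j) - u t| := sum_nonneg fun _ _ => abs_nonneg _
    have h5 : u t * (u t ^ k - ∑ j : Fin k, |u (t + c j) - u t|) ≤ u t * ∏ j : Fin k, u (t + c j) :=
      mul_le_mul_of_nonneg_left (by linarith) (hu t).1
    have h6 : u t * ∑ j : Fin k, |u (t + c j) - u t| ≤ ∑ j : Fin k, |u (t + c j) - u t| :=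
      mul_le_of_le_one_left h4 (hu t).2
    have h7 : u t ^ (k + 1) = u t * u t ^ k := by ring
    nlinarith
  refine le_trans ?_ (cor_ev_mono h1)
  rw [cor_ev_sub, cor_ev_sum]
  have h2 := cor_ev_pow (fun t => (hu t).1) (k + 1)
  have h3 : ∑ j : Fin k, Ev (fun t => |u (t + c j) - u t|) ≤ k * √κ := by
    have := sum_le_card_nsmul (univ : Finset (Fin k)) (fun j => Ev (fun t => |u (t + c j) - u t|)) (√κ)
      (fun j _ => cor_ev_abs _ (h j))
    simpa using this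
  linarith

/-- the character at a point of the Bohr set -/
theorem cor_char {N : ℕ} [NeZero N] (γ : ZMod N) (a m : ℤ) :
    ‖ZMod.stdAddChar (γ * (a : ZMod N)) - 1‖ ≤ 2 * Real.pi * |(a : ℝ) * ((γ.val : ℝ) / N) - m| := by
  have e1 : γ * (a : ZMod N) = (((γ.val : ℤ) * a : ℤ) : ZMod N) := by
    push_cast
    rw [ZMod.natCast_zmod_val]
  rw [e1, ZMod.stdAddChar_coe]
  have hN : (N : ℂ) ≠ 0 := Nat.cast_ne_zero.2 (NeZero.ne N)
  have e2 : Complex.exp (2 * Real.pi * Complex.I * (((γ.val : ℤ) * a : ℤ) : ℂ) / N) =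
      Complex.exp (Complex.I * ((2 * Real.pi * ((a : ℝ) * ((γ.val : ℝ) / N) - m) : ℝ) : ℂ)) := by
    rw [← mul_one (Complex.exp (Complex.I * _)), ← Complex.exp_int_mul_two_pi_mul_I m, ← Complex.exp_add]
    congr 1
    push_cast
    field_simp
    ring
  rw [e2]
  refine (Real.norm_exp_I_mul_ofReal_sub_one_le).trans ?_
  rw [Real.norm_eq_abs, abs_mul, abs_of_nonneg (by positivity)]


theorem cor_trans {N : ℕ} [NeZero N] (f : ZMod N → ℝ) {n : ℕ} (C : Fin n → ZMod N) (s : ZMod N) :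
    Ev (fun t => ∏ i, f (t + (s + C i))) = Ev (fun t => ∏ i, f (t + C i)) := by
  unfold Ev
  congr 1
  rw [← Equiv.sum_comp (Equiv.addRight s) (fun t => ∏ i, f (t + C i))]
  refine sum_congr rfl fun t _ => prod_congr rfl fun i _ => ?_
  rw [Equiv.coe_addRight, add_assoc]

theorem cor_cast_inj {L : ℕ} (hL : 1 ≤ L) {a b : ℤ} (ha : |a| ≤ L) (hb : |b| ≤ L)
    (h : (a : ZMod (4 * L)) = (b : ZMod (4 * L))) : a = b := by
  rw [ZMod.intCast_eq_intCast_iff_dvd_sub] at h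
  have h1 : |b - a| < ((4 * L : ℕ) : ℤ) := by
    have := abs_sub b a
    push_cast
    have hL' : (1 : ℤ) ≤ L := by exact_mod_cast hL
    linarith
  have h2 := Int.eq_zero_of_abs_lt_dvd h h1
  linarith

/-- the shifts `(s, s + a)` -/
def cv {k : ℕ} (N : ℕ) (a : Fin k → ℤ) : Fin (k + 1) → ZMod N := Fin.cons 0 (fun j => (a j : ZMod N))

theorem cor_shift {L k : ℕ} (hL : 1 ≤ L) [NeZero (4 * L)] (D : (Fin (k + 1) → ZMod (4 * L)) → ℝ)
    (hD0 : ∀ C, 0 ≤ D C) (hD : ∀ C s, D (fun i => s + C i) = D C) (A : Finset (Fin k → ℤ))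
    (hA : ∀ a ∈ A, ∀ j, |a j| ≤ L) :
    ((4 * L : ℕ) : ℝ) * ∑ a ∈ A, D (cv (4 * L) a) ≤ ∑ C, D C := by
  classical
  have h1 : ((4 * L : ℕ) : ℝ) * ∑ a ∈ A, D (cv (4 * L) a) =
      ∑ p ∈ (univ : Finset (ZMod (4 * L))) ×ˢ A, D (fun i => p.1 + cv (4 * L) p.2 i) := by
    rw [sum_product]
    simp only [hD]
    rw [sum_const, card_univ, ZMod.card, nsmul_eq_mul]
  rw [h1]
  have hinj : Set.InjOn (fun p : ZMod (4 * L) × (Fin k → ℤ) => fun i => p.1 + cv (4 * L) p.2 i)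
      ((univ : Finset (ZMod (4 * L))) ×ˢ A : Finset _) := by
    rintro ⟨s, a⟩ h ⟨s', a'⟩ h' e
    rw [mem_coe, mem_product] at h h'
    have e0 := congrFun e 0
    simp only [cv, Fin.cons_zero, add_zero] at e0
    subst e0
    have e1 : a = a' := by
      funext j
      have ej := congrFun e j.succ
      simp only [cv, Fin.cons_succ, add_right_inj] at ej
      exact cor_cast_inj hL (hA a h.2 j) (hA a' h'.2 j) ej
    rw [e1]
  rw [← sum_image (f := D) hinj]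
  exact sum_le_sum_of_subset_of_nonneg (subset_univ _) fun C _ _ => hD0 C

open Classical in
theorem cor_count {L k : ℕ} (hL : 1 ≤ L) [NeZero (4 * L)] (S : Finset ℕ) (hS : S ⊆ range L)
    (𝓑 : Set (Fin k → ℤ)) (A : Finset (Fin k → ℤ)) (hA : ∀ a ∈ A, a ∈ 𝓑 ∧ ∀ j, |a j| ≤ L) :
    ((4 * L : ℕ) : ℝ) * ∑ a ∈ A, Ev (fun t : ZMod (4 * L) =>
        ∏ i, (if (t + cv (4 * L) a i).val ∈ S then (1 : ℝ) else 0)) ≤
      (((Fintype.piFinset (fun _ : Fin (k + 1) => S)).filter (fun y => df y ∈ 𝓑)).card : ℝ) := by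
  have hN : ((4 * L : ℕ) : ℝ) ≠ 0 := Nat.cast_ne_zero.2 (NeZero.ne _)
  have h1 : ((4 * L : ℕ) : ℝ) * ∑ a ∈ A, Ev (fun t : ZMod (4 * L) =>
        ∏ i, (if (t + cv (4 * L) a i).val ∈ S then (1 : ℝ) else 0)) =
      (((A ×ˢ (univ : Finset (ZMod (4 * L)))).filter
        (fun p => ∀ i, (p.2 + cv (4 * L) p.1 i).val ∈ S)).card : ℝ) := by
    rw [mul_sum]
    have h2 : ∀ a ∈ A, ((4 * L : ℕ) : ℝ) * Ev (fun t : ZMod (4 * L) =>
        ∏ i, (if (t + cv (4 * L) a i).val ∈ S then (1 : ℝ) else 0)) =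
        ∑ t : ZMod (4 * L), if ∀ i, (t + cv (4 * L) a i).val ∈ S then (1 : ℝ) else 0 := by
      intro a _
      unfold Ev
      rw [mul_div_cancel₀ _ hN]
      refine sum_congr rfl fun t _ => ?_
      beta_reduce
      rw [prod_boole]
      simp
    rw [sum_congr rfl h2, ← sum_product', card_filter]
    push_cast
    rfl
  rw [h1]
  have hv : ∀ (a : Fin k → ℤ), (∀ j, |a j| ≤ L) → ∀ t : ZMod (4 * L),
      (∀ i, (t + cv (4 * L) a i).val ∈ S) → ∀ j : Fin k,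
        ((t + cv (4 * L) a j.succ).val : ℤ) - ((t + cv (4 * L) a 0).val : ℤ) = a j := by
    intro a ha t ht j
    have l1 := mem_range.1 (hS (ht j.succ))
    have l0 := mem_range.1 (hS (ht 0))
    have e : ((((t + cv (4 * L) a j.succ).val : ℤ) - ((t + cv (4 * L) a 0).val : ℤ) - a j : ℤ) :
        ZMod (4 * L)) = 0 := by
      push_cast
      rw [ZMod.natCast_zmod_val, ZMod.natCast_zmod_val]
      simp only [cv, Fin.cons_zero, Fin.cons_succ]
      ring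
    rw [ZMod.intCast_zmod_eq_zero_iff_dvd] at e
    have h3 := abs_le.1 (ha j)
    have h4 : |((t + cv (4 * L) a j.succ).val : ℤ) - ((t + cv (4 * L) a 0).val : ℤ) - a j| <
        ((4 * L : ℕ) : ℤ) := by
      rw [abs_lt]
      push_cast
      constructor <;> omega
    have h5 := Int.eq_zero_of_abs_lt_dvd e h4
    linarith
  norm_cast
  refine card_le_card_of_injOn (fun p => fun i => (p.2 + cv (4 * L) p.1 i).val) ?_ ?_
  · rintro ⟨a, t⟩ h
    rw [mem_coe, mem_filter, mem_product] at h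
    rw [mem_coe, mem_filter, Fintype.mem_piFinset]
    refine ⟨fun i => h.2 i, ?_⟩
    have : df (fun i => (t + cv (4 * L) a i).val) = a := by
      funext j
      exact hv a (hA a h.1.1).2 t h.2 j
    rw [this]
    exact (hA a h.1.1).1
  · rintro ⟨a, t⟩ h ⟨a', t'⟩ h' e
    rw [mem_coe, mem_filter, mem_product] at h h'
    have e0 := congrFun e 0
    simp only [cv, Fin.cons_zero, add_zero] at e0
    have et : t = t' := ZMod.val_injective _ e0
    subst et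
    have ea : a = a' := by
      funext j
      rw [← hv a (hA a h.1.1).2 t h.2 j, ← hv a' (hA a' h'.1.1).2 t h'.2 j]
      have ej := congrFun e j.succ
      have e00 := congrFun e 0
      simp only at ej e00
      rw [ej, e00]
    rw [ea]

theorem cor_pos_lb (η : ℕ → ℝ) (hη : ∀ q, 0 < η q) (Q : ℕ) : ∃ c : ℝ, 0 < c ∧ ∀ q ≤ Q, c ≤ η q := by
  induction Q with
  | zero => exact ⟨η 0, hη 0, fun q hq => by rw [Nat.le_zero.1 hq]⟩
  | succ Q ih =>
    obtain ⟨c, hc, h⟩ := ih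
    refine ⟨min c (η (Q + 1)), lt_min hc (hη _), fun q hq => ?_⟩
    rcases Nat.le_succ_iff.1 hq with h1 | h1
    · exact (min_le_left _ _).trans (h q h1)
    · rw [h1]
      exact min_le_right _ _

open Classical in
theorem corr (k : ℕ) (η : ℕ → ℝ) (hη : ∀ q, 0 < η q) (δ : ℝ) (hδ : 0 < δ) :
    ∃ (γ : ℝ) (Q : ℕ), 0 < γ ∧ ∀ L : ℕ, 1 ≤ L → ∀ 𝓑 : Set (Fin k → ℤ), Hyp k η Q L 𝓑 →
      ∀ S : Finset ℕ, S ⊆ range L → δ * L ≤ S.card →
        γ * (L : ℝ) ^ (k + 1) ≤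
          (((Fintype.piFinset (fun _ : Fin (k + 1) => S)).filter (fun y => df y ∈ 𝓑)).card : ℝ) := by
  set P : ℝ := (δ / 4) ^ (k + 1) with hP
  have hP0 : 0 < P := by positivity
  set κ : ℝ := (P / (4 * (k + 1))) ^ 2 with hκ
  have hκ0 : 0 < κ := by positivity
  have hsq : (k : ℝ) * √κ ≤ P / 4 := by
    rw [hκ, Real.sqrt_sq (by positivity)]
    rw [mul_div_assoc', div_le_div_iff₀ (by positivity) (by positivity)]
    nlinarith
  obtain ⟨Q, hQ⟩ := reg κ hκ0 (fun q => η (7 * q + 8) * P / (4 * (k + 1) * 4 ^ k))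
    (fun q => by have := hη (7 * q + 8); positivity)
  obtain ⟨c, hc0, hc⟩ := cor_pos_lb (fun q => η (7 * q + 8)) (fun q => hη _) Q
  refine ⟨2 * c * P, 7 * Q + 8, by positivity, ?_⟩
  intro L hL 𝓑 hB S hS hSc
  haveI : NeZero (4 * L) := ⟨by omega⟩
  have hLr : (0 : ℝ) < L := by exact_mod_cast hL
  have hN : (0 : ℝ) < ((4 * L : ℕ) : ℝ) := by push_cast; positivity
  set f : ZMod (4 * L) → ℝ := fun t => if t.val ∈ S then (1 : ℝ) else 0 with hf
  have hf01 : ∀ t, 0 ≤ f t ∧ f t ≤ 1 := by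
    intro t
    simp only [hf]
    split_ifs <;> norm_num
  obtain ⟨q, hq1, hqQ, γ, u, hu01, huf, hunif, hreg⟩ := hQ (4 * L) f hf01
  -- the mean of f
  have hEf : δ / 4 ≤ Ev f := by
    unfold Ev
    rw [le_div_iff₀ hN]
    have h1 : ∑ t, f t = (((univ : Finset (ZMod (4 * L))).filter (fun t => t.val ∈ S)).card : ℝ) := by
      rw [card_filter]
      push_cast
      rfl
    have h2 : S.card ≤ ((univ : Finset (ZMod (4 * L))).filter (fun t => t.val ∈ S)).card := by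
      refine card_le_card_of_injOn (fun n : ℕ => (n : ZMod (4 * L))) ?_ ?_
      · intro n hn
        rw [mem_coe] at hn
        have hn' := mem_range.1 (hS hn)
        rw [mem_coe, mem_filter]
        refine ⟨mem_univ _, ?_⟩
        rw [ZMod.val_natCast_of_lt (by omega)]
        exact hn
      · intro n hn n' hn' e
        rw [mem_coe] at hn hn'
        have h3 := mem_range.1 (hS hn)
        have h4 := mem_range.1 (hS hn')
        have := congrArg ZMod.val e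
        simp only at this
        rwa [ZMod.val_natCast_of_lt (by omega), ZMod.val_natCast_of_lt (by omega)] at this
    rw [h1]
    have h3 : (S.card : ℝ) ≤ (((univ : Finset (ZMod (4 * L))).filter (fun t => t.val ∈ S)).card : ℝ) := by
      exact_mod_cast h2
    push_cast
    linarith
  -- the set of shifts
  set q' : ℕ := 7 * q + 8 with hq'
  set α : Fin q' → ℝ := fun i => if h : (i : ℕ) < q then ((γ ⟨i, h⟩).val : ℝ) / ((4 * L : ℕ) : ℝ) else 0
    with hα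
  have hHyp := hB q' (by omega) (by omega) α
  set A : Finset (Fin k → ℤ) := (Fintype.piFinset (fun _ : Fin k => Icc (-(L : ℤ)) L)).filter
      (fun a => a ∈ 𝓑 ∧ ∀ j, Bo q' α L (a j)) with hA
  have hAL : ∀ a ∈ A, a ∈ 𝓑 ∧ ∀ j, |a j| ≤ (L : ℤ) := by
    intro a ha
    rw [hA, mem_filter, Fintype.mem_piFinset] at ha
    exact ⟨ha.2.1, fun j => abs_le.2 (mem_Icc.1 (ha.1 j))⟩
  have hAB : ∀ a ∈ A, ∀ j, ∀ i : Fin q, ‖ZMod.stdAddChar (γ i * ((a j : ℤ) : ZMod (4 * L))) - 1‖ * q ≤ 1 := by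
    intro a ha j i
    rw [hA, mem_filter] at ha
    obtain ⟨m, hm⟩ := (ha.2.2 j).2 ⟨i, by omega⟩
    have hαi : α ⟨i, by omega⟩ = ((γ i).val : ℝ) / ((4 * L : ℕ) : ℝ) := by
      simp only [hα]
      rw [dif_pos i.2]
    rw [hαi] at hm
    have h1 := cor_char (γ i) (a j) m
    have hq0 : (0 : ℝ) ≤ q := Nat.cast_nonneg q
    have hq'r : (q' : ℝ) = 7 * q + 8 := by rw [hq']; push_cast; ring
    rw [hq'r] at hm
    have hpi : 2 * Real.pi ≤ 7 := by linarith [Real.pi_lt_d2]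
    have hx : 0 ≤ |((a j : ℤ) : ℝ) * (((γ i).val : ℝ) / ((4 * L : ℕ) : ℝ)) - m| := abs_nonneg _
    calc ‖ZMod.stdAddChar (γ i * ((a j : ℤ) : ZMod (4 * L))) - 1‖ * q
        ≤ (7 * |((a j : ℤ) : ℝ) * (((γ i).val : ℝ) / ((4 * L : ℕ) : ℝ)) - m|) * q := by
          refine mul_le_mul_of_nonneg_right (h1.trans ?_) hq0
          exact mul_le_mul_of_nonneg_right hpi hx
      _ ≤ |((a j : ℤ) : ℝ) * (((γ i).val : ℝ) / ((4 * L : ℕ) : ℝ)) - m| * (7 * q + 8) := by nlinarith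
      _ ≤ 1 := hm
  -- the lower bound for u
  have hU : ∀ a ∈ A, 3 / 4 * P ≤ Ev (fun t => ∏ i, u (t + cv (4 * L) a i)) := by
    intro a ha
    have h1 := cor_u k u hu01 κ (fun j => ((a j : ℤ) : ZMod (4 * L))) (fun j => hreg _ (hAB a ha j))
    have h2 : P ≤ (Ev u) ^ (k + 1) := by
      rw [hP, huf]
      exact pow_le_pow_left₀ (by positivity) hEf _
    have h3 : (fun t => ∏ i, u (t + cv (4 * L) a i)) = fun t => ∏ i : Fin (k + 1),
        u (t + (Fin.cons 0 (fun j => ((a j : ℤ) : ZMod (4 * L))) : Fin (k + 1) → ZMod (4 * L)) i) := rfl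
    rw [h3]
    linarith
  -- the correlations
  have hcorr := unif_corr f u (fun t => abs_le.2 ⟨by linarith [(hf01 t).1], (hf01 t).2⟩)
    (fun t => abs_le.2 ⟨by linarith [(hu01 t).1], (hu01 t).2⟩)
    (η (7 * q + 8) * P / (4 * (k + 1) * 4 ^ k)) (by have := hη (7 * q + 8); positivity) hunif (k + 1)
  have hsh := cor_shift hL (fun C : Fin (k + 1) → ZMod (4 * L) =>
      |Ev (fun t => ∏ i, f (t + C i)) - Ev (fun t => ∏ i, u (t + C i))|)
    (fun C => abs_nonneg _) (fun C s => by rw [cor_trans, cor_trans]) A (fun a ha => (hAL a ha).2)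
  have hcnt := cor_count hL S hS 𝓑 A hAL
  refine le_trans ?_ hcnt
  have hFa : ∀ a ∈ A, 3 / 4 * P - |Ev (fun t => ∏ i, f (t + cv (4 * L) a i)) -
      Ev (fun t => ∏ i, u (t + cv (4 * L) a i))| ≤ Ev (fun t => ∏ i, f (t + cv (4 * L) a i)) := by
    intro a ha
    have h1 := hU a ha
    have h2 := (abs_le.1 (le_refl |Ev (fun t => ∏ i, f (t + cv (4 * L) a i)) -
      Ev (fun t => ∏ i, u (t + cv (4 * L) a i))|)).1
    linarith
  have hsum : (A.card : ℝ) * (3 / 4 * P) - ∑ a ∈ A, |Ev (fun t => ∏ i, f (t + cv (4 * L) a i)) -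
      Ev (fun t => ∏ i, u (t + cv (4 * L) a i))| ≤ ∑ a ∈ A, Ev (fun t => ∏ i, f (t + cv (4 * L) a i)) := by
    have := sum_le_sum hFa
    rw [sum_sub_distrib, sum_const, nsmul_eq_mul] at this
    exact this
  have hA1 : η (7 * q + 8) * (L : ℝ) ^ k ≤ A.card := hHyp
  have hc1 : c ≤ η (7 * q + 8) := hc q hqQ
  -- final computation
  have hmain : ((4 * L : ℕ) : ℝ) * ∑ a ∈ A, |Ev (fun t => ∏ i, f (t + cv (4 * L) a i)) -
      Ev (fun t => ∏ i, u (t + cv (4 * L) a i))| ≤ ((4 * L : ℕ) : ℝ) * ((A.card : ℝ) * (P / 4)) := by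
    refine (hsh.trans hcorr).trans ?_
    have e : ((k + 1 : ℕ) : ℝ) * (η (7 * q + 8) * P / (4 * (k + 1) * 4 ^ k)) * ((4 * L : ℕ) : ℝ) ^ (k + 1) =
        ((4 * L : ℕ) : ℝ) * ((η (7 * q + 8) * (L : ℝ) ^ k) * (P / 4)) := by
      push_cast
      rw [mul_pow, pow_succ, pow_succ]
      field_simp
    rw [e]
    refine mul_le_mul_of_nonneg_left ?_ hN.le
    exact mul_le_mul_of_nonneg_right hA1 (by positivity)
  have hS1 : ∑ a ∈ A, |Ev (fun t => ∏ i, f (t + cv (4 * L) a i)) -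
      Ev (fun t => ∏ i, u (t + cv (4 * L) a i))| ≤ (A.card : ℝ) * (P / 4) :=
    le_of_mul_le_mul_left hmain hN
  have hS2 : (A.card : ℝ) * (P / 2) ≤ ∑ a ∈ A, Ev (fun t => ∏ i, f (t + cv (4 * L) a i)) := by
    linarith
  have hS3 : c * (L : ℝ) ^ k * (P / 2) ≤ (A.card : ℝ) * (P / 2) := by
    refine mul_le_mul_of_nonneg_right ?_ (by positivity)
    exact (mul_le_mul_of_nonneg_right hc1 (by positivity)).trans hA1
  calc 2 * c * P * (L : ℝ) ^ (k + 1) = ((4 * L : ℕ) : ℝ) * (c * (L : ℝ) ^ k * (P / 2)) := by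
        push_cast
        rw [pow_succ]
        ring
    _ ≤ ((4 * L : ℕ) : ℝ) * ∑ a ∈ A, Ev (fun t => ∏ i, f (t + cv (4 * L) a i)) :=
        mul_le_mul_of_nonneg_left (hS3.trans hS2) hN.le
    _ = _ := rfl

end Pool.Agent.H62.EX
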