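import Pool.Agent.H62.EX.Pst
import Pool.Agent.H62.EX.Cor

/-!
# [H62 EX ABD] Every dense set contains many trees of bad tuples

Proof, induction on `j`.  `j = 0`: `Nd k 0` is empty, one configuration, `Tr = True`; `c = 1`, `L^0 = 1`.
`j + 1`: `S` dense.  `corr` (with `𝓑' = ⋃ a, 𝓑 a`) gives `≥ γ L^(k+1)` tuples `y ∈ S^(k+1)` with `df y ∈ 𝓑 a` for some `a`; by the pigeonhole
principle there is `a : Λ` with `≥ (γ / |Λ|) L^(k+1)` tuples `y ∈ S^(k+1)`, `df y ∈ 𝓑 a` (`Λ` nonempty since `γ L^(k+1) > 0`): the set `E`.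
`y = (pos a).insertNth v u`.  As in [H62 EX PST]: for `u : Fin k → ℕ` let `S_u = {v | insertNth v u ∈ E}`; many `u` have `|S_u| ≥ (γ'/2) L`, and
`|S_u|^s ≥ ((γ'/2) L)^s`; so for `≥ c₁ L^s` of the `V : Fin s → ℕ` the set `E_V = {u | ∀ l, insertNth (V l) u ∈ E}` has `≥ c₁ L^k` elements;
`prod_step` with `n = k`, `ι = Nd k j × Fin s` (uncurried), `P = {x | Tr ..}` and the induction hypothesis gives
`≥ c₂ L^(k |ι|)` families `Y` of trees with `∏ range (Y i) ⊆ E_V`.  All values lie in `S` since `E ⊆ S^(k+1)` (for `k ≥ 1`; if `s = 0` there are no values;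
a value of `Y i` occurs in some `u ∈ E_V`: this needs all `Y i'` to have values, that is `Nd k j × Fin s` nonempty; if `Nd k j` is empty there is
nothing to show.  For `V l ∈ S` use: `E_V` is nonempty).  The map `(V, Y) ↦ y : Nd k (j+1) → Fin s → ℕ`, `y rt = V`, `y (sn i ν) l = Y i (ν, l)`, is injective, and
`card (Nd k (j+1)) * s = s + k * (card (Nd k j) * s)`.
-/

set_option autoImplicit false

namespace Pool.Agent.H62.EX

open Finset

theorem card_nd (k j : ℕ) : Fintype.card (Nd k (j + 1)) = 1 + k * Fintype.card (Nd k j) := by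
  have h : Fintype.card (Nd k (j + 1)) = Fintype.card (Option (Fin k × Nd k j)) := rfl
  rw [h, Fintype.card_option, Fintype.card_prod, Fintype.card_fin, add_comm]

open Classical in
private theorem abd_pick {k : ℕ} {Λ : Type} [Fintype Λ] (𝓑 : Λ → Set (Fin k → ℤ)) (X : Finset (Fin (k + 1) → ℕ))
    (γ T : ℝ) (hγ : 0 < γ * T)
    (h : γ * T ≤ ((X.filter (fun y => df y ∈ ⋃ a, 𝓑 a)).card : ℝ)) :
    ∃ a, γ / (Fintype.card Λ + 1) * T ≤ ((X.filter (fun y => df y ∈ 𝓑 a)).card : ℝ) := by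
  by_contra hcon
  push Not at hcon
  have h1 : X.filter (fun y => df y ∈ ⋃ a, 𝓑 a) ⊆
      (Finset.univ : Finset Λ).biUnion (fun a => X.filter (fun y => df y ∈ 𝓑 a)) := by
    intro y hy
    rw [Finset.mem_filter, Set.mem_iUnion] at hy
    obtain ⟨hy1, a, ha⟩ := hy
    rw [Finset.mem_biUnion]
    exact ⟨a, Finset.mem_univ a, Finset.mem_filter.2 ⟨hy1, ha⟩⟩
  have h2 : ((X.filter (fun y => df y ∈ ⋃ a, 𝓑 a)).card : ℝ) ≤
      ∑ a : Λ, ((X.filter (fun y => df y ∈ 𝓑 a)).card : ℝ) := by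
    have := (Finset.card_le_card h1).trans Finset.card_biUnion_le
    exact_mod_cast this
  have h3 : ∑ a : Λ, ((X.filter (fun y => df y ∈ 𝓑 a)).card : ℝ) ≤
      ∑ a : Λ, γ / (Fintype.card Λ + 1) * T := Finset.sum_le_sum fun a _ => (hcon a).le
  rw [Finset.sum_const, Finset.card_univ, nsmul_eq_mul] at h3
  have h4 : (0 : ℝ) < (Fintype.card Λ : ℝ) + 1 := by positivity
  have h5 : (Fintype.card Λ : ℝ) * (γ / (Fintype.card Λ + 1) * T) < γ * T := by
    have : (Fintype.card Λ : ℝ) * (γ / (Fintype.card Λ + 1) * T) =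
        γ * T * ((Fintype.card Λ : ℝ) / (Fintype.card Λ + 1)) := by
      field_simp
    rw [this]
    have h6 : (Fintype.card Λ : ℝ) / (Fintype.card Λ + 1) < 1 := by
      rw [div_lt_one h4]
      linarith
    exact mul_lt_of_lt_one_right hγ h6
  linarith

open Classical in
private theorem abd_fib {k s L : ℕ} (p : Fin (k + 1)) (E : Finset (Fin (k + 1) → ℕ))
    (hE : E ⊆ Fintype.piFinset (fun _ => range L)) (hL : 1 ≤ L) (hs : 1 ≤ s)
    (g : ℝ) (hg : 0 < g) (h : g * (L : ℝ) ^ (k + 1) ≤ (E.card : ℝ)) :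
    g ^ s / 2 * (L : ℝ) ^ s ≤ (((Fintype.piFinset (fun _ : Fin s => range L)).filter (fun V =>
      g ^ s / 2 * (L : ℝ) ^ k ≤ ((((Fintype.piFinset (fun _ : Fin k => range L)).filter
        (fun u => ∀ l, (Fin.insertNth (α := fun _ => ℕ) p (V l) u) ∈ E)).card : ℝ)))).card : ℝ) := by
  have hL0 : (0 : ℝ) < L := by exact_mod_cast hL
  set U : Finset (Fin k → ℕ) := Fintype.piFinset (fun _ : Fin k => range L) with hU
  set W : Finset (Fin s → ℕ) := Fintype.piFinset (fun _ : Fin s => range L) with hW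
  have hUc : U.card = L ^ k := by
    rw [hU, Fintype.card_piFinset_const, Finset.card_range]
  have hWc : W.card = L ^ s := by
    rw [hW, Fintype.card_piFinset_const, Finset.card_range]
  set Su : (Fin k → ℕ) → Finset ℕ := fun u =>
    (range L).filter (fun v => (Fin.insertNth (α := fun _ => ℕ) p v u) ∈ E) with hSu
  -- step 1
  have h1 : E.card ≤ ∑ u ∈ U, (Su u).card := by
    have hm : ((E : Finset (Fin (k + 1) → ℕ)) : Set (Fin (k + 1) → ℕ)).MapsTo
        (fun y => (Fin.removeNth (α := fun _ => ℕ) p y : Fin k → ℕ)) (U : Set (Fin k → ℕ)) := by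
      intro y hy
      have := hE hy
      rw [Fintype.mem_piFinset] at this
      rw [hU]
      show _ ∈ (Fintype.piFinset (fun _ : Fin k => range L))
      rw [Fintype.mem_piFinset]
      intro i
      exact this _
    rw [Finset.card_eq_sum_card_fiberwise hm]
    apply Finset.sum_le_sum
    intro u _
    apply Finset.card_le_card_of_injOn (fun y => y p)
    · intro y hy
      have hy' := Finset.mem_filter.1 (Finset.mem_coe.1 hy)
      obtain ⟨hy1, hy2⟩ := hy'
      have h0 := hE hy1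
      rw [Fintype.mem_piFinset] at h0
      show y p ∈ Su u
      rw [hSu]
      refine Finset.mem_filter.2 ⟨h0 p, ?_⟩
      rw [← hy2, Fin.insertNth_self_removeNth]
      exact hy1
    · intro y hy y' hy' he
      have h2 := (Finset.mem_filter.1 (Finset.mem_coe.1 hy)).2
      have h3 := (Finset.mem_filter.1 (Finset.mem_coe.1 hy')).2
      have e1 := Fin.insertNth_self_removeNth (α := fun _ => ℕ) p y
      have e2 := Fin.insertNth_self_removeNth (α := fun _ => ℕ) p y'
      rw [← e1, ← e2]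
      simp only at h2 h3 he
      rw [h2, h3, he]
  -- step 2
  have h2 : g ^ s * (L : ℝ) ^ s * (L : ℝ) ^ k ≤ ∑ u ∈ U, ((Su u).card : ℝ) ^ s := by
    obtain ⟨r, rfl⟩ : ∃ r, s = r + 1 := ⟨s - 1, by omega⟩
    have hj := pow_sum_div_card_le_sum_pow (s := U) (f := fun u => ((Su u).card : ℝ))
      (fun u _ => by positivity) r
    have h3 : g * (L : ℝ) ^ (k + 1) ≤ ∑ u ∈ U, ((Su u).card : ℝ) := by
      refine h.trans ?_
      exact_mod_cast h1
    have h4 : (g * (L : ℝ) ^ (k + 1)) ^ (r + 1) ≤ (∑ u ∈ U, ((Su u).card : ℝ)) ^ (r + 1) :=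
      pow_le_pow_left₀ (by positivity) h3 _
    refine le_trans ?_ hj
    rw [le_div_iff₀ (by rw [hUc]; positivity)]
    refine le_trans (le_of_eq ?_) h4
    rw [hUc]
    push_cast
    ring
  -- step 3
  have h3 : ∑ u ∈ U, ((Su u).card : ℝ) ^ s =
      ∑ V ∈ W, ((U.filter (fun u => ∀ l, (Fin.insertNth (α := fun _ => ℕ) p (V l) u) ∈ E)).card : ℝ) := by
    have h4 : ∀ u ∈ U, ((Su u).card : ℝ) ^ s =
        ∑ V ∈ W, if (∀ l, (Fin.insertNth (α := fun _ => ℕ) p (V l) u) ∈ E) then (1 : ℝ) else 0 := by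
      intro u _
      have h5 : (Fintype.piFinset (fun _ : Fin s => Su u)) =
          W.filter (fun V => ∀ l, (Fin.insertNth (α := fun _ => ℕ) p (V l) u) ∈ E) := by
        ext V
        rw [Finset.mem_filter, hW, Fintype.mem_piFinset, Fintype.mem_piFinset]
        constructor
        · intro hV
          exact ⟨fun l => (Finset.mem_filter.1 (hV l)).1, fun l => (Finset.mem_filter.1 (hV l)).2⟩
        · rintro ⟨hV, hV'⟩ l
          exact Finset.mem_filter.2 ⟨hV l, hV' l⟩
      have h6 := congrArg Finset.card h5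
      rw [Fintype.card_piFinset_const] at h6
      rw [Finset.sum_boole, ← h6]
      push_cast
      rfl
    rw [Finset.sum_congr rfl h4, Finset.sum_comm]
    apply Finset.sum_congr rfl
    intro V _
    rw [Finset.sum_boole]
  -- step 4
  have h4 := markov W (fun V => ((U.filter (fun u => ∀ l, (Fin.insertNth (α := fun _ => ℕ) p (V l) u) ∈ E)).card : ℝ))
    (g ^ s) ((L : ℝ) ^ k) (by positivity) (fun V _ => by
      have := Finset.card_filter_le U (fun u => ∀ l, (Fin.insertNth (α := fun _ => ℕ) p (V l) u) ∈ E)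
      rw [hUc] at this
      exact_mod_cast this)
    (by
      rw [← h3, hWc]
      push_cast
      exact h2) (by positivity)
  rw [hWc] at h4
  push_cast at h4
  exact le_of_mul_le_mul_right h4 (by positivity)

private theorem abd_inst {ι : Type} [Fintype ι] (d1 d2 : DecidableEq ι) (S : Finset ℕ) (p : (ι → ℕ) → Prop)
    (e1 e2 : DecidablePred p) :
    (@Finset.filter _ p e1 (@Fintype.piFinset ι d1 _ _ (fun _ => S))).card =
      (@Finset.filter _ p e2 (@Fintype.piFinset ι d2 _ _ (fun _ => S))).card := by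
  obtain rfl := Subsingleton.elim d1 d2
  obtain rfl := Subsingleton.elim e1 e2
  rfl

open Classical in
theorem abund (k s : ℕ) (hk : 1 ≤ k) (hs : 1 ≤ s) {Λ : Type} [Fintype Λ] (pos : Λ → Fin (k + 1)) (η : ℕ → ℝ)
    (hη : ∀ q, 0 < η q) (j : ℕ) : ∀ δ : ℝ, 0 < δ → ∃ (c : ℝ) (Q : ℕ), 0 < c ∧ ∀ L : ℕ, 1 ≤ L →
      ∀ 𝓑 : Λ → Set (Fin k → ℤ), Hyp k η Q L (⋃ a, 𝓑 a) →
      ∀ S : Finset ℕ, S ⊆ range L → δ * L ≤ S.card →
        c * (L : ℝ) ^ (Fintype.card (Nd k j) * s) ≤
          (((Fintype.piFinset (fun _ : Nd k j => Fintype.piFinset (fun _ : Fin s => S))).filter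
            (fun y => Tr pos 𝓑 j y)).card : ℝ) := by
  induction j with
  | zero =>
    intro δ hδ
    refine ⟨1, 0, one_pos, fun L hL 𝓑 _ S _ _ => ?_⟩
    have h0 : Fintype.card (Nd k 0) = 0 := rfl
    rw [h0, zero_mul, pow_zero, one_mul]
    have h1 : 0 < ((Fintype.piFinset (fun _ : Nd k 0 => Fintype.piFinset (fun _ : Fin s => S))).filter
            (fun y => Tr pos 𝓑 0 y)).card := by
      apply Finset.card_pos.2
      refine ⟨fun d => Empty.elim d, Finset.mem_filter.2 ⟨?_, trivial⟩⟩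
      rw [Fintype.mem_piFinset]
      intro d
      exact Empty.elim d
    exact_mod_cast h1
  | succ j ih =>
    intro δ hδ
    obtain ⟨γ, Q1, hγ, hcorr⟩ := corr k η hη δ hδ
    set g : ℝ := γ / (Fintype.card Λ + 1) with hgdef
    have hg : 0 < g := by positivity
    have hab : ∀ δ : ℝ, 0 < δ → ∃ (c : ℝ) (Q : ℕ), 0 < c ∧ ∀ ω : ℕ × (Λ → Set (Fin k → ℤ)),
        (1 ≤ ω.1 ∧ Hyp k η Q ω.1 (⋃ a, ω.2 a)) → ∀ S : Finset ℕ, S ⊆ range ω.1 →
        δ * ω.1 ≤ S.card → c * (ω.1 : ℝ) ^ Fintype.card (Nd k j × Fin s) ≤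
        (((Fintype.piFinset (fun _ : Nd k j × Fin s => S)).filter
          (fun x => x ∈ {x : Nd k j × Fin s → ℕ | Tr pos ω.2 j (fun ν l => x (ν, l))})).card : ℝ) := by
      intro δ hδ
      obtain ⟨c, Q, hc, h⟩ := ih δ hδ
      refine ⟨c, Q, hc, fun ω hω S hS hd => ?_⟩
      have h1 := h ω.1 hω.1 ω.2 hω.2 S hS hd
      rw [Fintype.card_prod, Fintype.card_fin]
      refine h1.trans ?_
      have h2 : ((Fintype.piFinset (fun _ : Nd k j => Fintype.piFinset (fun _ : Fin s => S))).filter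
            (fun y => Tr pos ω.2 j y)).card ≤
          ((Fintype.piFinset (fun _ : Nd k j × Fin s => S)).filter
          (fun x => x ∈ {x : Nd k j × Fin s → ℕ | Tr pos ω.2 j (fun ν l => x (ν, l))})).card := by
        apply Finset.card_le_card_of_injOn (fun y q => y q.1 q.2)
        · intro y hy
          obtain ⟨hy1, hy2⟩ := Finset.mem_filter.1 (Finset.mem_coe.1 hy)
          refine Finset.mem_coe.2 (Finset.mem_filter.2 ⟨?_, ?_⟩)
          · rw [Fintype.mem_piFinset]
            rintro ⟨ν, l⟩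
            rw [Fintype.mem_piFinset] at hy1
            have := hy1 ν
            rw [Fintype.mem_piFinset] at this
            exact this l
          · exact hy2
        · intro y _ y' _ he
          funext ν l
          exact congrFun he (ν, l)
      exact_mod_cast h2
    obtain ⟨c2, Q2, hc2, hprod⟩ := prod_step (Ω := ℕ × (Λ → Set (Fin k → ℤ))) (fun ω => ω.1)
      (fun Q ω => 1 ≤ ω.1 ∧ Hyp k η Q ω.1 (⋃ a, ω.2 a))
      (fun Q Q' ω hQ hω => ⟨hω.1, fun q hq hqQ => hω.2 q hq (hqQ.trans hQ)⟩)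
      (ι := Nd k j × Fin s) (fun ω => {x : Nd k j × Fin s → ℕ | Tr pos ω.2 j (fun ν l => x (ν, l))})
      (by
        intro δ hδ
        obtain ⟨c, Q, hc, h⟩ := hab δ hδ
        exact ⟨c, Q, hc, fun ω hω S hS hd => (h ω hω S hS hd).trans
          (le_of_eq (congrArg Nat.cast (abd_inst _ _ _ _ _ _)))⟩) k (g ^ s / 2) (by positivity)
    refine ⟨g ^ s / 2 * c2, max Q1 Q2, by positivity, fun L hL 𝓑 hHyp S hS hdS => ?_⟩
    have hL0 : (0 : ℝ) < L := by exact_mod_cast hL
    have hH1 : Hyp k η Q1 L (⋃ a, 𝓑 a) := fun q hq hqQ => hHyp q hq (hqQ.trans (le_max_left _ _))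
    have hH2 : Hyp k η Q2 L (⋃ a, 𝓑 a) := fun q hq hqQ => hHyp q hq (hqQ.trans (le_max_right _ _))
    obtain ⟨a, ha⟩ := abd_pick 𝓑 (Fintype.piFinset (fun _ : Fin (k + 1) => S)) γ ((L : ℝ) ^ (k + 1))
      (by positivity) (hcorr L hL (⋃ a, 𝓑 a) hH1 S hS hdS)
    rw [← hgdef] at ha
    set E : Finset (Fin (k + 1) → ℕ) :=
      (Fintype.piFinset (fun _ : Fin (k + 1) => S)).filter (fun y => df y ∈ 𝓑 a) with hEdef
    have hES : ∀ y ∈ E, (∀ i, y i ∈ S) ∧ df y ∈ 𝓑 a := by
      intro y hy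
      rw [hEdef, Finset.mem_filter, Fintype.mem_piFinset] at hy
      exact hy
    have hE : E ⊆ Fintype.piFinset (fun _ => range L) := by
      intro y hy
      rw [Fintype.mem_piFinset]
      exact fun i => hS ((hES y hy).1 i)
    have hfib := abd_fib (pos a) E hE hL hs g hg ha
    set EV : (Fin s → ℕ) → Finset (Fin k → ℕ) := fun V =>
      (Fintype.piFinset (fun _ : Fin k => range L)).filter
        (fun u => ∀ l, (Fin.insertNth (α := fun _ => ℕ) (pos a) (V l) u) ∈ E) with hEV
    set VG : Finset (Fin s → ℕ) := (Fintype.piFinset (fun _ : Fin s => range L)).filter (fun V =>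
      g ^ s / 2 * (L : ℝ) ^ k ≤ ((EV V).card : ℝ)) with hVG
    set YV : (Fin s → ℕ) → Finset (Fin k → Nd k j × Fin s → ℕ) := fun V =>
      ((@Fintype.piFinset (Fin k) _ _ _ (fun _ : Fin k =>
        @Fintype.piFinset (Nd k j × Fin s) (fun a b => Classical.propDecidable (a = b)) _ _
          (fun _ : Nd k j × Fin s => range L))).filter
            (fun Y => (∀ i, Y i ∈ {x : Nd k j × Fin s → ℕ | Tr pos 𝓑 j (fun ν l => x (ν, l))}) ∧
              ∀ u : Fin k → ℕ, (∀ i, ∃ a, Y i a = u i) → u ∈ EV V)) with hYV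
    have hY : ∀ V ∈ VG, c2 * (L : ℝ) ^ (k * (Fintype.card (Nd k j) * s)) ≤ ((YV V).card : ℝ) := by
      intro V hV
      have h1 := hprod (L, 𝓑) ⟨hL, hH2⟩ (EV V) (Finset.filter_subset _ _) (Finset.mem_filter.1 hV).2
      rw [Fintype.card_prod, Fintype.card_fin] at h1
      exact h1
    have hsum : g ^ s / 2 * c2 * (L : ℝ) ^ (Fintype.card (Nd k (j + 1)) * s) ≤
        ((VG.sigma YV).card : ℝ) := by
      rw [Finset.card_sigma]
      push_cast
      have h1 : (VG.card : ℝ) * (c2 * (L : ℝ) ^ (k * (Fintype.card (Nd k j) * s))) ≤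
          ∑ V ∈ VG, ((YV V).card : ℝ) := by
        have := Finset.sum_le_sum hY
        rwa [Finset.sum_const, nsmul_eq_mul] at this
      refine le_trans ?_ h1
      have h2 : g ^ s / 2 * (L : ℝ) ^ s * (c2 * (L : ℝ) ^ (k * (Fintype.card (Nd k j) * s))) ≤
          (VG.card : ℝ) * (c2 * (L : ℝ) ^ (k * (Fintype.card (Nd k j) * s))) :=
        mul_le_mul_of_nonneg_right hfib (by positivity)
      refine le_trans (le_of_eq ?_) h2
      rw [card_nd]
      have : (1 + k * Fintype.card (Nd k j)) * s = s + k * (Fintype.card (Nd k j) * s) := by ring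
      rw [this, pow_add]
      ring
    refine hsum.trans ?_
    have hinj : (VG.sigma YV).card ≤
        ((Fintype.piFinset (fun _ : Nd k (j + 1) => Fintype.piFinset (fun _ : Fin s => S))).filter
            (fun y => Tr pos 𝓑 (j + 1) y)).card := by
      apply Finset.card_le_card_of_injOn (fun q : (_ : Fin s → ℕ) × (Fin k → Nd k j × Fin s → ℕ) =>
        (fun d : Nd k (j + 1) => Option.elim (α := Fin k × Nd k j) d q.1 (fun r l => q.2 r.1 (r.2, l)) :
          Nd k (j + 1) → Fin s → ℕ))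
      · rintro ⟨V, Y⟩ hq
        obtain ⟨hV, hYm⟩ := Finset.mem_sigma.1 (Finset.mem_coe.1 hq)
        simp only at hV hYm
        obtain ⟨hY1, hY2, hY3⟩ := Finset.mem_filter.1 hYm
        have hVpos : 0 < (EV V).card := by
          have h1 := (Finset.mem_filter.1 hV).2
          have h2 : (0 : ℝ) < g ^ s / 2 * (L : ℝ) ^ k := by positivity
          exact_mod_cast h2.trans_le h1
        obtain ⟨u0, hu0⟩ := Finset.card_pos.1 hVpos
        have hu0' := (Finset.mem_filter.1 hu0).2
        have hVS : ∀ l, V l ∈ S := by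
          intro l
          have h1 := (hES _ (hu0' l)).1 (pos a)
          rwa [Fin.insertNth_apply_same] at h1
        have hYS : ∀ i ν l, Y i (ν, l) ∈ S := by
          intro i ν l
          have h1 := hY3 (fun i' => Y i' (ν, l)) (fun i' => ⟨(ν, l), rfl⟩)
          have h2 := (hES _ ((Finset.mem_filter.1 h1).2 l)).1 ((pos a).succAbove i)
          rwa [Fin.insertNth_apply_succAbove] at h2
        refine Finset.mem_coe.2 (Finset.mem_filter.2 ⟨?_, ?_⟩)
        · rw [Fintype.mem_piFinset]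
          intro d
          rw [Fintype.mem_piFinset]
          intro l
          rcases d with _ | ⟨i, ν⟩
          · exact hVS l
          · exact hYS i ν l
        · refine ⟨⟨a, ?_⟩, fun i => hY2 i⟩
          rintro v u ⟨l, rfl⟩ hu
          have h1 : u ∈ EV V := by
            apply hY3
            intro i
            obtain ⟨ν, l', h⟩ := hu i
            exact ⟨(ν, l'), h⟩
          exact (hES _ ((Finset.mem_filter.1 h1).2 l)).2
      · rintro ⟨V, Y⟩ _ ⟨V', Y'⟩ _ he
        have h1 : V = V' := congrFun he (rt : Nd k (j + 1))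
        have h2 : Y = Y' := by
          funext i q
          obtain ⟨ν, l⟩ := q
          exact congrFun (congrFun he (sn i ν : Nd k (j + 1))) l
        rw [h1, h2]
    exact_mod_cast hinj

end Pool.Agent.H62.EX
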