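import Pool.Agent.H34.EV.Folk

/-!
# [H62 EX FI] Multiples by finite sums: finite intersections

`IPst G n P`: for all weights `c_1, .., c_n` almost all `a` (in every cube, uniformly in the parameter `θ`) have a nonempty `I` with
`G θ (P * ∑ i ∈ I, c i) a`. This property is closed under finite intersections (Folkman's theorem).
-/

set_option autoImplicit false

namespace Pool.Agent.H62.EX

open Finset

open Classical in
/-- the exceptions to `Q` in a cube -/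
noncomputable def Exc {k : ℕ} (z : ℕ) (b : Fin k → ℤ) (Q : (Fin k → ℤ) → Prop) : Finset (Fin k → ℤ) :=
  (Fintype.piFinset (fun j : Fin k => Ioc (b j) (b j + z))).filter (fun a => ¬ Q a)

theorem mem_Exc {k z : ℕ} {b a : Fin k → ℤ} {Q : (Fin k → ℤ) → Prop} :
    a ∈ Exc z b Q ↔ (∀ j, a j ∈ Ioc (b j) (b j + z)) ∧ ¬ Q a := by
  classical
  unfold Exc
  rw [mem_filter, Fintype.mem_piFinset]

theorem Exc_card_mono {k z : ℕ} {b : Fin k → ℤ} {Q Q' : (Fin k → ℤ) → Prop} (h : ∀ a, Q a → Q' a) :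
    ((Exc z b Q').card : ℝ) ≤ ((Exc z b Q).card : ℝ) := by
  refine Nat.cast_le.2 (card_le_card fun a ha => ?_)
  rw [mem_Exc] at ha ⊢
  exact ⟨ha.1, fun hq => ha.2 (h a hq)⟩

/-- `a` has a good multiplier among the finite sums -/
def HasI {k n : ℕ} (G : ℕ → (Fin k → ℤ) → Prop) (P : ℕ) (c : Fin n → ℕ) (a : Fin k → ℤ) : Prop :=
  ∃ I : Finset (Fin n), I.Nonempty ∧ G (P * ∑ i ∈ I, c i) a

/-- almost all `a` have a good multiplier among the finite sums -/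
def IPst {k : ℕ} {Θ : Type} (G : Θ → ℕ → (Fin k → ℤ) → Prop) (n P : ℕ) : Prop :=
  ∀ c : Fin n → ℕ, (∀ i, 1 ≤ c i) → ∀ ε : ℝ, 0 < ε → ∃ B : ℕ, ∀ (θ : Θ) (z : ℕ), B ≤ z → ∀ b : Fin k → ℤ,
    ((Exc z b (HasI (G θ) P c)).card : ℝ) ≤ ε * (z : ℝ) ^ k

theorem IPst.lift {k : ℕ} {Θ : Type} {G : Θ → ℕ → (Fin k → ℤ) → Prop} {n P : ℕ} (h : IPst G n P) (n' t : ℕ) (hn : n ≤ n')
    (ht : 0 < t) : IPst G n' (P * t) := by
  intro c hc ε hε
  obtain ⟨B, hB⟩ := h (fun i => t * c (Fin.castLEEmb hn i)) (fun i => Nat.mul_pos ht (hc _)) ε hε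
  refine ⟨B, fun θ z hz b => (Exc_card_mono fun a ha => ?_).trans (hB θ z hz b)⟩
  obtain ⟨I, hI, hG⟩ := ha
  refine ⟨I.map (Fin.castLEEmb hn), hI.map, ?_⟩
  have h1 : P * t * ∑ i ∈ I.map (Fin.castLEEmb hn), c i = P * ∑ i ∈ I, t * c (Fin.castLEEmb hn i) := by
    rw [sum_map, ← mul_sum]
    ring
  rw [h1]
  exact hG

theorem IPst.inter_aux {k : ℕ} {Θ Φ : Type} [Fintype Φ] [Nonempty Φ] {G : Φ → Θ → ℕ → (Fin k → ℤ) → Prop} {n P : ℕ}
    (h : ∀ φ, IPst (G φ) n P) : ∃ n' : ℕ, IPst (fun θ m a => ∀ φ, G φ θ m a) n' P := by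
  classical
  obtain ⟨n', hn'⟩ := Pool.Agent.H34.EV.folkman Φ n
  refine ⟨n', fun c hc ε hε => ?_⟩
  obtain ⟨R, hR⟩ : ∃ R : ℕ, R = Fintype.card ((Fin n → Finset (Fin n')) × Φ) := ⟨_, rfl⟩
  have hR0 : (0 : ℝ) < R := by
    rw [hR]
    exact_mod_cast Fintype.card_pos
  have hB : ∀ p : (Fin n → Finset (Fin n')) × Φ, ∃ B : ℕ, (∀ j, (p.1 j).Nonempty) → ∀ (θ : Θ) (z : ℕ), B ≤ z → ∀ b : Fin k → ℤ,
      ((Exc z b (HasI (G p.2 θ) P (fun j => ∑ i ∈ p.1 j, c i))).card : ℝ) ≤ ε / R * (z : ℝ) ^ k := by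
    intro p
    by_cases hp : ∀ j, (p.1 j).Nonempty
    · obtain ⟨B, hB⟩ := h p.2 (fun j => ∑ i ∈ p.1 j, c i) (fun j => by
        obtain ⟨i, hi⟩ := hp j
        exact (hc i).trans (single_le_sum (f := c) (fun _ _ => Nat.zero_le _) hi)) (ε / R) (by positivity)
      exact ⟨B, fun _ => hB⟩
    · exact ⟨0, fun h => absurd h hp⟩
  choose Bf hBf using hB
  refine ⟨∑ p, Bf p, fun θ z hz b => ?_⟩
  obtain ⟨Ps, hPs⟩ : ∃ Ps : Finset ((Fin n → Finset (Fin n')) × Φ), Ps = univ.filter (fun p => ∀ j, (p.1 j).Nonempty) := ⟨_, rfl⟩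
  have hsub : Exc z b (HasI (fun m a => ∀ φ, G φ θ m a) P c) ⊆
      Ps.biUnion (fun p => Exc z b (HasI (G p.2 θ) P (fun j => ∑ i ∈ p.1 j, c i))) := by
    intro a ha
    rw [mem_Exc] at ha
    obtain ⟨haQ, hbad⟩ := ha
    have hC : ∀ I : Finset (Fin n'), ∃ φ : Φ, I.Nonempty → ¬ G φ θ (P * ∑ i ∈ I, c i) a := by
      intro I
      by_cases hI : I.Nonempty
      · have h1 : ¬ ∀ φ, G φ θ (P * ∑ i ∈ I, c i) a := fun h => hbad ⟨I, hI, h⟩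
        push Not at h1
        obtain ⟨φ, hφ⟩ := h1
        exact ⟨φ, fun _ => hφ⟩
      · exact ⟨Classical.arbitrary Φ, fun h => absurd h hI⟩
    choose C hC using hC
    obtain ⟨J, hJ1, hJ2, q, hq⟩ := hn' C
    rw [mem_biUnion]
    refine ⟨(J, q), ?_, ?_⟩
    · rw [hPs, mem_filter]
      exact ⟨mem_univ _, hJ1⟩
    · rw [mem_Exc]
      refine ⟨haQ, ?_⟩
      rintro ⟨I, hI, hGI⟩
      have hne : (I.biUnion J).Nonempty := by
        obtain ⟨j, hj⟩ := hI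
        obtain ⟨i, hi⟩ := hJ1 j
        exact ⟨i, mem_biUnion.2 ⟨j, hj, hi⟩⟩
      apply hC _ hne
      rw [hq I hI, sum_biUnion (fun i _ j _ hij => hJ2 i j hij)]
      exact hGI
  have h1 : ((Ps.biUnion (fun p => Exc z b (HasI (G p.2 θ) P (fun j => ∑ i ∈ p.1 j, c i)))).card : ℝ) ≤
      ∑ p ∈ Ps, ((Exc z b (HasI (G p.2 θ) P (fun j => ∑ i ∈ p.1 j, c i))).card : ℝ) := by
    exact_mod_cast card_biUnion_le
  refine (Nat.cast_le.2 (card_le_card hsub)).trans (h1.trans ?_)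
  have h2 : ∀ p ∈ Ps, ((Exc z b (HasI (G p.2 θ) P (fun j => ∑ i ∈ p.1 j, c i))).card : ℝ) ≤ ε / R * (z : ℝ) ^ k := by
    intro p hp
    rw [hPs, mem_filter] at hp
    exact hBf p hp.2 θ z ((single_le_sum (f := Bf) (fun _ _ => Nat.zero_le _) (mem_univ p)).trans hz) b
  refine (sum_le_card_nsmul _ _ _ h2).trans ?_
  rw [nsmul_eq_mul]
  have h3 : (Ps.card : ℝ) ≤ R := by
    rw [hR]
    exact_mod_cast card_le_univ _
  calc (Ps.card : ℝ) * (ε / R * (z : ℝ) ^ k) ≤ R * (ε / R * (z : ℝ) ^ k) :=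
        mul_le_mul_of_nonneg_right h3 (by positivity)
    _ = ε * (z : ℝ) ^ k := by field_simp

/-- **finite intersections** -/
theorem IPst.inter {k : ℕ} {Θ Φ : Type} [Fintype Φ] [Nonempty Φ] {G : Φ → Θ → ℕ → (Fin k → ℤ) → Prop}
    (h : ∀ φ, ∃ n P : ℕ, 0 < P ∧ IPst (G φ) n P) :
    ∃ n P : ℕ, 0 < P ∧ IPst (fun θ m a => ∀ φ, G φ θ m a) n P := by
  classical
  choose nf Pf hPf hf using h
  have h1 : ∀ φ, IPst (G φ) (∑ φ, nf φ) (∏ φ, Pf φ) := by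
    intro φ
    have h2 := (hf φ).lift (∑ φ, nf φ) (∏ ψ ∈ univ.erase φ, Pf ψ) (single_le_sum (f := nf) (fun _ _ => Nat.zero_le _) (mem_univ φ))
      (prod_pos fun ψ _ => hPf ψ)
    rwa [mul_prod_erase univ Pf (mem_univ φ)] at h2
  obtain ⟨n', hn'⟩ := IPst.inter_aux h1
  exact ⟨n', _, prod_pos fun φ _ => hPf φ, hn'⟩

end Pool.Agent.H62.EX
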