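import Pool.Agent.H62.EX.Bxo
import Pool.Agent.H62.EX.Fi

/-!
# [H62 EX AFF] Affinely independent sets in a box, and the origin and the rows of a nonsingular matrix

One multiplier `m` for all nonsingular matrices; all affinely independent subsets of `[-N, N] ^ k`.
-/

set_option autoImplicit false

namespace Pool.Agent.H62.EX

open Finset Filter Pool.Agent.H48.EP

/-- the rational vector of an integer vector -/
def rv {k : ℕ} (x : Fin k → ℤ) : Fin k → ℚ := fun i => (x i : ℚ)

theorem rv_inj {k : ℕ} : Function.Injective (rv (k := k)) := by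
  intro x y h
  funext i
  have := congrFun h i
  unfold rv at this
  exact_mod_cast this

theorem rv_sub {k : ℕ} (x y : Fin k → ℤ) : rv (x - y) = rv x - rv y := by
  funext i
  unfold rv
  simp

/-- every affinely independent set is, up to a translation, among the origin and the rows of a nonsingular matrix -/
theorem ext_basis {k N : ℕ} (hN : 1 ≤ N) (F : Finset (Fin k → ℤ)) (hF : ∀ x ∈ F, ∀ i, |x i| ≤ N)
    (h : AffineIndependent ℚ (fun x : F => fun i => (((x : Fin k → ℤ) i : ℤ) : ℚ))) :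
    ∃ (M : Matrix (Fin k) (Fin k) ℤ) (x₀ : Fin k → ℤ) (J : Finset (Fin (k + 1))), (∀ i j, |M i j| ≤ (2 * N : ℕ)) ∧ M.det ≠ 0 ∧
      (∀ i, |x₀ i| ≤ N) ∧ ∀ y, y ∈ F ↔ y - x₀ ∈ J.image (rws M) := by
  classical
  rcases F.eq_empty_or_nonempty with hF0 | ⟨x₀, hx₀⟩
  · refine ⟨1, 0, ∅, fun i j => ?_, by rw [Matrix.det_one]; exact one_ne_zero, fun i => ?_, fun y => ?_⟩
    · rw [Matrix.one_apply]
      split_ifs
      · rw [abs_one]
        exact_mod_cast (by omega : 1 ≤ 2 * N)
      · rw [abs_zero]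
        exact Nat.cast_nonneg _
    · rw [Pi.zero_apply, abs_zero]
      exact Nat.cast_nonneg _
    · rw [hF0, image_empty]
      exact ⟨fun h => absurd h (notMem_empty _), fun h => absurd h (notMem_empty _)⟩
  obtain ⟨s, hs⟩ : ∃ s : Set (Fin k → ℚ), s = Set.range (fun i : {x : F // x ≠ ⟨x₀, hx₀⟩} =>
    rv ((i : F) : Fin k → ℤ) -ᵥ rv x₀) := ⟨_, rfl⟩
  have hli : LinearIndepOn ℚ id s := by
    have h1 := (affineIndependent_iff_linearIndependent_vsub ℚ _ (⟨x₀, hx₀⟩ : F)).1 h
    rw [hs]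
    exact h1.linearIndepOn_id
  obtain ⟨t, ht⟩ : ∃ t : Set (Fin k → ℚ), t = s ∪ Set.range (fun i : Fin k => (Pi.single i 1 : Fin k → ℚ)) := ⟨_, rfl⟩
  obtain ⟨b, hbt, hsb, htb, hbi⟩ := exists_linearIndepOn_id_extension hli
    (by rw [ht]; exact Set.subset_union_left : s ⊆ t)
  have hspan : ⊤ ≤ Submodule.span ℚ b := by
    rw [← (Pi.basisFun ℚ (Fin k)).span_eq, Submodule.span_le]
    rintro _ ⟨i, rfl⟩
    rw [Pi.basisFun_apply]
    refine htb ?_
    rw [ht]
    exact Set.mem_union_right _ ⟨i, rfl⟩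
  have hbi2 : LinearIndependent ℚ (fun x : b => (x : Fin k → ℚ)) := hbi
  obtain ⟨bs, hbs⟩ : ∃ bs : Module.Basis b ℚ (Fin k → ℚ), ∀ x, bs x = x := ⟨Module.Basis.mk hbi2 (by
    rw [Subtype.range_coe]
    exact hspan), fun x => Module.Basis.mk_apply _ _ _⟩
  have e : Fin k ≃ b := (Pi.basisFun ℚ (Fin k)).indexEquiv bs
  -- the integer vectors
  have hM : ∀ i : Fin k, ∃ v : Fin k → ℤ, rv v = e i ∧ (∀ j, |v j| ≤ (2 * N : ℕ)) := by
    intro i
    have h1 := hbt (e i).2
    rw [ht] at h1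
    rcases h1 with h1 | ⟨j₀, h1⟩
    · rw [hs] at h1
      obtain ⟨y, hy⟩ := h1
      refine ⟨((y : F) : Fin k → ℤ) - x₀, ?_, fun j => ?_⟩
      · rw [rv_sub]
        exact hy
      · have h2 := hF _ (y : F).2 j
        have h3 := hF _ hx₀ j
        rw [abs_le] at h2 h3 ⊢
        rw [Pi.sub_apply]
        push_cast
        constructor <;> linarith [h2.1, h2.2, h3.1, h3.2]
    · refine ⟨Pi.single j₀ 1, ?_, fun j => ?_⟩
      · rw [← h1]
        funext j
        show ((Pi.single j₀ (1 : ℤ) : Fin k → ℤ) j : ℚ) = (Pi.single j₀ (1 : ℚ) : Fin k → ℚ) j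
        rw [Pi.single_apply, Pi.single_apply]
        split_ifs <;> simp
      · rw [Pi.single_apply]
        split_ifs
        · rw [abs_one]
          exact_mod_cast (by omega : 1 ≤ 2 * N)
        · rw [abs_zero]
          exact Nat.cast_nonneg _
  choose M hM1 hM2 using hM
  have hdet : Matrix.det (M : Matrix (Fin k) (Fin k) ℤ) ≠ 0 := by
    intro h0
    have h1 : LinearIndependent ℚ (Matrix.map (M : Matrix (Fin k) (Fin k) ℤ) (Int.castRingHom ℚ)).row := by
      have h2 : (Matrix.map (M : Matrix (Fin k) (Fin k) ℤ) (Int.castRingHom ℚ)).row = fun i => ((e i : b) : Fin k → ℚ) := by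
        funext i
        rw [← hM1 i]
        rfl
      rw [h2]
      exact hbi2.comp e e.injective
    have h2 := Matrix.linearIndependent_rows_iff_isUnit.1 h1
    have h3 := (Matrix.isUnit_iff_isUnit_det _).1 h2
    have h4 : (Matrix.map (M : Matrix (Fin k) (Fin k) ℤ) (Int.castRingHom ℚ)).det = 0 := by
      have h5 := (Int.castRingHom ℚ).map_det (M : Matrix (Fin k) (Fin k) ℤ)
      rw [h0, map_zero] at h5
      exact h5.symm
    rw [h4] at h3
    exact not_isUnit_zero h3
  refine ⟨M, x₀, insert 0 ((univ.filter (fun i : Fin k => ((e i : b) : Fin k → ℚ) ∈ s)).image Fin.succ), hM2, hdet,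
    hF _ hx₀, fun y => ⟨fun hy => ?_, fun hy => ?_⟩⟩
  · by_cases hyx : y = x₀
    · refine mem_image.2 ⟨0, mem_insert_self _ _, ?_⟩
      unfold rws
      rw [Fin.cons_zero, hyx, sub_self]
    · have h1 : rv (y - x₀) ∈ s := by
        rw [hs]
        refine ⟨⟨⟨y, hy⟩, fun h => hyx (congrArg Subtype.val h)⟩, ?_⟩
        rw [rv_sub]
        rfl
      obtain ⟨i, hi⟩ := e.surjective ⟨_, hsb h1⟩
      have hi2 : ((e i : b) : Fin k → ℚ) = rv (y - x₀) := by rw [hi]
      refine mem_image.2 ⟨i.succ, mem_insert_of_mem (mem_image_of_mem _ (mem_filter.2 ⟨mem_univ _, by rw [hi2]; exact h1⟩)), ?_⟩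
      unfold rws
      rw [Fin.cons_succ]
      exact rv_inj ((hM1 i).trans hi2)
  · obtain ⟨j, hj, hjy⟩ := mem_image.1 hy
    rw [mem_insert] at hj
    rcases hj with hj | hj
    · rw [hj] at hjy
      unfold rws at hjy
      rw [Fin.cons_zero] at hjy
      rwa [sub_eq_zero.1 hjy.symm]
    · obtain ⟨i, hi, rfl⟩ := mem_image.1 hj
      unfold rws at hjy
      rw [Fin.cons_succ] at hjy
      have h1 := (mem_filter.1 hi).2
      rw [← hM1 i, hs] at h1
      obtain ⟨y', hy'⟩ := h1
      have h2 : rv (y - x₀) = rv (((y' : F) : Fin k → ℤ) - x₀) := by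
        rw [← hjy, ← hy', rv_sub]
        rfl
      have h3 := sub_left_injective (rv_inj h2)
      rw [h3]
      exact (y' : F).2

end Pool.Agent.H62.EX
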