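import Pool.Agent.H34.EQ.Ipc
import Pool.Agent.H34.EQ.Bip
import Pool.Agent.H48.EP.Cui

/-!
# [H62 EX BD0] Common definitions for the bounded dilations
-/

set_option autoImplicit false

namespace Pool.Agent.H62.EX.Bd

open Finset

/-- the change of `n` and `P` in the multiples by finite sums -/
theorem sums_emb {n n' : ℕ} (ι : Fin n' ↪ Fin n) (P P' t W : ℕ) (hP : P = P' * t) (c : Fin n → ℕ) (I : Finset (Fin n')) :
    P * W * ∑ i ∈ I.map ι, c i = P' * W * ∑ i ∈ I, t * c (ι i) := by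
  rw [sum_map, ← mul_sum, hP]
  ring

/-- `n < nth prime n` -/
theorem lt_nth (n : ℕ) : n < Nat.nth Nat.Prime n := by
  have h1 := Nat.add_two_le_nth_prime n
  omega

/-- hits among the first `M` primes and hits up to `M` -/
theorem ncard_le_nth (Q : ℕ → Prop) (M : ℕ) : {p : ℕ | p ≤ M ∧ p.Prime ∧ Q p}.ncard ≤
    {n : ℕ | n < M ∧ Q (Nat.nth Nat.Prime n)}.ncard := by
  classical
  have hfin : {n : ℕ | n < M ∧ Q (Nat.nth Nat.Prime n)}.Finite := (Set.finite_lt_nat M).subset fun n hn => hn.1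
  have h1 : {p : ℕ | p ≤ M ∧ p.Prime ∧ Q p} ⊆ (Nat.nth Nat.Prime) '' {n : ℕ | n < M ∧ Q (Nat.nth Nat.Prime n)} := by
    rintro p ⟨hp1, hp2, hp3⟩
    refine ⟨Nat.count Nat.Prime p, ⟨?_, ?_⟩, Nat.nth_count hp2⟩
    · have h2 := lt_nth (Nat.count Nat.Prime p)
      rw [Nat.nth_count hp2] at h2
      omega
    · rw [Nat.nth_count hp2]
      exact hp3
  exact (Set.ncard_le_ncard h1 (hfin.image _)).trans (Set.ncard_image_le hfin)

end Pool.Agent.H62.EX.Bd
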