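import Pool.Agent.H62.EX.Cxf
import Pool.Agent.H34.EW.Bx2

/-!
Let `k, r, N ≥ 1`. There are `D, n, P` depending only on `k`, `r` and `N` such that for all positive integers `c_1, .., c_n` and all
`ε > 0` there is a `B` such that for all `W ≥ 1` and `s` prime to `W`:

(1) for each colouring of the natural numbers with `r` colours, in each cube `∏ (b_j, b_j + z]` of `ℤ ^ k` of side `z ≥ B` all except
`ε z ^ k` of the `a` have a nonempty subset `I` of `{1, .., n}` such that, with `m = P * W * ∑ i ∈ I, c_i`, for EVERY affinely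
independent subset `F` of `[-N, N] ^ k` there is a colour `q` such that for infinitely many `t`, for ALL integer points `x` of
`[-N, N] ^ k`, the number `t + m (x . a)` is prime if and only if `x ∈ F`, and then it is `≡ s (mod W)` and of colour `q`;

(2) for each `A` there are `d > 0` and `X₀` such that for each colouring, `X ≥ X₀`, `B ≤ z ≤ (log X) ^ A` and `|b_j| ≤ (log X) ^ A`, all
except `ε z ^ k` of the `a` in the cube have `I` such that for all these `F` there is `q` with at least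
`d min(1, z / log X) ^ D X / (log X) ^ (k + 1)` such numbers `t ≤ X`.
-/

set_option autoImplicit false

namespace Pool.Agent.H62.EX.BD4

open Finset

/-- the integer point `x` is in the box `[-N, N] ^ k` -/
def InBox {k : ℕ} (N : ℕ) (x : Fin k → ℤ) : Prop := ∀ i, |x i| ≤ N

/-- a finite set of integer points of the box, affinely independent over the rationals -/
def Indep {k : ℕ} (N : ℕ) (F : Finset (Fin k → ℤ)) : Prop :=
  (∀ x ∈ F, InBox N x) ∧ AffineIndependent ℚ (fun x : F => fun i => (((x : Fin k → ℤ) i : ℤ) : ℚ))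

/-- for all integer points `x` of the box `t + m (x . a)` is a natural number `p`, which for `x ∈ F` is a prime `≡ s (mod W)` of
colour `q`, and for the other `x` is not a prime -/
def Exactly {k r : ℕ} (W s : ℕ) (χ : ℕ → Fin r) (q : Fin r) (N : ℕ) (F : Finset (Fin k → ℤ)) (m : ℕ) (a : Fin k → ℤ) (t : ℕ) :
    Prop :=
  ∀ x : Fin k → ℤ, InBox N x → ∃ p : ℕ, (p : ℤ) = t + m * ∑ i, x i * a i ∧
    (x ∈ F → p.Prime ∧ χ p = q ∧ p ≡ s [MOD W]) ∧ (x ∉ F → ¬ p.Prime)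

open Classical in
theorem result : ∀ k r N : ℕ, 1 ≤ N → ∃ D n P : ℕ, 0 < P ∧ ∀ c : Fin n → ℕ, (∀ i, 1 ≤ c i) → ∀ ε : ℝ, 0 < ε → ∃ B : ℕ,
    ∀ W s : ℕ, 0 < W → Nat.Coprime s W →
    (∀ (χ : ℕ → Fin r) (z : ℕ) (b : Fin k → ℤ), B ≤ z →
      (((Fintype.piFinset (fun j : Fin k => Ioc (b j) (b j + z))).filter (fun a => ¬ ∃ I : Finset (Fin n), I.Nonempty ∧
        ∀ F : Finset (Fin k → ℤ), Indep N F → ∃ q : Fin r,
          {t : ℕ | Exactly W s χ q N F (P * W * ∑ i ∈ I, c i) a t}.Infinite)).card : ℝ) ≤ ε * (z : ℝ) ^ k) ∧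
    ∀ A : ℕ, ∃ (d : ℝ) (X₀ : ℕ), 0 < d ∧ ∀ (χ : ℕ → Fin r) (X z : ℕ) (b : Fin k → ℤ), X₀ ≤ X → B ≤ z →
      (z : ℝ) ≤ Real.log X ^ A → (∀ j, |(b j : ℝ)| ≤ Real.log X ^ A) →
      (((Fintype.piFinset (fun j : Fin k => Ioc (b j) (b j + z))).filter (fun a => ¬ ∃ I : Finset (Fin n), I.Nonempty ∧
        ∀ F : Finset (Fin k → ℤ), Indep N F → ∃ q : Fin r, d * min 1 (z / Real.log X) ^ D * X ≤
          Real.log X ^ (k + 1) * ({t : ℕ | t ≤ X ∧ Exactly W s χ q N F (P * W * ∑ i ∈ I, c i) a t}.ncard : ℝ))).card : ℝ) ≤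
            ε * (z : ℝ) ^ k := by
  intro k r N hN
  obtain ⟨n₁, P₁, hP₁, h1⟩ := Pool.Agent.H62.EX.boxIP k r N hN
  obtain ⟨D, n₂, P₂, hP₂, h2⟩ := Pool.Agent.H62.EX.cntX k r N hN (fun M hM => by
    obtain ⟨D, n, P, hP, h⟩ := Pool.Agent.H34.EW.box_cnt_one k r (2 * N) M hM
    exact ⟨D, n, P, hP, h⟩)
  refine ⟨D, n₁ + n₂, P₁ * P₂, Nat.mul_pos hP₁ hP₂, fun c hc ε hε => ?_⟩
  obtain ⟨B₁, h1⟩ := h1 (fun i => P₂ * c (Fin.castAddEmb n₂ i)) (fun i => Nat.mul_pos hP₂ (hc _)) ε hε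
  obtain ⟨B₂, h2⟩ := h2 (fun i => P₁ * c (Fin.natAddEmb n₁ i)) (fun i => Nat.mul_pos hP₁ (hc _)) ε hε
  have e1 : ∀ (W : ℕ) (I : Finset (Fin n₁)), P₁ * P₂ * W * ∑ i ∈ I.map (Fin.castAddEmb n₂), c i =
      P₁ * W * ∑ i ∈ I, P₂ * c (Fin.castAddEmb n₂ i) := by
    intro W I
    rw [sum_map, ← mul_sum]
    ring
  have e2 : ∀ (W : ℕ) (I : Finset (Fin n₂)), P₁ * P₂ * W * ∑ i ∈ I.map (Fin.natAddEmb n₁), c i =
      P₂ * W * ∑ i ∈ I, P₁ * c (Fin.natAddEmb n₁ i) := by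
    intro W I
    rw [sum_map, ← mul_sum]
    ring
  refine ⟨B₁ + B₂, fun W s hW hs => ⟨fun χ z b hz => ?_, fun A => ?_⟩⟩
  · refine le_trans (Nat.cast_le.2 (card_le_card fun a ha => ?_)) (h1 W s hW hs χ z b (by omega))
    rw [mem_filter] at ha ⊢
    refine ⟨ha.1, fun hcon => ha.2 ?_⟩
    obtain ⟨I, hI, hF⟩ := hcon
    refine ⟨I.map (Fin.castAddEmb n₂), hI.map, fun F hF2 => ?_⟩
    obtain ⟨q, hq⟩ := hF F hF2.1 hF2.2
    refine ⟨q, ?_⟩
    rw [e1]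
    exact hq
  · obtain ⟨d, X₀, hd, h3⟩ := h2 W s hW hs A
    refine ⟨d, X₀, hd, fun χ X z b hX hz hz2 hb => ?_⟩
    refine le_trans (Nat.cast_le.2 (card_le_card fun a ha => ?_)) (h3 χ X z b hX (by omega) hz2 hb)
    rw [mem_filter] at ha ⊢
    refine ⟨ha.1, fun hcon => ha.2 ?_⟩
    obtain ⟨I, hI, hF⟩ := hcon
    refine ⟨I.map (Fin.natAddEmb n₁), hI.map, fun F hF2 => ?_⟩
    obtain ⟨q, hq⟩ := hF F hF2.1 hF2.2
    refine ⟨q, ?_⟩
    rw [e2]
    exact hq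

end Pool.Agent.H62.EX.BD4
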