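import Pool.Agent.H51.PM.Fin
import Pool.Agent.H96.UL.Blk
import Pool.Agent.H96.UL.Main

/-!
# [H62 EX FOUR] One of `h, 2 h, 3 h, 4 h` is a gap of consecutive primes infinitely often, for almost all even `h`

The infinite form of FourMultiples (H51/PM).
-/

set_option autoImplicit false

namespace Pool.Agent.H62.EX

open Finset Filter

/-- consecutive primes at distance `d`: from the numbers to the indices -/
theorem nth_infinite {d : ℕ} (h : {N : ℕ | N.Prime ∧ (N + d).Prime ∧ ∀ t : ℕ, N < t → t < N + d → ¬ t.Prime}.Infinite)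
    (hd : 0 < d) : {n : ℕ | Nat.nth Nat.Prime (n + 1) = Nat.nth Nat.Prime n + d}.Infinite := by
  refine Set.infinite_of_injOn_mapsTo (f := fun N => Nat.count Nat.Prime N) (fun N hN N' hN' hNN => ?_) (fun N hN => ?_) h
  · have h1 := Nat.nth_count hN.1
    have h2 := Nat.nth_count hN'.1
    simp only at hNN
    rw [hNN] at h1
    exact h1.symm.trans h2
  · obtain ⟨h1, h2, h3⟩ := hN
    show Nat.nth Nat.Prime (Nat.count Nat.Prime N + 1) = Nat.nth Nat.Prime (Nat.count Nat.Prime N) + d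
    rw [Nat.nth_count h1]
    have h4 : Nat.count Nat.Prime (N + d) = Nat.count Nat.Prime N + 1 := by
      have h5 : Nat.count Nat.Prime (N + d) = Nat.count Nat.Prime (N + 1) := by
        have h6 : ∀ e, e + 1 ≤ d → Nat.count Nat.Prime (N + (e + 1)) = Nat.count Nat.Prime (N + 1) := by
          intro e
          induction e with
          | zero => exact fun _ => rfl
          | succ e ih =>
            intro he
            rw [← Nat.add_assoc, Nat.count_succ, ih (by omega), if_neg (h3 _ (by omega) (by omega)), Nat.add_zero]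
        obtain ⟨e, he⟩ : ∃ e, d = e + 1 := ⟨d - 1, by omega⟩
        rw [he]
        exact h6 e (by omega)
      rw [h5, Nat.count_succ, if_pos h1]
    rw [← h4]
    exact Nat.nth_count h2

open Classical in
/-- **one of `h, 2 h, 3 h, 4 h` is a gap infinitely often** -/
theorem four_inf : ∀ ε : ℝ, 0 < ε → ∃ L₀ : ℕ, ∀ L : ℕ, L₀ ≤ L →
    (((Icc 1 L).filter (fun h => Even h ∧ ¬ ∃ j : ℕ, 1 ≤ j ∧ j ≤ 4 ∧ (3 ∣ h → j ≤ 3) ∧
      {n : ℕ | Nat.nth Nat.Prime (n + 1) = Nat.nth Nat.Prime n + j * h}.Infinite)).card : ℝ) ≤ ε * L := by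
  intro ε hε
  obtain ⟨K, hK⟩ := Pool.Agent.H51.PM.fin4 (Pool.Agent.H96.UL.blkU_of_medU Pool.Agent.H96.UL.med_uniform)
  obtain ⟨c, lam, δ, L₀, X₀, hc, hl, hδ, h⟩ := hK ε hε
  refine ⟨L₀ + 1, fun L hL => ?_⟩
  have hL0 : 0 < L := by omega
  have hLr : (0 : ℝ) < L := by exact_mod_cast hL0
  obtain ⟨E, hE⟩ : ∃ E : Finset ℕ, E = (Icc 1 L).filter (fun h => Even h ∧ ¬ ∃ j : ℕ, 1 ≤ j ∧ j ≤ 4 ∧ (3 ∣ h → j ≤ 3) ∧
      {n : ℕ | Nat.nth Nat.Prime (n + 1) = Nat.nth Nat.Prime n + j * h}.Infinite) := ⟨_, rfl⟩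
  rw [← hE]
  -- bounded counts
  have hbd : ∀ p : ℕ × ℕ, ∃ C : ℕ, p.1 ∈ E → p.2 ∈ Icc 1 4 → (3 ∣ p.1 → p.2 ≤ 3) → ∀ X : ℕ,
      (L : ℝ) ≤ lam * Real.log X → Pool.Agent.H51.PM.cnt lam X L (p.2 * p.1) ≤ C := by
    intro p
    by_cases hp : p.1 ∈ E ∧ p.2 ∈ Icc 1 4 ∧ (3 ∣ p.1 → p.2 ≤ 3)
    · obtain ⟨h1, h2, h3⟩ := hp
      rw [hE, mem_filter] at h1
      obtain ⟨h4, -, h5⟩ := h1
      have h6 : {N : ℕ | N.Prime ∧ (N + p.2 * p.1).Prime ∧ ∀ t : ℕ, N < t → t < N + p.2 * p.1 → ¬ t.Prime}.Finite := by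
        rw [← Set.not_infinite]
        intro hinf
        exact h5 ⟨p.2, (mem_Icc.1 h2).1, (mem_Icc.1 h2).2, h3,
          nth_infinite hinf (Nat.mul_pos (mem_Icc.1 h2).1 (mem_Icc.1 h4).1)⟩
      refine ⟨h6.toFinset.card, fun _ _ _ X hX => ?_⟩
      unfold Pool.Agent.H51.PM.cnt
      refine card_le_card fun N hN => ?_
      rw [mem_filter] at hN
      rw [Set.Finite.mem_toFinset]
      exact ⟨hN.2.1, hN.2.2.1, hN.2.2.2 hX⟩
    · exact ⟨0, fun h1 h2 h3 => absurd ⟨h1, h2, h3⟩ hp⟩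
  choose Cf hCf using hbd
  obtain ⟨C, hC⟩ : ∃ C : ℕ, C = ∑ p ∈ E ×ˢ Icc 1 4, Cf p + 1 := ⟨_, rfl⟩
  -- a large X
  have hlog : Tendsto (fun X : ℕ => Real.log (X : ℝ)) atTop atTop := Real.tendsto_log_atTop.comp tendsto_natCast_atTop_atTop
  have hpow : ∀ (A : ℕ) (κ : ℝ), 0 < κ → ∀ᶠ X : ℕ in atTop, Real.log (X : ℝ) ^ A ≤ κ * X := by
    intro A κ hκ
    have h1 := (Real.isLittleO_pow_log_id_atTop (n := A)).bound hκ
    filter_upwards [tendsto_natCast_atTop_atTop.eventually h1, hlog.eventually_ge_atTop 0] with X h2 h3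
    rw [Real.norm_of_nonneg (pow_nonneg h3 _)] at h2
    rw [id, Real.norm_of_nonneg (Nat.cast_nonneg _)] at h2
    exact h2
  have hδt : Tendsto (fun X : ℕ => (X : ℝ) ^ δ) atTop atTop := (tendsto_rpow_atTop hδ).comp tendsto_natCast_atTop_atTop
  obtain ⟨X, hX1, hX2, hX3, hX4, hX5⟩ := ((eventually_ge_atTop X₀).and ((hδt.eventually_ge_atTop (L : ℝ)).and
    ((hlog.eventually_ge_atTop ((L : ℝ) / lam + 1)).and ((hlog.eventually_ge_atTop (L : ℝ)).and
    (hpow (K + 2) (c / (C + 1)) (by positivity)))))).exists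
  have hlX : (L : ℝ) ≤ lam * Real.log X := by
    have h1 : (L : ℝ) / lam ≤ Real.log X := by linarith
    rw [div_le_iff₀ hl] at h1
    linarith
  have hl0 : 0 < Real.log (X : ℝ) := by linarith
  refine le_trans ?_ (h X L hX1 (by omega) hX2)
  rw [Nat.cast_le]
  refine card_le_card fun m hm => ?_
  have hm' := hm
  rw [hE, mem_filter] at hm'
  rw [mem_filter]
  refine ⟨hm'.1, hm'.2.1, fun j hj hj3 => ?_⟩
  have h1 : Pool.Agent.H51.PM.cnt lam X L (j * m) ≤ Cf (m, j) := hCf (m, j) hm hj hj3 X hlX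
  have h2 : Cf (m, j) + 1 ≤ C := by
    have := single_le_sum (f := Cf) (fun _ _ => Nat.zero_le _) (mem_product.2 ⟨hm, hj⟩ : (m, j) ∈ E ×ˢ Icc 1 4)
    omega
  have h3 : (Pool.Agent.H51.PM.cnt lam X L (j * m) : ℝ) < C := by
    have : Pool.Agent.H51.PM.cnt lam X L (j * m) < C := by omega
    exact_mod_cast this
  refine h3.trans_le ?_
  have h4 : (1 : ℝ) / Real.log X ≤ min 1 ((L : ℝ) / Real.log X) := by
    have hL1 : (1 : ℝ) ≤ L := by exact_mod_cast hL0
    refine le_min ?_ (div_le_div_of_nonneg_right hL1 hl0.le)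
    rw [div_le_one hl0]
    linarith
  have h5 : (1 / Real.log X) ^ K ≤ min 1 ((L : ℝ) / Real.log X) ^ K := pow_le_pow_left₀ (by positivity) h4 K
  have h6 : Real.log (X : ℝ) ^ (K + 2) * (C + 1) ≤ c * X := by
    have h7 : (0 : ℝ) < C + 1 := by positivity
    rw [div_mul_eq_mul_div, le_div_iff₀ h7] at hX5
    exact hX5
  have h8 : (C : ℝ) ≤ c * (1 / Real.log X) ^ K * (X / Real.log X ^ 2) := by
    rw [div_pow, one_pow]
    have h9 : c * (1 / Real.log (X : ℝ) ^ K) * (X / Real.log X ^ 2) = c * X / Real.log X ^ (K + 2) := by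
      rw [pow_add]
      field_simp
    rw [h9, le_div_iff₀ (by positivity)]
    have h10 : 0 ≤ Real.log (X : ℝ) ^ (K + 2) := by positivity
    nlinarith
  refine h8.trans ?_
  refine mul_le_mul_of_nonneg_right (mul_le_mul_of_nonneg_left h5 hc.le) (by positivity)

end Pool.Agent.H62.EX
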