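import Pool.Agent.H62.EX.Aff
import Pool.Agent.H34.EV.Sim

/-!
# [H62 EX BIP] Exact patterns on all affinely independent subsets of a box, one multiplier
-/

set_option autoImplicit false

namespace Pool.Agent.H62.EX

open Finset Filter Pool.Agent.H48.EP Pool.Agent.H34.EV

/-- translation of the patterns -/
theorem boxpat_shift {k r N : ℕ} {W s₀ : ℕ} {χ : ℕ → Fin r} {q : Fin r} {F G : Finset (Fin k → ℤ)} {x₀ : Fin k → ℤ}
    (hx₀ : ∀ i, |x₀ i| ≤ N) (hFG : ∀ y, y ∈ F ↔ y - x₀ ∈ G) {m : ℕ} {a : Fin k → ℤ}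
    (h : {t : ℕ | BoxPat W s₀ χ q (2 * N) G m a t}.Infinite) : {t : ℕ | BoxPat W s₀ χ q N F m a t}.Infinite := by
  obtain ⟨d, hd⟩ : ∃ d : ℤ, d = m * ∑ i, x₀ i * a i := ⟨_, rfl⟩
  have h1 : ({t : ℕ | BoxPat W s₀ χ q (2 * N) G m a t} \ {t | t < d.natAbs}).Infinite :=
    h.diff (Set.finite_lt_nat d.natAbs)
  have hge : ∀ t : ℕ, ¬ t < d.natAbs → 0 ≤ (t : ℤ) - d := by
    intro t ht
    have h2 : (d.natAbs : ℤ) ≤ t := by exact_mod_cast not_lt.1 ht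
    have h3 : d ≤ d.natAbs := by
      rw [← Int.abs_eq_natAbs]
      exact le_abs_self d
    linarith
  refine Set.infinite_of_injOn_mapsTo (f := fun t : ℕ => ((t : ℤ) - d).toNat) (fun t ht t' ht' htt => ?_)
    (fun t ht x hx => ?_) h1
  · have h2 := Int.toNat_of_nonneg (hge t ht.2)
    have h3 := Int.toNat_of_nonneg (hge t' ht'.2)
    simp only at htt
    rw [htt, h3] at h2
    have : (t : ℤ) = t' := by linarith
    exact_mod_cast this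
  · obtain ⟨p', hp', h2, h3⟩ := ht.1 (x - x₀) (fun i => by
      have h4 := hx i
      have h5 := hx₀ i
      rw [abs_le] at h4 h5 ⊢
      rw [Pi.sub_apply]
      push_cast
      constructor <;> linarith [h4.1, h4.2, h5.1, h5.2])
    refine ⟨p', ?_, fun hxF => h2 ((hFG x).1 hxF), fun hxF => h3 (fun h => hxF ((hFG x).2 h))⟩
    rw [hp', Int.toNat_of_nonneg (hge t ht.2), hd]
    simp only [Pi.sub_apply, sub_mul, sum_sub_distrib]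
    ring

open Classical in
/-- **exact patterns on all affinely independent subsets of a box** -/
theorem boxIP (k r N : ℕ) (hN : 1 ≤ N) : ∃ n P : ℕ, 0 < P ∧ ∀ c : Fin n → ℕ, (∀ i, 1 ≤ c i) → ∀ ε : ℝ, 0 < ε → ∃ B : ℕ,
    ∀ W s₀ : ℕ, 0 < W → Nat.Coprime s₀ W → ∀ (χ : ℕ → Fin r) (z : ℕ) (b : Fin k → ℤ), B ≤ z →
      (((Fintype.piFinset (fun j : Fin k => Ioc (b j) (b j + z))).filter (fun a => ¬ ∃ I : Finset (Fin n), I.Nonempty ∧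
        ∀ F : Finset (Fin k → ℤ), (∀ x ∈ F, ∀ i, |x i| ≤ N) →
          AffineIndependent ℚ (fun x : F => fun i => (((x : Fin k → ℤ) i : ℤ) : ℚ)) →
          ∃ q : Fin r, {t : ℕ | BoxPat W s₀ χ q N F (P * W * ∑ i ∈ I, c i) a t}.Infinite)).card : ℝ) ≤ ε * (z : ℝ) ^ k := by
  have : Nonempty {M : Matrix (Fin k) (Fin k) ℤ // M ∈ mats k (2 * N)} := ⟨⟨1, one_mem_mats (by omega)⟩⟩
  obtain ⟨n, P, hP, h⟩ := IPst.inter (k := k) (Θ := {θ : ℕ × ℕ × (ℕ → Fin r) // 0 < θ.1 ∧ Nat.Coprime θ.2.1 θ.1})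
    (Φ := {M : Matrix (Fin k) (Fin k) ℤ // M ∈ mats k (2 * N)})
    (G := fun M θ m a => Bgood θ.1.1 θ.1.2.1 θ.1.2.2 (2 * N) M.1 (θ.1.1 * m) a) (by
      intro M
      obtain ⟨n, P, hP, h⟩ := box_one k r (2 * N) M.1 (mem_mats.1 M.2).2
      refine ⟨n, P, hP, fun c hc ε hε => ?_⟩
      obtain ⟨B, hB⟩ := h c hc ε hε
      refine ⟨B, fun θ z hz b => ?_⟩
      refine le_trans (Nat.cast_le.2 (card_le_card fun a ha => ?_)) (hB θ.1.1 θ.1.2.1 θ.2.1 θ.2.2 θ.1.2.2 z hz b)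
      rw [mem_Exc] at ha
      rw [mem_filter, Fintype.mem_piFinset]
      refine ⟨ha.1, fun hcon => ha.2 ?_⟩
      obtain ⟨I, hI, hB⟩ := hcon
      refine ⟨I, hI, ?_⟩
      have h1 : θ.1.1 * (P * ∑ i ∈ I, c i) = P * θ.1.1 * ∑ i ∈ I, c i := by ring
      show Bgood θ.1.1 θ.1.2.1 θ.1.2.2 (2 * N) M.1 (θ.1.1 * (P * ∑ i ∈ I, c i)) a
      rw [h1]
      exact hB)
  refine ⟨n, P, hP, fun c hc ε hε => ?_⟩
  obtain ⟨B, hB⟩ := h c hc ε hε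
  refine ⟨B, fun W s₀ hW hs₀ χ z b hz => ?_⟩
  refine le_trans (Nat.cast_le.2 (card_le_card fun a ha => ?_)) (hB ⟨(W, s₀, χ), hW, hs₀⟩ z hz b)
  rw [mem_filter, Fintype.mem_piFinset] at ha
  rw [mem_Exc]
  refine ⟨ha.1, fun hcon => ha.2 ?_⟩
  obtain ⟨I, hI, hG⟩ := hcon
  refine ⟨I, hI, fun F hF hA => ?_⟩
  obtain ⟨M, x₀, J, hM1, hM2, hx₀, hJ⟩ := ext_basis hN F hF hA
  obtain ⟨q, hq⟩ := hG ⟨M, mem_mats.2 ⟨hM1, hM2⟩⟩ J
  refine ⟨q, boxpat_shift hx₀ hJ ?_⟩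
  have h1 : W * (P * ∑ i ∈ I, c i) = P * W * ∑ i ∈ I, c i := by ring
  rw [← h1]
  exact hq

end Pool.Agent.H62.EX
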