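import Pool.Agent.H62.EX.Hy
import Pool.Agent.H62.EX.Draft

/-!
# [H62 EX BOX] Bohr boxes and dilates
-/

set_option autoImplicit false

namespace Pool.Agent.H62.EX

open Finset

open Classical in
/-- the bad increasing tuples in a Bohr box -/
noncomputable def BadBox {k : ℕ} (P : (Fin k → ℕ) → Prop) (z q : ℕ) (α : Fin q → ℝ) : Finset (Fin k → ℕ) :=
  (Fintype.piFinset (fun _ : Fin k => Icc 1 z)).filter (fun a => StrictMono a ∧
    (∀ j i, ∃ n : ℤ, |(a j : ℝ) * α i - n| * q ≤ 1) ∧ ¬ P a)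

open Classical in
/-- the increasing tuples without a good dilate -/
noncomputable def BadDil {k : ℕ} (P : (Fin k → ℕ) → Prop) (z m₀ : ℕ) : Finset (Fin k → ℕ) :=
  (Fintype.piFinset (fun _ : Fin k => Icc 1 z)).filter (fun a => StrictMono a ∧
    ¬ ∃ m : ℕ, 1 ≤ m ∧ m ≤ m₀ ∧ P (fun j => m * a j))

theorem card_hyp {k : ℕ} (hk : 1 ≤ k) (F : ℕ → ℝ) (hF : ∀ q, 0 < F q) : ∃ η : ℕ → ℝ, (∀ q, 0 < η q) ∧
    ∀ (Q L : ℕ), 2 * Q ≤ L → 1 ≤ L → ∀ (𝓑 : Set (Fin k → ℤ)) (P : (Fin k → ℕ) → Prop),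
      (∀ a : Fin k → ℕ, StrictMono a → (∀ j, 1 ≤ a j) → ¬ P a → (fun j => (a j : ℤ)) ∈ 𝓑) → ¬ Hyp k η Q L 𝓑 →
        ∃ (z q : ℕ) (α : Fin q → ℝ), 1 ≤ q ∧ q ≤ Q ∧ L ≤ 2 * Q * z ∧ z ≤ L ∧
          ((BadBox P z q α).card : ℝ) ≤ F q * (z : ℝ) ^ k := by
  classical
  refine ⟨fun q => F q / (2 * (q + 1)) ^ k, fun q => ?_, fun Q L hQL hL 𝓑 P hP hH => ?_⟩
  · have := hF q
    positivity
  unfold Hyp at hH
  push Not at hH
  obtain ⟨q, hq1, hqQ, α, hα⟩ := hH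
  have hqr : (0 : ℝ) < q := by exact_mod_cast hq1
  obtain ⟨z, hzd⟩ : ∃ z : ℕ, z = L / q := ⟨_, rfl⟩
  have hz1 : q * z ≤ L := by rw [hzd]; exact Nat.mul_div_le L q
  have hz2 : L < q * (z + 1) := by rw [hzd]; exact Nat.lt_mul_div_succ L hq1
  have hz0 : 1 ≤ z := by
    by_contra hcon
    have h0 : z = 0 := by omega
    rw [h0] at hz2
    omega
  have hz3 : L ≤ 2 * q * z := by nlinarith
  refine ⟨z, q, α, hq1, hqQ, hz3.trans ?_, ?_, ?_⟩
  · exact Nat.mul_le_mul_right _ (Nat.mul_le_mul_left _ hqQ)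
  · calc z = 1 * z := (Nat.one_mul _).symm
      _ ≤ q * z := Nat.mul_le_mul_right _ hq1
      _ ≤ L := hz1
  · have h1 : (BadBox P z q α).card ≤ ((Fintype.piFinset (fun _ : Fin k => Icc (-(L : ℤ)) L)).filter
      (fun a => a ∈ 𝓑 ∧ ∀ j, Bo q α L (a j))).card := by
      refine card_le_card_of_injOn (fun a => (fun j => (a j : ℤ))) ?_ ?_
      · intro a ha
        unfold BadBox at ha
        rw [mem_coe, mem_filter, Fintype.mem_piFinset] at ha
        obtain ⟨ha1, ha2, ha3, ha4⟩ := ha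
        rw [mem_coe, mem_filter, Fintype.mem_piFinset]
        refine ⟨fun j => ?_, hP a ha2 (fun j => (mem_Icc.1 (ha1 j)).1) ha4, fun j => ⟨?_, fun i => ?_⟩⟩
        · have h2 := (mem_Icc.1 (ha1 j)).2
          have h3 : a j ≤ L := h2.trans (le_trans (by nlinarith) hz1)
          rw [mem_Icc]
          have h3' : (a j : ℤ) ≤ L := by exact_mod_cast h3
          have h0 : (0 : ℤ) ≤ (a j : ℤ) := Int.natCast_nonneg _
          have h0' : (0 : ℤ) ≤ (L : ℤ) := Int.natCast_nonneg _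
          exact ⟨by show -(L : ℤ) ≤ (a j : ℤ); linarith, h3'⟩
        · have h2 := (mem_Icc.1 (ha1 j)).2
          have h3 : a j * q ≤ L := by
            calc a j * q ≤ z * q := Nat.mul_le_mul_right _ h2
              _ = q * z := Nat.mul_comm _ _
              _ ≤ L := hz1
          have h4 : ((a j * q : ℕ) : ℝ) ≤ L := by exact_mod_cast h3
          push_cast at h4 ⊢
          rw [abs_of_nonneg (Nat.cast_nonneg _)]
          exact h4
        · obtain ⟨n, hn⟩ := ha3 j i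
          exact ⟨n, by push_cast; exact hn⟩
      · intro a _ b _ hab
        funext j
        have h2 : ((a j : ℕ) : ℤ) = (b j : ℤ) := congrFun hab j
        exact_mod_cast h2
    have h2 : ((BadBox P z q α).card : ℝ) < F q / (2 * (q + 1)) ^ k * (L : ℝ) ^ k :=
      lt_of_le_of_lt (by exact_mod_cast h1) hα
    have h3 : (L : ℝ) ≤ 2 * (q + 1) * z := by
      have h4 : (L : ℝ) ≤ 2 * q * z := by exact_mod_cast hz3
      have h5 : (0 : ℝ) ≤ z := Nat.cast_nonneg _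
      nlinarith
    have h4 : (L : ℝ) ^ k ≤ (2 * (q + 1)) ^ k * (z : ℝ) ^ k := by
      rw [← mul_pow]
      exact pow_le_pow_left₀ (Nat.cast_nonneg _) h3 k
    have h5 : (0 : ℝ) < (2 * (q + 1)) ^ k := by positivity
    refine h2.le.trans ?_
    rw [div_mul_eq_mul_div, div_le_iff₀ h5]
    have h6 := mul_le_mul_of_nonneg_left h4 (hF q).le
    linarith [mul_comm ((2 * ((q : ℝ) + 1)) ^ k) (F q * (z : ℝ) ^ k),
      mul_assoc (F q) ((z : ℝ) ^ k) ((2 * ((q : ℝ) + 1)) ^ k), mul_comm ((z : ℝ) ^ k) ((2 * ((q : ℝ) + 1)) ^ k)]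

/-- Dirichlet: almost all tuples have good dilates -/
theorem box_dil (k : ℕ) (F : ℕ → ℝ) (hF : ∀ q, 0 < F q) : ∃ F' : ℕ → ℝ, (∀ q, 0 < F' q) ∧ ∀ Q : ℕ, ∃ m₁ : ℕ, 1 ≤ m₁ ∧
    ∀ (P : (Fin k → ℕ) → Prop) (z q : ℕ) (α : Fin q → ℝ), 1 ≤ q → q ≤ Q → m₁ ≤ z →
      ((BadBox P z q α).card : ℝ) ≤ F' q * (z : ℝ) ^ k →
        ∃ m₀ z' : ℕ, m₀ ≤ m₁ ∧ z ≤ m₁ * z' ∧ z' ≤ z ∧ ((BadDil P z' m₀).card : ℝ) ≤ F m₀ * (z' : ℝ) ^ k := by
  classical
  obtain ⟨Mq, hM1, hM2⟩ := dir_all k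
  refine ⟨fun q => F (Mq q) / (Mq q * (2 * Mq q) ^ k), fun q => ?_, fun Q => ?_⟩
  · have := hF (Mq q)
    have : (0 : ℝ) < Mq q := by exact_mod_cast hM1 q
    positivity
  obtain ⟨m₁, hm₁⟩ : ∃ m₁ : ℕ, m₁ = ∑ q ∈ range (Q + 1), 2 * Mq q := ⟨_, rfl⟩
  have hle : ∀ q ≤ Q, 2 * Mq q ≤ m₁ := by
    intro q hq
    rw [hm₁]
    exact single_le_sum (f := fun q => 2 * Mq q) (fun _ _ => Nat.zero_le _) (mem_range.2 (Nat.lt_succ_of_le hq))
  refine ⟨m₁, ?_, fun P z q α hq1 hqQ hz hbox => ?_⟩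
  · have h1 := hle 0 (Nat.zero_le _)
    have h2 := hM1 0
    omega
  have hMq := hM1 q
  have hMr : (0 : ℝ) < Mq q := by exact_mod_cast hMq
  have hqM := hle q hqQ
  obtain ⟨z', hzd⟩ : ∃ z' : ℕ, z' = z / Mq q := ⟨_, rfl⟩
  have hz1 : Mq q * z' ≤ z := by rw [hzd]; exact Nat.mul_div_le z _
  have hz2 : z < Mq q * (z' + 1) := by rw [hzd]; exact Nat.lt_mul_div_succ z hMq
  have hzpos : 1 ≤ z' := by
    by_contra hcon
    have h0 : z' = 0 := by omega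
    rw [h0] at hz2
    omega
  have hz3 : z ≤ 2 * Mq q * z' := by nlinarith
  refine ⟨Mq q, z', by omega, hz3.trans (Nat.mul_le_mul_right _ hqM), ?_, ?_⟩
  · calc z' = 1 * z' := (Nat.one_mul _).symm
      _ ≤ Mq q * z' := Nat.mul_le_mul_right _ hMq
      _ ≤ z := hz1
  obtain ⟨A, hA⟩ : ∃ A : Finset (Fin k → ℕ), A = BadDil P z' (Mq q) := ⟨_, rfl⟩
  rw [← hA]
  have hch := fun a : Fin k → ℕ => hM2 q hq1 α a
  choose μ hμ1 hμ2 hμ3 using hch
  have hmaps : ∀ a ∈ A, (fun j => μ a * a j) ∈ BadBox P z q α := by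
    intro a ha
    rw [hA] at ha
    unfold BadDil at ha
    rw [mem_filter, Fintype.mem_piFinset] at ha
    obtain ⟨ha1, ha2, ha3⟩ := ha
    push Not at ha3
    unfold BadBox
    rw [mem_filter, Fintype.mem_piFinset]
    refine ⟨fun j => ?_, ?_, fun j i => ?_, ha3 _ (hμ1 a) (hμ2 a)⟩
    · have h2 := mem_Icc.1 (ha1 j)
      rw [mem_Icc]
      refine ⟨?_, ?_⟩
      · exact Nat.mul_pos (hμ1 a) h2.1
      · exact (Nat.mul_le_mul (hμ2 a) h2.2).trans hz1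
    · intro i j hij
      exact Nat.mul_lt_mul_of_pos_left (ha2 hij) (hμ1 a)
    · obtain ⟨n, hn⟩ := hμ3 a j i
      refine ⟨n, ?_⟩
      push_cast
      exact hn
  have hcard : A.card ≤ Mq q * (BadBox P z q α).card := by
    have h2 : (A.image (fun a j => μ a * a j)).card ≤ (BadBox P z q α).card := by
      refine card_le_card fun b hb => ?_
      obtain ⟨a, ha, rfl⟩ := mem_image.1 hb
      exact hmaps a ha
    refine le_trans ?_ (Nat.mul_le_mul_left _ h2)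
    refine card_le_mul_card_image A (Mq q) fun b _ => ?_
    have h3 : (A.filter (fun a => (fun j => μ a * a j) = b)).card ≤ (Icc 1 (Mq q)).card := by
      refine card_le_card_of_injOn μ ?_ ?_
      · intro a _
        rw [mem_coe, mem_Icc]
        exact ⟨hμ1 a, hμ2 a⟩
      · intro a ha a' ha' haa
        rw [mem_coe, mem_filter] at ha ha'
        funext j
        have e1 := congrFun ha.2 j
        have e2 := congrFun ha'.2 j
        rw [← e2, haa] at e1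
        exact Nat.eq_of_mul_eq_mul_left (hμ1 a') e1
    rw [Nat.card_Icc] at h3
    omega
  have hcardR : (A.card : ℝ) ≤ Mq q * (BadBox P z q α).card := by exact_mod_cast hcard
  have hLz : (z : ℝ) ≤ 2 * Mq q * z' := by exact_mod_cast hz3
  have hLk : (z : ℝ) ^ k ≤ (2 * Mq q) ^ k * (z' : ℝ) ^ k := by
    rw [← mul_pow]
    exact pow_le_pow_left₀ (Nat.cast_nonneg _) hLz k
  have hF0 := hF (Mq q)
  calc (A.card : ℝ) ≤ Mq q * (BadBox P z q α).card := hcardR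
    _ ≤ Mq q * (F (Mq q) / (Mq q * (2 * Mq q) ^ k) * (z : ℝ) ^ k) := mul_le_mul_of_nonneg_left hbox hMr.le
    _ ≤ Mq q * (F (Mq q) / (Mq q * (2 * Mq q) ^ k) * ((2 * Mq q) ^ k * (z' : ℝ) ^ k)) := by gcongr
    _ = F (Mq q) * (z' : ℝ) ^ k := by field_simp

end Pool.Agent.H62.EX
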