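import Pool.Agent.H62.EX.Asm
import Pool.Agent.H62.EX.Box

/-!
# [H62 EX BS] Bohr boxes, windows of length at most `log M`
-/

set_option autoImplicit false

namespace Pool.Agent.H62.EX

open Finset Filter Pool.Agent.H61.UN Pool.Agent.H34.RR

open Classical in
/-- good tuples -/
def Gd {k r : ℕ} (W s₀ : ℕ) (χ : ℕ → Fin r) (D : ℕ) (d : ℝ) (M : ℕ) (L : ℝ) (a : Fin k → ℕ) : Prop :=
  ∀ G : Finset (Fin k), OnePair G → (Real.log M < L → G = ∅) → ∃ q : Fin r,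
    d * min 1 (L / Real.log M) ^ D * M ≤ Real.log M ^ k *
      ({n : ℕ | n < M ∧ Pat W s₀ χ q G (Fin.cons 0 a : Fin (k + 1) → ℕ) (Nat.nth Nat.Prime n)}.ncard : ℝ)

theorem bad_of1 {k r : ℕ} (W s₀ : ℕ) (χ : ℕ → Fin r) (M : ℕ) (V Thr : ℝ) (a : Fin k → ℕ)
    (ha : ∀ j, 1 ≤ a j) (hmono : StrictMono a)
    (h : ¬ ∀ G : Finset (Fin k), OnePair G → ∃ q : Fin r, Thr ≤ V * ({n : ℕ | n < M ∧
      Pat W s₀ χ q G (Fin.cons 0 a : Fin (k + 1) → ℕ) (Nat.nth Nat.Prime n)}.ncard : ℝ)) :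
    (fun j => (a j : ℤ)) ∈ ⋃ a : Lab k, Bad W s₀ χ M V Thr a := by
  have h1 := bad_of W s₀ χ M V Thr a 1 le_rfl ha hmono (by
    intro hcon
    apply h
    intro G hG
    obtain ⟨q, hq⟩ := hcon G hG
    refine ⟨q, ?_⟩
    simpa only [Nat.one_mul] using hq)
  simpa only [Nat.cast_one, one_mul] using h1

open Classical in
theorem boxS (k r : ℕ) (hk : 1 ≤ k) : ∃ D : ℕ, ∀ W s₀ : ℕ, 0 < W → Nat.Coprime s₀ W →
    ∀ F : ℕ → ℝ, (∀ q, 0 < F q) → ∃ (Q : ℕ) (c d B : ℝ), 0 < c ∧ 0 < d ∧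
    ∀ (χ : ℕ → Fin r) (M : ℕ) (y : ℝ), B ≤ y → y ≤ Real.log M →
      ∃ (z q : ℕ) (α : Fin q → ℝ), 1 ≤ q ∧ q ≤ Q ∧ c * y ≤ z ∧ (z : ℝ) ≤ y ∧
        ((BadBox (fun a : Fin k → ℕ => Gd W s₀ χ D d M y a) z q α).card : ℝ) ≤ F q * (z : ℝ) ^ k := by
  rcases Nat.eq_zero_or_pos r with hr | hr
  · subst hr
    exact ⟨0, fun _ _ _ _ F _ => ⟨1, 1, 1, 1, one_pos, one_pos, fun χ => (χ 0).elim0⟩⟩
  have hr0 : (0 : ℝ) < r := by exact_mod_cast hr
  have hk0 : (0 : ℝ) < k := by exact_mod_cast hk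
  obtain ⟨J, hJ⟩ : ∃ J : ℕ, J = 100 * k * r := ⟨_, rfl⟩
  have hJ1 : 1 ≤ J := by
    rw [hJ]
    exact Nat.mul_pos (Nat.mul_pos (by norm_num) hk) hr
  obtain ⟨m, hmd⟩ : ∃ m : ℕ, m = Fintype.card (Nd k J) := ⟨_, rfl⟩
  have hm : 1 ≤ m := by
    obtain ⟨J', rfl⟩ : ∃ J', J = J' + 1 := ⟨J - 1, by omega⟩
    rw [hmd, card_nd]
    omega
  obtain ⟨e⟩ : Nonempty (Fin m ≃ Nd k J) := by
    rw [hmd]
    exact ⟨(Fintype.equivFin _).symm⟩
  obtain ⟨s, wd, hs, hsv⟩ := sieveE m hm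
  refine ⟨m * s, fun W s₀ hW hs₀ F hF => ?_⟩
  obtain ⟨η, hη, hhyp⟩ := card_hyp hk F hF
  obtain ⟨pos, hpos⟩ := exists_pos k
  obtain ⟨R, hRd⟩ : ∃ R : ℕ, R = W * primorial wd := ⟨_, rfl⟩
  have hR : 0 < R := by rw [hRd]; exact Nat.mul_pos hW (primorial_pos wd)
  have hRw : primorial wd ∣ R := by rw [hRd]; exact Dvd.intro_left _ rfl
  have hWR : W ∣ R := by rw [hRd]; exact Dvd.intro _ rfl
  obtain ⟨ρ, hρ1, hρ2⟩ := exists_class W s₀ R hW hs₀ hR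
  obtain ⟨c, Q, L0, hc, hconf⟩ := conf k s J R ρ hk hs hR pos η hη
  have hw0 : ∀ d : Fin m, 0 ≤ (fun d => wt k J (e d) / r) d := fun d => div_nonneg (wt_nonneg _ _ _) hr0.le
  have hw1 : 100 ≤ ∑ d : Fin m, (fun d => wt k J (e d) / r) d := by
    rw [← Finset.sum_div, Equiv.sum_comp e (wt k J), sum_wt k J hk, hJ]
    rw [le_div_iff₀ hr0, le_div_iff₀ hk0]
    push_cast
    linarith
  obtain ⟨lam, δ, θ, T, H0, hlam, hlam1, hδ, hθ, hT, hH0, hx⟩ := hsv _ hw0 hw1 R hR hRw c hc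
  obtain ⟨d0, xs, hd0, hxs, hwin⟩ := Pool.Agent.H62.AU.winU T hT
  have hev := (hxs.eventually hx).and ((hxs.eventually_gt_atTop 1).and hwin)
  obtain ⟨M1, hM1⟩ := eventually_atTop.1 hev
  obtain ⟨Kc, hKc⟩ : ∃ Kc : ℝ, Kc = (Fintype.card (Lab k) + 1) * r * 2 ^ k := ⟨_, rfl⟩
  have hKc0 : 0 < Kc := by rw [hKc]; positivity
  obtain ⟨d, hd⟩ : ∃ d : ℝ, d = d0 * (δ * (lam / 4) ^ (m * s)) / (2 * Kc) := ⟨_, rfl⟩
  have hd1 : 0 < d := by rw [hd]; positivity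
  obtain ⟨B, hBd⟩ : ∃ B : ℝ, B = max (Real.log ((M1 : ℝ) + 1)) ((L0 + 2 * Q + H0 + 2) / lam) := ⟨_, rfl⟩
  have hB1 : Real.log ((M1 : ℝ) + 1) ≤ B := hBd ▸ le_max_left _ _
  have hB2 : (L0 + 2 * Q + H0 + 2) / lam ≤ B := hBd ▸ le_max_right _ _
  refine ⟨Q, lam / (4 * (Q + 1)), d, B, by positivity, hd1, fun χ M y hB hyM => ?_⟩
  obtain ⟨t, ht1⟩ : ∃ t, t = y / Real.log M := ⟨_, rfl⟩
  have hyB : L0 + 2 * Q + H0 + 2 ≤ lam * y := by
    rw [div_le_iff₀ hlam] at hB2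
    nlinarith
  have hL00 : (0 : ℝ) ≤ L0 := Nat.cast_nonneg _
  have hQ00 : (0 : ℝ) ≤ Q := Nat.cast_nonneg _
  have hy1 : 1 ≤ y := by
    by_contra hc2
    push Not at hc2
    nlinarith
  have hy0 : 0 < y := by linarith
  have hlM0 : 0 ≤ Real.log (M : ℝ) := Real.log_natCast_nonneg M
  have hlM : y ≤ Real.log M := hyM
  have hlM1 : 0 < Real.log (M : ℝ) := hy0.trans_le hyM
  have ht0 : 0 < t := by
    rw [ht1]
    exact div_pos hy0 hlM1
  have ht : t ≤ 1 := by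
    rw [ht1, div_le_one hlM1]
    exact hyM
  have hy : y = t * Real.log M := by
    rw [ht1, div_mul_cancel₀ _ hlM1.ne']
  have hM0 : (0 : ℝ) < M := by
    by_contra hc2
    have h2 : (M : ℝ) = 0 := le_antisymm (not_lt.1 hc2) (Nat.cast_nonneg M)
    rw [h2, Real.log_zero] at hlM
    linarith
  have hMM : M1 ≤ M := by
    have h1 : Real.log ((M1 : ℝ) + 1) ≤ Real.log M := hB1.trans (hB.trans hlM)
    have h2 : (M1 : ℝ) + 1 ≤ M := (Real.log_le_log_iff (by positivity) hM0).1 h1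
    have h3 : ((M1 + 1 : ℕ) : ℝ) ≤ M := by
      push_cast
      exact h2
    have h4 : M1 + 1 ≤ M := by exact_mod_cast h3
    omega
  obtain ⟨hxx, hxs1, hlx1, hlx2, hwin⟩ := hM1 M hMM
  generalize xs M = X at hxx hxs1 hlx1 hlx2 hwin
  have hlX : 0 < Real.log X := by linarith
  -- the length
  obtain ⟨L, hLd⟩ : ∃ L : ℕ, L = ⌊lam * y⌋₊ := ⟨_, rfl⟩
  have hLy : (L : ℝ) ≤ lam * y := by
    rw [hLd]
    exact Nat.floor_le (by positivity)
  have hLy1 : lam * y < L + 1 := by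
    rw [hLd]
    exact Nat.lt_floor_add_one _
  have hLy2 : (L : ℝ) ≤ y := hLy.trans (by nlinarith)
  have hLL0 : L0 ≤ L := by
    have : (L0 : ℝ) ≤ L := by linarith
    exact_mod_cast this
  have hLQ : 2 * Q ≤ L := by
    have h1 : (2 : ℝ) * Q ≤ L := by linarith
    exact_mod_cast h1
  have hLH0 : H0 ≤ L := by linarith
  have hL1 : (1 : ℝ) ≤ L := hH0.trans hLH0
  have hL2 : lam * y / 2 ≤ L := by linarith
  -- the bad tuples are dense
  obtain ⟨V, hV⟩ : ∃ V : ℝ, V = y ^ k := ⟨_, rfl⟩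
  obtain ⟨Thr, hThr⟩ : ∃ Thr : ℝ, Thr = d * t ^ (m * s) * M := ⟨_, rfl⟩
  have hV0 : 0 < V := by rw [hV]; positivity
  have hThr0 : 0 ≤ Thr := by rw [hThr]; positivity
  by_contra hcon0
  have hH : Hyp k η Q L (⋃ a : Lab k, Bad W s₀ χ M V Thr a) := by
    by_contra hH
    apply hcon0
    obtain ⟨z, q, α, hq1, hqQ, hz1, hz2, hz3⟩ := hhyp Q L hLQ (by exact_mod_cast hL1) (⋃ a : Lab k, Bad W s₀ χ M V Thr a)
      (fun a : Fin k → ℕ => Gd W s₀ χ (m * s) d M y a) (by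
        intro a ha1 ha2 ha3
        refine bad_of1 W s₀ χ M V Thr a ha2 ha1 fun hcon => ha3 ?_
        intro G hG _
        obtain ⟨q, hq⟩ := hcon G hG
        refine ⟨q, ?_⟩
        rw [← ht1, min_eq_right ht, ← hThr]
        refine hq.trans (mul_le_mul_of_nonneg_right ?_ (Nat.cast_nonneg _))
        rw [hV]
        exact pow_le_pow_left₀ hy0.le hyM k) hH
    refine ⟨z, q, α, hq1, hqQ, ?_, ?_, hz3⟩
    · have h1 : (L : ℝ) ≤ 2 * Q * z := by exact_mod_cast hz1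
      have h2 : (0 : ℝ) ≤ z := Nat.cast_nonneg _
      rw [div_mul_eq_mul_div, div_le_iff₀ (by positivity)]
      nlinarith
    · have h1 : (z : ℝ) ≤ L := by exact_mod_cast hz2
      exact h1.trans hLy2
  obtain ⟨𝓗, h𝓗1, h𝓗2⟩ := hconf L hLL0 (Bad W s₀ χ M V Thr) hH m e
  have hcount := hxx L hLH0 (by
    refine hLy.trans (mul_le_mul_of_nonneg_left (hlM.trans hlx1) hlam.le)) 𝓗
    (fun v hv => ⟨(h𝓗2 v hv).1, fun i => by
      have h4 : Nat.gcd ρ R = 1 := hρ1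
      show Nat.gcd (v i) R = 1
      rw [← h4]
      exact Nat.ModEq.gcd_eq ((h𝓗2 v hv).2.1 i)⟩) h𝓗1
  obtain ⟨P, hP⟩ : ∃ P : ℕ → Prop, P = fun n => ∃ (a : Lab k) (q : Fin r) (u : Fin k → ℕ), (∀ j, u j ≤ L) ∧
      (fun j => (u j : ℤ)) ∈ Bad W s₀ χ M V Thr a ∧
      Pat W s₀ χ q a.1 (Fin.cons 0 u : Fin (k + 1) → ℕ) (Nat.nth Nat.Prime n) := ⟨_, rfl⟩
  have hfin := hwin P (δ * (L / Real.log X) ^ (m * s)) _ (by positivity) hcount (by
    intro N hN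
    rw [mem_filter, mem_range, Nat.lt_succ_iff] at hN
    obtain ⟨h1, h2, h3, v, hv, hwc, hpr⟩ := hN
    have hX0 : 0 < X := by linarith
    refine ⟨(Nat.le_floor_iff (by positivity)).1 h1, ?_⟩
    obtain ⟨hv1, hv2, hv3⟩ := h𝓗2 v hv
    obtain ⟨a, q, z, hz1, hz2, hz3⟩ := win_pat hk hs pos (fun a => a.1) hpos (Bad W s₀ χ M V Thr)
      (fun a y hy => bad_mono W s₀ χ M V Thr a y hy) W s₀ χ N L e v (mem_IJ.1 hv1).1 hv3 hwc
      (fun i => by
        have h4 : N ≡ 0 [MOD W] := Nat.modEq_zero_iff_dvd.2 (hWR.trans h3)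
        have h5 := h4.add ((hv2 i).of_dvd hWR)
        rw [Nat.zero_add] at h5
        exact h5.trans hρ2) hpr
    have hzm := bad_mono W s₀ χ M V Thr a z hz1
    have hz0 : ∀ i, z 0 ≤ z i := fun i => hzm.monotone (Fin.zero_le i)
    have hp : (N + z 0).Prime := by
      have h4 := (hz3.1 0).1
      simp only [Nat.sub_self, Nat.add_zero] at h4
      exact h4
    obtain ⟨n, hn⟩ := exists_nth hp
    refine ⟨n, ?_, ?_, ?_⟩
    · rw [hP]
      refine ⟨a, q, fun j => z j.succ - z 0, fun j => (Nat.sub_le _ _).trans (hz2 _), ?_, ?_⟩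
      · have h4 : (fun j : Fin k => ((z j.succ - z 0 : ℕ) : ℤ)) = df z := by
          funext j
          rw [df, Nat.cast_sub (hz0 _)]
        rw [h4]
        exact hz1
      · rw [hn]
        have h4 : (Fin.cons 0 (fun j : Fin k => z j.succ - z 0) : Fin (k + 1) → ℕ) = fun i => z i - z 0 := by
          funext i
          refine Fin.cases ?_ (fun j => ?_) i
          · simp
          · rw [Fin.cons_succ]
        rw [h4]
        exact hz3
    · rw [hn]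
      exact Nat.le_add_right _ _
    · rw [hn]
      push_cast
      have h4 : (z 0 : ℝ) ≤ L := by exact_mod_cast hz2 0
      linarith)
  have hub := union_bd W s₀ χ M L V Thr hV0 hThr0 P (by
    intro n hn
    rw [hP] at hn
    exact hn)
  -- comparison
  have h1 : V * (d0 * (δ * (L / Real.log X) ^ (m * s)) * M) ≤
      Fintype.card (Lab k) * r * ((L : ℝ) + 1) ^ k * Thr := (mul_le_mul_of_nonneg_left hfin hV0.le).trans hub
  have h2 : ((L : ℝ) + 1) ^ k ≤ 2 ^ k * V := by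
    rw [hV, ← mul_pow]
    refine pow_le_pow_left₀ (by positivity) ?_ k
    linarith
  have h3 : lam / 4 * t ≤ L / Real.log X := by
    rw [le_div_iff₀ hlX]
    have h4 : lam / 4 * t * Real.log X ≤ lam / 4 * t * (2 * Real.log M) :=
      mul_le_mul_of_nonneg_left hlx2 (by positivity)
    have h5 : lam / 4 * t * (2 * Real.log M) = lam * y / 2 := by rw [hy]; ring
    linarith
  have h4 : (lam / 4) ^ (m * s) * t ^ (m * s) ≤ (L / Real.log X) ^ (m * s) := by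
    rw [← mul_pow]
    exact pow_le_pow_left₀ (by positivity) h3 _
  have h5 : V * (d0 * (δ * ((lam / 4) ^ (m * s) * t ^ (m * s))) * M) ≤ V * (Kc * Thr) := by
    calc V * (d0 * (δ * ((lam / 4) ^ (m * s) * t ^ (m * s))) * M)
        ≤ V * (d0 * (δ * (L / Real.log X) ^ (m * s)) * M) := by gcongr
      _ ≤ Fintype.card (Lab k) * r * ((L : ℝ) + 1) ^ k * Thr := h1
      _ ≤ Fintype.card (Lab k) * r * (2 ^ k * V) * Thr := by gcongr
      _ ≤ (Fintype.card (Lab k) + 1) * r * (2 ^ k * V) * Thr := by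
          gcongr
          linarith
      _ = V * (Kc * Thr) := by rw [hKc]; ring
  have h6 := le_of_mul_le_mul_left h5 hV0
  have h7 : Kc * Thr = d0 * (δ * ((lam / 4) ^ (m * s) * t ^ (m * s))) * M / 2 := by
    rw [hThr, hd]
    field_simp
  have h8 : 0 < d0 * (δ * ((lam / 4) ^ (m * s) * t ^ (m * s))) * M := by positivity
  linarith

end Pool.Agent.H62.EX
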