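import Pool.Agent.H62.EX.Bip
import Pool.Agent.H62.EX.Fi2

/-!
# [H62 EX CX] Counts of exact patterns: from one matrix to all affinely independent sets of points of a box
-/

set_option autoImplicit false

namespace Pool.Agent.H62.EX

open Finset Filter Pool.Agent.H48.EP Pool.Agent.H34.EV

open Classical in
/-- counts of exact patterns for one matrix -/
def CxOne (k r N D : ℕ) (M : Matrix (Fin k) (Fin k) ℤ) (n P : ℕ) : Prop :=
  ∀ c : Fin n → ℕ, (∀ i, 1 ≤ c i) → ∀ ε : ℝ, 0 < ε → ∃ B : ℕ,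
    ∀ W s₀ : ℕ, 0 < W → Nat.Coprime s₀ W → ∀ A : ℕ, ∃ (d : ℝ) (X₀ : ℕ), 0 < d ∧
      ∀ (χ : ℕ → Fin r) (X z : ℕ) (b : Fin k → ℤ), X₀ ≤ X → B ≤ z →
      (z : ℝ) ≤ Real.log X ^ A → (∀ j, |(b j : ℝ)| ≤ Real.log X ^ A) →
      (((Fintype.piFinset (fun j : Fin k => Ioc (b j) (b j + z))).filter (fun a => ¬ ∃ I : Finset (Fin n), I.Nonempty ∧
        ∀ J : Finset (Fin (k + 1)), ∃ q : Fin r, d * min 1 (z / Real.log X) ^ D * X ≤ Real.log X ^ (k + 1) *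
            ({t : ℕ | t ≤ X ∧ BoxPat W s₀ χ q N (J.image (rws M)) (P * W * ∑ i ∈ I, c i) a t}.ncard : ℝ))).card : ℝ) ≤
              ε * (z : ℝ) ^ k

/-- translation of the patterns, with counts -/
theorem boxpat_count {k r N : ℕ} {W s₀ : ℕ} {χ : ℕ → Fin r} {q : Fin r} {F G : Finset (Fin k → ℤ)} {x₀ : Fin k → ℤ}
    (hx₀ : ∀ i, |x₀ i| ≤ N) (hFG : ∀ y, y ∈ F ↔ y - x₀ ∈ G) {m : ℕ} {a : Fin k → ℤ} (X X' S : ℕ)
    (hS : |(m : ℤ) * ∑ i, x₀ i * a i| ≤ S) (hX : X' + S ≤ X) :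
    {t : ℕ | t ≤ X' ∧ BoxPat W s₀ χ q (2 * N) G m a t}.ncard ≤ {t : ℕ | t ≤ X ∧ BoxPat W s₀ χ q N F m a t}.ncard + S := by
  obtain ⟨d, hd⟩ : ∃ d : ℤ, d = m * ∑ i, x₀ i * a i := ⟨_, rfl⟩
  rw [← hd] at hS
  obtain ⟨T, hT⟩ : ∃ T : Set ℕ, T = {t : ℕ | t ≤ X ∧ BoxPat W s₀ χ q N F m a t} := ⟨_, rfl⟩
  have hTfin : T.Finite := by
    rw [hT]
    exact (Set.finite_Iic X).subset fun t ht => ht.1
  have h1 : {t : ℕ | t ≤ X' ∧ BoxPat W s₀ χ q (2 * N) G m a t} ⊆ (Set.Iio S) ∪ ((fun t : ℕ => ((t : ℤ) + d).toNat) '' T) := by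
    intro t ht
    by_cases htS : t < S
    · exact Or.inl htS
    · right
      have h2 := abs_le.1 hS
      have h3 : (0 : ℤ) ≤ (t : ℤ) - d := by
        have : (S : ℤ) ≤ t := by exact_mod_cast (not_lt.1 htS)
        linarith [h2.2]
      refine ⟨((t : ℤ) - d).toNat, ?_, ?_⟩
      · rw [hT]
        refine ⟨?_, fun x hx => ?_⟩
        · have h4 : (((t : ℤ) - d).toNat : ℤ) ≤ X := by
            rw [Int.toNat_of_nonneg h3]
            have h5 : (t : ℤ) ≤ X' := by exact_mod_cast ht.1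
            have h6 : ((X' + S : ℕ) : ℤ) ≤ X := by exact_mod_cast hX
            push_cast at h6
            linarith [h2.1]
          exact_mod_cast h4
        · obtain ⟨p', hp', h4, h5⟩ := ht.2 (x - x₀) (fun i => by
            have h4 := hx i
            have h5 := hx₀ i
            rw [abs_le] at h4 h5 ⊢
            rw [Pi.sub_apply]
            push_cast
            constructor <;> linarith [h4.1, h4.2, h5.1, h5.2])
          refine ⟨p', ?_, fun hxF => h4 ((hFG x).1 hxF), fun hxF => h5 (fun h => hxF ((hFG x).2 h))⟩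
          rw [hp', Int.toNat_of_nonneg h3, hd]
          simp only [Pi.sub_apply, sub_mul, sum_sub_distrib]
          ring
      · show ((((t : ℤ) - d).toNat : ℤ) + d).toNat = t
        rw [Int.toNat_of_nonneg h3, sub_add_cancel, Int.toNat_natCast]
  calc {t : ℕ | t ≤ X' ∧ BoxPat W s₀ χ q (2 * N) G m a t}.ncard
      ≤ ((Set.Iio S) ∪ ((fun t : ℕ => ((t : ℤ) + d).toNat) '' T)).ncard :=
        Set.ncard_le_ncard h1 ((Set.finite_Iio S).union (hTfin.image _))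
    _ ≤ (Set.Iio S).ncard + ((fun t : ℕ => ((t : ℤ) + d).toNat) '' T).ncard := Set.ncard_union_le _ _
    _ ≤ S + T.ncard := by
        refine Nat.add_le_add (le_of_eq ?_) (Set.ncard_image_le hTfin)
        rw [← Nat.card_coe_set_eq]
        simp
    _ = T.ncard + S := Nat.add_comm _ _
    _ = _ := by rw [hT]

/-- the parameters -/
abbrev ThW : Type := {θ : ℕ × ℕ × ℕ // 0 < θ.1 ∧ Nat.Coprime θ.2.1 θ.1}

/-- the range -/
def HCx {k : ℕ} (θ : ThW) (X z : ℕ) (b : Fin k → ℤ) : Prop :=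
  (z : ℝ) ≤ Real.log X ^ θ.1.2.2 ∧ (∀ j, |(b j : ℝ)| ≤ Real.log X ^ θ.1.2.2)

/-- many exact patterns for `M` -/
def GCx {k r : ℕ} (N D : ℕ) (M : Matrix (Fin k) (Fin k) ℤ) (θ : ThW) (d : ℝ) (χ : ℕ → Fin r) (X z m : ℕ) (a : Fin k → ℤ) :
    Prop :=
  ∀ J : Finset (Fin (k + 1)), ∃ q : Fin r, d * min 1 (z / Real.log X) ^ D * X ≤ Real.log X ^ (k + 1) *
    ({t : ℕ | t ≤ X ∧ BoxPat θ.1.1 θ.1.2.1 χ q N (J.image (rws M)) (θ.1.1 * m) a t}.ncard : ℝ)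

theorem min_nn (X z : ℕ) : 0 ≤ min 1 ((z : ℝ) / Real.log X) ∧ min 1 ((z : ℝ) / Real.log X) ≤ 1 :=
  ⟨le_min zero_le_one (div_nonneg (Nat.cast_nonneg _) (Real.log_natCast_nonneg X)), min_le_left _ _⟩

theorem GCx.mono {k r N D : ℕ} {M : Matrix (Fin k) (Fin k) ℤ} {θ : ThW} {d d' : ℝ} {χ : ℕ → Fin r} {X z m : ℕ}
    {a : Fin k → ℤ} (hdd : d' ≤ d) (hG : GCx N D M θ d χ X z m a) : GCx N D M θ d' χ X z m a := by
  intro J
  obtain ⟨q, hq⟩ := hG J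
  refine ⟨q, le_trans ?_ hq⟩
  exact mul_le_mul_of_nonneg_right (mul_le_mul_of_nonneg_right hdd (pow_nonneg (min_nn X z).1 _)) (Nat.cast_nonneg _)

theorem GCx.monoD {k r N D D' : ℕ} {M : Matrix (Fin k) (Fin k) ℤ} {θ : ThW} {d : ℝ} {χ : ℕ → Fin r} {X z m : ℕ}
    {a : Fin k → ℤ} (hd : 0 < d) (hD : D ≤ D') (hG : GCx N D M θ d χ X z m a) : GCx N D' M θ d χ X z m a := by
  intro J
  obtain ⟨q, hq⟩ := hG J
  refine ⟨q, le_trans ?_ hq⟩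
  refine mul_le_mul_of_nonneg_right (mul_le_mul_of_nonneg_left ?_ hd.le) (Nat.cast_nonneg _)
  exact pow_le_pow_of_le_one (min_nn X z).1 (min_nn X z).2 hD

theorem CxOne.ip {k r N D : ℕ} {M : Matrix (Fin k) (Fin k) ℤ} {n P : ℕ} (h : CxOne k r N D M n P) :
    IPct (HCx (k := k)) (GCx (r := r) N D M) n P := by
  classical
  intro c hc ε hε
  obtain ⟨B, hB⟩ := h c hc ε hε
  refine ⟨B, fun θ => ?_⟩
  obtain ⟨d, X₀, hd, h1⟩ := hB θ.1.1 θ.1.2.1 θ.2.1 θ.2.2 θ.1.2.2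
  refine ⟨d, X₀, hd, fun χ X z b hX hz hH => ?_⟩
  refine le_trans (Nat.cast_le.2 (card_le_card fun a ha => ?_)) (h1 χ X z b hX hz hH.1 hH.2)
  rw [mem_Exc] at ha
  rw [mem_filter, Fintype.mem_piFinset]
  refine ⟨ha.1, fun hcon => ha.2 ?_⟩
  obtain ⟨I, hI, hJ⟩ := hcon
  refine ⟨I, hI, fun J => ?_⟩
  obtain ⟨q, hq⟩ := hJ J
  refine ⟨q, ?_⟩
  have h2 : θ.1.1 * (P * ∑ i ∈ I, c i) = P * θ.1.1 * ∑ i ∈ I, c i := by ring
  rw [h2]
  exact hq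

/-- all matrices at once -/
theorem cxAll (k r N : ℕ) (hN : 1 ≤ N)
    (h : ∀ M : Matrix (Fin k) (Fin k) ℤ, M.det ≠ 0 → ∃ D n P : ℕ, 0 < P ∧ CxOne k r N D M n P) :
    ∃ D n P : ℕ, 0 < P ∧ IPct (HCx (k := k)) (fun θ d (χ : ℕ → Fin r) X z m a =>
      ∀ M : {M : Matrix (Fin k) (Fin k) ℤ // M ∈ mats k N}, GCx N D M.1 θ d χ X z m a) n P := by
  have : Nonempty {M : Matrix (Fin k) (Fin k) ℤ // M ∈ mats k N} := ⟨⟨1, one_mem_mats hN⟩⟩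
  have h' : ∀ M : {M : Matrix (Fin k) (Fin k) ℤ // M ∈ mats k N}, ∃ D n P : ℕ, 0 < P ∧
      IPct (HCx (k := k)) (GCx (r := r) N D M.1) n P := by
    intro M
    obtain ⟨D, n, P, hP, h1⟩ := h M.1 (mem_mats.1 M.2).2
    exact ⟨D, n, P, hP, h1.ip⟩
  choose Df h2 using h'
  obtain ⟨D, hD⟩ : ∃ D : ℕ, D = ∑ M, Df M := ⟨_, rfl⟩
  refine ⟨D, IPct.inter (fun M θ d d' χ X z m a _ hdd hG => hG.mono hdd) (fun M => ?_)⟩
  obtain ⟨n, P, hP, h3⟩ := h2 M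
  refine ⟨n, P, hP, h3.mono fun θ d χ X z m a hd hG => hG.monoD hd ?_⟩
  rw [hD]
  exact single_le_sum (f := Df) (fun _ _ => Nat.zero_le _) (mem_univ M)

end Pool.Agent.H62.EX
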