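import Pool.Agent.H62.EX.Cx

/-!
# [H62 EX CXF] Counts of exact patterns, for all affinely independent sets of points of a box

`cntX`: from the counts for one matrix (with `2 N`).
-/

set_option autoImplicit false

namespace Pool.Agent.H62.EX

open Finset Filter Pool.Agent.H48.EP Pool.Agent.H34.EV

/-- filters, whatever the decision procedures -/
private theorem cle'' {α : Type} {s : Finset α} {p q : α → Prop} {dp : DecidablePred p} {dq : DecidablePred q}
    (h : ∀ a ∈ s, p a → q a) : ((@Finset.filter α p dp s).card : ℝ) ≤ ((@Finset.filter α q dq s).card : ℝ) := by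
  refine Nat.cast_le.2 (card_le_card fun a ha => ?_)
  rw [mem_filter] at ha ⊢
  exact ⟨ha.1, h a ha.1 ha.2⟩

open Classical in
/-- **the expected order of exact patterns, for all affinely independent sets of points of a box** -/
theorem cntX (k r N : ℕ) (hN : 1 ≤ N)
    (hone : ∀ M : Matrix (Fin k) (Fin k) ℤ, M.det ≠ 0 → ∃ D n P : ℕ, 0 < P ∧ CxOne k r (2 * N) D M n P) :
    ∃ D n P : ℕ, 0 < P ∧ ∀ c : Fin n → ℕ, (∀ i, 1 ≤ c i) → ∀ ε : ℝ, 0 < ε → ∃ B : ℕ,
    ∀ W s₀ : ℕ, 0 < W → Nat.Coprime s₀ W → ∀ A : ℕ, ∃ (d : ℝ) (X₀ : ℕ), 0 < d ∧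
      ∀ (χ : ℕ → Fin r) (X z : ℕ) (b : Fin k → ℤ), X₀ ≤ X → B ≤ z →
      (z : ℝ) ≤ Real.log X ^ A → (∀ j, |(b j : ℝ)| ≤ Real.log X ^ A) →
      (((Fintype.piFinset (fun j : Fin k => Ioc (b j) (b j + z))).filter (fun a => ¬ ∃ I : Finset (Fin n), I.Nonempty ∧
        ∀ F : Finset (Fin k → ℤ), (∀ x ∈ F, ∀ i, |x i| ≤ N) →
          AffineIndependent ℚ (fun x : F => fun i => (((x : Fin k → ℤ) i : ℤ) : ℚ)) →
          ∃ q : Fin r, d * min 1 (z / Real.log X) ^ D * X ≤ Real.log X ^ (k + 1) *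
            ({t : ℕ | t ≤ X ∧ BoxPat W s₀ χ q N F (P * W * ∑ i ∈ I, c i) a t}.ncard : ℝ))).card : ℝ) ≤ ε * (z : ℝ) ^ k := by
  obtain ⟨D, n, P, hP, h⟩ := cxAll k r (2 * N) (by omega) hone
  refine ⟨D, n, P, hP, fun c hc ε hε => ?_⟩
  obtain ⟨B, h⟩ := h c hc ε hε
  refine ⟨B + 1, fun W s₀ hW hs₀ A => ?_⟩
  obtain ⟨d, X₀, hd, h⟩ := h ⟨(W, s₀, A + 1), hW, hs₀⟩
  -- the size of the shifts
  obtain ⟨C, hC⟩ : ∃ C : ℕ, C = P * W * (∑ i, c i) * (k * (N * 2)) := ⟨_, rfl⟩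
  have hlog : Tendsto (fun X : ℕ => Real.log (X : ℝ)) atTop atTop := Real.tendsto_log_atTop.comp tendsto_natCast_atTop_atTop
  have hpow : ∀ (A : ℕ) (κ : ℝ), 0 < κ → ∀ᶠ X : ℕ in atTop, Real.log (X : ℝ) ^ A ≤ κ * X := by
    intro A κ hκ
    have h1 := (Real.isLittleO_pow_log_id_atTop (n := A)).bound hκ
    filter_upwards [tendsto_natCast_atTop_atTop.eventually h1, hlog.eventually_ge_atTop 0] with X h2 h3
    rw [Real.norm_of_nonneg (pow_nonneg h3 _)] at h2
    rw [id, Real.norm_of_nonneg (Nat.cast_nonneg _)] at h2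
    exact h2
  obtain ⟨d₁, hd₁⟩ : ∃ d₁ : ℝ, d₁ = d / 6 := ⟨_, rfl⟩
  have hd₁0 : 0 < d₁ := by rw [hd₁]; positivity
  obtain ⟨X1, hX1⟩ := eventually_atTop.1 ((hpow (A + 1) (1 / 8) (by norm_num)).and
    ((hpow (A + 1 + (k + 1) + D) (d / 12) (by positivity)).and ((hlog.eventually_ge_atTop ((C : ℝ) + 4 ^ (A + 1))).and
    (hlog.eventually_ge_atTop (2 * Real.log 3)))))
  refine ⟨d₁, X1 + 2 * X₀ + 9, hd₁0, fun χ X z b hX hz hzA hbA => ?_⟩
  obtain ⟨hX2, hX3, hX4, hX5⟩ := hX1 X (by omega)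
  have hX0 : (0 : ℝ) < X := by
    have : 0 < X := by omega
    exact_mod_cast this
  have h4p : (4 : ℝ) ≤ 4 ^ (A + 1) := by
    calc (4 : ℝ) = 4 ^ 1 := (pow_one _).symm
      _ ≤ 4 ^ (A + 1) := pow_le_pow_right₀ (by norm_num) (by omega)
  have hC0 : (0 : ℝ) ≤ C := Nat.cast_nonneg _
  have hl1 : 1 ≤ Real.log (X : ℝ) := by linarith
  have hl0 : 0 < Real.log (X : ℝ) := by linarith
  -- half of X
  obtain ⟨X', hX'⟩ : ∃ X' : ℕ, X' = X / 2 := ⟨_, rfl⟩
  have hX'3 : X ≤ 3 * X' := by omega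
  have hX'3r : (X : ℝ) ≤ 3 * X' := by exact_mod_cast hX'3
  have hX'2 : 2 * X' ≤ X := by omega
  have hX'2r : 2 * (X' : ℝ) ≤ X := by exact_mod_cast hX'2
  have hX'0 : (0 : ℝ) < X' := by linarith
  have hlX' : Real.log (X' : ℝ) ≤ Real.log X := Real.log_le_log hX'0 (by linarith)
  have hlX'2 : Real.log X / 2 ≤ Real.log (X' : ℝ) := by
    have h1 : Real.log (X : ℝ) ≤ Real.log (3 * X') := Real.log_le_log hX0 hX'3r
    rw [Real.log_mul (by norm_num) hX'0.ne'] at h1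
    linarith
  have hlX'0 : 0 < Real.log (X' : ℝ) := by linarith
  have hAA : Real.log (X : ℝ) ^ A ≤ Real.log (X' : ℝ) ^ (A + 1) := by
    have h1 : (Real.log X / 2) ^ (A + 1) ≤ Real.log (X' : ℝ) ^ (A + 1) := pow_le_pow_left₀ (by positivity) hlX'2 _
    refine le_trans ?_ h1
    rw [div_pow, le_div_iff₀ (by positivity), pow_succ (Real.log (X : ℝ))]
    refine mul_le_mul_of_nonneg_left ?_ (by positivity)
    have h2 : (2 : ℝ) ^ (A + 1) ≤ 4 ^ (A + 1) := pow_le_pow_left₀ (by norm_num) (by norm_num) _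
    linarith
  have hres := h χ X' z b (by omega) (by omega) ⟨hzA.trans hAA, fun j => (hbA j).trans hAA⟩
  have hz1 : (1 : ℝ) ≤ z := by
    have : 1 ≤ z := by omega
    exact_mod_cast this
  obtain ⟨ν, hν⟩ : ∃ ν : ℝ, ν = min 1 ((z : ℝ) / Real.log X) := ⟨_, rfl⟩
  have hν0 : 0 < ν := by rw [hν]; exact lt_min one_pos (by positivity)
  have hνl : 1 / Real.log X ≤ ν := by
    rw [hν]
    refine le_min ?_ (div_le_div_of_nonneg_right hz1 hl0.le)
    rw [div_le_one hl0]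
    exact hl1
  refine (cle'' fun a haQ ha => ?_).trans hres
  intro hcon
  obtain ⟨I, hI, hM⟩ := hcon
  refine ha ⟨I, hI, fun F hF hFA => ?_⟩
  rw [← hν]
  obtain ⟨M, x₀, J, hM1, hM2, hx₀, hJ⟩ := ext_basis hN F hF hFA
  obtain ⟨q, hq⟩ := hM ⟨M, mem_mats.2 ⟨hM1, hM2⟩⟩ J
  refine ⟨q, ?_⟩
  have hmm : W * (P * ∑ i ∈ I, c i) = P * W * ∑ i ∈ I, c i := by ring
  obtain ⟨m, hm⟩ : ∃ m : ℕ, m = P * W * ∑ i ∈ I, c i := ⟨_, rfl⟩
  -- the shift
  obtain ⟨S, hS⟩ : ∃ S : ℕ, S = ⌊Real.log (X : ℝ) ^ (A + 1)⌋₊ := ⟨_, rfl⟩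
  have hSr : (S : ℝ) ≤ Real.log X ^ (A + 1) := by rw [hS]; exact Nat.floor_le (by positivity)
  have hShift : |(m : ℤ) * ∑ i, x₀ i * a i| ≤ S := by
    have h1 : |(m : ℝ) * ∑ i, (x₀ i : ℝ) * a i| ≤ Real.log X ^ (A + 1) := by
      have hma : ∀ i, |(a i : ℝ)| ≤ 2 * Real.log X ^ A := by
        intro i
        rw [Fintype.mem_piFinset] at haQ
        have h1 := mem_Ioc.1 (haQ i)
        have h2 := abs_le.1 (hbA i)
        have h3 : (b i : ℝ) < a i := by exact_mod_cast h1.1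
        have h4 : (a i : ℝ) ≤ b i + z := by exact_mod_cast h1.2
        have h5 : (0 : ℝ) ≤ Real.log X ^ A := by positivity
        rw [abs_le]
        constructor <;> linarith [h2.1, h2.2]
      have h2 : |∑ i, (x₀ i : ℝ) * a i| ≤ k * (N * (2 * Real.log X ^ A)) := by
        refine (abs_sum_le_sum_abs _ _).trans ?_
        have h3 : ∀ i ∈ (univ : Finset (Fin k)), |(x₀ i : ℝ) * (a i : ℝ)| ≤ N * (2 * Real.log X ^ A) := by
          intro i _
          rw [abs_mul]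
          refine mul_le_mul ?_ (hma i) (abs_nonneg _) (Nat.cast_nonneg _)
          have h4 := hx₀ i
          exact_mod_cast h4
        refine (sum_le_card_nsmul _ _ _ h3).trans (le_of_eq ?_)
        rw [card_univ, Fintype.card_fin, nsmul_eq_mul]
      have h3 : (m : ℝ) ≤ P * W * ∑ i, (c i : ℝ) := by
        rw [hm]
        push_cast
        exact mul_le_mul_of_nonneg_left (sum_le_sum_of_subset_of_nonneg (subset_univ I) fun _ _ _ => Nat.cast_nonneg _)
          (by positivity)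
      rw [abs_mul, Nat.abs_cast]
      calc (m : ℝ) * |∑ i, (x₀ i : ℝ) * a i| ≤ (P * W * ∑ i, (c i : ℝ)) * (k * (N * (2 * Real.log X ^ A))) :=
            mul_le_mul h3 h2 (abs_nonneg _) (by positivity)
        _ = C * Real.log X ^ A := by
            rw [hC]
            push_cast
            ring
        _ ≤ Real.log X ^ (A + 1) := by
            rw [pow_succ, mul_comm]
            exact mul_le_mul_of_nonneg_left (by linarith) (by positivity)
    rw [Int.abs_eq_natAbs]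
    have h2 : ((((m : ℤ) * ∑ i, x₀ i * a i).natAbs : ℕ) : ℝ) ≤ Real.log X ^ (A + 1) := by
      rw [Nat.cast_natAbs, Int.cast_abs]
      push_cast
      exact h1
    have h3 : ((m : ℤ) * ∑ i, x₀ i * a i).natAbs ≤ S := by
      rw [hS]
      exact Nat.le_floor h2
    exact_mod_cast h3
  have hXS : X' + S ≤ X := by
    have h1 : ((X' + S : ℕ) : ℝ) ≤ X := by
      push_cast
      linarith
    exact_mod_cast h1
  have hcs := boxpat_count (W := W) (s₀ := s₀) (χ := χ) (q := q) hx₀ hJ (m := m) (a := a) X X' S hShift hXS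
  obtain ⟨cn, hcn⟩ : ∃ cn : ℕ, cn = {t : ℕ | t ≤ X' ∧ BoxPat W s₀ χ q (2 * N) (J.image (rws M)) m a t}.ncard := ⟨_, rfl⟩
  rw [← hcn] at hcs
  have hq' : d * min 1 (z / Real.log X') ^ D * X' ≤ Real.log X' ^ (k + 1) * (cn : ℝ) := by
    rw [hcn, hm, ← hmm]
    exact hq
  rw [← hm]
  obtain ⟨tn, htn⟩ : ∃ tn : ℕ, tn = {t : ℕ | t ≤ X ∧ BoxPat W s₀ χ q N F m a t}.ncard := ⟨_, rfl⟩
  rw [← htn] at hcs ⊢
  have hcsr : (cn : ℝ) ≤ tn + S := by exact_mod_cast hcs
  -- lower bound of the left side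
  have hνX' : ν ≤ min 1 (z / Real.log X') := by
    rw [hν]
    exact min_le_min le_rfl (div_le_div_of_nonneg_left (by linarith) hlX'0 hlX')
  have h1 : d * ν ^ D * (X / 3) ≤ Real.log X ^ (k + 1) * cn := by
    calc d * ν ^ D * (X / 3) ≤ d * min 1 (z / Real.log X') ^ D * X' := by
          refine mul_le_mul (mul_le_mul_of_nonneg_left (pow_le_pow_left₀ hν0.le hνX' D) hd.le) (by linarith) (by positivity) ?_
          exact mul_nonneg hd.le (pow_nonneg (hν0.le.trans hνX') D)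
      _ ≤ Real.log X' ^ (k + 1) * cn := hq'
      _ ≤ Real.log X ^ (k + 1) * cn := mul_le_mul_of_nonneg_right (pow_le_pow_left₀ hlX'0.le hlX' _) (Nat.cast_nonneg _)
  -- the shift is negligible
  have h2 : Real.log X ^ (k + 1) * S ≤ d / 12 * ν ^ D * X := by
    have h3 : (1 / Real.log X) ^ D ≤ ν ^ D := pow_le_pow_left₀ (by positivity) hνl D
    have h4 : Real.log X ^ (k + 1) * S * Real.log X ^ D ≤ d / 12 * X := by
      refine le_trans ?_ hX3
      calc Real.log X ^ (k + 1) * S * Real.log X ^ D ≤ Real.log X ^ (k + 1) * Real.log X ^ (A + 1) * Real.log X ^ D :=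
            mul_le_mul_of_nonneg_right (mul_le_mul_of_nonneg_left hSr (by positivity)) (by positivity)
        _ = Real.log X ^ (A + 1 + (k + 1) + D) := by ring
    calc Real.log X ^ (k + 1) * S = Real.log X ^ (k + 1) * S * Real.log X ^ D * (1 / Real.log X) ^ D := by
          rw [div_pow, one_pow]
          field_simp
      _ ≤ d / 12 * X * (1 / Real.log X) ^ D := mul_le_mul_of_nonneg_right h4 (by positivity)
      _ ≤ d / 12 * X * ν ^ D := mul_le_mul_of_nonneg_left h3 (by positivity)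
      _ = d / 12 * ν ^ D * X := by ring
  have h3 : Real.log X ^ (k + 1) * cn ≤ Real.log X ^ (k + 1) * tn + Real.log X ^ (k + 1) * S := by
    rw [← mul_add]
    exact mul_le_mul_of_nonneg_left hcsr (by positivity)
  have h5 : 0 ≤ d * ν ^ D * X := by positivity
  rw [hd₁]
  linarith

end Pool.Agent.H62.EX
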