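import Pool.Agent.H62.EX.Df

/-!
# [H62 EX DET] A heavy configuration contains a bad pattern

`A`: the positions of the primes of the colour; `One d`: the cluster `d` contains exactly one prime, and it has the colour
(hypothesis `hone`: some `v ∈ A` of the cluster is the only element of `A` in the cluster).
`hin`: in the hull of the configuration all elements of `A` are points of the configuration.
Proof, induction on `j`.  `j = 0`: the sum is empty, `1 < 0` is false.
`j + 1`: the sum is `(1/k) [One rt] + (1/k) ∑ i, (sum of the subtree i)`.  If some subtree has sum `> 1`: induction; `hin` for the subtree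
`i`: let `x ∈ A` lie between two points `p, p'` of the subtree.  By `hin` it is a point of the configuration; all blocks are nonempty
(`s ≥ 1`, and `Nd k j` has a node because the subtree has a point); tuples with one element of each block are strictly
increasing (`hmono`), so an element of another block is smaller than all or larger than all points of the subtree.
If all subtree sums are `≤ 1`: then the total `> 1` implies `One rt` and `∑ i (sum i) > k - 1`, so every subtree sum is `> 0`, so every
subtree contains a cluster with `One`, so an element of `A`.  Let `a` be the label, `p = pos a`, block `p` = the root cluster,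
block `p.succAbove i` = the points of the subtree `i`.  `z t` = the largest (if `t = i.castSucc` for some `i ∈ G a`) or the smallest element of `A` in the
block `t`.  For `i ∈ G a` the element `z i.castSucc` is the largest of its block and `z i.succ` is the smallest of its block: if both rules apply
to one block `t` then `t = pos a` by `hG` and the block is the root cluster, which contains only one element of `A`.
`df z ∈ 𝓑 a`.  Between `z i.castSucc` and `z i.succ`, `i ∈ G a`, there is no element `x` of `A`: by `hin` it would be a point of the configuration, in a block `t`;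
`t ≤ i` : `x ≤ z i.castSucc`, `t ≥ i + 1`: `x ≥ z i.succ` (strictly increasing tuples, maximality, minimality).
-/

set_option autoImplicit false

namespace Pool.Agent.H62.EX

open Finset

/-- the sum over the nodes of a tree of depth `j + 1` -/
private theorem sum_nd {k j : ℕ} (f : Nd k (j + 1) → ℝ) :
    ∑ d, f d = f rt + ∑ i : Fin k, ∑ ν : Nd k j, f (sn i ν) := by
  have h := Fintype.sum_option (α := Fin k × Nd k j) (M := ℝ) f
  rw [Fintype.sum_prod_type] at h
  exact h

private theorem wt_rt (k j : ℕ) : wt k (j + 1) rt = 1 / (k : ℝ) := rfl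

private theorem wt_sn (k j : ℕ) (i : Fin k) (ν : Nd k j) : wt k (j + 1) (sn i ν) = wt k j ν / k := rfl

private theorem nd_cases {k j : ℕ} (d : Nd k (j + 1)) : d = rt ∨ ∃ i ν, d = sn i ν := by
  rcases d with _ | ⟨i, ν⟩
  · exact Or.inl rfl
  · exact Or.inr ⟨i, ν, rfl⟩

theorem sum_wt (k j : ℕ) (hk : 1 ≤ k) : ∑ d, wt k j d = j / k := by
  have hk0 : (k : ℝ) ≠ 0 := by
    have : 0 < k := hk
    positivity
  induction j with
  | zero =>
    have : IsEmpty (Nd k 0) := inferInstanceAs (IsEmpty Empty)
    simp
  | succ j ih =>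
    rw [sum_nd, wt_rt]
    simp_rw [wt_sn, ← Finset.sum_div]
    rw [Finset.sum_const, ih, Finset.card_univ, Fintype.card_fin, nsmul_eq_mul]
    push_cast
    field_simp
    ring

theorem wt_nonneg (k j : ℕ) (d : Nd k j) : 0 ≤ wt k j d := by
  induction j with
  | zero => exact le_refl _
  | succ j ih =>
    rcases nd_cases d with rfl | ⟨i, ν, rfl⟩
    · rw [wt_rt]; positivity
    · rw [wt_sn]; exact div_nonneg (ih ν) (by positivity)

/-- the case in which every block contains an element of `A` -/
private theorem core {k : ℕ} (Blk : Fin (k + 1) → ℕ → Prop) (A : Set ℕ) (hfin : ∀ t, {x | Blk t x}.Finite)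
    (hne : ∀ t, ∃ x, Blk t x ∧ x ∈ A) (B : Set (Fin k → ℤ)) (hB : ∀ w : Fin (k + 1) → ℕ, (∀ t, Blk t (w t)) → df w ∈ B)
    (hmono : ∀ w : Fin (k + 1) → ℕ, df w ∈ B → StrictMono w) (G : Finset (Fin k)) (p : Fin (k + 1))
    (hG : ∀ i ∈ G, ∀ i' ∈ G, i.succ = i'.castSucc → i.succ = p)
    (hone : ∀ x x', Blk p x → Blk p x' → x ∈ A → x' ∈ A → x = x')
    (hin : ∀ x ∈ A, (∃ t z, Blk t z ∧ z ≤ x) → (∃ t z, Blk t z ∧ x ≤ z) → ∃ t, Blk t x) :
    ∃ z : Fin (k + 1) → ℕ, df z ∈ B ∧ (∀ t, z t ∈ A ∧ Blk t (z t)) ∧
      ∀ i ∈ G, ∀ x ∈ A, z i.castSucc < x → ¬ x < z i.succ := by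
  classical
  have hfA : ∀ t, {x | Blk t x ∧ x ∈ A}.Finite := fun t => (hfin t).subset (fun x hx => hx.1)
  have hmx : ∀ t, ∃ m, (Blk t m ∧ m ∈ A) ∧ ∀ x, Blk t x → x ∈ A → x ≤ m := by
    intro t
    obtain ⟨m, hm, hm'⟩ := (hfA t).exists_maximal (hne t)
    refine ⟨m, hm, fun x hx hxA => ?_⟩
    rcases le_total x m with h | h
    · exact h
    · exact hm' ⟨hx, hxA⟩ h
  have hmn : ∀ t, ∃ m, (Blk t m ∧ m ∈ A) ∧ ∀ x, Blk t x → x ∈ A → m ≤ x := by
    intro t
    obtain ⟨m, hm, hm'⟩ := (hfA t).exists_minimal (hne t)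
    refine ⟨m, hm, fun x hx hxA => ?_⟩
    rcases le_total m x with h | h
    · exact h
    · exact hm' ⟨hx, hxA⟩ h
  choose mx hmx1 hmx2 using hmx
  choose mn hmn1 hmn2 using hmn
  set z : Fin (k + 1) → ℕ := fun t => if ∃ i ∈ G, t = i.castSucc then mx t else mn t with hz
  have hzB : ∀ t, Blk t (z t) ∧ z t ∈ A := by
    intro t
    simp only [hz]
    split_ifs
    · exact hmx1 t
    · exact hmn1 t
  have hzd : df z ∈ B := hB z (fun t => (hzB t).1)
  -- the order of the blocks
  have hord : ∀ t t' x x', t < t' → Blk t x → Blk t' x' → x < x' := by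
    intro t t' x x' htt hx hx'
    have hne' : t' ≠ t := ne_of_gt htt
    set w : Fin (k + 1) → ℕ := fun r => if r = t then x else if r = t' then x' else z r with hw
    have hwB : ∀ r, Blk r (w r) := by
      intro r
      simp only [hw]
      split_ifs with h1 h2
      · rw [h1]; exact hx
      · rw [h2]; exact hx'
      · exact (hzB r).1
    have h := hmono w (hB w hwB) htt
    have e1 : w t = x := by simp [hw]
    have e2 : w t' = x' := by simp [hw, hne']
    rwa [e1, e2] at h
  refine ⟨z, hzd, fun t => ⟨(hzB t).2, (hzB t).1⟩, ?_⟩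
  intro i hi x hxA hlt hgt
  have hz1 : z i.castSucc = mx i.castSucc := by
    simp only [hz]
    rw [if_pos ⟨i, hi, rfl⟩]
  have hz2 : ∀ x', Blk i.succ x' → x' ∈ A → z i.succ ≤ x' := by
    intro x' hx' hx'A
    by_cases hex : ∃ i' ∈ G, i.succ = i'.castSucc
    · obtain ⟨i', hi', hii⟩ := hex
      have hp := hG i hi i' hi' hii
      have h2 := hzB i.succ
      rw [hp] at hx' h2 ⊢
      exact le_of_eq (hone _ _ h2.1 hx' h2.2 hx'A)
    · have : z i.succ = mn i.succ := by
        simp only [hz]
        rw [if_neg hex]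
      rw [this]
      exact hmn2 _ x' hx' hx'A
  obtain ⟨t, ht⟩ := hin x hxA ⟨i.castSucc, _, (hzB _).1, hlt.le⟩ ⟨i.succ, _, (hzB _).1, hgt.le⟩
  rcases lt_trichotomy t i.castSucc with h | h | h
  · exact absurd (hord t _ x _ h ht (hzB _).1) (not_lt.mpr hlt.le)
  · rw [h] at ht
    have := hmx2 _ x ht hxA
    rw [← hz1] at this
    exact absurd hlt (not_lt.mpr this)
  · have h' : i.succ ≤ t := by
      rw [Fin.lt_def] at h
      rw [Fin.le_def]
      simp only [Fin.val_castSucc, Fin.val_succ] at h ⊢
      omega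
    rcases h'.lt_or_eq with h2 | h2
    · exact absurd (hord _ t _ x h2 (hzB _).1 ht) (not_lt.mpr hgt.le)
    · rw [← h2] at ht
      exact absurd hgt (not_lt.mpr (hz2 x ht hxA))

open Classical in
theorem det {k s : ℕ} (hk : 1 ≤ k) (hs : 1 ≤ s) {Λ : Type} (pos : Λ → Fin (k + 1)) (G : Λ → Finset (Fin k))
    (hG : ∀ a, ∀ i ∈ G a, ∀ i' ∈ G a, i.succ = i'.castSucc → i.succ = pos a)
    (𝓑 : Λ → Set (Fin k → ℤ)) (hmono : ∀ a, ∀ y : Fin (k + 1) → ℕ, df y ∈ 𝓑 a → StrictMono y)
    (A : Set ℕ) (j : ℕ) (y : Nd k j → Fin s → ℕ) (hT : Tr pos 𝓑 j y) (One : Nd k j → Prop)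
    (hone : ∀ d, One d → ∃ l, y d l ∈ A ∧ ∀ l', y d l' ∈ A → y d l' = y d l)
    (hin : ∀ x ∈ A, (∃ d l, y d l ≤ x) → (∃ d l, x ≤ y d l) → ∃ d l, y d l = x)
    (h1 : 1 < ∑ d, if One d then wt k j d else 0) :
    ∃ (a : Λ) (z : Fin (k + 1) → ℕ), df z ∈ 𝓑 a ∧ (∀ i, z i ∈ A ∧ ∃ d l, y d l = z i) ∧
      ∀ i ∈ G a, ∀ x ∈ A, z i.castSucc < x → ¬ x < z i.succ := by
  induction j with
  | zero =>
    have : IsEmpty (Nd k 0) := inferInstanceAs (IsEmpty Empty)
    rw [Fintype.sum_empty] at h1
    exact absurd h1 (by norm_num)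
  | succ j ih =>
    have hk0 : (0 : ℝ) < k := by
      have : 0 < k := hk
      exact_mod_cast this
    obtain ⟨⟨a, ha⟩, hsub⟩ := hT
    set p := pos a with hp
    -- tuples with one element of each block
    have htup : ∀ w : Fin (k + 1) → ℕ, (∃ l, y rt l = w p) → (∀ i, ∃ ν l, y (sn i ν) l = w (p.succAbove i)) →
        df w ∈ 𝓑 a := by
      intro w h0 hi
      have h := ha (w p) (fun i => w (p.succAbove i)) h0 hi
      have e : p.insertNth (w p) (fun i => w (p.succAbove i)) = w := Fin.insertNth_self_removeNth p w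
      rw [e] at h
      exact h
    let Blk : Fin (k + 1) → ℕ → Prop := fun t x =>
      (t = p ∧ ∃ l, y rt l = x) ∨ ∃ i, t = p.succAbove i ∧ ∃ ν l, y (sn i ν) l = x
    have hBp : ∀ x, Blk p x → ∃ l, y rt l = x := by
      intro x hx
      rcases hx with ⟨_, h⟩ | ⟨i, h, _⟩
      · exact h
      · exact absurd h.symm (Fin.succAbove_ne p i)
    have hBs : ∀ i x, Blk (p.succAbove i) x → ∃ ν l, y (sn i ν) l = x := by
      intro i x hx
      rcases hx with ⟨h, _⟩ | ⟨i', h, h'⟩
      · exact absurd h (Fin.succAbove_ne p i)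
      · rw [Fin.succAbove_right_inj] at h
        rw [h]; exact h'
    have hB : ∀ w : Fin (k + 1) → ℕ, (∀ t, Blk t (w t)) → df w ∈ 𝓑 a := fun w hw =>
      htup w (hBp _ (hw p)) (fun i => hBs i _ (hw _))
    -- all points are in blocks
    have hpt : ∀ x, (∃ d l, y d l = x) ↔ ∃ t, Blk t x := by
      intro x
      constructor
      · rintro ⟨d, l, rfl⟩
        rcases nd_cases d with rfl | ⟨i, ν, rfl⟩
        · exact ⟨p, Or.inl ⟨rfl, l, rfl⟩⟩
        · exact ⟨p.succAbove i, Or.inr ⟨i, rfl, ν, l, rfl⟩⟩
      · rintro ⟨t, ⟨_, l, h⟩ | ⟨i, _, ν, l, h⟩⟩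
        · exact ⟨rt, l, h⟩
        · exact ⟨sn i ν, l, h⟩
    -- the sum
    set f : Nd k (j + 1) → ℝ := fun d => if One d then wt k (j + 1) d else 0 with hf
    set g : Fin k → ℝ := fun i => ∑ ν : Nd k j, if One (sn i ν) then wt k j ν else 0 with hg
    have hsum : ∑ d, f d = (if One rt then 1 / (k : ℝ) else 0) + (∑ i, g i) / k := by
      rw [sum_nd]
      simp only [hf, hg, wt_rt]
      rw [Finset.sum_div]
      refine congrArg _ (Finset.sum_congr rfl (fun i _ => ?_))
      rw [Finset.sum_div]
      refine Finset.sum_congr rfl (fun ν _ => ?_)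
      rw [wt_sn]
      split_ifs
      · rfl
      · rw [zero_div]
    rw [hsum] at h1
    by_cases hbig : ∃ i, 1 < g i
    · obtain ⟨i, hi⟩ := hbig
      obtain ⟨l0⟩ : Nonempty (Fin s) := ⟨⟨0, hs⟩⟩
      obtain ⟨a', z, h2, h3, h4⟩ := ih (fun ν => y (sn i ν)) (hsub i) (fun ν => One (sn i ν))
        (fun d hd => hone (sn i d) hd)
        (by
          rintro x hxA ⟨d1, l1, hd1⟩ ⟨d2, l2, hd2⟩
          obtain ⟨t, ht⟩ := (hpt x).1 (hin x hxA ⟨sn i d1, l1, hd1⟩ ⟨sn i d2, l2, hd2⟩)
          by_cases hti : t = p.succAbove i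
          · rw [hti] at ht
            exact hBs i x ht
          · exfalso
            -- a base tuple
            have hbase : ∀ r, ∃ x0, Blk r x0 := by
              intro r
              rcases Fin.eq_self_or_eq_succAbove p r with h | ⟨i', h⟩
              · exact ⟨y rt l0, Or.inl ⟨h, l0, rfl⟩⟩
              · exact ⟨y (sn i' d1) l1, Or.inr ⟨i', h, d1, l1, rfl⟩⟩
            choose b hb using hbase
            have hord : ∀ v, Blk (p.succAbove i) v → (t < p.succAbove i → x < v) ∧ (p.succAbove i < t → v < x) := by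
              intro v hv
              set w : Fin (k + 1) → ℕ := fun r => if r = t then x else if r = p.succAbove i then v else b r with hw
              have hwB : ∀ r, Blk r (w r) := by
                intro r
                simp only [hw]
                split_ifs with h5 h6
                · rw [h5]; exact ht
                · rw [h6]; exact hv
                · exact hb r
              have hm := hmono a w (hB w hwB)
              have e1 : w t = x := by simp [hw]
              have e2 : w (p.succAbove i) = v := by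
                simp only [hw]
                rw [if_neg (fun h => hti h.symm), if_pos trivial]
              constructor
              · intro h7
                have := hm h7
                rwa [e1, e2] at this
              · intro h7
                have := hm h7
                rwa [e1, e2] at this
            have hv1 := hord (y (sn i d1) l1) (Or.inr ⟨i, rfl, d1, l1, rfl⟩)
            have hv2 := hord (y (sn i d2) l2) (Or.inr ⟨i, rfl, d2, l2, rfl⟩)
            rcases lt_or_gt_of_ne hti with h | h
            · exact absurd (hv1.1 h) (not_lt.mpr hd1)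
            · exact absurd (hv2.2 h) (not_lt.mpr hd2))
        hi
      exact ⟨a', z, h2, fun r => ⟨(h3 r).1, by
        obtain ⟨d, l, hdl⟩ := (h3 r).2
        exact ⟨sn i d, l, hdl⟩⟩, h4⟩
    · push Not at hbig
      have hgs : ∑ i, g i ≤ k := by
        calc ∑ i, g i ≤ ∑ _i : Fin k, (1 : ℝ) := Finset.sum_le_sum (fun i _ => hbig i)
          _ = k := by simp
      have hOrt : One rt := by
        by_contra hno
        rw [if_neg hno, zero_add, lt_div_iff₀ hk0] at h1
        linarith
      rw [if_pos hOrt, ← add_div, lt_div_iff₀ hk0] at h1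
      have hgpos : ∀ i, 0 < g i := by
        intro i
        by_contra hno
        push Not at hno
        have h5 : ∑ i', g i' ≤ ∑ i' : Fin k, (if i' = i then (0 : ℝ) else 1) := by
          refine Finset.sum_le_sum (fun i' _ => ?_)
          split_ifs with h
          · rw [h]; exact hno
          · exact hbig i'
        have h6 : ∑ i' : Fin k, (if i' = i then (0 : ℝ) else 1) = k - 1 := by
          have h7 : ∑ i' : Fin k, ((if i' = i then (0 : ℝ) else 1) + (if i' = i then (1 : ℝ) else 0)) = k := by
            have : ∀ i' : Fin k, ((if i' = i then (0 : ℝ) else 1) + (if i' = i then (1 : ℝ) else 0)) = 1 := by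
              intro i'
              split_ifs <;> norm_num
            simp [this]
          rw [Finset.sum_add_distrib, Finset.sum_ite_eq' Finset.univ i (fun _ => (1 : ℝ)),
            if_pos (Finset.mem_univ i)] at h7
          linarith
        linarith
      have hOi : ∀ i, ∃ ν, One (sn i ν) := by
        intro i
        by_contra hno
        push Not at hno
        have : g i = 0 := by
          simp only [hg]
          exact Finset.sum_eq_zero (fun ν _ => if_neg (hno ν))
        exact absurd (hgpos i) (by rw [this]; exact lt_irrefl _)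
      obtain ⟨z, hz1, hz2, hz3⟩ := core Blk A
        (by
          intro t
          refine Set.Finite.subset ((Set.finite_range (fun q : Nd k (j + 1) × Fin s => y q.1 q.2))) ?_
          intro x hx
          obtain ⟨d, l, h⟩ := (hpt x).2 ⟨t, hx⟩
          exact ⟨(d, l), h⟩)
        (by
          intro t
          rcases Fin.eq_self_or_eq_succAbove p t with h | ⟨i, h⟩
          · obtain ⟨l, hl, _⟩ := hone rt hOrt
            exact ⟨_, Or.inl ⟨h, l, rfl⟩, hl⟩
          · obtain ⟨ν, hν⟩ := hOi i
            obtain ⟨l, hl, _⟩ := hone _ hν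
            exact ⟨_, Or.inr ⟨i, h, ν, l, rfl⟩, hl⟩)
        (𝓑 a) hB (hmono a) (G a) p (hG a)
        (by
          intro x x' hx hx' hxA hxA'
          obtain ⟨l, rfl⟩ := hBp x hx
          obtain ⟨l', rfl⟩ := hBp x' hx'
          obtain ⟨l1, _, hl1⟩ := hone rt hOrt
          rw [hl1 l hxA, hl1 l' hxA'])
        (by
          rintro x hxA ⟨t, z, hz, hzx⟩ ⟨t', z', hz', hzx'⟩
          obtain ⟨d, l, h⟩ := (hpt z).2 ⟨t, hz⟩
          obtain ⟨d', l', h'⟩ := (hpt z').2 ⟨t', hz'⟩
          exact (hpt x).1 (hin x hxA ⟨d, l, by rw [h]; exact hzx⟩ ⟨d', l', by rw [h']; exact hzx'⟩))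
      exact ⟨a, z, hz1, fun r => ⟨(hz2 r).1, (hpt _).2 ⟨r, (hz2 r).2⟩⟩, hz3⟩

end Pool.Agent.H62.EX
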