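import Mathlib

/-!
# [H62 EX DF] THEOREM E (exact tuples with the Hardy-Littlewood order): definitions

`Bo q α L h`: `|h| ≤ L / q` and `h α_i` is within `1 / q` of an integer.
`Hyp k η Q L 𝓑`: for all `q ≤ Q` and all frequencies `𝓑` has at least `η q * L ^ k` elements in the Bohr box.
`Nd k j`: the nodes of a `k`-ary tree of depth `j`; `wt`: the weights, `∑ wt = j / k`.
`Tr`: trees of bad tuples.  A configuration `y : Nd k j → Fin s → ℕ` has a cluster of `s` points for every node.  At every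
node there is a label `a` such that all tuples with one element from the cluster of the node (in the position `pos a`) and
one element from each of the `k` subtrees (in the other positions, in order) are in `𝓑 a`.
-/

set_option autoImplicit false

namespace Pool.Agent.H62.EX

open Finset

/-- `h` is small and in the Bohr set -/
def Bo (q : ℕ) (α : Fin q → ℝ) (L : ℕ) (h : ℤ) : Prop :=
  |(h : ℝ)| * q ≤ L ∧ ∀ i, ∃ m : ℤ, |(h : ℝ) * α i - m| * q ≤ 1

open Classical in
/-- `𝓑` is dense in all Bohr boxes of complexity at most `Q` -/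
def Hyp (k : ℕ) (η : ℕ → ℝ) (Q L : ℕ) (𝓑 : Set (Fin k → ℤ)) : Prop :=
  ∀ q : ℕ, 1 ≤ q → q ≤ Q → ∀ α : Fin q → ℝ,
    η q * (L : ℝ) ^ k ≤ (((Fintype.piFinset (fun _ : Fin k => Icc (-(L : ℤ)) L)).filter
      (fun a => a ∈ 𝓑 ∧ ∀ j, Bo q α L (a j))).card : ℝ)

/-- differences to the first element -/
def df {k : ℕ} (y : Fin (k + 1) → ℕ) : Fin k → ℤ := fun j => (y j.succ : ℤ) - y 0

/-- the nodes of the `k`-ary tree of depth `j` -/
def Nd (k : ℕ) : ℕ → Type
  | 0 => Empty
  | j + 1 => Option (Fin k × Nd k j)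

instance ndFintype (k : ℕ) : (j : ℕ) → Fintype (Nd k j)
  | 0 => inferInstanceAs (Fintype Empty)
  | j + 1 => by
    have := ndFintype k j
    exact inferInstanceAs (Fintype (Option (Fin k × Nd k j)))

instance ndDecEq (k : ℕ) : (j : ℕ) → DecidableEq (Nd k j)
  | 0 => inferInstanceAs (DecidableEq Empty)
  | j + 1 => by
    have := ndDecEq k j
    exact inferInstanceAs (DecidableEq (Option (Fin k × Nd k j)))

/-- the root -/
def rt {k j : ℕ} : Nd k (j + 1) := (none : Option (Fin k × Nd k j))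

/-- the node `ν` of the subtree number `i` -/
def sn {k j : ℕ} (i : Fin k) (ν : Nd k j) : Nd k (j + 1) := (some (i, ν) : Option (Fin k × Nd k j))

/-- the weights -/
noncomputable def wt (k : ℕ) : (j : ℕ) → Nd k j → ℝ
  | 0, _ => 0
  | j + 1, d => Option.elim (α := Fin k × Nd k j) d (1 / (k : ℝ)) (fun p => wt k j p.2 / k)

/-- trees of bad tuples -/
def Tr {k s : ℕ} {Λ : Type} (pos : Λ → Fin (k + 1)) (𝓑 : Λ → Set (Fin k → ℤ)) :
    (j : ℕ) → (Nd k j → Fin s → ℕ) → Prop
  | 0, _ => True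
  | j + 1, y => (∃ a : Λ, ∀ (v : ℕ) (u : Fin k → ℕ), (∃ l, y rt l = v) → (∀ i, ∃ ν l, y (sn i ν) l = u i) →
      df ((pos a).insertNth v u) ∈ 𝓑 a) ∧ ∀ i : Fin k, Tr pos 𝓑 j (fun ν => y (sn i ν))

/-- average over the cyclic group -/
noncomputable def Ev {N : ℕ} [NeZero N] (f : ZMod N → ℝ) : ℝ := (∑ t, f t) / N

/-- Fourier coefficients -/
noncomputable def Ft {N : ℕ} [NeZero N] (f : ZMod N → ℝ) (γ : ZMod N) : ℂ :=
  (∑ t, (f t : ℂ) * ZMod.stdAddChar (-(γ * t))) / N

end Pool.Agent.H62.EX
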