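import Pool.Agent.H51.PM.Tri
import Pool.Agent.H51.PM.Fin
import Pool.Agent.H21.GH.Dens
import Pool.Agent.H62.EX.Four

/-!
# [H62 EX FIV] One of `h, 2 h, 3 h, 4 h` is a gap infinitely often, for almost all even `h` of every long interval
-/

set_option autoImplicit false

namespace Pool.Agent.H62.EX

open Finset Filter Pool.Agent.H21.QT Pool.Agent.H21.GH Pool.Agent.H51.PM

open Classical in
/-- few numbers of an interval have all their multiples by the differences of the `w i` without the property `E` -/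
theorem dil_gap (E : ℕ → Prop) (h4 : K4P E) (w : Fin 4 → ℕ) (hw : StrictMono w) (hw0 : w 0 = 0) (t : ℕ) (ht : Ms w t)
    (ε : ℝ) (hε : 0 < ε) : ∃ T₀ : ℕ, ∀ T : ℕ, T₀ ≤ T → ∀ (M : ℕ) (A : Finset ℕ), A ⊆ Ioc M (M + T) → (∀ m ∈ A, t ∣ m) →
      (∀ m ∈ A, ∀ i j : Fin 4, i < j → ¬ E (2 * ((w j - w i) * m))) → (A.card : ℝ) ≤ ε * T := by
  have hW : 0 < w 3 := by
    have h := hw (show (0 : Fin 4) < 3 by decide)
    omega
  have hWr : (1 : ℝ) ≤ w 3 := by exact_mod_cast hW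
  obtain ⟨δ, C, hδ, hC, h4⟩ := h4
  obtain ⟨c, hc, T₀, hd⟩ := four_dil w hw hw0 ε hε
  -- large T
  have hK : (0 : ℝ) < (6 * w 3) ^ 4 := by positivity
  obtain ⟨T₁, hT₁⟩ : ∃ T₁ : ℕ, ∀ T : ℕ, T₁ ≤ T → C * (6 * w 3) ^ 4 < c * (T : ℝ) ^ δ := by
    have h1 : Tendsto (fun T : ℕ => (T : ℝ) ^ δ) atTop atTop := (tendsto_rpow_atTop hδ).comp tendsto_natCast_atTop_atTop
    obtain ⟨T₁, h2⟩ := eventually_atTop.1 (h1.eventually_gt_atTop (C * (6 * w 3) ^ 4 / c))
    refine ⟨T₁, fun T hT => ?_⟩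
    have h3 := h2 T hT
    rw [div_lt_iff₀ hc] at h3
    linarith
  refine ⟨T₀ + T₁ + 1, fun T hT M A hA hAt hAE => ?_⟩
  by_contra hcon
  push Not at hcon
  have hT0 : 0 < T := by omega
  have hTr : (1 : ℝ) ≤ T := by exact_mod_cast hT0
  -- the shifted set
  obtain ⟨B, hB⟩ : ∃ B : Finset ℕ, B = A.image (fun m => m - M) := ⟨_, rfl⟩
  have hBA : ∀ b ∈ B, M + b ∈ A := by
    intro b hb
    rw [hB, mem_image] at hb
    obtain ⟨m, hm, rfl⟩ := hb
    have h1 := mem_Ioc.1 (hA hm)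
    rwa [Nat.add_sub_cancel' h1.1.le]
  have hBT : B ⊆ Icc 1 T := by
    intro b hb
    have h1 := mem_Ioc.1 (hA (hBA b hb))
    rw [mem_Icc]
    omega
  have hBc : B.card = A.card := by
    rw [hB]
    refine card_image_of_injOn fun m hm m' hm' h => ?_
    have h1 := mem_Ioc.1 (hA hm)
    have h2 := mem_Ioc.1 (hA hm')
    omega
  obtain ⟨N, hN⟩ : ∃ N, N = 2 * w 3 * T + 1 := ⟨_, rfl⟩
  have h1 := hd T (by omega) B hBT (by rw [hBc]; exact hcon.le)
  rw [← hN] at h1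
  obtain ⟨S, hS⟩ : ∃ S : Finset (ℕ × ℕ × ℕ), S = (range N ×ˢ range N ×ˢ range N).filter (Qd B w) := ⟨_, rfl⟩
  rw [← hS] at h1
  -- the quadruples
  obtain ⟨q, hq⟩ : ∃ q : ℕ × (ℕ × ℕ × ℕ) → Fin 4 → ℕ, q = fun p => ![0, p.2.1, p.2.2.1, p.2.2.2] := ⟨_, rfl⟩
  have hq0 : ∀ p, q p 0 = 0 := fun p => by rw [hq]; rfl
  have hq1 : ∀ p, q p 1 = p.2.1 := fun p => by rw [hq]; rfl
  have hq2 : ∀ p, q p 2 = p.2.2.1 := fun p => by rw [hq]; rfl
  have hq3 : ∀ p, q p 3 = p.2.2.2 := fun p => by rw [hq]; rfl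
  obtain ⟨z, hz⟩ : ∃ z : ℕ × (ℕ × ℕ × ℕ) → Fin 4 → ℕ, z = fun p j => p.1 + w j * M + q p j := ⟨_, rfl⟩
  have hzj : ∀ p j, z p j = p.1 + w j * M + q p j := fun p j => by rw [hz]
  have hSq : ∀ p : ℕ × (ℕ × ℕ × ℕ), p.2 ∈ S → (∀ i j : Fin 4, i < j → ∃ m ∈ A, z p j = z p i + (w j - w i) * m) ∧
      ∀ j, q p j < N := by
    intro p hp
    rw [hS, mem_filter, mem_product, mem_product, mem_range, mem_range, mem_range] at hp
    obtain ⟨⟨l1, l2, l3⟩, g1, g2, ⟨m1, b1, e1⟩, ⟨m2, b2, e2⟩, ⟨m3, b3, e3⟩, ⟨m4, b4, e4⟩, ⟨m5, b5, e5⟩, ⟨m6, b6, e6⟩⟩ := hp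
    have key : ∀ i j : Fin 4, i < j → ∀ b ∈ B, q p j = q p i + (w j - w i) * b → ∃ m ∈ A, z p j = z p i + (w j - w i) * m := by
      intro i j hij b hb hqb
      refine ⟨M + b, hBA b hb, ?_⟩
      rw [hzj, hzj, hqb]
      obtain ⟨d, hd'⟩ := Nat.exists_eq_add_of_lt (hw hij)
      rw [hd']
      have h3 : w i + d + 1 - w i = d + 1 := by omega
      rw [h3]
      ring
    have k01 := key 0 1 (by decide) m1 b1 (by rw [hq0, hq1]; omega)
    have k02 := key 0 2 (by decide) m2 b2 (by rw [hq0, hq2]; omega)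
    have k03 := key 0 3 (by decide) m3 b3 (by rw [hq0, hq3]; omega)
    have k12 := key 1 2 (by decide) m4 b4 (by rw [hq1, hq2]; omega)
    have k13 := key 1 3 (by decide) m5 b5 (by rw [hq1, hq3]; omega)
    have k23 := key 2 3 (by decide) m6 b6 (by rw [hq2, hq3]; omega)
    have hN0 : 0 < N := by omega
    refine ⟨fun i j hij => ?_, fun j => ?_⟩
    · fin_cases i <;> fin_cases j <;> first | exact absurd hij (by decide) | assumption
    · fin_cases j
      · exact (hq0 p).trans_lt hN0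
      · exact (hq1 p).trans_lt l1
      · exact (hq2 p).trans_lt l2
      · exact (hq3 p).trans_lt l3
  have h5 := h4 (2 * N) (fun j => (range (2 * N)).image (fun u => 2 * (w j * M + u))) (by omega)
    (fun j => card_image_le.trans (card_range _).le)
  have h6 : (N * S.card : ℕ) ≤
      (((Fintype.piFinset (fun j : Fin 4 => (range (2 * N)).image (fun u => 2 * (w j * M + u)))).filter
        (fun a => AdT (fun j => (a j : ℤ)) ∧ ∀ i j, a i < a j → ¬ E (a j - a i))).card) := by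
    have e0 : N * S.card = (range N ×ˢ S).card := by rw [card_product, card_range]
    rw [e0]
    refine card_le_card_of_injOn (fun p j => 2 * z p j) ?_ ?_
    · intro p hp
      rw [mem_coe, mem_product, mem_range] at hp
      obtain ⟨h7, h8⟩ := hSq p hp.2
      rw [mem_coe, mem_filter, Fintype.mem_piFinset]
      refine ⟨fun j => mem_image.2 ⟨p.1 + q p j, mem_range.2 ?_, ?_⟩, ?_, ?_⟩
      · have := h8 j
        omega
      · show 2 * (w j * M + (p.1 + q p j)) = 2 * z p j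
        rw [hzj]
        ring
      · have h9 := cls3 w hw t ht A hAt (z p) h7
        obtain ⟨r, hr, hr'⟩ : ∃ r < 3, r ∉ (univ : Finset (Fin 4)).image fun i => z p i % 3 := by
          by_contra hno
          push Not at hno
          have h10 : range 3 ⊆ (univ : Finset (Fin 4)).image fun i => z p i % 3 := fun r hr => hno r (mem_range.1 hr)
          have h11 := card_le_card h10
          rw [card_range] at h11
          omega
        refine adT_two 2 dvd_rfl (z p) (3 - r) fun j hdv => hr' (mem_image.2 ⟨j, mem_univ _, ?_⟩)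
        omega
      · intro i j hij
        have hlt : i < j := by
          rcases lt_trichotomy i j with h9 | h9 | h9
          · exact h9
          · subst h9
            exact absurd hij (lt_irrefl _)
          · exfalso
            obtain ⟨m, -, e⟩ := h7 j i h9
            simp only at hij
            have : z p j ≤ z p i := by rw [e]; exact Nat.le_add_right _ _
            omega
        obtain ⟨m, hm, e⟩ := h7 i j hlt
        have h9 := hAE m hm i j hlt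
        have h10 : 2 * z p j - 2 * z p i = 2 * ((w j - w i) * m) := by
          rw [e]
          omega
        simp only
        rw [h10]
        exact h9
    · intro p hp p' hp' hpp
      have h7 : ∀ j, z p j = z p' j := by
        intro j
        have := congrFun hpp j
        simp only at this
        omega
      have a0 := h7 0
      have a1 := h7 1
      have a2 := h7 2
      have a3 := h7 3
      rw [hzj, hzj, hq0, hq0] at a0
      rw [hzj, hzj, hq1, hq1] at a1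
      rw [hzj, hzj, hq2, hq2] at a2
      rw [hzj, hzj, hq3, hq3] at a3
      have b0 : p.1 = p'.1 := by omega
      have b1 : p.2.1 = p'.2.1 := by omega
      have b2 : p.2.2.1 = p'.2.2.1 := by omega
      have b3 : p.2.2.2 = p'.2.2.2 := by omega
      exact Prod.ext b0 (Prod.ext b1 (Prod.ext b2 b3))
  have h7 : ((N : ℝ) * (S.card : ℝ)) ≤ C * ((2 * N : ℕ) : ℝ) ^ ((4 : ℝ) - δ) := by
    refine le_trans ?_ h5
    exact_mod_cast h6
  have hNr : (N : ℝ) = 2 * w 3 * T + 1 := by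
    rw [hN]
    push_cast
    ring
  have hNle : ((2 * N : ℕ) : ℝ) ≤ 6 * w 3 * T := by
    push_cast
    rw [hNr]
    have : (1 : ℝ) ≤ w 3 * T := by nlinarith
    linarith
  have hNge : (T : ℝ) ≤ N := by
    rw [hNr]
    have : (T : ℝ) ≤ w 3 * T := by nlinarith
    linarith
  have h2N : (1 : ℝ) ≤ ((2 * N : ℕ) : ℝ) := by
    push_cast
    linarith
  have hlt := hT₁ T (by omega)
  have hTδ : 0 < (T : ℝ) ^ δ := Real.rpow_pos_of_pos (by linarith) _
  -- the powers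
  have h8 : ((2 * N : ℕ) : ℝ) ^ ((4 : ℝ) - δ) * (T : ℝ) ^ δ ≤ (6 * w 3 * T) ^ 4 := by
    have h9 : (T : ℝ) ^ δ ≤ ((2 * N : ℕ) : ℝ) ^ δ := by
      refine Real.rpow_le_rpow (by linarith) ?_ hδ.le
      push_cast
      linarith
    have h10 : ((2 * N : ℕ) : ℝ) ^ ((4 : ℝ) - δ) * ((2 * N : ℕ) : ℝ) ^ δ = ((2 * N : ℕ) : ℝ) ^ 4 := by
      rw [← Real.rpow_add (by linarith), sub_add_cancel]
      exact_mod_cast Real.rpow_natCast ((2 * N : ℕ) : ℝ) 4
    calc ((2 * N : ℕ) : ℝ) ^ ((4 : ℝ) - δ) * (T : ℝ) ^ δ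
        ≤ ((2 * N : ℕ) : ℝ) ^ ((4 : ℝ) - δ) * ((2 * N : ℕ) : ℝ) ^ δ :=
          mul_le_mul_of_nonneg_left h9 (Real.rpow_nonneg (by linarith) _)
      _ = ((2 * N : ℕ) : ℝ) ^ 4 := h10
      _ ≤ (6 * w 3 * T) ^ 4 := pow_le_pow_left₀ (by linarith) hNle 4
  have h9 : c * (T : ℝ) ^ 4 * (T : ℝ) ^ δ ≤ C * (6 * w 3) ^ 4 * (T : ℝ) ^ 4 := by
    have g1 : (T : ℝ) * (c * (T : ℝ) ^ 3) ≤ N * (S.card : ℝ) := by
      refine mul_le_mul hNge h1 (by positivity) (by linarith)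
    calc c * (T : ℝ) ^ 4 * (T : ℝ) ^ δ = (T : ℝ) * (c * (T : ℝ) ^ 3) * (T : ℝ) ^ δ := by ring
      _ ≤ (C * ((2 * N : ℕ) : ℝ) ^ ((4 : ℝ) - δ)) * (T : ℝ) ^ δ := mul_le_mul_of_nonneg_right (g1.trans h7) hTδ.le
      _ = C * (((2 * N : ℕ) : ℝ) ^ ((4 : ℝ) - δ) * (T : ℝ) ^ δ) := by ring
      _ ≤ C * (6 * w 3 * T) ^ 4 := mul_le_mul_of_nonneg_left h8 hC
      _ = _ := by ring
  have h10 : C * (6 * w 3) ^ 4 * (T : ℝ) ^ 4 < c * (T : ℝ) ^ δ * (T : ℝ) ^ 4 :=
    mul_lt_mul_of_pos_right hlt (by positivity)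
  nlinarith

open Classical in
/-- **of the even numbers of a long interval a third are gaps infinitely often, and for almost all one of the first four multiples is** -/
theorem int_gap : ∀ ε : ℝ, 0 < ε → ∃ L₀ : ℕ, ∀ L : ℕ, L₀ ≤ L → ∀ M : ℕ,
    (1 / 3 - ε) * (L : ℝ) ≤ (((Ioc M (M + L)).filter (fun n =>
      {i : ℕ | Nat.nth Nat.Prime (i + 1) = Nat.nth Nat.Prime i + 2 * n}.Infinite)).card : ℝ) ∧
    (((Ioc M (M + L)).filter (fun n => ¬ ∃ j : ℕ, 1 ≤ j ∧ j ≤ 4 ∧ (3 ∣ 2 * n → j ≤ 3) ∧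
      {i : ℕ | Nat.nth Nat.Prime (i + 1) = Nat.nth Nat.Prime i + j * (2 * n)}.Infinite)).card : ℝ) ≤ ε * L := by
  intro ε hε
  obtain ⟨T₁, h1⟩ := third_dens _ k4_gap 2 (by norm_num) dvd_rfl ε hε
  obtain ⟨T₂, h2⟩ := dil_gap _ k4_gap ![0, 1, 3, 4] w4_mono rfl 1 w4_ms (ε / 2) (by linarith)
  obtain ⟨T₃, h3⟩ := dil_gap _ k4_gap ![0, 1, 2, 3] w3_mono rfl 3 w3_ms (ε / 2) (by linarith)
  refine ⟨T₁ + T₂ + T₃, fun L hL M => ⟨?_, ?_⟩⟩
  · refine (h1 L (by omega) M).trans (Nat.cast_le.2 (card_le_card fun n hn => ?_))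
    rw [mem_filter] at hn ⊢
    exact ⟨hn.1, nth_infinite hn.2 (by have := mem_Ioc.1 hn.1; omega)⟩
  · obtain ⟨A₁, hA₁⟩ : ∃ A : Finset ℕ, A = (Ioc M (M + L)).filter (fun n => ¬ 3 ∣ n ∧ ¬ ∃ j : ℕ, 1 ≤ j ∧ j ≤ 4 ∧
      {i : ℕ | Nat.nth Nat.Prime (i + 1) = Nat.nth Nat.Prime i + j * (2 * n)}.Infinite) := ⟨_, rfl⟩
    obtain ⟨A₂, hA₂⟩ : ∃ A : Finset ℕ, A = (Ioc M (M + L)).filter (fun n => 3 ∣ n ∧ ¬ ∃ j : ℕ, 1 ≤ j ∧ j ≤ 3 ∧
      {i : ℕ | Nat.nth Nat.Prime (i + 1) = Nat.nth Nat.Prime i + j * (2 * n)}.Infinite) := ⟨_, rfl⟩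
    have g1 : (A₁.card : ℝ) ≤ ε / 2 * L := by
      refine h2 L (by omega) M A₁ (by rw [hA₁]; exact filter_subset _ _) (fun _ _ => one_dvd _) fun m hm i j hij hE => ?_
      rw [hA₁, mem_filter] at hm
      have g2 := mem_Icc.1 (w4_dif i j hij)
      refine hm.2.2 ⟨_, g2.1, g2.2, ?_⟩
      have g3 := mem_Ioc.1 hm.1
      have g4 := nth_infinite hE (Nat.mul_pos (by norm_num) (Nat.mul_pos g2.1 (by omega)))
      rwa [mul_left_comm] at g4
    have g2 : (A₂.card : ℝ) ≤ ε / 2 * L := by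
      refine h3 L (by omega) M A₂ (by rw [hA₂]; exact filter_subset _ _) (fun m hm => ?_) fun m hm i j hij hE => ?_
      · rw [hA₂, mem_filter] at hm
        exact hm.2.1
      rw [hA₂, mem_filter] at hm
      have g2 := mem_Icc.1 (w3_dif i j hij)
      refine hm.2.2 ⟨_, g2.1, g2.2, ?_⟩
      have g3 := mem_Ioc.1 hm.1
      have g4 := nth_infinite hE (Nat.mul_pos (by norm_num) (Nat.mul_pos g2.1 (by omega)))
      rwa [mul_left_comm] at g4
    have g3 : (Ioc M (M + L)).filter (fun n => ¬ ∃ j : ℕ, 1 ≤ j ∧ j ≤ 4 ∧ (3 ∣ 2 * n → j ≤ 3) ∧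
        {i : ℕ | Nat.nth Nat.Prime (i + 1) = Nat.nth Nat.Prime i + j * (2 * n)}.Infinite) ⊆ A₁ ∪ A₂ := by
      intro n hn
      rw [mem_filter] at hn
      rw [mem_union]
      by_cases h : 3 ∣ n
      · right
        rw [hA₂, mem_filter]
        refine ⟨hn.1, h, fun ⟨j, j1, j2, j3⟩ => hn.2 ⟨j, j1, by omega, fun _ => j2, j3⟩⟩
      · left
        rw [hA₁, mem_filter]
        refine ⟨hn.1, h, fun ⟨j, j1, j2, j3⟩ => hn.2 ⟨j, j1, j2, fun h5 => absurd ?_ h, j3⟩⟩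
        omega
    have g4 := (card_le_card g3).trans (card_union_le A₁ A₂)
    have g5 : (((Ioc M (M + L)).filter (fun n => ¬ ∃ j : ℕ, 1 ≤ j ∧ j ≤ 4 ∧ (3 ∣ 2 * n → j ≤ 3) ∧
        {i : ℕ | Nat.nth Nat.Prime (i + 1) = Nat.nth Nat.Prime i + j * (2 * n)}.Infinite)).card : ℝ) ≤ A₁.card + A₂.card := by
      exact_mod_cast g4
    linarith

end Pool.Agent.H62.EX
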