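import Pool.Agent.H62.EX.Df
import Pool.Agent.H53.DL.Dir

/-!
# [H62 EX HY] If no scale is good then the bad tuples are dense in all Bohr boxes
-/

set_option autoImplicit false

namespace Pool.Agent.H62.EX

open Finset

theorem dir_all (k : ℕ) : ∃ Mq : ℕ → ℕ, (∀ q, 1 ≤ Mq q) ∧ ∀ q, 1 ≤ q → ∀ (α : Fin q → ℝ) (a : Fin k → ℕ),
    ∃ m : ℕ, 1 ≤ m ∧ m ≤ Mq q ∧ ∀ j i, ∃ z : ℤ, |((m : ℝ) * a j) * α i - z| * q ≤ 1 := by
  have h : ∀ q : ℕ, ∃ M : ℕ, 1 ≤ M ∧ (1 ≤ q → ∀ (α : Fin q → ℝ) (a : Fin k → ℕ),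
      ∃ m : ℕ, 1 ≤ m ∧ m ≤ M ∧ ∀ j i, ∃ z : ℤ, |((m : ℝ) * a j) * α i - z| * q ≤ 1) := by
    intro q
    rcases Nat.eq_zero_or_pos q with hq | hq
    · exact ⟨1, le_rfl, fun h => absurd h (by omega)⟩
    have hqr : (0 : ℝ) < q := by exact_mod_cast hq
    obtain ⟨M, hM, h⟩ := Pool.Agent.H53.DL.dirichlet (Fin k × Fin q) (1 / q) (by positivity)
    refine ⟨M, hM, fun _ α a => ?_⟩
    obtain ⟨m, hm1, hm2, hm3⟩ := h (fun p => (a p.1 : ℝ) * α p.2)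
    refine ⟨m, hm1, hm2, fun j i => ?_⟩
    obtain ⟨z, hz⟩ := hm3 (j, i)
    refine ⟨z, ?_⟩
    rw [lt_div_iff₀ hqr] at hz
    rw [mul_assoc]
    exact hz.le
  choose Mq h1 h2 using h
  exact ⟨Mq, h1, h2⟩

open Classical in
theorem hyp_of (k : ℕ) (ε : ℝ) (hε : 0 < ε) : ∃ η : ℕ → ℝ, (∀ q, 0 < η q) ∧ ∀ Q : ℕ, ∃ m₁ : ℕ, 1 ≤ m₁ ∧
    ∀ L : ℕ, m₁ ≤ L → ∀ 𝓑 : Set (Fin k → ℤ),
      (∀ z : ℕ, L ≤ m₁ * z → z ≤ L → ε * (z : ℝ) ^ k <
        (((Fintype.piFinset (fun _ : Fin k => Icc 1 z)).filter (fun a : Fin k → ℕ => StrictMono a ∧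
          ∀ m : ℕ, 1 ≤ m → m ≤ m₁ → (fun j => (m : ℤ) * (a j : ℤ)) ∈ 𝓑)).card : ℝ)) → Hyp k η Q L 𝓑 := by
  obtain ⟨Mq, hM1, hM2⟩ := dir_all k
  refine ⟨fun q => ε / (Mq q * (2 * (q + 1) * Mq q) ^ k), fun q => ?_, fun Q => ?_⟩
  · have : (0 : ℝ) < Mq q := by exact_mod_cast hM1 q
    positivity
  obtain ⟨m₁, hm₁⟩ : ∃ m₁ : ℕ, m₁ = ∑ q ∈ range (Q + 1), 2 * (q + 1) * Mq q := ⟨_, rfl⟩
  have hle : ∀ q ≤ Q, 2 * (q + 1) * Mq q ≤ m₁ := by
    intro q hq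
    rw [hm₁]
    exact single_le_sum (f := fun q => 2 * (q + 1) * Mq q) (fun _ _ => Nat.zero_le _)
      (mem_range.2 (Nat.lt_succ_of_le hq))
  refine ⟨m₁, ?_, fun L hL 𝓑 hz q hq1 hqQ α => ?_⟩
  · have h1 := hle 0 (Nat.zero_le _)
    have h2 := hM1 0
    omega
  have hMq := hM1 q
  have hMr : (0 : ℝ) < Mq q := by exact_mod_cast hMq
  have hqr : (0 : ℝ) < q := by exact_mod_cast hq1
  have hqM := hle q hqQ
  obtain ⟨w, hw⟩ : ∃ w : ℕ, w = q * Mq q := ⟨_, rfl⟩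
  have hw0 : 0 < w := by rw [hw]; exact Nat.mul_pos hq1 hMq
  have hwle : 2 * w ≤ m₁ := by
    refine le_trans ?_ hqM
    rw [hw]
    nlinarith
  obtain ⟨z, hzd⟩ : ∃ z : ℕ, z = L / w := ⟨_, rfl⟩
  have hz1 : w * z ≤ L := by rw [hzd]; exact Nat.mul_div_le L w
  have hz2 : L < w * (z + 1) := by
    rw [hzd]
    have h := Nat.lt_mul_div_succ L hw0
    exact h
  have hzpos : 1 ≤ z := by
    by_contra hcon
    have : z = 0 := by omega
    rw [this] at hz2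
    omega
  have hz3 : L ≤ 2 * w * z := by nlinarith
  have h1 := hz z (hz3.trans (Nat.mul_le_mul_right _ hwle)) (by nlinarith)
  obtain ⟨A, hA⟩ : ∃ A : Finset (Fin k → ℕ), A = (Fintype.piFinset (fun _ : Fin k => Icc 1 z)).filter
    (fun a : Fin k → ℕ => StrictMono a ∧ ∀ m : ℕ, 1 ≤ m → m ≤ m₁ → (fun j => (m : ℤ) * (a j : ℤ)) ∈ 𝓑) := ⟨_, rfl⟩
  rw [← hA] at h1
  have hch := fun a : Fin k → ℕ => hM2 q hq1 α a
  choose μ hμ1 hμ2 hμ3 using hch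
  obtain ⟨B, hB⟩ : ∃ B : Finset (Fin k → ℤ), B = (Fintype.piFinset (fun _ : Fin k => Icc (-(L : ℤ)) L)).filter
    (fun a => a ∈ 𝓑 ∧ ∀ j, Bo q α L (a j)) := ⟨_, rfl⟩
  rw [← hB]
  have hmaps : ∀ a ∈ A, (fun j => (μ a : ℤ) * (a j : ℤ)) ∈ B := by
    intro a ha
    rw [hA, mem_filter, Fintype.mem_piFinset] at ha
    obtain ⟨ha1, ha2, ha3⟩ := ha
    have hμm : μ a ≤ m₁ := (hμ2 a).trans (by
      have : Mq q ≤ 2 * (q + 1) * Mq q := by nlinarith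
      omega)
    have hb1 : ∀ j, μ a * a j * q ≤ L := by
      intro j
      have h2 := (mem_Icc.1 (ha1 j)).2
      calc μ a * a j * q ≤ Mq q * z * q := Nat.mul_le_mul_right _ (Nat.mul_le_mul (hμ2 a) h2)
        _ = w * z := by rw [hw]; ring
        _ ≤ L := hz1
    have hb2 : ∀ j, μ a * a j ≤ L := by
      intro j
      refine le_trans ?_ (hb1 j)
      exact Nat.le_mul_of_pos_right _ hq1
    rw [hB, mem_filter, Fintype.mem_piFinset]
    refine ⟨fun j => ?_, ha3 _ (hμ1 a) hμm, fun j => ⟨?_, fun i => ?_⟩⟩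
    · rw [mem_Icc]
      have h2 : ((μ a * a j : ℕ) : ℤ) ≤ L := by exact_mod_cast hb2 j
      push_cast at h2
      constructor
      · have : (0 : ℤ) ≤ (μ a : ℤ) * (a j : ℤ) := by positivity
        have : (0 : ℤ) ≤ (L : ℤ) := by positivity
        linarith
      · exact h2
    · have h2 : ((μ a * a j * q : ℕ) : ℝ) ≤ L := by exact_mod_cast hb1 j
      push_cast at h2 ⊢
      rw [abs_of_nonneg (by positivity)]
      exact h2
    · obtain ⟨n, hn⟩ := hμ3 a j i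
      refine ⟨n, ?_⟩
      push_cast
      exact hn
  -- the fibres
  have hcard : A.card ≤ Mq q * B.card := by
    have h2 : (A.image (fun a j => (μ a : ℤ) * (a j : ℤ))).card ≤ B.card := by
      refine card_le_card fun b hb => ?_
      obtain ⟨a, ha, rfl⟩ := mem_image.1 hb
      exact hmaps a ha
    refine le_trans ?_ (Nat.mul_le_mul_left _ h2)
    refine card_le_mul_card_image A (Mq q) fun b _ => ?_
    have h3 : (A.filter (fun a => (fun j => (μ a : ℤ) * (a j : ℤ)) = b)).card ≤ (Icc 1 (Mq q)).card := by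
      refine card_le_card_of_injOn μ ?_ ?_
      · intro a _
        rw [mem_coe, mem_Icc]
        exact ⟨hμ1 a, hμ2 a⟩
      · intro a ha a' ha' haa
        rw [mem_coe, mem_filter] at ha ha'
        funext j
        have e1 := congrFun ha.2 j
        have e2 := congrFun ha'.2 j
        rw [← e2, haa] at e1
        have h4 : ((μ a' : ℕ) : ℤ) ≠ 0 := by
          have := hμ1 a'
          omega
        have h5 := mul_left_cancel₀ h4 e1
        exact_mod_cast h5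
    rw [Nat.card_Icc] at h3
    omega
  have hcardR : (A.card : ℝ) ≤ Mq q * B.card := by exact_mod_cast hcard
  have hLz : (L : ℝ) ≤ 2 * (q + 1) * Mq q * z := by
    have h2 : L ≤ 2 * (q + 1) * Mq q * z := by
      refine hz3.trans (Nat.mul_le_mul_right _ ?_)
      rw [hw]
      nlinarith
    exact_mod_cast h2
  have hLk : (L : ℝ) ^ k ≤ (2 * (q + 1) * Mq q) ^ k * (z : ℝ) ^ k := by
    rw [← mul_pow]
    exact pow_le_pow_left₀ (Nat.cast_nonneg _) hLz k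
  have hP : (0 : ℝ) < (2 * (q + 1) * Mq q) ^ k := by positivity
  rw [div_mul_eq_mul_div, div_le_iff₀ (by positivity)]
  calc ε * (L : ℝ) ^ k ≤ ε * ((2 * (q + 1) * Mq q) ^ k * (z : ℝ) ^ k) := mul_le_mul_of_nonneg_left hLk hε.le
    _ = (2 * (q + 1) * Mq q) ^ k * (ε * (z : ℝ) ^ k) := by ring
    _ ≤ (2 * (q + 1) * Mq q) ^ k * (Mq q * B.card) := mul_le_mul_of_nonneg_left (h1.le.trans hcardR) hP.le
    _ = (B.card : ℝ) * (Mq q * (2 * (q + 1) * Mq q) ^ k) := by ring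

end Pool.Agent.H62.EX
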