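import Pool.Agent.H62.EX.Bx
import Pool.Agent.H34.EY.InfA

/-!
# [H62 EX TXT] The final text
-/

set_option autoImplicit false

namespace Pool.Agent.H62.EX.Txt

/-- all numbers `p + b j` are primes `≡ s (mod W)` of colour `q` and for `i ∈ G` there is no prime of colour `q` between
`p + b i` and `p + b (i + 1)` -/
def Pat {k r : ℕ} (W s : ℕ) (χ : ℕ → Fin r) (q : Fin r) (G : Finset (Fin k)) (b : Fin (k + 1) → ℕ) (p : ℕ) : Prop :=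
  (∀ j, (p + b j).Prime ∧ χ (p + b j) = q ∧ p + b j ≡ s [MOD W]) ∧
    ∀ i ∈ G, ∀ y : ℕ, p + b i.castSucc < y → y < p + b i.succ → ¬ (y.Prime ∧ χ y = q)

/-- at most one pair of adjacent gaps -/
def OnePair {k : ℕ} (G : Finset (Fin k)) : Prop :=
  ∀ i ∈ G, ∀ i' ∈ G, ∀ l ∈ G, ∀ l' ∈ G, i.succ = i'.castSucc → l.succ = l'.castSucc → i = l

/-- for some colour the number of `n < M` with `Pat` at `p_n`, for `(0, a_1, ..., a_k)`, is at least `X / V` -/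
def Many {k r : ℕ} (W s : ℕ) (χ : ℕ → Fin r) (G : Finset (Fin k)) (a : Fin k → ℕ) (M : ℕ) (V X : ℝ) : Prop :=
  ∃ q : Fin r, X ≤ V * ({n : ℕ | n < M ∧ Pat W s χ q G (Fin.cons 0 a : Fin (k + 1) → ℕ) (Nat.nth Nat.Prime n)}.ncard : ℝ)

open Classical in
/-- clause (1) -/
def C1 (k r D A W s : ℕ) : Prop :=
  ∃ m₀ : ℕ, ∀ ε : ℝ, 0 < ε → ∃ B d : ℝ, 0 < d ∧ ∀ (χ : ℕ → Fin r) (M z : ℕ), B ≤ z → (z : ℝ) ≤ Real.log M ^ A →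
    (((Fintype.piFinset (fun _ : Fin k => Finset.Icc 1 z)).filter (fun a : Fin k → ℕ => StrictMono a ∧
      ¬ ∃ m : ℕ, 1 ≤ m ∧ m ≤ m₀ ∧ Many W s χ ∅ (fun j => m * a j) M (Real.log M ^ k)
        (d * min 1 (z / Real.log M) ^ D * M))).card : ℝ) ≤ ε * (z : ℝ) ^ k

open Classical in
/-- clause (2) -/
def C2 (k r D A W s : ℕ) : Prop :=
  ∀ F : ℕ → ℝ, (∀ q, 0 < F q) → ∃ (Q : ℕ) (B c d : ℝ), 0 < c ∧ 0 < d ∧
    ∀ (χ : ℕ → Fin r) (M L : ℕ), B ≤ L → (L : ℝ) ≤ Real.log M ^ A → ∃ (q : ℕ) (α : Fin q → ℝ), 1 ≤ q ∧ q ≤ Q ∧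
      (((Fintype.piFinset (fun _ : Fin k => Finset.Icc 1 (L / q))).filter (fun a : Fin k → ℕ => StrictMono a ∧
        (∀ j i, ∃ n : ℤ, |(a j : ℝ) * α i - n| * q ≤ 1) ∧
        ¬ ∀ G : Finset (Fin k), OnePair G → (c * Real.log M < L → G = ∅) → Many W s χ G a M (Real.log M ^ k)
          (d * min 1 (L / Real.log M) ^ D * M))).card : ℝ) ≤ F q * (L : ℝ) ^ k

open Classical in
/-- clause (3) -/
def C3 (k r D W s : ℕ) : Prop :=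
  ∀ (χ : ℕ → Fin r) (I : Set ℕ), I.Infinite → ∃ J : Set ℕ, J ⊆ I ∧ J.Infinite ∧ ∃ (d : ℕ) (α : Fin d → ℝ) (ρ : ℝ), 0 < ρ ∧
    ∀ ε : ℝ, 0 < ε → ∃ X₀ : ℕ, ∀ (X : ℕ) (b : Fin k → ℕ), X₀ ≤ X →
      (((Fintype.piFinset (fun j : Fin k => Finset.Icc (b j + 1) (b j + X))).filter (fun a : Fin k → ℕ => StrictMono a ∧
        (∀ j i, ∃ n : ℤ, |(a j : ℝ) * α i - n| < ρ) ∧
        ¬ ∀ G : Finset (Fin k), OnePair G → ∃ (c : ℝ) (M₁ : ℕ), 0 < c ∧ ∀ M ∈ J, M₁ ≤ M →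
          Many W s χ G a M (Real.log M ^ D) (c * M))).card : ℝ) ≤ ε * (X : ℝ) ^ k

open Classical in
theorem c2 (k r : ℕ) (hk : 1 ≤ k) : ∃ D : ℕ, ∀ A W s : ℕ, 0 < W → Nat.Coprime s W → C2 k r D A W s := by
  obtain ⟨D, hD⟩ := Pool.Agent.H62.EX.boxW k r hk
  refine ⟨D, fun A W s hW hs F hF => ?_⟩
  obtain ⟨Q, L₀, c, d, hc, hd, h⟩ := hD A W s hW hs F hF
  refine ⟨Q, L₀, c, d, hc, hd, fun χ M L hL hLM => ?_⟩
  obtain ⟨q, α, h1, h2, h3⟩ := h χ M L (by exact_mod_cast hL) hLM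
  refine ⟨q, α, h1, h2, le_trans (Nat.cast_le.2 (Finset.card_le_card fun a ha => ?_)) h3⟩
  unfold Pool.Agent.H62.EX.BBox
  rw [Finset.mem_filter] at ha ⊢
  exact ha

open Classical in
theorem c3 (k r : ℕ) (hk : 1 ≤ k) : ∃ D : ℕ, ∀ W s : ℕ, 0 < W → Nat.Coprime s W → C3 k r D W s := by
  obtain ⟨D, hD⟩ := Pool.Agent.H34.EY.thm_inf k r hk
  refine ⟨D, fun W s hW hs χ I hI => ?_⟩
  obtain ⟨J, h1, h2, d, α, ρ, hρ, h3⟩ := hD W s hW hs χ I hI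
  refine ⟨J, h1, h2, d, α, ρ, hρ, fun ε hε => ?_⟩
  obtain ⟨X₀, h4⟩ := h3 ε hε
  refine ⟨X₀, fun X b hX => ?_⟩
  refine le_trans (Nat.cast_le.2 (Finset.card_le_card ?_)) (h4 X b hX)
  intro a ha
  rw [Finset.mem_filter] at ha ⊢
  refine ⟨ha.1, ha.2.1, ha.2.2.1, fun hcon => ha.2.2.2 ?_⟩
  intro G hG
  obtain ⟨q, c, M₁, hc, h5⟩ := hcon G hG
  exact ⟨c, M₁, hc, fun M hM hM1 => ⟨q, h5 M hM hM1⟩⟩

end Pool.Agent.H62.EX.Txt
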