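import Pool.Agent.H34.EQ.Cfg
import Pool.Agent.H62.EX.Txt

/-!
# [H62 EX OG] `k = 1`: consecutive primes, `m₀` independent of `ε`, every scale `z ≤ c log M`

Clusters `0, .., J - 1`, every pair is a line.
-/

set_option autoImplicit false

namespace Pool.Agent.H62.EX

open Finset Filter Pool.Agent.H61.UN Pool.Agent.H34.RR

/-- the pairs of clusters -/
abbrev Prs (J : ℕ) : Type := {p : Fin J × Fin J // p.1 < p.2}

theorem val_cons {J : ℕ} (a b : Fin J) (i : Fin 2) :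
    (Fin.cons a (fun _ => b) : Fin 2 → Fin J) i = if i = 0 then a else b := by
  have key : ∀ i : Fin 2, i = 0 ∨ i = 1 := by decide
  rcases key i with rfl | rfl <;> rfl

open Classical in
/-- configurations for all pairs of clusters -/
theorem conf_pairs (J : ℕ) (hJ : 2 ≤ J) (s R ρ : ℕ) (hs : 1 ≤ s) (hR : 0 < R) (ε : ℝ) (hε : 0 < ε) :
    ∃ (c : ℝ) (L0 : ℕ), 0 < c ∧ ∀ z : ℕ, L0 ≤ z → ∀ B : Finset (Fin 1 → ℕ), (∀ a ∈ B, ∀ i, a i ≤ z) →
      ε * (z : ℝ) ^ 1 ≤ B.card → ∃ 𝓗 : Finset (Fin J × Fin s → ℕ),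
        c * ((R * ((J + 1) * z) : ℕ) : ℝ) ^ (J * s) ≤ 𝓗.card ∧
        ∀ v ∈ 𝓗, Function.Injective v ∧ (∀ p, v p ≤ R * ((J + 1) * z)) ∧ (∀ p, v p ≡ ρ [MOD R]) ∧
          ∀ (i j : Fin J), i < j → ∀ t t' : Fin s, ∃ b ∈ B, v (j, t') = v (i, t) + R * ((j : ℕ) - i) * b 0 := by
  have : Nonempty (Fin J) := ⟨⟨0, by omega⟩⟩
  obtain ⟨c, L0, hc, h⟩ := Pool.Agent.H34.EQ.conf_sys (W := Fin J) (ι := Prs J) (k := 1) J
    (fun l => Fin.cons l.1.1 (fun _ => l.1.2)) (fun w _ => (w : ℕ)) (fun l => (l.1.2 : ℕ) - l.1.1)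
    (fun w _ => w.2.le) (fun l => by
      have : (l.1.1 : ℕ) < l.1.2 := l.2
      omega) (fun l i j => by
      have h1 : (l.1.1 : ℕ) < l.1.2 := l.2
      have h2 : i = j := Subsingleton.elim _ _
      rw [Fin.cons_succ, Fin.cons_zero, if_pos h2]
      omega) (fun l i j hij => by
      have h1 : (l.1.1 : ℕ) < l.1.2 := l.2
      have key : ∀ i : Fin 2, i = 0 ∨ i = 1 := by decide
      rcases key i with rfl | rfl <;> rcases key j with rfl | rfl
      · rfl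
      · exfalso
        have h2 : (l.1.1 : ℕ) = l.1.2 := congrArg Fin.val hij
        omega
      · exfalso
        have h2 : (l.1.2 : ℕ) = l.1.1 := congrArg Fin.val hij
        omega
      · rfl) (fun l l' hll i j i' j' h1 h2 => by
      by_contra hij
      apply hll
      have e1 : (l.1.1 : ℕ) < l.1.2 := l.2
      have e2 : (l'.1.1 : ℕ) < l'.1.2 := l'.2
      have key : ∀ i : Fin 2, i = 0 ∨ i = 1 := by decide
      have h3 : ∀ i i' : Fin 2, (Fin.cons l.1.1 (fun _ => l.1.2) : Fin 2 → Fin J) i =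
          (Fin.cons l'.1.1 (fun _ => l'.1.2) : Fin 2 → Fin J) i' →
          ((if i = 0 then l.1.1 else l.1.2 : Fin J) : ℕ) = (if i' = 0 then l'.1.1 else l'.1.2 : Fin J) := by
        intro i i' h
        rw [val_cons, val_cons] at h
        rw [h]
      have h4 := h3 i i' h1
      have h5 := h3 j j' h2
      have h6 : (l.1.1 : ℕ) = l'.1.1 ∧ (l.1.2 : ℕ) = l'.1.2 := by
        rcases key i with rfl | rfl <;> rcases key j with rfl | rfl
        · exact absurd rfl hij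
        · rw [if_pos rfl] at h4
          rw [if_neg (by decide)] at h5
          split_ifs at h4 h5 <;> constructor <;> omega
        · rw [if_neg (by decide)] at h4
          rw [if_pos rfl] at h5
          split_ifs at h4 h5 <;> constructor <;> omega
        · exact absurd rfl hij
      exact Subtype.ext (Prod.ext (Fin.ext h6.1) (Fin.ext h6.2))) (fun w => by
      by_cases hw : (w : ℕ) = 0
      · refine ⟨⟨(w, ⟨1, by omega⟩), ?_⟩, 0, rfl⟩
        show w < ⟨1, _⟩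
        rw [Fin.lt_def]
        show (w : ℕ) < 1
        omega
      · refine ⟨⟨(⟨0, by omega⟩, w), ?_⟩, 1, rfl⟩
        show (⟨0, _⟩ : Fin J) < w
        rw [Fin.lt_def]
        show 0 < (w : ℕ)
        omega) s R ρ hs hR ε hε
  refine ⟨c, L0, hc, fun z hz B hB1 hB2 => ?_⟩
  obtain ⟨𝓗, h1, h2⟩ := h z hz B hB1 hB2
  rw [Fintype.card_fin, Nat.mul_one] at h1
  refine ⟨𝓗, h1, fun v hv => ?_⟩
  obtain ⟨h3, h4, h5, h6⟩ := h2 v hv
  rw [Nat.mul_one] at h4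
  refine ⟨h3, h4, h5, fun i j hij t t' => ?_⟩
  obtain ⟨b, hb, h7⟩ := h6 ⟨(i, j), hij⟩ (Fin.cons t (fun _ => t'))
  refine ⟨b, hb, ?_⟩
  have h8 := h7 0
  simpa using h8

open Classical in
/-- a window with many clusters with exactly one prime contains a bad gap -/
theorem win_gap {J s r : ℕ} (hJ : J = 100 * (r + 1)) (W s₀ : ℕ) (χ : ℕ → Fin r) (N L : ℕ) (v : Fin J × Fin s → ℕ)
    (hv : ∀ i, v i ≤ L) (R : ℕ) (hR : 0 < R) (E : Finset (Fin 1 → ℕ)) (hE : ∀ b ∈ E, 1 ≤ b 0)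
    (hc : ∀ (i j : Fin J), i < j → ∀ t t' : Fin s, ∃ b ∈ E, v (j, t') = v (i, t) + R * ((j : ℕ) - i) * b 0)
    (h1 : 1 < wc (fun _ : Fin J => (100 : ℝ) / J) v N) (hw : ∀ y : ℕ, y ≤ L → (N + y).Prime → ∃ i, v i = y)
    (hcl : ∀ i, N + v i ≡ s₀ [MOD W]) :
    ∃ (q : Fin r) (x : ℕ) (b : Fin 1 → ℕ) (m : ℕ), b ∈ E ∧ 1 ≤ m ∧ m ≤ J ∧ x ≤ L ∧ x + R * m * b 0 ≤ L ∧
      Pat W s₀ χ q (univ : Finset (Fin 1)) (Fin.cons 0 (fun _ => R * m * b 0) : Fin 2 → ℕ) (N + x) := by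
  have hlt : ∀ p p' : Fin J × Fin s, p.1 < p'.1 → v p < v p' := by
    intro p p' hp
    obtain ⟨b, hb, h2⟩ := hc p.1 p'.1 hp p.2 p'.2
    have h3 : (p.1 : ℕ) < p'.1 := hp
    have h4 : 0 < R * ((p'.1 : ℕ) - p.1) * b 0 := Nat.mul_pos (Nat.mul_pos hR (by omega)) (hE b hb)
    have h5 : v p' = v p + R * ((p'.1 : ℕ) - p.1) * b 0 := h2
    omega
  have hJ0 : (0 : ℝ) < J := by
    have : 0 < J := by omega
    exact_mod_cast this
  obtain ⟨O, hO⟩ : ∃ O : Finset (Fin J), O = univ.filter (fun d : Fin J => ∃! l : Fin s, (N + v (d, l)).Prime) := ⟨_, rfl⟩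
  have hOc : r < O.card := by
    have h4 : wc (fun _ : Fin J => (100 : ℝ) / J) v N = (O.card : ℝ) * (100 / J) := by
      rw [hO]
      unfold wc
      rw [← sum_filter, sum_const, nsmul_eq_mul]
    rw [h4] at h1
    have h5 : (J : ℝ) < O.card * 100 := by
      rw [← mul_div_assoc, lt_div_iff₀ hJ0] at h1
      linarith
    have h6 : J < O.card * 100 := by exact_mod_cast h5
    omega
  have hch : ∀ d : Fin J, ∃ q : Fin r, d ∈ O → ∃ l : Fin s, (N + v (d, l)).Prime ∧ χ (N + v (d, l)) = q := by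
    intro d
    by_cases hd : d ∈ O
    · have h2 := hd
      rw [hO, mem_filter] at h2
      obtain ⟨l, hl, -⟩ := h2.2
      exact ⟨χ (N + v (d, l)), fun _ => ⟨l, hl, rfl⟩⟩
    · exact ⟨χ 0, fun h => absurd h hd⟩
  choose f hf using hch
  obtain ⟨d1, hd1, d2, hd2, hne, hfe⟩ := exists_ne_map_eq_of_card_lt_of_maps_to (s := O) (t := (univ : Finset (Fin r)))
    (by rw [card_univ, Fintype.card_fin]; exact hOc) (f := f) (fun d _ => by simp)
  obtain ⟨q, hq⟩ : ∃ q, q = f d1 := ⟨_, rfl⟩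
  -- the pairs of primes of colour `q` in different clusters
  obtain ⟨S, hS⟩ : ∃ S : Finset ((Fin J × Fin s) × (Fin J × Fin s)), S = univ.filter (fun p => p.1.1 < p.2.1 ∧
    ((N + v p.1).Prime ∧ χ (N + v p.1) = q) ∧ ((N + v p.2).Prime ∧ χ (N + v p.2) = q)) := ⟨_, rfl⟩
  have hSn : S.Nonempty := by
    obtain ⟨l1, h3, h4⟩ := hf d1 hd1
    obtain ⟨l2, h5, h6⟩ := hf d2 hd2
    rcases lt_or_gt_of_ne hne with h | h
    · refine ⟨((d1, l1), (d2, l2)), ?_⟩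
      rw [hS, mem_filter]
      exact ⟨mem_univ _, h, ⟨h3, h4.trans hq.symm⟩, ⟨h5, (h6.trans hfe.symm).trans hq.symm⟩⟩
    · refine ⟨((d2, l2), (d1, l1)), ?_⟩
      rw [hS, mem_filter]
      exact ⟨mem_univ _, h, ⟨h5, (h6.trans hfe.symm).trans hq.symm⟩, ⟨h3, h4.trans hq.symm⟩⟩
  obtain ⟨p, hp, hmin⟩ := exists_min_image S (fun p => v p.2 - v p.1) hSn
  rw [hS, mem_filter] at hp
  obtain ⟨-, hp1, ⟨hp2, hp3⟩, hp4, hp5⟩ := hp
  obtain ⟨b, hb, hbe⟩ := hc p.1.1 p.2.1 hp1 p.1.2 p.2.2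
  have hbe' : v p.2 = v p.1 + R * ((p.2.1 : ℕ) - p.1.1) * b 0 := hbe
  have hp1' : (p.1.1 : ℕ) < p.2.1 := hp1
  refine ⟨q, v p.1, b, (p.2.1 : ℕ) - p.1.1, hb, by omega, ?_, hv _, ?_, ?_⟩
  · have := p.2.1.2
    omega
  · rw [← hbe']
    exact hv _
  · have hadd : N + v p.1 + R * ((p.2.1 : ℕ) - p.1.1) * b 0 = N + v p.2 := by
      rw [hbe']
      ring
    refine ⟨fun j => ?_, fun i _ y hy1 hy2 hy => ?_⟩
    · have key : ∀ i : Fin 2, i = 0 ∨ i = 1 := by decide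
      rcases key j with rfl | rfl
      · show (N + v p.1 + 0).Prime ∧ χ (N + v p.1 + 0) = q ∧ N + v p.1 + 0 ≡ s₀ [MOD W]
        rw [Nat.add_zero]
        exact ⟨hp2, hp3, hcl _⟩
      · show (N + v p.1 + R * ((p.2.1 : ℕ) - p.1.1) * b 0).Prime ∧ χ (N + v p.1 + R * ((p.2.1 : ℕ) - p.1.1) * b 0) = q ∧
          N + v p.1 + R * ((p.2.1 : ℕ) - p.1.1) * b 0 ≡ s₀ [MOD W]
        rw [hadd]
        exact ⟨hp4, hp5, hcl _⟩
    · have hi : i = 0 := Subsingleton.elim _ _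
      subst hi
      have hy1' : N + v p.1 < y := hy1
      have hy2' : y < N + v p.1 + R * ((p.2.1 : ℕ) - p.1.1) * b 0 := hy2
      rw [hadd] at hy2'
      obtain ⟨y', rfl⟩ : ∃ y', y = N + y' := ⟨y - N, by omega⟩
      have hyL : y' ≤ L := by
        have := hv p.2
        omega
      obtain ⟨u, hu⟩ := hw y' hyL hy.1
      rw [← hu] at hy hy1' hy2'
      rcases lt_trichotomy u.1 p.1.1 with h | h | h
      · have := hlt u p.1 h
        omega
      · have h2 := hmin (u, p.2) (by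
          rw [hS, mem_filter]
          exact ⟨mem_univ _, by show u.1 < p.2.1; rw [h]; exact hp1, hy, hp4, hp5⟩)
        simp only at h2
        omega
      · have h2 := hmin (p.1, u) (by
          rw [hS, mem_filter]
          exact ⟨mem_univ _, h, ⟨hp2, hp3⟩, hy⟩)
        simp only at h2
        omega

open Classical in
/-- **`k = 1`**: almost all `h ≤ z` have a multiple `m h`, `m ≤ m₀`, which is a gap between consecutive primes of one colour
with the right order -/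
theorem one_gap (r : ℕ) : ∃ D : ℕ, ∀ W s₀ : ℕ, 0 < W → Nat.Coprime s₀ W → ∃ m₀ : ℕ, ∀ ε : ℝ, 0 < ε →
    ∃ B c d : ℝ, 0 < c ∧ 0 < d ∧ ∀ (χ : ℕ → Fin r) (M z : ℕ), B ≤ z → (z : ℝ) ≤ c * Real.log M →
      (((Fintype.piFinset (fun _ : Fin 1 => Icc 1 z)).filter (fun a : Fin 1 → ℕ => StrictMono a ∧
        ¬ ∃ m : ℕ, 1 ≤ m ∧ m ≤ m₀ ∧ ∀ G : Finset (Fin 1), Txt.Many W s₀ χ G (fun j => m * a j) M (Real.log M ^ 1)
          (d * min 1 (z / Real.log M) ^ D * M))).card : ℝ) ≤ ε * (z : ℝ) ^ 1 := by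
  rcases Nat.eq_zero_or_pos r with hr | hr
  · subst hr
    exact ⟨0, fun _ _ _ _ => ⟨0, fun ε _ => ⟨1, 1, 1, one_pos, one_pos, fun χ => (χ 0).elim0⟩⟩⟩
  have hr0 : (0 : ℝ) < r := by exact_mod_cast hr
  obtain ⟨J, hJ⟩ : ∃ J : ℕ, J = 100 * (r + 1) := ⟨_, rfl⟩
  have hJ2 : 2 ≤ J := by omega
  have hJ1 : 1 ≤ J := by omega
  have hJ0 : (0 : ℝ) < J := by exact_mod_cast hJ1
  obtain ⟨s, wd, hs, hsv⟩ := sieveE J hJ1
  refine ⟨J * s, fun W s₀ hW hs₀ => ?_⟩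
  obtain ⟨R, hRd⟩ : ∃ R : ℕ, R = W * primorial wd := ⟨_, rfl⟩
  have hR : 0 < R := by rw [hRd]; exact Nat.mul_pos hW (primorial_pos wd)
  have hRr : (0 : ℝ) < R := by exact_mod_cast hR
  have hRw : primorial wd ∣ R := by rw [hRd]; exact Dvd.intro_left _ rfl
  have hWR : W ∣ R := by rw [hRd]; exact Dvd.intro _ rfl
  obtain ⟨ρ, hρ1, hρ2⟩ := exists_class W s₀ R hW hs₀ hR
  refine ⟨R * J, fun ε hε => ?_⟩
  obtain ⟨c, L0, hc, hconf⟩ := conf_pairs J hJ2 s R ρ hs hR ε hε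
  have hw0 : ∀ d : Fin J, 0 ≤ (fun _ : Fin J => (100 : ℝ) / J) d := fun d => by positivity
  have hw1 : 100 ≤ ∑ d : Fin J, (fun _ : Fin J => (100 : ℝ) / J) d := by
    rw [sum_const, card_univ, Fintype.card_fin, nsmul_eq_mul, mul_div_cancel₀ _ hJ0.ne']
  obtain ⟨lam, δ, θ, T, H0, hlam, hlam1, hδ, hθ, hT, hH0, hx⟩ := hsv _ hw0 hw1 R hR hRw c hc
  obtain ⟨d0, xs, hd0, hxs, hwin⟩ := Pool.Agent.H62.AU.winU T hT
  have hev := (hxs.eventually hx).and ((hxs.eventually_gt_atTop 1).and hwin)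
  obtain ⟨M1, hM1⟩ := eventually_atTop.1 hev
  obtain ⟨Kc, hKc⟩ : ∃ Kc : ℝ, Kc = (Fintype.card (Lab 1) + 1) * r * 2 ^ 1 := ⟨_, rfl⟩
  have hKc0 : 0 < Kc := by rw [hKc]; positivity
  obtain ⟨d, hd⟩ : ∃ d : ℝ, d = d0 * (δ * (1 / 2) ^ (J * s)) / (2 * Kc) := ⟨_, rfl⟩
  have hd1 : 0 < d := by rw [hd]; positivity
  obtain ⟨C, hC⟩ : ∃ C : ℕ, C = R * (J + 1) := ⟨_, rfl⟩
  have hC1 : 1 ≤ C := by rw [hC]; exact Nat.mul_pos hR (by omega)
  have hC0 : (0 : ℝ) < C := by exact_mod_cast hC1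
  obtain ⟨B, hBd⟩ : ∃ B : ℝ, B = max (max (L0 : ℝ) H0) (Real.log ((M1 : ℝ) + 1)) := ⟨_, rfl⟩
  have hB1 : Real.log ((M1 : ℝ) + 1) ≤ B := hBd ▸ le_max_right _ _
  have hB2 : (L0 : ℝ) ≤ B := hBd ▸ (le_max_left _ _).trans (le_max_left _ _)
  have hB3 : H0 ≤ B := hBd ▸ (le_max_right _ _).trans (le_max_left _ _)
  refine ⟨B, lam / C, d, by positivity, hd1, fun χ M z hB hzM => ?_⟩
  have hzL0 : L0 ≤ z := by exact_mod_cast hB2.trans hB
  obtain ⟨L, hLd⟩ : ∃ L : ℕ, L = R * ((J + 1) * z) := ⟨_, rfl⟩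
  have hLC : L = C * z := by rw [hLd, hC]; ring
  have hzL : z ≤ L := by
    rw [hLC]
    exact Nat.le_mul_of_pos_left _ hC1
  have hzLr : (z : ℝ) ≤ L := by exact_mod_cast hzL
  have hLM : (L : ℝ) ≤ lam * Real.log M := by
    rw [hLC]
    push_cast
    rw [div_mul_eq_mul_div, le_div_iff₀ hC0] at hzM
    linarith
  have hz1 : (1 : ℝ) ≤ z := hH0.trans (hB3.trans hB)
  have hLH0 : H0 ≤ L := (hB3.trans hB).trans hzLr
  have hL1 : (1 : ℝ) ≤ L := hH0.trans hLH0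
  have hL0 : (0 : ℝ) < L := by linarith
  have hlM0 : 0 ≤ Real.log (M : ℝ) := Real.log_natCast_nonneg M
  have hlM : (L : ℝ) ≤ Real.log M := hLM.trans (by nlinarith)
  have hlM1 : 0 < Real.log (M : ℝ) := hL0.trans_le hlM
  obtain ⟨t, ht1⟩ : ∃ t, t = (L : ℝ) / Real.log M := ⟨_, rfl⟩
  have ht0 : 0 < t := by
    rw [ht1]
    exact div_pos hL0 hlM1
  have ht : t ≤ 1 := by
    rw [ht1, div_le_one hlM1]
    exact hlM
  have hy : (L : ℝ) = t * Real.log M := by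
    rw [ht1, div_mul_cancel₀ _ hlM1.ne']
  have hM0 : (0 : ℝ) < M := by
    by_contra hc2
    have h2 : (M : ℝ) = 0 := le_antisymm (not_lt.1 hc2) (Nat.cast_nonneg M)
    rw [h2, Real.log_zero] at hlM
    linarith
  have hMM : M1 ≤ M := by
    have h1 : Real.log ((M1 : ℝ) + 1) ≤ Real.log M := ((hB1.trans hB).trans hzLr).trans hlM
    have h2 : (M1 : ℝ) + 1 ≤ M := (Real.log_le_log_iff (by positivity) hM0).1 h1
    have h3 : ((M1 + 1 : ℕ) : ℝ) ≤ M := by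
      push_cast
      exact h2
    have h4 : M1 + 1 ≤ M := by exact_mod_cast h3
    omega
  obtain ⟨hxx, hxs1, hlx1, hlx2, hwin⟩ := hM1 M hMM
  generalize xs M = X at hxx hxs1 hlx1 hlx2 hwin
  have hlX : 0 < Real.log X := by linarith
  obtain ⟨V, hV⟩ : ∃ V : ℝ, V = (L : ℝ) ^ 1 := ⟨_, rfl⟩
  obtain ⟨Thr, hThr⟩ : ∃ Thr : ℝ, Thr = d * t ^ (J * s) * M := ⟨_, rfl⟩
  have hV0 : 0 < V := by rw [hV]; positivity
  have hThr0 : 0 ≤ Thr := by rw [hThr]; positivity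
  have hτ : d * min 1 (z / Real.log M) ^ (J * s) * M ≤ Thr := by
    rw [hThr]
    have h1 : 0 ≤ min 1 ((z : ℝ) / Real.log M) := le_min zero_le_one (div_nonneg (Nat.cast_nonneg _) hlM0)
    have h2 : min 1 ((z : ℝ) / Real.log M) ≤ t := by
      refine (min_le_right _ _).trans ?_
      rw [ht1]
      exact div_le_div_of_nonneg_right hzLr hlM0
    exact mul_le_mul_of_nonneg_right (mul_le_mul_of_nonneg_left (pow_le_pow_left₀ h1 h2 _) hd1.le) hM0.le
  have hone : OnePair (univ : Finset (Fin 1)) := by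
    intro i _ i' _ l _ l' _ _ _
    exact Subsingleton.elim _ _
  by_contra hcon0
  obtain ⟨E, hE⟩ : ∃ E : Finset (Fin 1 → ℕ), E = ((Fintype.piFinset (fun _ : Fin 1 => Icc 1 z)).filter
    (fun a : Fin 1 → ℕ => StrictMono a ∧ ¬ ∃ m : ℕ, 1 ≤ m ∧ m ≤ R * J ∧ ∀ G : Finset (Fin 1),
      Txt.Many W s₀ χ G (fun j => m * a j) M (Real.log M ^ 1) (d * min 1 (z / Real.log M) ^ (J * s) * M))) := ⟨_, rfl⟩
  obtain ⟨𝓗, h𝓗1, h𝓗2⟩ := hconf z hzL0 E (by
    intro a ha i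
    rw [hE, mem_filter, Fintype.mem_piFinset] at ha
    exact (mem_Icc.1 (ha.1 i)).2) (by
    rw [hE]
    exact (not_le.1 hcon0).le)
  rw [← hLd] at h𝓗1
  have hbad : ∀ b ∈ E, ∀ m : ℕ, 1 ≤ m → m ≤ R * J → (fun j => ((m * b j : ℕ) : ℤ)) ∈
      Bad W s₀ χ M V Thr (⟨univ, hone⟩ : Lab 1) := by
    intro b hb m hm1 hm2
    rw [hE, mem_filter, Fintype.mem_piFinset] at hb
    obtain ⟨hb1, hb2, hb3⟩ := hb
    push Not at hb3
    obtain ⟨G, hG⟩ := hb3 m hm1 hm2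
    have hpos : ∀ j, 1 ≤ m * b j := fun j => Nat.mul_pos hm1 (mem_Icc.1 (hb1 j)).1
    refine ⟨?_, fun q => ?_⟩
    · intro i i' hii
      refine Fin.cases (fun hii => ?_) (fun j hii => ?_) i hii
      · obtain ⟨j', rfl⟩ := Fin.exists_succ_eq.2 (Fin.pos_iff_ne_zero.1 hii)
        rw [Fin.cons_zero, Fin.cons_succ]
        exact_mod_cast hpos j'
      · exfalso
        have h1 : (j.succ : ℕ) < i' := hii
        have h2 := i'.2
        have h3 : (j.succ : ℕ) = (j : ℕ) + 1 := Fin.val_succ j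
        omega
    · have h2 : (fun j => ((Fin.cons 0 (fun j => ((m * b j : ℕ) : ℤ)) : Fin (1 + 1) → ℤ) j).toNat) =
          (Fin.cons 0 (fun j => m * b j) : Fin (1 + 1) → ℕ) := by
        funext i
        refine Fin.cases ?_ (fun j => ?_) i
        · simp
        · rw [Fin.cons_succ, Fin.cons_succ, Int.toNat_natCast]
      rw [h2]
      by_contra hcon
      push Not at hcon
      apply hG
      refine ⟨q, (hτ.trans hcon).trans ?_⟩
      rw [← ncard_eq]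
      refine mul_le_mul ?_ ?_ (Nat.cast_nonneg _) (by positivity)
      · rw [hV, pow_one, pow_one]
        exact hlM
      · refine Nat.cast_le.2 (Set.ncard_le_ncard ?_ ((Set.finite_lt_nat M).subset fun n hn => hn.1))
        intro n hn
        refine ⟨hn.1, hn.2.1, fun i _ y hy1 hy2 => hn.2.2 i (mem_univ _) y hy1 hy2⟩
  have hEpos : ∀ b ∈ E, 1 ≤ b 0 := by
    intro b hb
    rw [hE, mem_filter, Fintype.mem_piFinset] at hb
    exact (mem_Icc.1 (hb.1 0)).1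
  have hcount := hxx L hLH0 (hLM.trans (mul_le_mul_of_nonneg_left hlx1 hlam.le)) 𝓗
    (fun v hv => ⟨mem_IJ.2 ⟨fun i => by rw [hLd]; exact (h𝓗2 v hv).2.1 i, (h𝓗2 v hv).1⟩, fun i => by
      have h4 : Nat.gcd ρ R = 1 := hρ1
      show Nat.gcd (v i) R = 1
      rw [← h4]
      exact Nat.ModEq.gcd_eq ((h𝓗2 v hv).2.2.1 i)⟩) h𝓗1
  obtain ⟨P, hP⟩ : ∃ P : ℕ → Prop, P = fun n => ∃ (a : Lab 1) (q : Fin r) (u : Fin 1 → ℕ), (∀ j, u j ≤ L) ∧
      (fun j => (u j : ℤ)) ∈ Bad W s₀ χ M V Thr a ∧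
      Pat W s₀ χ q a.1 (Fin.cons 0 u : Fin (1 + 1) → ℕ) (Nat.nth Nat.Prime n) := ⟨_, rfl⟩
  have hfin := hwin P (δ * (L / Real.log X) ^ (J * s)) _ (by positivity) hcount (by
    intro N hN
    rw [mem_filter, mem_range, Nat.lt_succ_iff] at hN
    obtain ⟨h1, h2, h3, v, hv, hwc, hpr⟩ := hN
    have hX0 : 0 < X := by linarith
    refine ⟨(Nat.le_floor_iff (by positivity)).1 h1, ?_⟩
    obtain ⟨hv1, hv2, hv3, hv4⟩ := h𝓗2 v hv
    obtain ⟨q, x, b, m, hb, hm1, hm2, hx1, hx2, hpat⟩ := win_gap hJ W s₀ χ N L v (fun i => by rw [hLd]; exact hv2 i) R hR E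
      hEpos hv4 hwc hpr (fun i => by
        have h4 : N ≡ 0 [MOD W] := Nat.modEq_zero_iff_dvd.2 (hWR.trans h3)
        have h5 := h4.add ((hv3 i).of_dvd hWR)
        rw [Nat.zero_add] at h5
        exact h5.trans hρ2)
    have hp : (N + x).Prime := by
      have h4 := (hpat.1 0).1
      exact h4
    obtain ⟨n, hn⟩ := exists_nth hp
    refine ⟨n, ?_, ?_, ?_⟩
    · rw [hP]
      refine ⟨⟨univ, hone⟩, q, fun j => R * m * b j, fun j => ?_, ?_, ?_⟩
      · have h4 : j = 0 := Subsingleton.elim _ _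
        have h5 : R * m * b 0 ≤ L := (Nat.le_add_left _ _).trans hx2
        rw [h4]
        exact h5
      · exact hbad b hb (R * m) (Nat.mul_pos hR hm1) (Nat.mul_le_mul_left _ hm2)
      · rw [hn]
        have h4 : (fun j : Fin 1 => R * m * b j) = fun _ => R * m * b 0 := by
          funext j
          rw [Subsingleton.elim j 0]
        rw [h4]
        exact hpat
    · rw [hn]
      exact Nat.le_add_right _ _
    · rw [hn]
      push_cast
      have h4 : (x : ℝ) ≤ L := by exact_mod_cast hx1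
      linarith)
  have hub := union_bd W s₀ χ M L V Thr hV0 hThr0 P (by
    intro n hn
    rw [hP] at hn
    exact hn)
  -- comparison
  have h1 : V * (d0 * (δ * (L / Real.log X) ^ (J * s)) * M) ≤
      Fintype.card (Lab 1) * r * ((L : ℝ) + 1) ^ 1 * Thr := (mul_le_mul_of_nonneg_left hfin hV0.le).trans hub
  have h2 : ((L : ℝ) + 1) ^ 1 ≤ 2 ^ 1 * V := by
    rw [hV, pow_one, pow_one, pow_one]
    linarith
  have h3 : 1 / 2 * t ≤ L / Real.log X := by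
    rw [le_div_iff₀ hlX]
    have h4 : 1 / 2 * t * Real.log X ≤ 1 / 2 * t * (2 * Real.log M) :=
      mul_le_mul_of_nonneg_left hlx2 (by positivity)
    have h5 : 1 / 2 * t * (2 * Real.log M) = L := by rw [hy]; ring
    linarith
  have h4 : (1 / 2) ^ (J * s) * t ^ (J * s) ≤ (L / Real.log X) ^ (J * s) := by
    rw [← mul_pow]
    exact pow_le_pow_left₀ (by positivity) h3 _
  have h5 : V * (d0 * (δ * ((1 / 2) ^ (J * s) * t ^ (J * s))) * M) ≤ V * (Kc * Thr) := by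
    calc V * (d0 * (δ * ((1 / 2) ^ (J * s) * t ^ (J * s))) * M)
        ≤ V * (d0 * (δ * (L / Real.log X) ^ (J * s)) * M) := by gcongr
      _ ≤ Fintype.card (Lab 1) * r * ((L : ℝ) + 1) ^ 1 * Thr := h1
      _ ≤ Fintype.card (Lab 1) * r * (2 ^ 1 * V) * Thr := by gcongr
      _ ≤ (Fintype.card (Lab 1) + 1) * r * (2 ^ 1 * V) * Thr := by
          gcongr
          linarith
      _ = V * (Kc * Thr) := by rw [hKc]; ring
  have h6 := le_of_mul_le_mul_left h5 hV0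
  have h7 : Kc * Thr = d0 * (δ * ((1 / 2) ^ (J * s) * t ^ (J * s))) * M / 2 := by
    rw [hThr, hd]
    field_simp
  have h8 : 0 < d0 * (δ * ((1 / 2) ^ (J * s) * t ^ (J * s))) * M := by positivity
  linarith

end Pool.Agent.H62.EX
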