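import Pool.Agent.H62.EX.Draft
import Pool.Agent.H53.DL.Rat

/-!
# [H62 EX OLD] The infinite statement (BohrTuples, clause (1)) in the language of THEOREM E

From `Pool.Agent.H53.DL.dil_all` (`z = 0`, the set `A = insert 0 (univ.image (fun j => m * a j))`, the set of gaps
`{(i : ℕ) | i ∈ G}` is `OnePair` in the sense of H92/BH or H74/BT): `ExtG G c A` gives a colour `q` and, with `F' = F = A`, infinitely many `N`
such that for all `b` in `A` or in a gap of `A` with number in `G`: `N + b` is a prime of colour `q` iff `b ∈ A`.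
`N` is a prime itself (`0 ∈ A`), so `N = nth Prime n`, with different `n` for different `N`; `b` in the gap `i`:
`m * (cons 0 a) i.castSucc < b < m * (cons 0 a) i.succ` (`StrictMono (m * cons 0 a)`, so exactly `i + 1` elements of `A` are smaller).
-/

set_option autoImplicit false

namespace Pool.Agent.H62.EX

open Finset

open Classical in
theorem old (k r : ℕ) (hk : 1 ≤ k) (χ : ℕ → Fin r) : ∃ (m₀ J : ℕ) (α : Fin J → ℝ) (ρ : ℝ), 0 < ρ ∧
    (∀ a : Fin k → ℤ, ∃ m : ℕ, 1 ≤ m ∧ m ≤ m₀ ∧ ∀ j i, ∃ n : ℤ, |((m : ℝ) * a j) * α i - n| < ρ) ∧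
    ∀ ε : ℝ, 0 < ε → ∃ X₀ : ℕ, ∀ z : ℕ, X₀ ≤ z →
      (((Fintype.piFinset (fun _ : Fin k => Icc 1 z)).filter (fun a : Fin k → ℕ => StrictMono a ∧
        ¬ ∀ m : ℕ, 1 ≤ m → m ≤ m₀ → (∀ j i, ∃ n : ℤ, |((m : ℝ) * a j) * α i - n| < ρ) →
          ∀ G : Finset (Fin k), OnePair G → ∃ q : Fin r, {n : ℕ | Pat 1 0 χ q G
            (fun j => m * (Fin.cons 0 a : Fin (k + 1) → ℕ) j) (Nat.nth Nat.Prime n)}.Infinite)).card : ℝ) ≤
        ε * (z : ℝ) ^ k := by
  sorry

end Pool.Agent.H62.EX
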