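import Pool.Agent.H21.LA.La
import Pool.Agent.H21.CP.Med

/-!
# [H62 EX PRP] An explicit proportion of the tuples of every large set satisfies the prime tuples conjecture

Every set which misses a class modulo each small prime: average of `la_many` over the subsets of bounded size, which are admissible.
-/

set_option autoImplicit false

namespace Pool.Agent.H62.EX

open Finset

private theorem exists_shift (p : ℕ) (S : Finset ℕ) (h : S.card < p) : ∃ a : ℕ, ∀ n ∈ S, ¬ p ∣ a + n := by
  have hp : 0 < p := by omega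
  have h1 : (S.image (fun n => n % p)).card < p := card_image_le.trans_lt h
  obtain ⟨c, hc, hc'⟩ : ∃ c ∈ range p, c ∉ S.image (fun n => n % p) := by
    by_contra hno
    push Not at hno
    have h2 := card_le_card (show range p ⊆ S.image (fun n => n % p) from fun c hc => hno c hc)
    rw [card_range] at h2
    omega
  rw [mem_range] at hc
  refine ⟨p - c, fun n hn hdv => hc' (mem_image.2 ⟨n, hn, ?_⟩)⟩
  -- `n ≡ c`
  have h2 : (p - c + n) % p = 0 := Nat.mod_eq_zero_of_dvd hdv
  have h3 : (c + (p - c + n)) % p = c % p := by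
    rw [Nat.add_mod, h2, Nat.add_zero, Nat.mod_mod]
  have h4 : c + (p - c + n) = p + n := by omega
  rw [h4, Nat.add_mod_left, Nat.mod_eq_of_lt hc] at h3
  exact h3

open Classical in
/-- the sets of size `K` which contain a given set -/
private theorem card_super (A B : Finset ℕ) (K : ℕ) (hBA : B ⊆ A) (hBK : B.card ≤ K) :
    ((powersetCard K A).filter (fun H => B ⊆ H)).card = (A.card - B.card).choose (K - B.card) := by
  rw [← card_sdiff_of_subset hBA, ← card_powersetCard]
  refine card_bij' (fun H _ => H \ B) (fun C _ => C ∪ B) ?_ ?_ ?_ ?_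
  · intro H hH
    rw [mem_filter, mem_powersetCard] at hH
    rw [mem_powersetCard, card_sdiff_of_subset hH.2, hH.1.2]
    exact ⟨sdiff_subset_sdiff hH.1.1 le_rfl, rfl⟩
  · intro C hC
    rw [mem_powersetCard] at hC
    have hd : Disjoint C B := disjoint_of_subset_left hC.1 sdiff_disjoint
    rw [mem_filter, mem_powersetCard, card_union_of_disjoint hd, hC.2]
    exact ⟨⟨union_subset (hC.1.trans sdiff_subset) hBA, by omega⟩, subset_union_right⟩
  · intro H hH
    rw [mem_filter] at hH
    exact sdiff_union_of_subset hH.2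
  · intro C hC
    rw [mem_powersetCard] at hC
    have hd : Disjoint C B := disjoint_of_subset_left hC.1 sdiff_disjoint
    exact union_sdiff_cancel_right hd

/-- averaging over the subsets of size `K` -/
private theorem average (A : Finset ℕ) (K m : ℕ) (hm : m ≤ K) (hK : K ≤ A.card) (P : Finset ℕ → Prop) [DecidablePred P] (κ : ℝ)
    (h : ∀ H ∈ powersetCard K A, κ * (K.choose m : ℝ) ≤ (((powersetCard m H).filter P).card : ℝ)) :
    κ * (A.card.choose m : ℝ) ≤ (((powersetCard m A).filter P).card : ℝ) := by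
  have h1 : ∑ H ∈ powersetCard K A, ((powersetCard m H).filter P).card =
      ((powersetCard m A).filter P).card * (A.card - m).choose (K - m) := by
    have h2 : ∀ H ∈ powersetCard K A, ((powersetCard m H).filter P).card =
        ∑ B ∈ (powersetCard m A).filter P, if B ⊆ H then 1 else 0 := by
      intro H hH
      rw [mem_powersetCard] at hH
      rw [← card_filter, filter_filter]
      congr 1
      ext B
      simp only [mem_filter, mem_powersetCard]
      constructor
      · rintro ⟨⟨a, b⟩, c⟩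
        exact ⟨⟨a.trans hH.1, b⟩, c, a⟩
      · rintro ⟨⟨-, b⟩, c, a⟩
        exact ⟨⟨a, b⟩, c⟩
    rw [sum_congr rfl h2, sum_comm, card_eq_sum_ones, sum_mul]
    refine sum_congr rfl fun B hB => ?_
    rw [mem_filter, mem_powersetCard] at hB
    rw [← card_filter, card_super A B K hB.1.1 (by omega), hB.1.2, one_mul]
  have h3 : ((A.card.choose K : ℕ) : ℝ) * (κ * (K.choose m : ℝ)) ≤
      (((powersetCard m A).filter P).card : ℝ) * ((A.card - m).choose (K - m) : ℝ) := by
    have h4 : ∑ _H ∈ powersetCard K A, κ * (K.choose m : ℝ) ≤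
        ∑ H ∈ powersetCard K A, (((powersetCard m H).filter P).card : ℝ) := sum_le_sum h
    rw [sum_const, card_powersetCard, nsmul_eq_mul] at h4
    refine h4.trans (le_of_eq ?_)
    exact_mod_cast h1
  have h5 : ((A.card.choose K : ℕ) : ℝ) * (K.choose m : ℝ) = (A.card.choose m : ℝ) * ((A.card - m).choose (K - m) : ℝ) := by
    exact_mod_cast Nat.choose_mul hm
  have h6 : 0 < ((A.card - m).choose (K - m) : ℝ) := by
    exact_mod_cast Nat.choose_pos (Nat.sub_le_sub_right hK m)
  refine le_of_mul_le_mul_right ?_ h6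
  calc κ * (A.card.choose m : ℝ) * ((A.card - m).choose (K - m) : ℝ)
      = ((A.card.choose K : ℕ) : ℝ) * (κ * (K.choose m : ℝ)) := by
        rw [mul_assoc, ← h5]
        ring
    _ ≤ _ := h3

open Classical in
/-- **the proportion of the sets of `k + 1` elements all of whose subsets are realised by primes of one colour** -/
theorem prop_tuples (r k : ℕ) (ε : ℝ) (hε : 0 < ε) : ∃ R : ℕ, ∀ A : Finset ℕ, R ≤ A.card →
    (∀ p : ℕ, p.Prime → p ≤ R → ∃ a : ℕ, ∀ x ∈ A, ¬ p ∣ a + x) → ∀ χ : ℕ → Fin r,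
      ((13 / (50 * (r : ℝ))) ^ k - ε) * (A.card.choose (k + 1) : ℝ) ≤
        (((powersetCard (k + 1) A).filter (fun B => ∃ q : Fin r, ∀ F : Finset ℕ, F ⊆ B →
          {N : ℕ | ∀ x ∈ B, ((N + x).Prime ∧ χ (N + x) = q) ↔ x ∈ F}.Infinite)).card : ℝ) := by
  rcases Nat.eq_zero_or_pos r with hr | hr
  · subst hr
    exact ⟨0, fun _ _ _ χ => (χ 0).elim0⟩
  have hr0 : (1 : ℝ) ≤ r := by exact_mod_cast hr
  obtain ⟨e, he⟩ : ∃ e : ℝ, e = min ε (1 / 2) := ⟨_, rfl⟩
  have he0 : 0 < e := by rw [he]; exact lt_min hε (by norm_num)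
  have he1 : e < 1 := by
    rw [he]
    exact (min_le_right _ _).trans_lt (by norm_num)
  have heε : e ≤ ε := by rw [he]; exact min_le_left _ _
  obtain ⟨K, hK⟩ := Pool.Agent.H21.LA.la_many (13 / 50) (by norm_num) (by norm_num)
    Pool.Agent.H21.CP.Q2 Pool.Agent.H21.CP.Q2_prime Pool.Agent.H21.CP.med r (k + 1) 0 hr (by omega) e he0 he1
  refine ⟨K + k + 1, fun A hA hadm χ => ?_⟩
  have hκr : (13 / 50 : ℝ) / r = 13 / (50 * (r : ℝ)) := by rw [div_div]
  have hκ0 : (0 : ℝ) ≤ 13 / (50 * (r : ℝ)) := by positivity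
  have hκ1 : (13 : ℝ) / (50 * (r : ℝ)) ≤ 1 := by
    rw [div_le_one (by positivity)]
    linarith
  have hpow : (13 / (50 * (r : ℝ))) ^ k ≤ 1 := pow_le_one₀ hκ0 hκ1
  have hpow0 : 0 ≤ (13 / (50 * (r : ℝ))) ^ k := pow_nonneg hκ0 k
  have hle : (13 / (50 * (r : ℝ))) ^ k - ε ≤ (1 - e) * (13 / (50 * (r : ℝ))) ^ k := by nlinarith
  refine (mul_le_mul_of_nonneg_right hle (Nat.cast_nonneg _)).trans ?_
  refine average A (K + k + 1) (k + 1) (by omega) hA (fun B => ∃ q : Fin r, ∀ F : Finset ℕ, F ⊆ B →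
    {N : ℕ | ∀ x ∈ B, ((N + x).Prime ∧ χ (N + x) = q) ↔ x ∈ F}.Infinite) _ fun H hH => ?_
  rw [mem_powersetCard] at hH
  have h1 := hK H (fun p hp => ?_) (by omega) χ
  · rw [hκr, Nat.add_sub_cancel, hH.2] at h1
    refine h1.trans (Nat.cast_le.2 (card_le_card fun B hB => ?_))
    rw [mem_filter] at hB ⊢
    obtain ⟨hB1, i, hi⟩ := hB
    refine ⟨hB1, i, fun F hF => ?_⟩
    unfold Pool.Agent.H21.LA.Shat2 at hi
    rw [powersetCard_zero, Nat.choose_zero_right, Nat.cast_one, mul_one] at hi
    have h2 : (0 : ℝ) < (((({∅} : Finset (Finset ℕ))).filter (fun B' => Pool.Agent.H21.LA.Real2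
        Pool.Agent.H21.CP.Q2 χ i B B')).card : ℝ) := lt_of_lt_of_le (by linarith) hi
    obtain ⟨B', hB'⟩ := card_pos.1 (Nat.cast_pos.1 h2)
    rw [mem_filter, mem_singleton] at hB'
    obtain ⟨rfl, h3⟩ := hB'
    exact (h3 F hF).mono fun N hN => hN.1
  · rcases le_or_gt p (K + k + 1) with h2 | h2
    · obtain ⟨a, ha⟩ := hadm p hp h2
      exact ⟨a, fun x hx => ha x (hH.1 hx)⟩
    · exact exists_shift p H (by omega)

end Pool.Agent.H62.EX
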