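import Pool.Agent.H62.EX.Df

/-!
# [H62 EX PST] Products of abundant families in dense sets

`Ω`: a type of worlds with lengths `Len`; `H Q ω`: a hypothesis of level `Q`.  `hab`: every dense set contains many members of `P`.
Proof of `prod_step`, induction on `n`.  `n = 0`: `E` is nonempty, so `E = {elim0}`; the left side is `c`, take `c = 1`.
`n + 1`: for `u : Fin n → ℕ` in the box let `S_u = {a | Fin.cons a u ∈ E}`; at least `(δ/2) L^n` of the `u` have `|S_u| ≥ (δ/2) L`; for each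
of them there are `≥ c₁ L^ι` (`c₁` from `hab` with `δ/2`) members `x` of `P` with values in `S_u`.  So
`∑_x |{u : all x-values in S_u}| ≥ (δ/2) c₁ L^(n + ι)` and at least `(δ c₁/4) L^ι` of the `x ∈ P` have
`|E_x| ≥ (δ c₁/4) L^n`, `E_x = {u | ∀ a, Fin.cons (x a) u ∈ E}`.  Apply the induction hypothesis to `E_x`; `Y = Fin.cons x Y'`.
(General lemma: if `∑_{x ∈ A} F x ≥ s |A| T` with `0 ≤ F ≤ T` then `F x ≥ (s/2) T` for at least `(s/2) |A|` of the `x ∈ A`.)
-/

set_option autoImplicit false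

namespace Pool.Agent.H62.EX

open Finset

/-- Markov -/
theorem markov {α : Type} (A : Finset α) (F : α → ℝ) (s T : ℝ) (hT : 0 ≤ T) (hF : ∀ x ∈ A, F x ≤ T)
    (h : s * A.card * T ≤ ∑ x ∈ A, F x) (hs : 0 ≤ s) :
    s / 2 * A.card * T ≤ ((A.filter (fun x => s / 2 * T ≤ F x)).card : ℝ) * T := by
  have h1 := Finset.sum_filter_add_sum_filter_not A (fun x => s / 2 * T ≤ F x) F
  have h2 : ∑ x ∈ A.filter (fun x => s / 2 * T ≤ F x), F x ≤
      ((A.filter (fun x => s / 2 * T ≤ F x)).card : ℝ) * T := by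
    have h3 := Finset.sum_le_card_nsmul (A.filter (fun x => s / 2 * T ≤ F x)) F T
      (fun x hx => hF x (Finset.mem_filter.1 hx).1)
    simpa only [nsmul_eq_mul] using h3
  have h4 : ∑ x ∈ A.filter (fun x => ¬ s / 2 * T ≤ F x), F x ≤ (A.card : ℝ) * (s / 2 * T) := by
    have h5 := Finset.sum_le_card_nsmul (A.filter (fun x => ¬ s / 2 * T ≤ F x)) F (s / 2 * T)
      (fun x hx => le_of_lt (not_le.1 (Finset.mem_filter.1 hx).2))
    rw [nsmul_eq_mul] at h5
    refine le_trans h5 ?_
    have h6 : ((A.filter (fun x => ¬ s / 2 * T ≤ F x)).card : ℝ) ≤ (A.card : ℝ) := by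
      exact_mod_cast Finset.card_filter_le _ _
    exact mul_le_mul_of_nonneg_right h6 (mul_nonneg (by linarith) hT)
  have h7 : s * A.card * T = s / 2 * A.card * T + A.card * (s / 2 * T) := by ring
  linarith

theorem mem_filter_any {α : Type} (p : α → Prop) (inst : DecidablePred p) (s : Finset α) (a : α)
    (h1 : a ∈ s) (h2 : p a) : a ∈ @Finset.filter α p inst s :=
  Finset.mem_filter.2 ⟨h1, h2⟩

open Classical in
/-- fibres over the tail -/
theorem card_fib (n L : ℕ) (E : Finset (Fin (n + 1) → ℕ)) (hE : E ⊆ Fintype.piFinset (fun _ => range L)) :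
    (E.card : ℝ) = ∑ u ∈ Fintype.piFinset (fun _ : Fin n => range L),
      (((range L).filter (fun a => (Fin.cons (α := fun _ => ℕ) a u) ∈ E)).card : ℝ) := by
  have h1 : E.card = ∑ u ∈ Fintype.piFinset (fun _ : Fin n => range L),
      (E.filter (fun v => Fin.tail (α := fun _ => ℕ) v = u)).card := by
    refine Finset.card_eq_sum_card_fiberwise (fun v hv => ?_)
    have h2 := Fintype.mem_piFinset.1 (hE hv)
    exact Finset.mem_coe.2 (Fintype.mem_piFinset.2 (fun i => h2 i.succ))
  rw [h1, Nat.cast_sum]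
  refine Finset.sum_congr rfl (fun u _ => ?_)
  have h3 : (E.filter (fun v => Fin.tail (α := fun _ => ℕ) v = u)).card =
      ((range L).filter (fun a => (Fin.cons (α := fun _ => ℕ) a u) ∈ E)).card := by
    refine Finset.card_bij' (fun v _ => v 0) (fun a _ => Fin.cons (α := fun _ => ℕ) a u) ?_ ?_ ?_ ?_
    · intro v hv
      obtain ⟨hv1, hv2⟩ := Finset.mem_filter.1 hv
      refine Finset.mem_filter.2 ⟨Fintype.mem_piFinset.1 (hE hv1) 0, ?_⟩
      rw [← hv2, Fin.cons_self_tail]
      exact hv1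
    · intro a ha
      refine Finset.mem_filter.2 ⟨(Finset.mem_filter.1 ha).2, ?_⟩
      exact Fin.tail_cons (α := fun _ => ℕ) a u
    · intro v hv
      obtain ⟨_, hv2⟩ := Finset.mem_filter.1 hv
      show Fin.cons (α := fun _ => ℕ) (v 0) u = v
      rw [← hv2, Fin.cons_self_tail]
    · intro a _
      exact Fin.cons_zero (α := fun _ => ℕ) a u
  rw [h3]

open Classical in
theorem prod_step {Ω : Type} (Len : Ω → ℕ) (H : ℕ → Ω → Prop) (hH : ∀ Q Q' ω, Q ≤ Q' → H Q' ω → H Q ω)
    {ι : Type} [Fintype ι] (P : Ω → Set (ι → ℕ))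
    (hab : ∀ δ : ℝ, 0 < δ → ∃ (c : ℝ) (Q : ℕ), 0 < c ∧ ∀ ω, H Q ω → ∀ S : Finset ℕ, S ⊆ range (Len ω) →
      δ * Len ω ≤ S.card → c * (Len ω : ℝ) ^ Fintype.card ι ≤
        (((Fintype.piFinset (fun _ : ι => S)).filter (fun x => x ∈ P ω)).card : ℝ))
    (n : ℕ) : ∀ δ : ℝ, 0 < δ → ∃ (c : ℝ) (Q : ℕ), 0 < c ∧ ∀ ω, H Q ω →
      ∀ E : Finset (Fin n → ℕ), E ⊆ Fintype.piFinset (fun _ => range (Len ω)) →
        δ * (Len ω : ℝ) ^ n ≤ E.card → c * (Len ω : ℝ) ^ (n * Fintype.card ι) ≤
          (((Fintype.piFinset (fun _ : Fin n => Fintype.piFinset (fun _ : ι => range (Len ω)))).filter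
            (fun Y => (∀ i, Y i ∈ P ω) ∧ ∀ u : Fin n → ℕ, (∀ i, ∃ a, Y i a = u i) → u ∈ E)).card : ℝ) := by
  induction n with
  | zero =>
    intro δ hδ
    refine ⟨1, 0, one_pos, fun ω _ E _ hE2 => ?_⟩
    have h1 : 0 < E.card := by
      have h2 : (0 : ℝ) < E.card := by
        refine lt_of_lt_of_le ?_ hE2
        simpa using hδ
      exact_mod_cast h2
    obtain ⟨e, he⟩ := Finset.card_pos.1 h1
    have h3 : ∀ u : Fin 0 → ℕ, u ∈ E := fun u => by
      rw [Subsingleton.elim u e]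
      exact he
    rw [zero_mul, pow_zero, mul_one]
    refine Nat.one_le_cast.2 (Finset.card_pos.2 ⟨fun i => i.elim0, ?_⟩)
    exact mem_filter_any _ _ _ _ (Fintype.mem_piFinset.2 (fun i => i.elim0)) ⟨fun i => i.elim0, fun u _ => h3 u⟩
  | succ n ih =>
    intro δ hδ
    obtain ⟨c1, Q1, hc1, hP⟩ := hab (δ / 2) (by linarith)
    have hs : 0 < δ / 2 * c1 := mul_pos (by linarith) hc1
    obtain ⟨c2, Q2, hc2, hI⟩ := ih (δ / 2 * c1 / 2) (by linarith)
    refine ⟨min (δ / 2 * c1 / 2 * c2) c1, max Q1 Q2, lt_min (mul_pos (by linarith) hc2) hc1, fun ω hω E hE1 hE2 => ?_⟩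
    have hω1 := hH _ _ ω (le_max_left Q1 Q2) hω
    have hω2 := hH _ _ ω (le_max_right Q1 Q2) hω
    have hP' := hP ω hω1
    have hI' := hI ω hω2
    obtain ⟨L, hL⟩ : ∃ L, L = Len ω := ⟨_, rfl⟩
    rw [← hL] at hE1 hE2 hP' hI' ⊢
    have hcm : min (δ / 2 * c1 / 2 * c2) c1 ≤ c1 := min_le_right _ _
    have hcm' : min (δ / 2 * c1 / 2 * c2) c1 ≤ δ / 2 * c1 / 2 * c2 := min_le_left _ _
    rcases Nat.eq_zero_or_pos L with hL0 | hL0
    · subst hL0
      by_cases hι : Fintype.card ι = 0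
      · have hem : IsEmpty ι := Fintype.card_eq_zero_iff.1 hι
        have h1 := hP' ∅ (Finset.empty_subset _) (by simp)
        rw [hι, pow_zero, mul_one] at h1
        have h2 : (0 : ℝ) < (((Fintype.piFinset (fun _ : ι => (∅ : Finset ℕ))).filter (fun x => x ∈ P ω)).card : ℝ) :=
          lt_of_lt_of_le hc1 h1
        have h3 : 0 < ((Fintype.piFinset (fun _ : ι => (∅ : Finset ℕ))).filter (fun x => x ∈ P ω)).card := by
          exact_mod_cast h2
        obtain ⟨x, hx⟩ := Finset.card_pos.1 h3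
        have hxP := (Finset.mem_filter.1 hx).2
        have h4 : (((Fintype.piFinset (fun _ : ι => (∅ : Finset ℕ))).filter (fun x => x ∈ P ω)).card : ℝ) ≤ 1 := by
          have h5 : ((Fintype.piFinset (fun _ : ι => (∅ : Finset ℕ))).filter (fun x => x ∈ P ω)).card ≤ 1 := by
            refine le_trans (Finset.card_filter_le _ _) ?_
            rw [Fintype.card_piFinset, Finset.univ_eq_empty, Finset.prod_empty]
          exact_mod_cast h5
        have h6 : (fun _ : Fin (n + 1) => x) ∈ ((Fintype.piFinset (fun _ : Fin (n + 1) =>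
            Fintype.piFinset (fun _ : ι => range 0))).filter
            (fun Y => (∀ i, Y i ∈ P ω) ∧ ∀ u : Fin (n + 1) → ℕ, (∀ i, ∃ a, Y i a = u i) → u ∈ E)) := by
          refine Finset.mem_filter.2 ⟨Fintype.mem_piFinset.2 (fun _ => Fintype.mem_piFinset.2 (fun a => hem.elim a)),
            fun _ => hxP, fun u hu => ?_⟩
          obtain ⟨a, _⟩ := hu 0
          exact hem.elim a
        have h7 : 1 ≤ ((Fintype.piFinset (fun _ : Fin (n + 1) =>
            Fintype.piFinset (fun _ : ι => range 0))).filter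
            (fun Y => (∀ i, Y i ∈ P ω) ∧ ∀ u : Fin (n + 1) → ℕ, (∀ i, ∃ a, Y i a = u i) → u ∈ E)).card :=
          Nat.succ_le_of_lt (Finset.card_pos.2 ⟨_, h6⟩)
        have h8 : (1 : ℝ) ≤ (((Fintype.piFinset (fun _ : Fin (n + 1) =>
            Fintype.piFinset (fun _ : ι => range 0))).filter
            (fun Y => (∀ i, Y i ∈ P ω) ∧ ∀ u : Fin (n + 1) → ℕ, (∀ i, ∃ a, Y i a = u i) → u ∈ E)).card : ℝ) := by
          exact_mod_cast h7
        rw [hι, mul_zero, pow_zero, mul_one]
        linarith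
      · rw [Nat.cast_zero, zero_pow (Nat.mul_ne_zero (Nat.succ_ne_zero n) hι), mul_zero]
        exact Nat.cast_nonneg _
    have hLr : (0 : ℝ) < (L : ℝ) := by exact_mod_cast hL0
    obtain ⟨B, hB⟩ : ∃ B, B = Fintype.piFinset (fun _ : Fin n => range L) := ⟨_, rfl⟩
    have hBc : (B.card : ℝ) = (L : ℝ) ^ n := by
      rw [hB, Fintype.card_piFinset, Finset.prod_const, Finset.card_range, Finset.card_univ, Fintype.card_fin]
      push_cast
      ring
    obtain ⟨A, hA⟩ : ∃ A, A = Fintype.piFinset (fun _ : ι => range L) := ⟨_, rfl⟩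
    have hAc : (A.card : ℝ) = (L : ℝ) ^ Fintype.card ι := by
      rw [hA, Fintype.card_piFinset, Finset.prod_const, Finset.card_range, Finset.card_univ]
      push_cast
      ring
    obtain ⟨S, hS⟩ : ∃ S : (Fin n → ℕ) → Finset ℕ,
      S = fun u => (range L).filter (fun a => (Fin.cons (α := fun _ => ℕ) a u) ∈ E) := ⟨_, rfl⟩
    have hSsub : ∀ u, S u ⊆ range L := fun u => by
      rw [hS]
      exact Finset.filter_subset _ _
    have hM := markov B (fun u => ((S u).card : ℝ)) δ L hLr.le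
      (fun u _ => by
        have h1 := Finset.card_le_card (hSsub u)
        rw [Finset.card_range] at h1
        exact_mod_cast h1)
      (by
        have h1 := card_fib n L E hE1
        rw [hS, hB, ← h1, ← hB, hBc]
        refine le_trans (le_of_eq ?_) hE2
        ring) hδ.le
    obtain ⟨G, hG⟩ : ∃ G, G = B.filter (fun u => δ / 2 * (L : ℝ) ≤ ((S u).card : ℝ)) := ⟨_, rfl⟩
    rw [← hG, hBc] at hM
    have hGc : δ / 2 * (L : ℝ) ^ n ≤ (G.card : ℝ) := le_of_mul_le_mul_right hM hLr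
    obtain ⟨X, hX⟩ : ∃ X : (ι → ℕ) → Finset (Fin n → ℕ),
      X = fun x => B.filter (fun u => ∀ a, (Fin.cons (α := fun _ => ℕ) (x a) u) ∈ E) := ⟨_, rfl⟩
    have hXB : ∀ x, X x ⊆ B := fun x => by
      rw [hX]
      exact Finset.filter_subset _ _
    have hM2 := markov A (fun x => if x ∈ P ω then ((X x).card : ℝ) else 0) (δ / 2 * c1) ((L : ℝ) ^ n)
      (by positivity)
      (fun x _ => by
        show (if x ∈ P ω then ((X x).card : ℝ) else 0) ≤ (L : ℝ) ^ n
        split_ifs
        · rw [← hBc]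
          exact_mod_cast Finset.card_le_card (hXB x)
        · positivity)
      (by
        have h1 : ∀ x ∈ A, (if x ∈ P ω then ((X x).card : ℝ) else 0) =
            ∑ u ∈ B, (if x ∈ P ω ∧ ∀ a, (Fin.cons (α := fun _ => ℕ) (x a) u) ∈ E then (1 : ℝ) else 0) := by
          intro x _
          by_cases hx : x ∈ P ω
          · simp only [hx, true_and, if_true, hX]
            rw [Finset.sum_boole]
          · simp only [hx, false_and, if_false, Finset.sum_const_zero]
        have h2 : ∀ u ∈ G, c1 * (L : ℝ) ^ Fintype.card ι ≤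
            ∑ x ∈ A, (if x ∈ P ω ∧ ∀ a, (Fin.cons (α := fun _ => ℕ) (x a) u) ∈ E then (1 : ℝ) else 0) := by
          intro u hu
          rw [hG] at hu
          obtain ⟨_, hu2⟩ := Finset.mem_filter.1 hu
          refine le_trans (hP' (S u) (hSsub u) hu2) ?_
          rw [Finset.sum_boole]
          have h3 : ((Fintype.piFinset (fun _ : ι => S u)).filter (fun x => x ∈ P ω)) ⊆
              A.filter (fun x => x ∈ P ω ∧ ∀ a, (Fin.cons (α := fun _ => ℕ) (x a) u) ∈ E) := by
            intro x hx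
            obtain ⟨hx1, hx2⟩ := Finset.mem_filter.1 hx
            have hx3 := Fintype.mem_piFinset.1 hx1
            refine Finset.mem_filter.2 ⟨?_, hx2, fun a => ?_⟩
            · rw [hA]
              exact Fintype.mem_piFinset.2 (fun a => hSsub u (hx3 a))
            · have h4 := hx3 a
              rw [hS] at h4
              exact (Finset.mem_filter.1 h4).2
          exact_mod_cast Finset.card_le_card h3
        rw [Finset.sum_congr rfl h1, Finset.sum_comm]
        have h5 : ∑ u ∈ G, c1 * (L : ℝ) ^ Fintype.card ι ≤ ∑ u ∈ G, ∑ x ∈ A,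
            (if x ∈ P ω ∧ ∀ a, (Fin.cons (α := fun _ => ℕ) (x a) u) ∈ E then (1 : ℝ) else 0) :=
          Finset.sum_le_sum h2
        have h6 : ∑ u ∈ G, ∑ x ∈ A,
            (if x ∈ P ω ∧ ∀ a, (Fin.cons (α := fun _ => ℕ) (x a) u) ∈ E then (1 : ℝ) else 0) ≤ ∑ u ∈ B, ∑ x ∈ A,
            (if x ∈ P ω ∧ ∀ a, (Fin.cons (α := fun _ => ℕ) (x a) u) ∈ E then (1 : ℝ) else 0) := by
          refine Finset.sum_le_sum_of_subset_of_nonneg ?_ (fun u _ _ => Finset.sum_nonneg (fun x _ => ?_))
          · rw [hG]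
            exact Finset.filter_subset _ _
          · split_ifs
            · exact zero_le_one
            · exact le_refl _
        refine le_trans ?_ (le_trans h5 h6)
        rw [Finset.sum_const, nsmul_eq_mul, hAc]
        have h7 : δ / 2 * (L : ℝ) ^ n * (c1 * (L : ℝ) ^ Fintype.card ι) ≤ G.card * (c1 * (L : ℝ) ^ Fintype.card ι) :=
          mul_le_mul_of_nonneg_right hGc (by positivity)
        refine le_trans (le_of_eq ?_) h7
        ring) hs.le
    obtain ⟨W, hW⟩ : ∃ W, W = A.filter (fun x => δ / 2 * c1 / 2 * (L : ℝ) ^ n ≤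
      (if x ∈ P ω then ((X x).card : ℝ) else 0)) := ⟨_, rfl⟩
    rw [← hW, hAc] at hM2
    have hWc : δ / 2 * c1 / 2 * (L : ℝ) ^ Fintype.card ι ≤ (W.card : ℝ) :=
      le_of_mul_le_mul_right hM2 (by positivity)
    have hWP : ∀ x ∈ W, x ∈ P ω ∧ δ / 2 * c1 / 2 * (L : ℝ) ^ n ≤ ((X x).card : ℝ) := by
      intro x hx
      rw [hW] at hx
      have hx2 := (Finset.mem_filter.1 hx).2
      by_cases hxP : x ∈ P ω
      · rw [if_pos hxP] at hx2
        exact ⟨hxP, hx2⟩
      · rw [if_neg hxP] at hx2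
        exfalso
        have : 0 < δ / 2 * c1 / 2 * (L : ℝ) ^ n := by positivity
        linarith
    obtain ⟨Z, hZ⟩ : ∃ Z : (ι → ℕ) → Finset (Fin n → ι → ℕ), Z = fun x => ((Fintype.piFinset (fun _ : Fin n =>
        Fintype.piFinset (fun _ : ι => range L))).filter
            (fun Y => (∀ i, Y i ∈ P ω) ∧ ∀ u : Fin n → ℕ, (∀ i, ∃ a, Y i a = u i) → u ∈ X x)) := ⟨_, rfl⟩
    have hZc : ∀ x ∈ W, c2 * (L : ℝ) ^ (n * Fintype.card ι) ≤ ((Z x).card : ℝ) := by
      intro x hx
      have h1 := hI' (X x) (by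
        have := hXB x
        rw [hB] at this
        exact this) (hWP x hx).2
      rw [hZ]
      exact h1
    have hcard : ((W.sigma Z).card : ℝ) ≤ (((Fintype.piFinset (fun _ : Fin (n + 1) =>
        Fintype.piFinset (fun _ : ι => range L))).filter
            (fun Y => (∀ i, Y i ∈ P ω) ∧ ∀ u : Fin (n + 1) → ℕ, (∀ i, ∃ a, Y i a = u i) → u ∈ E)).card : ℝ) := by
      have h1 : (W.sigma Z).card ≤ ((Fintype.piFinset (fun _ : Fin (n + 1) =>
        Fintype.piFinset (fun _ : ι => range L))).filter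
            (fun Y => (∀ i, Y i ∈ P ω) ∧ ∀ u : Fin (n + 1) → ℕ, (∀ i, ∃ a, Y i a = u i) → u ∈ E)).card := by
        have hJ0 : ∀ q : (Σ _ : ι → ℕ, Fin n → ι → ℕ),
            (fun q : (Σ _ : ι → ℕ, Fin n → ι → ℕ) =>
              (Fin.cons (α := fun _ => ι → ℕ) q.1 q.2 : Fin (n + 1) → ι → ℕ)) q 0 = q.1 := fun q => rfl
        have hJ1 : ∀ (q : (Σ _ : ι → ℕ, Fin n → ι → ℕ)) (j : Fin n),
            (fun q : (Σ _ : ι → ℕ, Fin n → ι → ℕ) =>
              (Fin.cons (α := fun _ => ι → ℕ) q.1 q.2 : Fin (n + 1) → ι → ℕ)) q j.succ = q.2 j := fun q j => rfl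
        refine Finset.card_le_card_of_injOn
          (fun q : (Σ _ : ι → ℕ, Fin n → ι → ℕ) => (Fin.cons (α := fun _ => ι → ℕ) q.1 q.2 : Fin (n + 1) → ι → ℕ))
          ?_ ?_
        · intro q hq
          obtain ⟨hq1, hq2⟩ := Finset.mem_sigma.1 (Finset.mem_coe.1 hq)
          rw [hZ] at hq2
          obtain ⟨hq3, hq4, hq5⟩ := Finset.mem_filter.1 hq2
          have hq6 := Fintype.mem_piFinset.1 hq3
          have hqA : q.1 ∈ A := by
            rw [hW] at hq1
            exact (Finset.mem_filter.1 hq1).1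
          refine Finset.mem_coe.2 (Finset.mem_filter.2 ⟨Fintype.mem_piFinset.2 (fun i => ?_), fun i => ?_, fun u hu => ?_⟩)
          · refine Fin.cases ?_ (fun j => ?_) i
            · rw [hJ0, ← hA]
              exact hqA
            · rw [hJ1]
              exact hq6 j
          · refine Fin.cases ?_ (fun j => ?_) i
            · rw [hJ0]
              exact (hWP q.1 hq1).1
            · rw [hJ1]
              exact hq4 j
          · obtain ⟨a, ha⟩ := hu 0
            rw [hJ0] at ha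
            have h2 := hq5 (Fin.tail (α := fun _ => ℕ) u) (fun i => by
              obtain ⟨b, hb⟩ := hu i.succ
              rw [hJ1] at hb
              exact ⟨b, hb⟩)
            rw [hX] at h2
            have h3 := (Finset.mem_filter.1 h2).2 a
            rw [ha, Fin.cons_self_tail] at h3
            exact h3
        · intro q _ q' _ hqq
          obtain ⟨q1, q2⟩ := q
          obtain ⟨q1', q2'⟩ := q'
          have h2 : q1 = q1' ∧ q2 = q2' := by
            have h3 : (Fin.cons (α := fun _ => ι → ℕ) q1 q2 : Fin (n + 1) → ι → ℕ) =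
              Fin.cons (α := fun _ => ι → ℕ) q1' q2' := hqq
            exact Fin.cons_injective2 h3
          obtain ⟨h4, h5⟩ := h2
          subst h4
          subst h5
          rfl
      exact_mod_cast h1
    refine le_trans ?_ hcard
    rw [Finset.card_sigma, Nat.cast_sum]
    have hfin : ∑ x ∈ W, c2 * (L : ℝ) ^ (n * Fintype.card ι) ≤ ∑ x ∈ W, ((Z x).card : ℝ) := Finset.sum_le_sum hZc
    refine le_trans ?_ hfin
    rw [Finset.sum_const, nsmul_eq_mul]
    have h8 : δ / 2 * c1 / 2 * (L : ℝ) ^ Fintype.card ι * (c2 * (L : ℝ) ^ (n * Fintype.card ι)) ≤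
        W.card * (c2 * (L : ℝ) ^ (n * Fintype.card ι)) := mul_le_mul_of_nonneg_right hWc (by positivity)
    refine le_trans ?_ h8
    have h9 : δ / 2 * c1 / 2 * (L : ℝ) ^ Fintype.card ι * (c2 * (L : ℝ) ^ (n * Fintype.card ι)) =
        δ / 2 * c1 / 2 * c2 * (L : ℝ) ^ ((n + 1) * Fintype.card ι) := by
      rw [Nat.add_mul, one_mul, pow_add]
      ring
    rw [h9]
    exact mul_le_mul_of_nonneg_right hcm' (by positivity)

end Pool.Agent.H62.EX
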