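import Pool.Agent.H62.EX.Uc

/-!
# [H62 EX REG] Arithmetic regularity (linear structure) with a growth function, on a cyclic group

Proof.  `e γ x = ZMod.stdAddChar (γ * x)`.  For a finite set `Γ` of frequencies and `ρ > 0` let `B(Γ, ρ) = {x | ∀ γ ∈ Γ, ‖e γ x - 1‖ ≤ ρ}`
(`bo`); `|B(Γ, ρ)| ≥ N / (2 M + 1) ^ (2 |Γ|)`, `M ≥ 2 / ρ` (pigeonhole, `bo_card`).  `u = f * w` (`cv`), `u t = (1/|B|) ∑_{x ∈ B} f (t - x)`:
then `0 ≤ u ≤ 1`, `Ev u = Ev f`, `Ft u γ = Ft f γ * ww γ`, `|ww| ≤ 1`, `‖1 - ww γ‖ ≤ ρ` for `γ ∈ Γ`, `∑ |ww γ|^2 = N / |B|`.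
Thresholds `tt 0 = 1 ≥ tt 1 ≥ ...` (depend on `κ, g` only), `Γ_i = {γ : ‖Ft f γ‖ ≥ tt i}`.
Pigeonhole: for some `i < ⌈16/κ⌉ + 1`, `∑_{γ ∈ Γ_(i+1) \ Γ_i} ‖Ft f γ‖^2 ≤ κ / 16` (the total is `≤ 1`).
-/

set_option autoImplicit false

namespace Pool.Agent.H62.EX

open Finset

section

variable {N : ℕ} [NeZero N]

private theorem nchi (x : ZMod N) : ‖(ZMod.stdAddChar x : ℂ)‖ = 1 := AddChar.norm_apply _ _

private theorem nchi2 (x : ZMod N) : ‖(ZMod.stdAddChar x : ℂ) - 1‖ ≤ 2 := by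
  calc ‖(ZMod.stdAddChar x : ℂ) - 1‖ ≤ ‖(ZMod.stdAddChar x : ℂ)‖ + ‖(1 : ℂ)‖ := norm_sub_le _ _
    _ = 2 := by rw [nchi, norm_one]; norm_num

private theorem nchi_neg (x : ZMod N) : ‖1 - (ZMod.stdAddChar (-x) : ℂ)‖ = ‖(ZMod.stdAddChar x : ℂ) - 1‖ := by
  have h : (ZMod.stdAddChar x : ℂ) * ZMod.stdAddChar (-x) = 1 := by
    rw [← AddChar.map_add_eq_mul, add_neg_cancel, AddChar.map_zero_eq_one]
  have e : (ZMod.stdAddChar x : ℂ) - 1 = ZMod.stdAddChar x * (1 - ZMod.stdAddChar (-x)) := by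
    rw [mul_sub, h, mul_one]
  rw [e, norm_mul, nchi, one_mul]

open Classical in
/-- Bohr sets -/
private noncomputable def bo (Γ : Finset (ZMod N)) (ρ : ℝ) : Finset (ZMod N) :=
  univ.filter (fun x => ∀ γ ∈ Γ, ‖(ZMod.stdAddChar (γ * x) : ℂ) - 1‖ ≤ ρ)

private theorem mem_bo {Γ : Finset (ZMod N)} {ρ : ℝ} {x : ZMod N} :
    x ∈ bo Γ ρ ↔ ∀ γ ∈ Γ, ‖(ZMod.stdAddChar (γ * x) : ℂ) - 1‖ ≤ ρ := by
  classical
  rw [bo, mem_filter]
  simp

private theorem bo_pos (Γ : Finset (ZMod N)) {ρ : ℝ} (hρ : 0 ≤ ρ) : 0 < (bo Γ ρ).card := by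
  apply card_pos.2
  refine ⟨0, mem_bo.2 fun γ _ => ?_⟩
  rw [mul_zero, AddChar.map_zero_eq_one, sub_self, norm_zero]
  exact hρ

private theorem bo_card (Γ : Finset (ZMod N)) {ρ : ℝ} {M : ℕ} (hM : 2 ≤ ρ * M) (hM1 : 1 ≤ M) :
    N ≤ (bo Γ ρ).card * ((2 * M + 1) ^ 2) ^ Γ.card := by
  classical
  have hM0 : (0 : ℝ) < M := by exact_mod_cast hM1
  let φ : ZMod N → (Γ → ℤ × ℤ) := fun x γ =>
    (⌊(M : ℝ) * (ZMod.stdAddChar ((γ : ZMod N) * x) : ℂ).re⌋, ⌊(M : ℝ) * (ZMod.stdAddChar ((γ : ZMod N) * x) : ℂ).im⌋)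
  let t : Finset (Γ → ℤ × ℤ) := Fintype.piFinset (fun _ => Icc (-(M : ℤ)) M ×ˢ Icc (-(M : ℤ)) M)
  have hfl : ∀ r : ℝ, |r| ≤ 1 → ⌊(M : ℝ) * r⌋ ∈ Icc (-(M : ℤ)) M := by
    intro r hr
    rw [abs_le] at hr
    rw [mem_Icc]
    constructor
    · rw [Int.le_floor]
      push_cast
      nlinarith [hr.1]
    · have h1 := Int.floor_le ((M : ℝ) * r)
      have h2 : (M : ℝ) * r ≤ M := by nlinarith [hr.2]
      have h3 : ((⌊(M : ℝ) * r⌋ : ℤ) : ℝ) ≤ ((M : ℤ) : ℝ) := by push_cast; linarith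
      exact_mod_cast h3
  have h1 : ∀ x ∈ (univ : Finset (ZMod N)), φ x ∈ t := by
    intro x _
    rw [Fintype.mem_piFinset]
    intro γ
    have hr := Complex.abs_re_le_norm (ZMod.stdAddChar ((γ : ZMod N) * x) : ℂ)
    have hi := Complex.abs_im_le_norm (ZMod.stdAddChar ((γ : ZMod N) * x) : ℂ)
    rw [nchi] at hr hi
    rw [mem_product]
    exact ⟨hfl _ hr, hfl _ hi⟩
  have h2 : ∀ b ∈ t, ((univ : Finset (ZMod N)).filter (fun x => φ x = b)).card ≤ (bo Γ ρ).card := by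
    intro b _
    rcases ((univ : Finset (ZMod N)).filter (fun x => φ x = b)).eq_empty_or_nonempty with h | ⟨y, hy⟩
    · rw [h]; simp
    · rw [mem_filter] at hy
      apply card_le_card_of_injOn (fun x => x - y)
      · intro x hx
        rw [mem_coe, mem_filter] at hx
        rw [mem_coe, mem_bo]
        intro γ hγ
        have e1 : φ x ⟨γ, hγ⟩ = φ y ⟨γ, hγ⟩ := by rw [hx.2, hy.2]
        have e2 := Prod.mk.inj e1
        have a1 := Int.abs_sub_lt_one_of_floor_eq_floor e2.1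
        have a2 := Int.abs_sub_lt_one_of_floor_eq_floor e2.2
        simp only at a1 a2
        rw [← mul_sub, abs_mul, abs_of_pos hM0, ← Complex.sub_re] at a1
        rw [← mul_sub, abs_mul, abs_of_pos hM0, ← Complex.sub_im] at a2
        have h3 : (ZMod.stdAddChar (γ * (x - y)) : ℂ) - 1 =
            (ZMod.stdAddChar (γ * x) - ZMod.stdAddChar (γ * y)) * ZMod.stdAddChar (-(γ * y)) := by
          rw [sub_mul, ← AddChar.map_add_eq_mul, ← AddChar.map_add_eq_mul, add_neg_cancel, AddChar.map_zero_eq_one,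
            ← sub_eq_add_neg, ← mul_sub]
        rw [h3, norm_mul, nchi, mul_one]
        have h4 := Complex.norm_le_abs_re_add_abs_im
          ((ZMod.stdAddChar (γ * x) : ℂ) - ZMod.stdAddChar (γ * y))
        have h5 : (M : ℝ) * ‖(ZMod.stdAddChar (γ * x) : ℂ) - ZMod.stdAddChar (γ * y)‖ ≤ M * ρ := by nlinarith
        exact le_of_mul_le_mul_left h5 hM0
      · intro x _ x' _ h
        exact sub_left_injective h
  have h3 := card_le_mul_card_image_of_maps_to h1 _ h2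
  rw [card_univ, ZMod.card] at h3
  have h4 : t.card = ((2 * M + 1) ^ 2) ^ Γ.card := by
    have h5 : (Icc (-(M : ℤ)) M).card = 2 * M + 1 := by
      rw [Int.card_Icc]
      omega
    simp only [t, Fintype.card_piFinset, card_product, h5, prod_const, card_univ, Fintype.card_coe]
    rw [sq]
  rw [h4] at h3
  exact h3

/-- Fourier coefficients of the uniform measure on `B` -/
private noncomputable def ww (B : Finset (ZMod N)) (γ : ZMod N) : ℂ := (∑ x ∈ B, ZMod.stdAddChar (-(γ * x))) / B.card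

/-- averages over translates of `B` -/
private noncomputable def cv (f : ZMod N → ℝ) (B : Finset (ZMod N)) (t : ZMod N) : ℝ := (∑ x ∈ B, f (t - x)) / B.card

private theorem nz : (N : ℂ) ≠ 0 := Nat.cast_ne_zero.2 (NeZero.ne N)

private theorem nzr : (0 : ℝ) < N := Nat.cast_pos.2 (Nat.pos_of_ne_zero (NeZero.ne N))

private theorem sum_shift (f : ZMod N → ℂ) (γ x : ZMod N) :
    ∑ t, f (t - x) * ZMod.stdAddChar (-(γ * t)) = ZMod.stdAddChar (-(γ * x)) * ∑ t, f t * ZMod.stdAddChar (-(γ * t)) := by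
  rw [mul_sum]
  rw [← (Equiv.subRight x).sum_comp (fun t => ZMod.stdAddChar (-(γ * x)) * (f t * ZMod.stdAddChar (-(γ * t))))]
  refine sum_congr rfl fun t _ => ?_
  simp only [Equiv.subRight_apply]
  have : (ZMod.stdAddChar (-(γ * t)) : ℂ) = ZMod.stdAddChar (-(γ * x)) * ZMod.stdAddChar (-(γ * (t - x))) := by
    rw [← AddChar.map_add_eq_mul]
    congr 1
    ring
  rw [this]
  ring

private theorem ft_cv (f : ZMod N → ℝ) (B : Finset (ZMod N)) (γ : ZMod N) : Ft (cv f B) γ = Ft f γ * ww B γ := by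
  unfold Ft cv ww
  have h : ∀ t : ZMod N, (((∑ x ∈ B, f (t - x)) / B.card : ℝ) : ℂ) * ZMod.stdAddChar (-(γ * t)) =
      (∑ x ∈ B, (f (t - x) : ℂ) * ZMod.stdAddChar (-(γ * t))) / B.card := by
    intro t
    push_cast
    rw [div_mul_eq_mul_div, sum_mul]
  rw [sum_congr rfl (fun t _ => h t), ← sum_div, sum_comm]
  rw [sum_congr rfl (fun x _ => sum_shift (fun t => (f t : ℂ)) γ x), ← sum_mul]
  ring

private theorem ww_le (B : Finset (ZMod N)) (γ : ZMod N) : ‖ww B γ‖ ≤ 1 := by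
  unfold ww
  rw [norm_div, Complex.norm_natCast]
  apply div_le_one_of_le₀ _ (Nat.cast_nonneg _)
  calc ‖∑ x ∈ B, (ZMod.stdAddChar (-(γ * x)) : ℂ)‖ ≤ ∑ x ∈ B, ‖(ZMod.stdAddChar (-(γ * x)) : ℂ)‖ := norm_sum_le _ _
    _ = B.card := by rw [sum_congr rfl (fun x _ => nchi _), sum_const, nsmul_eq_mul, mul_one]

private theorem ww_near {Γ : Finset (ZMod N)} {ρ : ℝ} (hρ : 0 ≤ ρ) {γ : ZMod N} (hγ : γ ∈ Γ) :
    ‖1 - ww (bo Γ ρ) γ‖ ≤ ρ := by
  have hc : (0 : ℝ) < (bo Γ ρ).card := by exact_mod_cast bo_pos Γ hρ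
  have hc2 : ((bo Γ ρ).card : ℂ) ≠ 0 := by exact_mod_cast hc.ne'
  have e : 1 - ww (bo Γ ρ) γ = (∑ x ∈ bo Γ ρ, (1 - ZMod.stdAddChar (-(γ * x)))) / (bo Γ ρ).card := by
    unfold ww
    rw [sum_sub_distrib, sum_const, nsmul_eq_mul, mul_one, sub_div, div_self hc2]
  rw [e, norm_div, Complex.norm_natCast, div_le_iff₀ hc]
  calc ‖∑ x ∈ bo Γ ρ, (1 - (ZMod.stdAddChar (-(γ * x)) : ℂ))‖
      ≤ ∑ x ∈ bo Γ ρ, ‖1 - (ZMod.stdAddChar (-(γ * x)) : ℂ)‖ := norm_sum_le _ _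
    _ ≤ ∑ _x ∈ bo Γ ρ, ρ := by
        refine sum_le_sum fun x hx => ?_
        rw [nchi_neg]
        exact mem_bo.1 hx γ hγ
    _ = ρ * (bo Γ ρ).card := by rw [sum_const, nsmul_eq_mul, mul_comm]

private theorem sum_ww (B : Finset (ZMod N)) (hB : 0 < B.card) : ∑ γ, ‖ww B γ‖ ^ 2 = N / B.card := by
  classical
  have hBr : (0 : ℝ) < B.card := by exact_mod_cast hB
  have hBc : (B.card : ℂ) ≠ 0 := by exact_mod_cast hBr.ne'
  have hN : (0 : ℝ) < N := nzr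
  have h := parseval (fun t : ZMod N => if t ∈ B then (1 : ℝ) else 0)
  have e1 : ∀ γ : ZMod N, Ft (fun t : ZMod N => if t ∈ B then (1 : ℝ) else 0) γ = ((B.card : ℂ) / N) * ww B γ := by
    intro γ
    unfold Ft ww
    have : ∀ t : ZMod N, ((if t ∈ B then (1 : ℝ) else 0 : ℝ) : ℂ) * ZMod.stdAddChar (-(γ * t)) =
        if t ∈ B then (ZMod.stdAddChar (-(γ * t)) : ℂ) else 0 := by
      intro t
      split_ifs <;> simp
    rw [sum_congr rfl (fun t _ => this t), sum_ite_mem, univ_inter]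
    field_simp
  have e2 : Ev (fun t : ZMod N => (if t ∈ B then (1 : ℝ) else 0) ^ 2) = B.card / N := by
    unfold Ev
    have : ∀ t : ZMod N, (if t ∈ B then (1 : ℝ) else 0) ^ 2 = if t ∈ B then (1 : ℝ) else 0 := by
      intro t
      split_ifs <;> simp
    rw [sum_congr rfl (fun t _ => this t), sum_ite_mem, univ_inter, sum_const, nsmul_eq_mul, mul_one]
  rw [e2] at h
  have e3 : ∀ γ : ZMod N, ‖Ft (fun t : ZMod N => if t ∈ B then (1 : ℝ) else 0) γ‖ ^ 2 = ((B.card : ℝ) / N) ^ 2 * ‖ww B γ‖ ^ 2 := by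
    intro γ
    rw [e1, norm_mul, mul_pow, norm_div, Complex.norm_natCast, Complex.norm_natCast]
  rw [sum_congr rfl (fun γ _ => e3 γ), ← mul_sum] at h
  have h2 : ((B.card : ℝ) / N) ^ 2 * ∑ γ, ‖ww B γ‖ ^ 2 = ((B.card : ℝ) / N) ^ 2 * (N / B.card) := by
    rw [h]
    field_simp
  exact mul_left_cancel₀ (by positivity) h2

private theorem ft_shift (u : ZMod N → ℝ) (c γ : ZMod N) :
    Ft (fun t => u (t + c) - u t) γ = (ZMod.stdAddChar (γ * c) - 1) * Ft u γ := by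
  unfold Ft
  have h : ∀ t : ZMod N, ((u (t + c) - u t : ℝ) : ℂ) * ZMod.stdAddChar (-(γ * t)) =
      (u (t - (-c)) : ℂ) * ZMod.stdAddChar (-(γ * t)) - (u t : ℂ) * ZMod.stdAddChar (-(γ * t)) := by
    intro t
    rw [sub_neg_eq_add]
    push_cast
    ring
  rw [sum_congr rfl (fun t _ => h t), sum_sub_distrib, sum_shift (fun t => (u t : ℂ)) γ (-c)]
  have e : -(γ * -c) = γ * c := by ring
  rw [e]
  ring

private theorem ev_cv (f : ZMod N → ℝ) (B : Finset (ZMod N)) (hB : 0 < B.card) : Ev (cv f B) = Ev f := by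
  have hBr : (0 : ℝ) < B.card := by exact_mod_cast hB
  unfold Ev cv
  rw [← sum_div, sum_comm]
  have : ∀ x ∈ B, ∑ t, f (t - x) = ∑ t, f t := fun x _ => (Equiv.subRight x).sum_comp f
  rw [sum_congr rfl this, sum_const, nsmul_eq_mul]
  field_simp

omit [NeZero N] in
private theorem cv_mem {f : ZMod N → ℝ} (hf : ∀ t, 0 ≤ f t ∧ f t ≤ 1) (B : Finset (ZMod N)) (t : ZMod N) :
    0 ≤ cv f B t ∧ cv f B t ≤ 1 := by
  unfold cv
  constructor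
  · exact div_nonneg (sum_nonneg fun x _ => (hf _).1) (Nat.cast_nonneg _)
  · apply div_le_one_of_le₀ _ (Nat.cast_nonneg _)
    calc ∑ x ∈ B, f (t - x) ≤ ∑ _x ∈ B, (1 : ℝ) := sum_le_sum fun x _ => (hf _).2
      _ = B.card := by rw [sum_const, nsmul_eq_mul, mul_one]

private theorem par_le {f : ZMod N → ℝ} (hf : ∀ t, 0 ≤ f t ∧ f t ≤ 1) : ∑ γ, ‖Ft f γ‖ ^ 2 ≤ 1 := by
  rw [parseval]
  unfold Ev
  have hN : (0 : ℝ) < N := nzr
  rw [div_le_one hN]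
  calc ∑ t, f t ^ 2 ≤ ∑ _t : ZMod N, (1 : ℝ) := by
        refine sum_le_sum fun t _ => ?_
        have := hf t
        nlinarith [this.1, this.2]
    _ = N := by rw [sum_const, card_univ, ZMod.card, nsmul_eq_mul, mul_one]

private theorem ft_sub (f u : ZMod N → ℝ) (γ : ZMod N) : Ft (fun t => f t - u t) γ = Ft f γ - Ft u γ := by
  unfold Ft
  rw [← sub_div, ← sum_sub_distrib]
  congr 1
  refine sum_congr rfl fun t _ => ?_
  push_cast
  ring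

open Classical in
/-- large spectrum -/
private noncomputable def sp (f : ZMod N → ℝ) (τ : ℝ) : Finset (ZMod N) := univ.filter (fun γ => τ ≤ ‖Ft f γ‖)

private theorem mem_sp {f : ZMod N → ℝ} {τ : ℝ} {γ : ZMod N} : γ ∈ sp f τ ↔ τ ≤ ‖Ft f γ‖ := by
  classical
  rw [sp, mem_filter]
  simp

private theorem sp_card {f : ZMod N → ℝ} (hf : ∀ t, 0 ≤ f t ∧ f t ≤ 1) {τ : ℝ} (hτ : 0 < τ) :
    (sp f τ).card ≤ ⌈1 / τ ^ 2⌉₊ := by
  have h1 : ((sp f τ).card : ℝ) * τ ^ 2 ≤ 1 := by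
    calc ((sp f τ).card : ℝ) * τ ^ 2 = ∑ _γ ∈ sp f τ, τ ^ 2 := by rw [sum_const, nsmul_eq_mul]
      _ ≤ ∑ γ ∈ sp f τ, ‖Ft f γ‖ ^ 2 := by
          refine sum_le_sum fun γ hγ => ?_
          exact pow_le_pow_left₀ hτ.le (mem_sp.1 hγ) 2
      _ ≤ ∑ γ, ‖Ft f γ‖ ^ 2 := sum_le_sum_of_subset_of_nonneg (subset_univ _) (fun _ _ _ => by positivity)
      _ ≤ 1 := par_le hf
  have h2 : ((sp f τ).card : ℝ) ≤ 1 / τ ^ 2 := by
    rw [le_div_iff₀ (by positivity)]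
    exact h1
  have h3 := h2.trans (Nat.le_ceil _)
  exact_mod_cast h3

end

private noncomputable def qq (κ τ : ℝ) : ℕ := ⌈1 / τ ^ 2⌉₊ + ⌈2 / κ⌉₊ + 1

private noncomputable def ta (κ : ℝ) (g : ℕ → ℝ) (τ : ℝ) : ℝ := min τ (g (qq κ τ) / 2)

private noncomputable def mm (κ : ℝ) (g : ℕ → ℝ) (τ : ℝ) : ℕ := ⌈2 / g (qq κ τ)⌉₊ + 1

private noncomputable def kk (κ : ℝ) (g : ℕ → ℝ) (τ : ℝ) : ℕ := ((2 * mm κ g τ + 1) ^ 2) ^ ⌈1 / (ta κ g τ) ^ 2⌉₊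

private noncomputable def tb (κ : ℝ) (g : ℕ → ℝ) (τ : ℝ) : ℝ := min (ta κ g τ) (√(κ / (16 * kk κ g τ)))

private noncomputable def tt (κ : ℝ) (g : ℕ → ℝ) : ℕ → ℝ
  | 0 => 1
  | i + 1 => tb κ g (tt κ g i)

private theorem ta_pos {κ : ℝ} {g : ℕ → ℝ} (hg : ∀ q, 0 < g q) {τ : ℝ} (hτ : 0 < τ) : 0 < ta κ g τ :=
  lt_min hτ (by have := hg (qq κ τ); linarith)

private theorem kk_pos (κ : ℝ) (g : ℕ → ℝ) (τ : ℝ) : 0 < kk κ g τ := by
  unfold kk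
  positivity

private theorem tb_pos {κ : ℝ} (hκ : 0 < κ) {g : ℕ → ℝ} (hg : ∀ q, 0 < g q) {τ : ℝ} (hτ : 0 < τ) : 0 < tb κ g τ := by
  have h : (0 : ℝ) < kk κ g τ := by exact_mod_cast kk_pos κ g τ
  exact lt_min (ta_pos hg hτ) (Real.sqrt_pos.2 (by positivity))

private theorem tt_pos {κ : ℝ} (hκ : 0 < κ) {g : ℕ → ℝ} (hg : ∀ q, 0 < g q) (i : ℕ) : 0 < tt κ g i := by
  induction i with
  | zero => rw [tt]; norm_num
  | succ i ih => rw [tt]; exact tb_pos hκ hg ih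

theorem reg (κ : ℝ) (hκ : 0 < κ) (g : ℕ → ℝ) (hg : ∀ q, 0 < g q) : ∃ Q : ℕ, ∀ (N : ℕ) [NeZero N],
    ∀ f : ZMod N → ℝ, (∀ t, 0 ≤ f t ∧ f t ≤ 1) → ∃ q : ℕ, 1 ≤ q ∧ q ≤ Q ∧
      ∃ (γ : Fin q → ZMod N) (u : ZMod N → ℝ), (∀ t, 0 ≤ u t ∧ u t ≤ 1) ∧ Ev u = Ev f ∧
        (∀ γ', ‖Ft (fun t => f t - u t) γ'‖ ≤ g q) ∧
        ∀ c : ZMod N, (∀ i, ‖ZMod.stdAddChar (γ i * c) - 1‖ * q ≤ 1) →
          Ev (fun t => (u (t + c) - u t) ^ 2) ≤ κ := by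
  classical
  set I := ⌈16 / κ⌉₊ + 1 with hI
  refine ⟨(range I).sup (fun i => qq κ (tt κ g i)), ?_⟩
  intro N _ f hf
  -- energy pigeonhole
  have hen : ∃ i ∈ range I, ∑ γ ∈ sp f (tt κ g (i + 1)) \ sp f (tt κ g i), ‖Ft f γ‖ ^ 2 ≤ κ / 16 := by
    by_contra hcon
    push Not at hcon
    have hsub : ∀ i, sp f (tt κ g i) ⊆ sp f (tt κ g (i + 1)) := by
      intro i γ hγ
      rw [mem_sp] at hγ ⊢
      have : tt κ g (i + 1) ≤ tt κ g i := by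
        rw [tt]
        exact (min_le_left _ _).trans (min_le_left _ _)
      linarith
    have hd : ∀ i, ∑ γ ∈ sp f (tt κ g (i + 1)) \ sp f (tt κ g i), ‖Ft f γ‖ ^ 2 =
        ∑ γ ∈ sp f (tt κ g (i + 1)), ‖Ft f γ‖ ^ 2 - ∑ γ ∈ sp f (tt κ g i), ‖Ft f γ‖ ^ 2 := by
      intro i
      rw [← sum_sdiff (hsub i)]
      ring
    have h1 : ∑ i ∈ range I, (κ / 16) ≤ ∑ i ∈ range I, (∑ γ ∈ sp f (tt κ g (i + 1)), ‖Ft f γ‖ ^ 2 -
        ∑ γ ∈ sp f (tt κ g i), ‖Ft f γ‖ ^ 2) := by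
      refine sum_le_sum fun i hi => ?_
      rw [← hd]
      exact (hcon i hi).le
    rw [sum_range_sub (fun i => ∑ γ ∈ sp f (tt κ g i), ‖Ft f γ‖ ^ 2), sum_const, card_range, nsmul_eq_mul] at h1
    have h2 : ∑ γ ∈ sp f (tt κ g I), ‖Ft f γ‖ ^ 2 ≤ 1 :=
      (sum_le_sum_of_subset_of_nonneg (subset_univ _) (fun _ _ _ => by positivity)).trans (par_le hf)
    have h3 : 0 ≤ ∑ γ ∈ sp f (tt κ g 0), ‖Ft f γ‖ ^ 2 := sum_nonneg (fun _ _ => by positivity)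
    have h4 : 16 / κ + 1 ≤ I := by
      rw [hI]
      push_cast
      linarith [Nat.le_ceil (16 / κ)]
    have h5 : (16 / κ + 1) * (κ / 16) ≤ I * (κ / 16) := mul_le_mul_of_nonneg_right h4 (by positivity)
    have h6 : (16 / κ + 1) * (κ / 16) = 1 + κ / 16 := by field_simp
    linarith
  obtain ⟨i, hi, hsm⟩ := hen
  set τ := tt κ g i with hτdef
  have hτ : 0 < τ := tt_pos hκ hg i
  set q := qq κ τ with hq
  have hgq := hg q
  have hτa : 0 < ta κ g τ := ta_pos hg hτ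
  have hτb : 0 < tb κ g τ := tb_pos hκ hg hτ
  have hτs : tt κ g (i + 1) = tb κ g τ := by rw [tt]
  rw [hτs] at hsm
  have hq1 : 1 ≤ q := by rw [hq, qq]; omega
  have hqκ : 2 / κ ≤ q := by
    have : ((⌈2 / κ⌉₊ : ℕ) : ℝ) ≤ q := by
      have : ⌈2 / κ⌉₊ ≤ q := by rw [hq, qq]; omega
      exact_mod_cast this
    exact (Nat.le_ceil _).trans this
  have hqr : (1 : ℝ) ≤ q := by exact_mod_cast hq1
  have hcq : (sp f τ).card ≤ q := (sp_card hf hτ).trans (by rw [hq, qq]; omega)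
  -- the Bohr set
  set Γ := sp f (ta κ g τ) with hΓ
  set B := bo Γ (g q) with hB
  have hBpos : 0 < B.card := bo_pos Γ hgq.le
  have hBr : (0 : ℝ) < B.card := by exact_mod_cast hBpos
  have hN : (0 : ℝ) < N := nzr
  have hBcard : (N : ℝ) / B.card ≤ kk κ g τ := by
    have hM : 2 ≤ g q * (mm κ g τ : ℕ) := by
      have : 2 / g q ≤ (mm κ g τ : ℕ) := by
        rw [mm]
        push_cast
        linarith [Nat.le_ceil (2 / g (qq κ τ))]
      rw [div_le_iff₀ hgq] at this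
      linarith
    have h1 := bo_card Γ hM (by rw [mm]; omega)
    have h2 : ((2 * mm κ g τ + 1) ^ 2) ^ Γ.card ≤ kk κ g τ := by
      rw [kk]
      apply Nat.pow_le_pow_right (by positivity)
      exact sp_card hf hτa
    have h3 : N ≤ B.card * kk κ g τ := h1.trans (Nat.mul_le_mul_left _ h2)
    rw [div_le_iff₀ hBr]
    have h4 : (N : ℝ) ≤ B.card * kk κ g τ := by exact_mod_cast h3
    linarith
  refine ⟨q, hq1, ?_, fun j => if h : j.1 < (sp f τ).card then ((sp f τ).equivFin.symm ⟨j.1, h⟩ : ZMod N) else 0,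
    cv f B, cv_mem hf B, ev_cv f B hBpos, ?_, ?_⟩
  · exact le_sup (f := fun i => qq κ (tt κ g i)) hi
  · intro γ'
    rw [ft_sub, ft_cv]
    have e : Ft f γ' - Ft f γ' * ww B γ' = Ft f γ' * (1 - ww B γ') := by ring
    rw [e, norm_mul]
    by_cases hγ : γ' ∈ Γ
    · have h1 : ‖1 - ww B γ'‖ ≤ g q := ww_near hgq.le hγ
      have h2 : ‖Ft f γ'‖ ≤ 1 := by
        have h3 : ‖Ft f γ'‖ ^ 2 ≤ 1 := (single_le_sum (f := fun γ => ‖Ft f γ‖ ^ 2) (fun _ _ => by positivity)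
          (mem_univ γ')).trans (par_le hf)
        nlinarith [norm_nonneg (Ft f γ')]
      calc ‖Ft f γ'‖ * ‖1 - ww B γ'‖ ≤ 1 * g q := mul_le_mul h2 h1 (norm_nonneg _) (by norm_num)
        _ = g q := one_mul _
    · rw [hΓ, mem_sp, not_le] at hγ
      have h1 : ‖1 - ww B γ'‖ ≤ 2 := by
        calc ‖1 - ww B γ'‖ ≤ ‖(1 : ℂ)‖ + ‖ww B γ'‖ := norm_sub_le _ _
          _ ≤ 1 + 1 := by rw [norm_one]; linarith [ww_le B γ']
          _ = 2 := by norm_num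
      have h2 : ta κ g τ ≤ g q / 2 := min_le_right _ _
      calc ‖Ft f γ'‖ * ‖1 - ww B γ'‖ ≤ (g q / 2) * 2 := mul_le_mul (by linarith) h1 (norm_nonneg _) (by linarith)
        _ = g q := by ring
  · intro c hc
    have hc2 : ∀ γ' ∈ sp f τ, ‖(ZMod.stdAddChar (γ' * c) : ℂ) - 1‖ ≤ 1 / q := by
      intro γ' hγ'
      have h1 := hc ⟨((sp f τ).equivFin ⟨γ', hγ'⟩).1, lt_of_lt_of_le ((sp f τ).equivFin ⟨γ', hγ'⟩).2 hcq⟩
      beta_reduce at h1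
      rw [dif_pos ((sp f τ).equivFin ⟨γ', hγ'⟩).2] at h1
      simp only [Fin.eta, Equiv.symm_apply_apply] at h1
      rw [le_div_iff₀ (by linarith)]
      exact h1
    rw [← parseval]
    have hterm : ∀ γ' : ZMod N, ‖Ft (fun t => cv f B (t + c) - cv f B t) γ'‖ ^ 2 ≤
        (1 / q) ^ 2 * ‖Ft f γ'‖ ^ 2 + (if γ' ∈ sp f (tb κ g τ) \ sp f τ then 4 * ‖Ft f γ'‖ ^ 2 else 0) +
          4 * (tb κ g τ) ^ 2 * ‖ww B γ'‖ ^ 2 := by
      intro γ'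
      rw [ft_shift, ft_cv, norm_mul, norm_mul, mul_pow, mul_pow]
      have w0 := norm_nonneg (ww B γ')
      have w1 := ww_le B γ'
      have w2 : ‖ww B γ'‖ ^ 2 ≤ 1 := by nlinarith
      have f0 : 0 ≤ ‖Ft f γ'‖ ^ 2 := by positivity
      have x0 : 0 ≤ ‖(ZMod.stdAddChar (γ' * c) : ℂ) - 1‖ ^ 2 := by positivity
      have fw : ‖Ft f γ'‖ ^ 2 * ‖ww B γ'‖ ^ 2 ≤ ‖Ft f γ'‖ ^ 2 := by nlinarith
      have x4 : ‖(ZMod.stdAddChar (γ' * c) : ℂ) - 1‖ ^ 2 ≤ 4 := by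
        have := nchi2 (γ' * c)
        have := norm_nonneg ((ZMod.stdAddChar (γ' * c) : ℂ) - 1)
        nlinarith
      have p1 : 0 ≤ (1 / (q : ℝ)) ^ 2 * ‖Ft f γ'‖ ^ 2 := by positivity
      have p3 : 0 ≤ 4 * (tb κ g τ) ^ 2 * ‖ww B γ'‖ ^ 2 := by positivity
      by_cases h1 : γ' ∈ sp f τ
      · have h2 := hc2 γ' h1
        have h3 : ‖(ZMod.stdAddChar (γ' * c) : ℂ) - 1‖ ^ 2 ≤ (1 / (q : ℝ)) ^ 2 :=
          pow_le_pow_left₀ (norm_nonneg _) h2 2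
        have h4 : ‖(ZMod.stdAddChar (γ' * c) : ℂ) - 1‖ ^ 2 * (‖Ft f γ'‖ ^ 2 * ‖ww B γ'‖ ^ 2) ≤
            (1 / (q : ℝ)) ^ 2 * ‖Ft f γ'‖ ^ 2 := mul_le_mul h3 fw (by positivity) (by positivity)
        have h5 : 0 ≤ (if γ' ∈ sp f (tb κ g τ) \ sp f τ then 4 * ‖Ft f γ'‖ ^ 2 else 0) := by
          split_ifs <;> positivity
        linarith
      · by_cases h2 : γ' ∈ sp f (tb κ g τ)
        · rw [if_pos (mem_sdiff.2 ⟨h2, h1⟩)]
          have h4 : ‖(ZMod.stdAddChar (γ' * c) : ℂ) - 1‖ ^ 2 * (‖Ft f γ'‖ ^ 2 * ‖ww B γ'‖ ^ 2) ≤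
              4 * ‖Ft f γ'‖ ^ 2 := mul_le_mul x4 fw (by positivity) (by norm_num)
          linarith
        · rw [if_neg (fun h => h2 (mem_sdiff.1 h).1)]
          rw [mem_sp, not_le] at h2
          have h3 : ‖Ft f γ'‖ ^ 2 ≤ (tb κ g τ) ^ 2 := pow_le_pow_left₀ (norm_nonneg _) h2.le 2
          have h4 : ‖Ft f γ'‖ ^ 2 * ‖ww B γ'‖ ^ 2 ≤ (tb κ g τ) ^ 2 * ‖ww B γ'‖ ^ 2 :=
            mul_le_mul_of_nonneg_right h3 (by positivity)
          have h5 : ‖(ZMod.stdAddChar (γ' * c) : ℂ) - 1‖ ^ 2 * (‖Ft f γ'‖ ^ 2 * ‖ww B γ'‖ ^ 2) ≤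
              4 * ((tb κ g τ) ^ 2 * ‖ww B γ'‖ ^ 2) := mul_le_mul x4 h4 (by positivity) (by norm_num)
          linarith
    refine (sum_le_sum fun γ' _ => hterm γ').trans ?_
    rw [sum_add_distrib, sum_add_distrib, ← mul_sum, ← mul_sum, sum_ite_mem, univ_inter, ← mul_sum,
      sum_ww B hBpos]
    have a1 : (1 / (q : ℝ)) ^ 2 * ∑ γ, ‖Ft f γ‖ ^ 2 ≤ κ / 2 := by
      have b1 : (1 / (q : ℝ)) ^ 2 ≤ κ / 2 := by
        have b2 : 1 / (q : ℝ) ≤ κ / 2 := by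
          rw [div_le_iff₀ (by linarith)]
          rw [div_le_iff₀ hκ] at hqκ
          linarith
        have b3 : 1 / (q : ℝ) ≤ 1 := by
          rw [div_le_one (by linarith)]
          exact hqr
        have b4 : 0 ≤ 1 / (q : ℝ) := by positivity
        nlinarith
      calc (1 / (q : ℝ)) ^ 2 * ∑ γ, ‖Ft f γ‖ ^ 2 ≤ (κ / 2) * 1 :=
            mul_le_mul b1 (par_le hf) (sum_nonneg fun _ _ => by positivity) (by positivity)
        _ = κ / 2 := mul_one _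
    have a2 : 4 * (tb κ g τ) ^ 2 * (N / B.card) ≤ κ / 4 := by
      have hk : (0 : ℝ) < kk κ g τ := by exact_mod_cast kk_pos κ g τ
      have b1 : (tb κ g τ) ^ 2 ≤ κ / (16 * kk κ g τ) := by
        calc (tb κ g τ) ^ 2 ≤ (√(κ / (16 * kk κ g τ))) ^ 2 := pow_le_pow_left₀ hτb.le (min_le_right _ _) 2
          _ = κ / (16 * kk κ g τ) := Real.sq_sqrt (by positivity)
      calc 4 * (tb κ g τ) ^ 2 * (N / B.card) ≤ 4 * (κ / (16 * kk κ g τ)) * kk κ g τ := by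
            apply mul_le_mul (by linarith) hBcard (by positivity) (by positivity)
        _ = κ / 4 := by field_simp; norm_num
    linarith

end Pool.Agent.H62.EX
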