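import Pool.Agent.H19.EZ.Alm
import Pool.Agent.H34.EY.InfA

/-!
Let `k, r, W ≥ 1`, `s` prime to `W`, and let the natural numbers be coloured with `r` colours. For integers
`0 = a_0 < a_1 < ... < a_k` and a set `G` of gaps `(a_i, a_(i+1))` with at most one pair of adjacent gaps we count the
`n < M` such that all `p_n + a_i` are primes `≡ s (mod W)` of one colour, `p_n + a_i` and `p_n + a_(i+1)` being
consecutive primes of this colour for the gaps in `G` (`p_n` is the `n`-th prime, `p_0 = 2`).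

For some `D = D(k, r)`:

(1) For every `A`, `ε > 0` and `F : ℕ → (0, ∞)` there are `Q, B, c, d > 0` such that for all colourings and all `M`:
for every `L` with `B ≤ L ≤ (log M) ^ A` there is a Bohr box `{0 < h ≤ L / q : each h α_i is within 1 / q of an integer}`,
`q ≤ Q`, `α ∈ ℝ ^ q`, in which all except `F q * L ^ k` of the tuples `a` are good: for every `G` (`G = ∅` if
`L > c log M`) the count is, for some colour, at least `d min(1, L / log M) ^ D M / (log M) ^ k`;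
(2) and for `Z ≤ (log M) ^ A` the sum of `1 / z` over the `z ≤ Z` not as follows is at most `ε log Z + B`: for some
`m₀ ≤ Q` all except `F m₀ * z ^ k` of the tuples `a` with `a_k ≤ z` have a good multiple `m a`, `m ≤ m₀`.

(3) For each colouring and each infinite set `I` there are an infinite subset `J` and a Bohr set
`B = {h : each h α_i is within ρ of an integer}` such that almost all `a ∈ B ^ k` have, for every `G`, a colour for which
the count is at least `c M / (log M) ^ D` for all large `M ∈ J`.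
-/

set_option autoImplicit false

namespace Pool.Agent.H62.EX.ResA

open Finset

/-- `p`, `p + a_1`, .., `p + a_k` are primes of colour `q`, congruent to `s` modulo `W`; if `0 = a_0`, then for every `i ∈ G`
no number strictly between `p + a_i` and `p + a_(i+1)` is a prime of colour `q` -/
def Shows {k r : ℕ} (W s : ℕ) (χ : ℕ → Fin r) (q : Fin r) (G : Finset (Fin k)) (a : Fin k → ℕ) (p : ℕ) : Prop :=
  (∀ j, (p + (Fin.cons 0 a : Fin (k + 1) → ℕ) j).Prime ∧ χ (p + (Fin.cons 0 a : Fin (k + 1) → ℕ) j) = q ∧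
    p + (Fin.cons 0 a : Fin (k + 1) → ℕ) j ≡ s [MOD W]) ∧
  ∀ i ∈ G, ∀ y : ℕ, p + (Fin.cons 0 a : Fin (k + 1) → ℕ) i.castSucc < y →
    y < p + (Fin.cons 0 a : Fin (k + 1) → ℕ) i.succ → ¬ (y.Prime ∧ χ y = q)

/-- at most one pair of adjacent gaps -/
def OnePair {k : ℕ} (G : Finset (Fin k)) : Prop :=
  ∀ i ∈ G, ∀ i' ∈ G, ∀ l ∈ G, ∀ l' ∈ G, i.succ = i'.castSucc → l.succ = l'.castSucc → i = l

/-- the number of `n < M` such that the `n`-th prime shows the pattern -/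
noncomputable def count {k r : ℕ} (W s : ℕ) (χ : ℕ → Fin r) (q : Fin r) (G : Finset (Fin k)) (a : Fin k → ℕ) (M : ℕ) : ℕ :=
  {n : ℕ | n < M ∧ Shows W s χ q G a (Nat.nth Nat.Prime n)}.ncard

/-- for every `G` with at most one pair of adjacent gaps (only for the empty `G` if `L` exceeds `c log M`) there is a colour `q`
with at least `d min(1, L / log M) ^ D * M / (log M) ^ k` patterns below the `M`-th prime -/
def Good {k r : ℕ} (W s : ℕ) (χ : ℕ → Fin r) (D : ℕ) (c d : ℝ) (M L : ℕ) (a : Fin k → ℕ) : Prop :=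
  ∀ G : Finset (Fin k), OnePair G → (c * Real.log M < L → G = ∅) →
    ∃ q : Fin r, d * min 1 (L / Real.log M) ^ D * M ≤ Real.log M ^ k * count W s χ q G a M

private theorem good_of {k r : ℕ} {W s : ℕ} {χ : ℕ → Fin r} {D D' : ℕ} {c c' d d' : ℝ} {M L : ℕ} (hD : D ≤ D')
    (hc : c' ≤ c) (hd0 : 0 ≤ d') (hd : d' ≤ d) {a : Fin k → ℕ} (h : Pool.Agent.H62.EX.Gw W s χ D c d M L a) :
    Good W s χ D' c' d' M L a := by
  intro G hG hG2
  have hlM := Real.log_natCast_nonneg M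
  obtain ⟨q', hq'⟩ := h G hG (fun h1 => hG2 (lt_of_le_of_lt (mul_le_mul_of_nonneg_right hc hlM) h1))
  refine ⟨q', le_trans ?_ hq'⟩
  have h3 : 0 ≤ min 1 ((L : ℝ) / Real.log M) := le_min zero_le_one (div_nonneg (Nat.cast_nonneg _) hlM)
  refine mul_le_mul_of_nonneg_right ?_ (Nat.cast_nonneg _)
  calc d' * min 1 ((L : ℝ) / Real.log M) ^ D' ≤ d' * min 1 ((L : ℝ) / Real.log M) ^ D :=
        mul_le_mul_of_nonneg_left (pow_le_pow_of_le_one h3 (min_le_left _ _) hD) hd0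
    _ ≤ d * min 1 ((L : ℝ) / Real.log M) ^ D := mul_le_mul_of_nonneg_right hd (pow_nonneg h3 _)

open Classical in
theorem result : ∀ k r : ℕ, 1 ≤ k → ∃ D : ℕ, ∀ W s : ℕ, 0 < W → Nat.Coprime s W →
    (∀ (A : ℕ) (ε : ℝ) (F : ℕ → ℝ), 0 < ε → (∀ q, 0 < F q) → ∃ (Q : ℕ) (B c d : ℝ), 0 < c ∧ 0 < d ∧
      ∀ (χ : ℕ → Fin r) (M : ℕ),
        (∀ L : ℕ, B ≤ L → (L : ℝ) ≤ Real.log M ^ A → ∃ (q : ℕ) (α : Fin q → ℝ), 1 ≤ q ∧ q ≤ Q ∧
          (((Fintype.piFinset (fun _ : Fin k => Icc 1 (L / q))).filter (fun a : Fin k → ℕ => StrictMono a ∧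
            (∀ j i, ∃ n : ℤ, |(a j : ℝ) * α i - n| ≤ 1 / q) ∧ ¬ Good W s χ D c d M L a)).card : ℝ) ≤
              F q * (L : ℝ) ^ k) ∧
        ∀ Z : ℕ, (Z : ℝ) ≤ Real.log M ^ A →
          ∑ z ∈ (Icc 1 Z).filter (fun z => ¬ ∃ m₀ ≤ Q,
            (((Fintype.piFinset (fun _ : Fin k => Icc 1 z)).filter (fun a : Fin k → ℕ => StrictMono a ∧
              ¬ ∃ m : ℕ, 1 ≤ m ∧ m ≤ m₀ ∧ Good W s χ D c d M z (fun j => m * a j))).card : ℝ) ≤
                F m₀ * (z : ℝ) ^ k), (1 / (z : ℝ)) ≤ ε * Real.log Z + B) ∧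
    ∀ (χ : ℕ → Fin r) (I : Set ℕ), I.Infinite → ∃ J : Set ℕ, J ⊆ I ∧ J.Infinite ∧
      ∃ (t : ℕ) (α : Fin t → ℝ) (ρ : ℝ), 0 < ρ ∧ ∀ ε : ℝ, 0 < ε → ∃ X₀ : ℕ, ∀ (X : ℕ) (b : Fin k → ℕ), X₀ ≤ X →
        (((Fintype.piFinset (fun j : Fin k => Icc (b j + 1) (b j + X))).filter (fun a : Fin k → ℕ => StrictMono a ∧
          (∀ j i, ∃ n : ℤ, |(a j : ℝ) * α i - n| < ρ) ∧
          ¬ ∀ G : Finset (Fin k), OnePair G → ∃ (q : Fin r) (c : ℝ) (M₁ : ℕ), 0 < c ∧ ∀ M ∈ J, M₁ ≤ M →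
            c * M ≤ Real.log M ^ D * count W s χ q G a M)).card : ℝ) ≤ ε * (X : ℝ) ^ k := by
  intro k r hk
  obtain ⟨D1, h1⟩ := Pool.Agent.H62.EX.boxW k r hk
  obtain ⟨D2, h2⟩ := Pool.Agent.H34.EY.thm_inf k r hk
  obtain ⟨D3, h3⟩ := Pool.Agent.H19.EZ.almost_all k r hk
  refine ⟨D1 + D2 + D3, fun W s hW hs => ⟨fun A ε F hε hF => ?_, fun χ I hI => ?_⟩⟩
  · obtain ⟨Q1, L₀, c1, d1, hc1, hd1, hbox⟩ := h1 A W s hW hs F hF
    obtain ⟨Q2, c2, d2, B2, hc2, hd2, hall⟩ := h3 A W s hW hs F hF ε hε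
    refine ⟨max Q1 Q2, max L₀ (max 0 B2), min c1 c2, min d1 d2, lt_min hc1 hc2, lt_min hd1 hd2, fun χ M => ⟨?_, ?_⟩⟩
    · intro L hL hLM
      obtain ⟨q, α, hq1, hq2, hq3⟩ := hbox χ M L (by exact_mod_cast (le_max_left _ _).trans hL) hLM
      have hq0 : (0 : ℝ) < q := by exact_mod_cast hq1
      refine ⟨q, α, hq1, hq2.trans (le_max_left _ _), le_trans (Nat.cast_le.2 (card_le_card ?_)) hq3⟩
      intro a ha
      unfold Pool.Agent.H62.EX.BBox
      rw [mem_filter] at ha ⊢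
      obtain ⟨ha1, ha2, ha3, ha4⟩ := ha
      refine ⟨ha1, ha2, fun j i => ?_, fun hg => ha4 ?_⟩
      · obtain ⟨n, hn⟩ := ha3 j i
        refine ⟨n, ?_⟩
        rw [le_div_iff₀ hq0] at hn
        exact hn
      · exact good_of (by omega) (min_le_left _ _) (lt_min hd1 hd2).le (min_le_left _ _) hg
    · intro Z hZ
      have hB2 : B2 ≤ max (L₀ : ℝ) (max 0 B2) := (le_max_right _ _).trans (le_max_right _ _)
      have hB0 : 0 ≤ max (L₀ : ℝ) (max 0 B2) := (le_max_left _ _).trans (le_max_right _ _)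
      rcases Nat.eq_zero_or_pos Z with h0 | h0
      · subst h0
        rw [Icc_eq_empty (by norm_num), filter_empty, sum_empty, Nat.cast_zero, Real.log_zero, mul_zero, zero_add]
        exact hB0
      refine le_trans ?_ ((hall χ M Z h0 hZ).trans (by linarith))
      refine sum_le_sum_of_subset_of_nonneg ?_ (fun z _ _ => by positivity)
      intro z hz
      rw [mem_filter] at hz ⊢
      refine ⟨hz.1, fun hcon => hz.2 ?_⟩
      obtain ⟨m₀, hm0, hm⟩ := hcon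
      refine ⟨m₀, hm0.trans (le_max_right _ _), le_trans (Nat.cast_le.2 (card_le_card ?_)) hm⟩
      intro a ha
      unfold Pool.Agent.H62.EX.BadDil
      rw [mem_filter] at ha ⊢
      refine ⟨ha.1, ha.2.1, fun hcon2 => ha.2.2 ?_⟩
      obtain ⟨m, hm1, hm2, hm3⟩ := hcon2
      exact ⟨m, hm1, hm2, good_of (by omega) (min_le_right _ _) (lt_min hd1 hd2).le (min_le_right _ _) hm3⟩
  · obtain ⟨J, hM1, hM2, t, α, ρ, hρ, h⟩ := h2 W s hW hs χ I hI
    refine ⟨J, hM1, hM2, t, α, ρ, hρ, fun ε hε => ?_⟩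
    obtain ⟨X₀, hX⟩ := h ε hε
    refine ⟨X₀, fun z b hz => le_trans (Nat.cast_le.2 (card_le_card ?_)) (hX z b hz)⟩
    intro a ha
    rw [mem_filter] at ha ⊢
    obtain ⟨ha1, ha2, ha3, ha4⟩ := ha
    refine ⟨ha1, ha2, ha3, fun hg => ha4 fun G hG => ?_⟩
    obtain ⟨q, c, M₁, hc, hM⟩ := hg G hG
    refine ⟨q, c, max M₁ 3, hc, fun M hM' hMM => ?_⟩
    have h3 : (3 : ℝ) ≤ M := by exact_mod_cast (le_max_right _ _).trans hMM
    have h4 : 1 ≤ Real.log M := by
      rw [Real.le_log_iff_exp_le (by linarith)]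
      linarith [Real.exp_one_lt_d9]
    refine (hM M hM' ((le_max_left _ _).trans hMM)).trans ?_
    exact mul_le_mul_of_nonneg_right (pow_le_pow_right₀ h4 (by omega)) (Nat.cast_nonneg _)

end Pool.Agent.H62.EX.ResA
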