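import Pool.Agent.H34.EQ.Inf
import Pool.Agent.H62.EX.Og
import Pool.Agent.H34.EY.InfA

/-!
Let `k, r, W ≥ 1`, `s` prime to `W`, and let the natural numbers be coloured with `r` colours. For integers
`0 = a_0 < a_1 < ... < a_k` and a set `G` of gaps `(a_i, a_(i+1))` with at most one pair of adjacent gaps we count the
primes `p` among the first `M` primes such that all `p + a_i` are primes `≡ s (mod W)` of one colour, `p + a_i` and
`p + a_(i+1)` being consecutive primes of this colour for the gaps in `G`.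

For some `D = D(k, r)`:

(1) For every `A` there is `m₀` such that for every `ε > 0` there are `B, c, d > 0` with: for all colourings, all `M` and
all `z` with `B ≤ z ≤ (log M) ^ A` all except `ε z ^ k` of the tuples `a` with `a_k ≤ z` have a multiple `m a`, `m ≤ m₀`,
which (for `G = ∅` and one of the colours; if `k = 1` and `z ≤ c log M` for all `G`) has a count of at least
`d min(1, z / log M) ^ D M / (log M) ^ k`. For all `z ≥ B` all except `ε z ^ k` of them have a multiple `m a`, `m ≤ m₀`,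
for which there are infinitely many such `p` of one colour (`G = ∅`).

(2) For every `A` and `F : ℕ → (0, ∞)` there are `Q, B, c, d > 0` such that for all colourings, all `M` and all `L` with
`B ≤ L ≤ (log M) ^ A` there is a Bohr box `{0 < h ≤ L / q : each h α_i is within 1 / q of an integer}`, `q ≤ Q`, `α ∈ ℝ ^ q`,
in which all except `F q * L ^ k` of the tuples `a` are good: for every `G` (`G = ∅` if `L > c log M`) the count is, for
some colour, at least `d min(1, L / log M) ^ D M / (log M) ^ k`.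

(3) For each colouring and each infinite set `I` there are an infinite subset `J` and a Bohr set
`V = {h : each h α_i is within ρ of an integer}` such that almost all `a ∈ V ^ k` have, for every `G`, a colour for which
the count is at least `g M / (log M) ^ D` for all large `M ∈ J`.
-/

set_option autoImplicit false

namespace Pool.Agent.H62.EX.ResB

open Finset

/-- `p`, `p + a_1`, .., `p + a_k` are primes of colour `q`, congruent to `s` modulo `W`; if `0 = a_0`, then for every `i ∈ G`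
no number strictly between `p + a_i` and `p + a_(i+1)` is a prime of colour `q` -/
def Shows {k r : ℕ} (W s : ℕ) (χ : ℕ → Fin r) (q : Fin r) (G : Finset (Fin k)) (a : Fin k → ℕ) (p : ℕ) : Prop :=
  (∀ j, (p + (Fin.cons 0 a : Fin (k + 1) → ℕ) j).Prime ∧ χ (p + (Fin.cons 0 a : Fin (k + 1) → ℕ) j) = q ∧
    p + (Fin.cons 0 a : Fin (k + 1) → ℕ) j ≡ s [MOD W]) ∧
  ∀ i ∈ G, ∀ y : ℕ, p + (Fin.cons 0 a : Fin (k + 1) → ℕ) i.castSucc < y →
    y < p + (Fin.cons 0 a : Fin (k + 1) → ℕ) i.succ → ¬ (y.Prime ∧ χ y = q)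

/-- at most one pair of adjacent gaps -/
def OnePair {k : ℕ} (G : Finset (Fin k)) : Prop :=
  ∀ i ∈ G, ∀ i' ∈ G, ∀ l ∈ G, ∀ l' ∈ G, i.succ = i'.castSucc → l.succ = l'.castSucc → i = l

/-- the number of `n < M` such that the `n`-th prime shows the pattern -/
noncomputable def count {k r : ℕ} (W s : ℕ) (χ : ℕ → Fin r) (q : Fin r) (G : Finset (Fin k)) (a : Fin k → ℕ) (M : ℕ) : ℕ :=
  {n : ℕ | n < M ∧ Shows W s χ q G a (Nat.nth Nat.Prime n)}.ncard

/-- for every `G` with at most one pair of adjacent gaps (only for the empty `G` if `L` exceeds `c log M`) there is a colour `q`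
with at least `d min(1, L / log M) ^ D * M / (log M) ^ k` patterns below the `M`-th prime -/
def Good {k r : ℕ} (W s : ℕ) (χ : ℕ → Fin r) (D : ℕ) (c d : ℝ) (M L : ℕ) (a : Fin k → ℕ) : Prop :=
  ∀ G : Finset (Fin k), OnePair G → (c * Real.log M < L → G = ∅) →
    ∃ q : Fin r, d * min 1 (L / Real.log M) ^ D * M ≤ Real.log M ^ k * count W s χ q G a M

private theorem good_of {k r : ℕ} {W s : ℕ} {χ : ℕ → Fin r} {D D' : ℕ} {c c' d d' : ℝ} {M L : ℕ} (hD : D ≤ D')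
    (hc : c' ≤ c) (hd0 : 0 ≤ d') (hd : d' ≤ d) {a : Fin k → ℕ} (h : Pool.Agent.H62.EX.Gw W s χ D c d M L a) :
    Good W s χ D' c' d' M L a := by
  intro G hG hG2
  have hlM := Real.log_natCast_nonneg M
  obtain ⟨q', hq'⟩ := h G hG (fun h1 => hG2 (lt_of_le_of_lt (mul_le_mul_of_nonneg_right hc hlM) h1))
  refine ⟨q', le_trans ?_ hq'⟩
  have h3 : 0 ≤ min 1 ((L : ℝ) / Real.log M) := le_min zero_le_one (div_nonneg (Nat.cast_nonneg _) hlM)
  refine mul_le_mul_of_nonneg_right ?_ (Nat.cast_nonneg _)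
  calc d' * min 1 ((L : ℝ) / Real.log M) ^ D' ≤ d' * min 1 ((L : ℝ) / Real.log M) ^ D :=
        mul_le_mul_of_nonneg_left (pow_le_pow_of_le_one h3 (min_le_left _ _) hD) hd0
    _ ≤ d * min 1 ((L : ℝ) / Real.log M) ^ D := mul_le_mul_of_nonneg_right hd (pow_nonneg h3 _)

open Classical in
private theorem gap_one (k r : ℕ) (hk : k = 1) : ∃ D : ℕ, ∀ W s : ℕ, 0 < W → Nat.Coprime s W → ∃ m₀ : ℕ, ∀ ε : ℝ, 0 < ε →
    ∃ B c d : ℝ, 0 < c ∧ 0 < d ∧ ∀ (χ : ℕ → Fin r) (M z : ℕ), B ≤ z → (z : ℝ) ≤ c * Real.log M →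
      (((Fintype.piFinset (fun _ : Fin k => Icc 1 z)).filter (fun a : Fin k → ℕ => StrictMono a ∧
        ¬ ∃ m : ℕ, 1 ≤ m ∧ m ≤ m₀ ∧ ∀ G : Finset (Fin k), ∃ q : Fin r, d * min 1 (z / Real.log M) ^ D * M ≤
          Real.log M ^ k * count W s χ q G (fun j => m * a j) M)).card : ℝ) ≤ ε * (z : ℝ) ^ k := by
  subst hk
  exact Pool.Agent.H62.EX.one_gap r

open Classical in
private theorem inf_mult (k r : ℕ) (hk : 1 ≤ k) (W s : ℕ) (hW : 0 < W) (hs : Nat.Coprime s W) :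
    ∃ m₀ : ℕ, ∀ ε : ℝ, 0 < ε → ∃ B : ℝ, ∀ (χ : ℕ → Fin r) (z : ℕ), B ≤ z →
      (((Fintype.piFinset (fun _ : Fin k => Icc 1 z)).filter (fun a : Fin k → ℕ => StrictMono a ∧
        ¬ ∃ m : ℕ, 1 ≤ m ∧ m ≤ m₀ ∧ ∃ q : Fin r,
          {p : ℕ | Shows W s χ q ∅ (fun j => m * a j) p}.Infinite)).card : ℝ) ≤ ε * (z : ℝ) ^ k :=
  Pool.Agent.H34.EQ.c4 k r hk W s hW hs

open Classical in
theorem result : ∀ k r : ℕ, 1 ≤ k → ∃ D : ℕ, ∀ W s : ℕ, 0 < W → Nat.Coprime s W →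
    (∀ A : ℕ, ∃ m₀ : ℕ, ∀ ε : ℝ, 0 < ε → ∃ B c d : ℝ, 0 < c ∧ 0 < d ∧
      (∀ (χ : ℕ → Fin r) (M z : ℕ), B ≤ z → (z : ℝ) ≤ Real.log M ^ A →
        (((Fintype.piFinset (fun _ : Fin k => Icc 1 z)).filter (fun a : Fin k → ℕ => StrictMono a ∧
          ¬ ∃ m : ℕ, 1 ≤ m ∧ m ≤ m₀ ∧ ∀ G : Finset (Fin k), G = ∅ ∨ (k = 1 ∧ z ≤ c * Real.log M) →
            ∃ q : Fin r, d * min 1 (z / Real.log M) ^ D * M ≤
              Real.log M ^ k * count W s χ q G (fun j => m * a j) M)).card : ℝ) ≤ ε * (z : ℝ) ^ k) ∧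
      ∀ (χ : ℕ → Fin r) (z : ℕ), B ≤ z →
        (((Fintype.piFinset (fun _ : Fin k => Icc 1 z)).filter (fun a : Fin k → ℕ => StrictMono a ∧
          ¬ ∃ m : ℕ, 1 ≤ m ∧ m ≤ m₀ ∧ ∃ q : Fin r,
            {p : ℕ | Shows W s χ q ∅ (fun j => m * a j) p}.Infinite)).card : ℝ) ≤ ε * (z : ℝ) ^ k) ∧
    (∀ (A : ℕ) (F : ℕ → ℝ), (∀ q, 0 < F q) → ∃ (Q : ℕ) (B c d : ℝ), 0 < c ∧ 0 < d ∧
      ∀ (χ : ℕ → Fin r) (M L : ℕ), B ≤ L → (L : ℝ) ≤ Real.log M ^ A → ∃ (q : ℕ) (α : Fin q → ℝ), 1 ≤ q ∧ q ≤ Q ∧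
        (((Fintype.piFinset (fun _ : Fin k => Icc 1 (L / q))).filter (fun a : Fin k → ℕ => StrictMono a ∧
          (∀ j i, ∃ n : ℤ, |(a j : ℝ) * α i - n| ≤ 1 / q) ∧ ¬ Good W s χ D c d M L a)).card : ℝ) ≤
            F q * (L : ℝ) ^ k) ∧
    ∀ (χ : ℕ → Fin r) (I : Set ℕ), I.Infinite → ∃ J : Set ℕ, J ⊆ I ∧ J.Infinite ∧
      ∃ (t : ℕ) (α : Fin t → ℝ) (ρ : ℝ), 0 < ρ ∧ ∀ ε : ℝ, 0 < ε → ∃ X₀ : ℕ, ∀ (X : ℕ) (b : Fin k → ℕ), X₀ ≤ X →
        (((Fintype.piFinset (fun j : Fin k => Icc (b j + 1) (b j + X))).filter (fun a : Fin k → ℕ => StrictMono a ∧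
          (∀ j i, ∃ n : ℤ, |(a j : ℝ) * α i - n| < ρ) ∧
          ¬ ∀ G : Finset (Fin k), OnePair G → ∃ (q : Fin r) (g : ℝ) (M₁ : ℕ), 0 < g ∧ ∀ M ∈ J, M₁ ≤ M →
            g * M ≤ Real.log M ^ D * count W s χ q G a M)).card : ℝ) ≤ ε * (X : ℝ) ^ k := by
  intro k r hk
  obtain ⟨D1, h1⟩ := Pool.Agent.H62.EX.boxW k r hk
  obtain ⟨D2, h2⟩ := Pool.Agent.H34.EY.thm_inf k r hk
  obtain ⟨D3, h3⟩ := Pool.Agent.H34.EQ.plus k r (Pool.Agent.H34.EQ.hasSys k)
  obtain ⟨D4, h4⟩ : ∃ D4 : ℕ, k = 1 → ∀ W s : ℕ, 0 < W → Nat.Coprime s W → ∃ m₀ : ℕ, ∀ ε : ℝ, 0 < ε →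
      ∃ B c d : ℝ, 0 < c ∧ 0 < d ∧ ∀ (χ : ℕ → Fin r) (M z : ℕ), B ≤ z → (z : ℝ) ≤ c * Real.log M →
        (((Fintype.piFinset (fun _ : Fin k => Icc 1 z)).filter (fun a : Fin k → ℕ => StrictMono a ∧
          ¬ ∃ m : ℕ, 1 ≤ m ∧ m ≤ m₀ ∧ ∀ G : Finset (Fin k), ∃ q : Fin r, d * min 1 (z / Real.log M) ^ D4 * M ≤
            Real.log M ^ k * count W s χ q G (fun j => m * a j) M)).card : ℝ) ≤ ε * (z : ℝ) ^ k := by
    by_cases hk1 : k = 1
    · obtain ⟨D4, h4⟩ := gap_one k r hk1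
      exact ⟨D4, fun _ => h4⟩
    · exact ⟨0, fun h => absurd h hk1⟩
  have hmin : ∀ (d : ℝ) (M z D D' : ℕ), 0 < d → D ≤ D' → d * min 1 ((z : ℝ) / Real.log M) ^ D' * M ≤
      d * min 1 ((z : ℝ) / Real.log M) ^ D * M := by
    intro d M z D D' hd hD
    have h5 : 0 ≤ min 1 ((z : ℝ) / Real.log M) :=
      le_min zero_le_one (div_nonneg (Nat.cast_nonneg _) (Real.log_natCast_nonneg M))
    exact mul_le_mul_of_nonneg_right (mul_le_mul_of_nonneg_left
      (pow_le_pow_of_le_one h5 (min_le_left _ _) hD) hd.le) (Nat.cast_nonneg _)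
  have hmin2 : ∀ (d d' : ℝ) (M z D : ℕ), d ≤ d' → d * min 1 ((z : ℝ) / Real.log M) ^ D * M ≤
      d' * min 1 ((z : ℝ) / Real.log M) ^ D * M := by
    intro d d' M z D hd
    have h5 : 0 ≤ min 1 ((z : ℝ) / Real.log M) :=
      le_min zero_le_one (div_nonneg (Nat.cast_nonneg _) (Real.log_natCast_nonneg M))
    exact mul_le_mul_of_nonneg_right (mul_le_mul_of_nonneg_right hd (pow_nonneg h5 _)) (Nat.cast_nonneg _)
  refine ⟨D1 + D2 + D3 + D4, fun W s hW hs => ⟨fun A => ?_, fun A F hF => ?_, fun χ I hI => ?_⟩⟩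
  · obtain ⟨m₀, h⟩ := h3 W s hW hs A
    obtain ⟨m₁, hg⟩ : ∃ m₁ : ℕ, k = 1 → ∀ ε : ℝ, 0 < ε →
        ∃ B c d : ℝ, 0 < c ∧ 0 < d ∧ ∀ (χ : ℕ → Fin r) (M z : ℕ), B ≤ z → (z : ℝ) ≤ c * Real.log M →
          (((Fintype.piFinset (fun _ : Fin k => Icc 1 z)).filter (fun a : Fin k → ℕ => StrictMono a ∧
            ¬ ∃ m : ℕ, 1 ≤ m ∧ m ≤ m₁ ∧ ∀ G : Finset (Fin k), ∃ q : Fin r, d * min 1 (z / Real.log M) ^ D4 * M ≤
              Real.log M ^ k * count W s χ q G (fun j => m * a j) M)).card : ℝ) ≤ ε * (z : ℝ) ^ k := by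
      by_cases hk1 : k = 1
      · obtain ⟨m₁, hg⟩ := h4 hk1 W s hW hs
        exact ⟨m₁, fun _ => hg⟩
      · exact ⟨0, fun h => absurd h hk1⟩
    obtain ⟨m₂, hm₂⟩ := inf_mult k r hk W s hW hs
    refine ⟨max m₂ (max m₀ m₁), fun ε hε => ?_⟩
    obtain ⟨B₂, hB₂⟩ := hm₂ ε hε
    obtain ⟨B, d, hd, h⟩ := h ε hε
    have hinf : ∀ (χ : ℕ → Fin r) (z : ℕ), B₂ ≤ z →
        (((Fintype.piFinset (fun _ : Fin k => Icc 1 z)).filter (fun a : Fin k → ℕ => StrictMono a ∧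
          ¬ ∃ m : ℕ, 1 ≤ m ∧ m ≤ max m₂ (max m₀ m₁) ∧ ∃ q : Fin r,
            {p : ℕ | Shows W s χ q ∅ (fun j => m * a j) p}.Infinite)).card : ℝ) ≤ ε * (z : ℝ) ^ k := by
      intro χ z hz
      refine le_trans (Nat.cast_le.2 (card_le_card ?_)) (hB₂ χ z hz)
      intro a ha
      rw [mem_filter] at ha ⊢
      refine ⟨ha.1, ha.2.1, fun hcon => ha.2.2 ?_⟩
      obtain ⟨m, hm1, hm2, q, hq⟩ := hcon
      exact ⟨m, hm1, hm2.trans (le_max_left _ _), q, hq⟩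
    by_cases hk1 : k = 1
    · obtain ⟨B', c', d', hc', hd', hg⟩ := hg hk1 ε hε
      refine ⟨max B₂ (max B B'), c', min d d', hc', lt_min hd hd', fun χ M z hB hz => ?_,
        fun χ z hz => hinf χ z ((le_max_left _ _).trans hz)⟩
      replace hB := (le_max_right _ _).trans hB
      rcases le_or_gt (z : ℝ) (c' * Real.log M) with hzM | hzM
      · refine le_trans (Nat.cast_le.2 (card_le_card ?_)) (hg χ M z ((le_max_right _ _).trans hB) hzM)
        intro a ha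
        rw [mem_filter] at ha ⊢
        refine ⟨ha.1, ha.2.1, fun hcon => ha.2.2 ?_⟩
        obtain ⟨m, hm1, hm2, hm3⟩ := hcon
        refine ⟨m, hm1, hm2.trans ((le_max_right _ _).trans (le_max_right _ _)), fun G _ => ?_⟩
        obtain ⟨q, hq⟩ := hm3 G
        exact ⟨q, (hmin2 _ _ M z _ (min_le_right d d')).trans ((hmin d' M z _ _ hd' (by omega)).trans hq)⟩
      · refine le_trans (Nat.cast_le.2 (card_le_card ?_)) (h χ M z (by exact_mod_cast (le_max_left _ _).trans hB) hz)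
        intro a ha
        unfold Pool.Agent.H62.EX.BadDil
        rw [mem_filter] at ha ⊢
        refine ⟨ha.1, ha.2.1, fun hcon => ha.2.2 ?_⟩
        obtain ⟨m, hm1, hm2, q, hq⟩ := hcon
        refine ⟨m, hm1, hm2.trans ((le_max_left _ _).trans (le_max_right _ _)), fun G hG => ?_⟩
        rcases hG with hG | hG
        · subst hG
          exact ⟨q, (hmin2 _ _ M z _ (min_le_left d d')).trans ((hmin d M z _ _ hd (by omega)).trans hq)⟩
        · exact absurd hG.2 (not_le.2 hzM)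
    · refine ⟨max B₂ B, 1, d, one_pos, hd, fun χ M z hB hz => ?_, fun χ z hz => hinf χ z ((le_max_left _ _).trans hz)⟩
      replace hB := (le_max_right _ _).trans hB
      refine le_trans (Nat.cast_le.2 (card_le_card ?_)) (h χ M z (by exact_mod_cast hB) hz)
      intro a ha
      unfold Pool.Agent.H62.EX.BadDil
      rw [mem_filter] at ha ⊢
      refine ⟨ha.1, ha.2.1, fun hcon => ha.2.2 ?_⟩
      obtain ⟨m, hm1, hm2, q, hq⟩ := hcon
      refine ⟨m, hm1, hm2.trans ((le_max_left _ _).trans (le_max_right _ _)), fun G hG => ?_⟩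
      rcases hG with hG | hG
      · subst hG
        exact ⟨q, (hmin d M z _ _ hd (by omega)).trans hq⟩
      · exact absurd hG.1 hk1
  · obtain ⟨Q, L₀, c, d, hc, hd, hbox⟩ := h1 A W s hW hs F hF
    refine ⟨Q, L₀, c, d, hc, hd, fun χ M L hL hLM => ?_⟩
    obtain ⟨q, α, hq1, hq2, hq3⟩ := hbox χ M L (by exact_mod_cast hL) hLM
    have hq0 : (0 : ℝ) < q := by exact_mod_cast hq1
    refine ⟨q, α, hq1, hq2, le_trans (Nat.cast_le.2 (card_le_card ?_)) hq3⟩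
    intro a ha
    unfold Pool.Agent.H62.EX.BBox
    rw [mem_filter] at ha ⊢
    obtain ⟨ha1, ha2, ha3, ha4⟩ := ha
    refine ⟨ha1, ha2, fun j i => ?_, fun hg => ha4 ?_⟩
    · obtain ⟨n, hn⟩ := ha3 j i
      refine ⟨n, ?_⟩
      rw [le_div_iff₀ hq0] at hn
      exact hn
    · exact good_of (by omega) le_rfl hd.le le_rfl hg
  · obtain ⟨J, hM1, hM2, t, α, ρ, hρ, h⟩ := h2 W s hW hs χ I hI
    refine ⟨J, hM1, hM2, t, α, ρ, hρ, fun ε hε => ?_⟩
    obtain ⟨X₀, hX⟩ := h ε hε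
    refine ⟨X₀, fun z b hz => le_trans (Nat.cast_le.2 (card_le_card ?_)) (hX z b hz)⟩
    intro a ha
    rw [mem_filter] at ha ⊢
    obtain ⟨ha1, ha2, ha3, ha4⟩ := ha
    refine ⟨ha1, ha2, ha3, fun hg => ha4 fun G hG => ?_⟩
    obtain ⟨q, c, M₁, hc, hM⟩ := hg G hG
    refine ⟨q, c, max M₁ 3, hc, fun M hM' hMM => ?_⟩
    have h3 : (3 : ℝ) ≤ M := by exact_mod_cast (le_max_right _ _).trans hMM
    have h4 : 1 ≤ Real.log M := by
      rw [Real.le_log_iff_exp_le (by linarith)]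
      linarith [Real.exp_one_lt_d9]
    refine (hM M hM' ((le_max_left _ _).trans hMM)).trans ?_
    exact mul_le_mul_of_nonneg_right (pow_le_pow_right₀ h4 (by omega)) (Nat.cast_nonneg _)

end Pool.Agent.H62.EX.ResB
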