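import Pool.Agent.H62.EX.Bd0

/-!
Let `k, r ≥ 1`. For integers `a_1, ..., a_k` and one of `r` colours we call `p` a hit of `a` if `p, p + a_1, ..., p + a_k`
are all primes `≡ s (mod W)` of this colour.

There are `D, n, P ≥ 1` such that for ANY integers `c_1, ..., c_n ≥ 1` (for instance all `1`) and each `ε > 0` there is `B`
such that for all `A`, `W ≥ 1` and `s` prime to `W`, with `S` the set of the numbers `P W (∑ i ∈ I, c_i)`, `I` nonempty:

(1) For every colouring and every cube of side `z ≥ B` in `ℤ ^ k` all except `ε z ^ k` of the integer `a` in the cube have an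
`m ∈ S` such that `m a` has infinitely many hits in one of the colours.

(2) There is `M₀` such that for every colouring, all `M ≥ M₀` and every cube of side `z`, `B ≤ z ≤ (log M) ^ A`,
`|b_j| ≤ (log M) ^ A`, all except `ε z ^ k` of the integer `a` in the cube have an `m ∈ S` such that `m a` has at least
`M / (log M) ^ D` hits in one of the colours among the first `M` primes.

(3) There are `B', d > 0` such that for every colouring, all `M` and all `z` with `B' ≤ z ≤ (log M) ^ A` all except `ε z ^ k`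
of the `a` with `0 < a_1 < .. < a_k ≤ z` have an `m ∈ S` such that `m a` has at least `d min(1, z / log M) ^ D M / (log M) ^ k`
hits in one of the colours among the first `M` primes.
-/

set_option autoImplicit false

namespace Pool.Agent.H62.EX.ResF

open Finset

/-- `p` is a hit of `a` in the colour `q`: `p`, `p + a_1`, .., `p + a_k` are primes of colour `q`, congruent to `s` modulo `W` -/
def Shows {k r : ℕ} (W s : ℕ) (χ : ℕ → Fin r) (q : Fin r) (a : Fin k → ℤ) (p : ℕ) : Prop :=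
  ∀ j : Fin (k + 1), ∃ p' : ℕ, (p' : ℤ) = p + (Fin.cons 0 a : Fin (k + 1) → ℤ) j ∧ p'.Prime ∧ χ p' = q ∧ p' ≡ s [MOD W]

/-- the number of hits among the first `M` primes -/
noncomputable def hits {k r : ℕ} (W s : ℕ) (χ : ℕ → Fin r) (q : Fin r) (a : Fin k → ℤ) (M : ℕ) : ℕ :=
  {n : ℕ | n < M ∧ Shows W s χ q a (Nat.nth Nat.Prime n)}.ncard

private theorem shows_iff {k r : ℕ} (W s : ℕ) (χ : ℕ → Fin r) (q : Fin r) (a : Fin k → ℤ) (p : ℕ) :
    Shows W s χ q a p ↔ Pool.Agent.H48.EP.Pr W s χ q p ∧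
      ∀ j, ∃ p' : ℕ, (p' : ℤ) = p + a j ∧ Pool.Agent.H48.EP.Pr W s χ q p' := by
  unfold Shows Pool.Agent.H48.EP.Pr
  rw [Fin.forall_fin_succ]
  refine and_congr ?_ (forall_congr' fun j => ?_)
  · rw [Fin.cons_zero, add_zero]
    constructor
    · rintro ⟨p', h1, h2⟩
      have h3 : p' = p := by exact_mod_cast h1
      rw [h3] at h2
      exact h2
    · intro h
      exact ⟨p, rfl, h⟩
  · rw [Fin.cons_succ]

private theorem cnt_le {k r : ℕ} (W s : ℕ) (χ : ℕ → Fin r) (q : Fin r) (a : Fin k → ℤ) (M : ℕ) :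
    Pool.Agent.H48.EP.cnt W s χ q a M ≤ hits W s χ q a M := by
  unfold Pool.Agent.H48.EP.cnt hits
  refine le_trans (Set.ncard_le_ncard ?_ ((Set.finite_Iic M).subset fun p hp => hp.1))
    (Bd.ncard_le_nth (fun p => Shows W s χ q a p) M)
  rintro p ⟨h1, h2, h3⟩
  exact ⟨h1, h2.1, (shows_iff W s χ q a p).2 ⟨h2, h3⟩⟩

open Classical in
theorem result : ∀ k r : ℕ, 1 ≤ k → ∃ D n P : ℕ, 0 < P ∧ ∀ c : Fin n → ℕ, (∀ i, 1 ≤ c i) → ∀ ε : ℝ, 0 < ε → ∃ B : ℕ,
    ∀ A W s : ℕ, 0 < W → Nat.Coprime s W →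
    (∀ (χ : ℕ → Fin r) (z : ℕ), B ≤ z → ∀ b : Fin k → ℤ,
      (((Fintype.piFinset (fun j : Fin k => Ioc (b j) (b j + z))).filter (fun a : Fin k → ℤ =>
        ¬ ∃ (I : Finset (Fin n)) (q : Fin r), I.Nonempty ∧
          {p : ℕ | Shows W s χ q (fun j => (P * W * ∑ i ∈ I, c i : ℕ) * a j) p}.Infinite)).card : ℝ) ≤ ε * (z : ℝ) ^ k) ∧
    (∃ M₀ : ℕ, ∀ (χ : ℕ → Fin r) (M z : ℕ) (b : Fin k → ℤ), M₀ ≤ M → B ≤ z → (z : ℝ) ≤ Real.log M ^ A →
      (∀ j, |(b j : ℝ)| ≤ Real.log M ^ A) →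
      (((Fintype.piFinset (fun j : Fin k => Ioc (b j) (b j + z))).filter (fun a : Fin k → ℤ =>
        ¬ ∃ (I : Finset (Fin n)) (q : Fin r), I.Nonempty ∧
          (M : ℝ) ≤ Real.log M ^ D * hits W s χ q (fun j => (P * W * ∑ i ∈ I, c i : ℕ) * a j) M)).card : ℝ) ≤
            ε * (z : ℝ) ^ k) ∧
    ∃ B' d : ℝ, 0 < d ∧ ∀ (χ : ℕ → Fin r) (M z : ℕ), B' ≤ z → (z : ℝ) ≤ Real.log M ^ A →
      (((Fintype.piFinset (fun _ : Fin k => Icc 1 z)).filter (fun a : Fin k → ℕ => StrictMono a ∧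
        ¬ ∃ (I : Finset (Fin n)) (q : Fin r), I.Nonempty ∧ d * min 1 (z / Real.log M) ^ D * M ≤
          Real.log M ^ k * hits W s χ q (fun j => (P * W * ∑ i ∈ I, c i : ℕ) * (a j : ℤ)) M)).card : ℝ) ≤
            ε * (z : ℝ) ^ k := by
  intro k r hk
  obtain ⟨n1, P1, hP1, h1⟩ := Pool.Agent.H34.EQ.banachIP k r
  obtain ⟨D2, n2, P2, hP2, h2⟩ := Pool.Agent.H48.EP.cubesIP k r
  obtain ⟨D3, n3, P3, hP3, h3⟩ := Pool.Agent.H34.EQ.c1IP k r
  obtain ⟨n, hn⟩ : ∃ n, n = max n1 (max n2 n3) := ⟨_, rfl⟩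
  have e1 : n1 ≤ n := by rw [hn]; exact le_max_left _ _
  have e2 : n2 ≤ n := by rw [hn]; exact (le_max_left _ _).trans (le_max_right _ _)
  have e3 : n3 ≤ n := by rw [hn]; exact (le_max_right _ _).trans (le_max_right _ _)
  refine ⟨D2 + D3, n, P1 * P2 * P3, by positivity, fun c hc ε hε => ?_⟩
  have t1 : P1 * P2 * P3 = P1 * (P2 * P3) := by ring
  have t2 : P1 * P2 * P3 = P2 * (P1 * P3) := by ring
  have t3 : P1 * P2 * P3 = P3 * (P1 * P2) := by ring
  have hge : ∀ t : ℕ, 0 < t → ∀ i, 1 ≤ t * c i := fun t ht i => Nat.mul_pos ht (hc i)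
  obtain ⟨B1, h1⟩ := h1 (fun i => P2 * P3 * c (Fin.castLEEmb e1 i)) (fun i => hge _ (by positivity) _) ε hε
  obtain ⟨B2, h2⟩ := h2 (fun i => P1 * P3 * c (Fin.castLEEmb e2 i)) (fun i => hge _ (by positivity) _) ε hε
  have h3 := h3 (fun i => P1 * P2 * c (Fin.castLEEmb e3 i)) (fun i => hge _ (by positivity) _)
  refine ⟨max B1 B2, fun A W s hW hs => ⟨fun χ z hz b => ?_, ?_, ?_⟩⟩
  · refine le_trans (Nat.cast_le.2 (card_le_card ?_)) (h1 W s hW hs χ z ((le_max_left _ _).trans hz) b)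
    intro a ha
    rw [mem_filter] at ha ⊢
    refine ⟨ha.1, fun hcon => ha.2 ?_⟩
    obtain ⟨I, hI, q, hq⟩ := hcon
    refine ⟨I.map (Fin.castLEEmb e1), q, hI.map, ?_⟩
    rw [Bd.sums_emb (Fin.castLEEmb e1) _ P1 (P2 * P3) W t1 c I]
    have h4 : {p : ℕ | Shows W s χ q (fun j => (P1 * W * ∑ i ∈ I, P2 * P3 * c (Fin.castLEEmb e1 i) : ℕ) * a j) p} =
        {p : ℕ | Pool.Agent.H48.EP.Pr W s χ q p ∧ ∀ j, ∃ p' : ℕ, (p' : ℤ) = p +
          (P1 * W * ∑ i ∈ I, P2 * P3 * c (Fin.castLEEmb e1 i) : ℕ) * a j ∧ Pool.Agent.H48.EP.Pr W s χ q p'} := by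
      ext p
      exact shows_iff W s χ q _ p
    rw [h4]
    exact hq
  · obtain ⟨X₀, h2⟩ := h2 A W s hW hs
    refine ⟨max X₀ 3, fun χ M z b hM hz hzM hb => ?_⟩
    refine le_trans (Nat.cast_le.2 (card_le_card ?_)) (h2 χ M z b ((le_max_left _ _).trans hM)
      ((le_max_right _ _).trans hz) hzM hb)
    intro a ha
    rw [mem_filter] at ha ⊢
    refine ⟨ha.1, fun hcon => ha.2 ?_⟩
    obtain ⟨I, hI, q, hq⟩ := hcon
    refine ⟨I.map (Fin.castLEEmb e2), q, hI.map, ?_⟩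
    rw [Bd.sums_emb (Fin.castLEEmb e2) _ P2 (P1 * P3) W t2 c I]
    refine hq.trans ?_
    have h5 : (3 : ℝ) ≤ M := by exact_mod_cast (le_max_right _ _).trans hM
    have h6 : 1 ≤ Real.log M := by
      rw [Real.le_log_iff_exp_le (by linarith)]
      linarith [Real.exp_one_lt_d9]
    refine mul_le_mul (pow_le_pow_right₀ h6 (by omega)) (by exact_mod_cast cnt_le W s χ q _ M) (Nat.cast_nonneg _)
      (pow_nonneg (by linarith) _)
  · obtain ⟨B', d, hd, h3⟩ := h3 A W s hW hs ε hε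
    refine ⟨B', d, hd, fun χ M z hz hzM => ?_⟩
    refine le_trans (Nat.cast_le.2 (card_le_card ?_)) (h3 χ M z hz hzM)
    intro a ha
    rw [mem_filter] at ha ⊢
    refine ⟨ha.1, ha.2.1, fun hcon => ha.2.2 ?_⟩
    obtain ⟨I, hI, q, hq⟩ := hcon
    refine ⟨I.map (Fin.castLEEmb e3), q, hI.map, ?_⟩
    rw [Bd.sums_emb (Fin.castLEEmb e3) _ P3 (P1 * P2) W t3 c I]
    have hlM := Real.log_natCast_nonneg M
    have h4 : 0 ≤ min 1 ((z : ℝ) / Real.log M) := le_min zero_le_one (div_nonneg (Nat.cast_nonneg _) hlM)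
    have h5 : d * min 1 ((z : ℝ) / Real.log M) ^ (D2 + D3) * M ≤ d * min 1 ((z : ℝ) / Real.log M) ^ D3 * M :=
      mul_le_mul_of_nonneg_right (mul_le_mul_of_nonneg_left
        (pow_le_pow_of_le_one h4 (min_le_left _ _) (by omega)) hd.le) (Nat.cast_nonneg _)
    refine (h5.trans hq).trans (mul_le_mul_of_nonneg_left ?_ (pow_nonneg hlM _))
    refine Nat.cast_le.2 (Set.ncard_le_ncard ?_ ((Set.finite_lt_nat M).subset fun n hn => hn.1))
    rintro m ⟨hm1, hm2⟩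
    refine ⟨hm1, fun j => ?_⟩
    obtain ⟨g1, g2, g3⟩ := hm2.1 j
    refine ⟨_, ?_, g1, g2, g3⟩
    refine Fin.cases ?_ (fun j => ?_) j
    · rw [Fin.cons_zero, Fin.cons_zero]
      push_cast
      rfl
    · rw [Fin.cons_succ, Fin.cons_succ]
      push_cast
      rfl

end Pool.Agent.H62.EX.ResF
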