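import Pool.Agent.H62.EX.Df

/-!
# [H62 EX UC] Small Fourier coefficients: multiple correlations at almost all shifts

Proof.  Parseval: `∑ γ, ‖Ft f γ‖ ^ 2 = (∑ t, f t ^ 2) / N` (orthogonality of the characters).
`one`: for `|W| ≤ 1` and `v` with `‖Ft v γ‖ ≤ τ`: `∑ c, (Ev (fun t => W t * v (t + c))) ^ 2 = N ∑ γ |Ft W γ|^2 |Ft v γ|^2 ≤ N τ^2`
(the function `c ↦ Ev (W t * v (t + c))` has the Fourier coefficients `conj (Ft W γ) * Ft v γ`), so by Cauchy-Schwarz
`∑ c, |Ev (fun t => W t * v (t + c))| ≤ N τ`.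
Then telescoping, by induction on `m`, with one more bounded factor `g` (`|g| ≤ 1`) which does not depend on `C`:
`∑ C, |Ev (g * ∏ f(t + C i)) - Ev (g * ∏ u(t + C i))| ≤ m τ N^m` (split `C = Fin.cons c C'`, `Fin.consEquiv`,
`Fin.prod_univ_succ`).  See Pool/Agent/H74/BT/Tele.lean (`tele_gen`) for the same telescoping on `ℤ`.
-/

set_option autoImplicit false

namespace Pool.Agent.H62.EX

open Finset

theorem uc_orth {N : ℕ} [NeZero N] (b : ZMod N) :
    ∑ γ : ZMod N, ZMod.stdAddChar (γ * b) = (if b = 0 then (N : ℂ) else 0) := by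
  rw [AddChar.sum_mulShift b (ZMod.isPrimitive_stdAddChar N)]
  split_ifs
  · rw [ZMod.card]
  · simp

theorem uc_normSq {N : ℕ} [NeZero N] (f : ZMod N → ℝ) (γ : ZMod N) :
    ((‖Ft f γ‖ ^ 2 : ℝ) : ℂ) = (∑ t, ∑ s, (f t : ℂ) * f s * ZMod.stdAddChar (γ * (s - t))) / (N : ℂ) ^ 2 := by
  rw [Complex.ofReal_pow, ← Complex.mul_conj', Ft, map_div₀, map_sum]
  simp only [map_mul, Complex.conj_ofReal, ← AddChar.map_neg_eq_conj, neg_neg, Complex.conj_natCast]
  rw [div_mul_div_comm, ← sq, sum_mul_sum]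
  congr 1
  refine sum_congr rfl fun t _ => sum_congr rfl fun s _ => ?_
  rw [show γ * (s - t) = -(γ * t) + γ * s by ring, AddChar.map_add_eq_mul]
  ring

/-- Parseval -/
theorem parseval {N : ℕ} [NeZero N] (f : ZMod N → ℝ) :
    ∑ γ, ‖Ft f γ‖ ^ 2 = Ev (fun t => f t ^ 2) := by
  have hN : (N : ℂ) ≠ 0 := Nat.cast_ne_zero.2 (NeZero.ne N)
  have h : ((∑ γ, ‖Ft f γ‖ ^ 2 : ℝ) : ℂ) = ((Ev (fun t => f t ^ 2) : ℝ) : ℂ) := by
    rw [Complex.ofReal_sum]
    simp only [uc_normSq]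
    rw [← sum_div, sum_comm]
    have h1 : ∀ t : ZMod N, ∑ γ : ZMod N, ∑ s, (f t : ℂ) * f s * ZMod.stdAddChar (γ * (s - t)) =
        (f t : ℂ) ^ 2 * N := by
      intro t
      rw [sum_comm]
      simp only [← mul_sum, uc_orth, sub_eq_zero]
      rw [sum_eq_single t]
      · rw [if_pos rfl]
        ring
      · intro s _ hs
        rw [if_neg hs, mul_zero]
      · intro hs
        exact absurd (mem_univ _) hs
    rw [sum_congr rfl fun t _ => h1 t, ← sum_mul, Ev]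
    push_cast
    field_simp
  exact_mod_cast h

theorem uc_corr {N : ℕ} [NeZero N] (W v : ZMod N → ℝ) (γ : ZMod N) :
    Ft (fun c => Ev (fun t => W t * v (t + c))) γ = (starRingEnd ℂ) (Ft W γ) * Ft v γ := by
  simp only [Ft, Ev, map_div₀, map_sum, map_mul, Complex.conj_ofReal, ← AddChar.map_neg_eq_conj, neg_neg,
    Complex.conj_natCast]
  rw [div_mul_div_comm, sum_mul_sum]
  have h1 : ∀ c : ZMod N, (((∑ t, W t * v (t + c)) / N : ℝ) : ℂ) * ZMod.stdAddChar (-(γ * c)) =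
      (∑ t, (W t : ℂ) * ZMod.stdAddChar (γ * t) * (v (t + c) * ZMod.stdAddChar (-(γ * (t + c))))) / N := by
    intro c
    push_cast
    rw [div_mul_eq_mul_div, sum_mul]
    congr 1
    refine sum_congr rfl fun t _ => ?_
    rw [show -(γ * c) = γ * t + -(γ * (t + c)) by ring, AddChar.map_add_eq_mul]
    ring
  rw [sum_congr rfl fun c _ => h1 c, ← sum_div, sum_comm, div_div]
  congr 1
  refine sum_congr rfl fun t _ => ?_
  exact Fintype.sum_equiv (Equiv.addLeft t) _ _ fun c => rfl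

theorem uc_one {N : ℕ} [NeZero N] (W v : ZMod N → ℝ) (hW : ∀ t, |W t| ≤ 1) (τ : ℝ) (hτ : 0 ≤ τ)
    (h : ∀ γ, ‖Ft v γ‖ ≤ τ) : ∑ c, |Ev (fun t => W t * v (t + c))| ≤ N * τ := by
  have hN : (0 : ℝ) < N := Nat.cast_pos.2 (Nat.pos_of_ne_zero (NeZero.ne N))
  have h1 := parseval (fun c => Ev (fun t => W t * v (t + c)))
  simp only [uc_corr, norm_mul, RCLike.norm_conj, mul_pow] at h1
  have h2 : ∑ γ, ‖Ft W γ‖ ^ 2 * ‖Ft v γ‖ ^ 2 ≤ τ ^ 2 := by
    calc ∑ γ, ‖Ft W γ‖ ^ 2 * ‖Ft v γ‖ ^ 2 ≤ ∑ γ, ‖Ft W γ‖ ^ 2 * τ ^ 2 := by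
          refine sum_le_sum fun γ _ => ?_
          gcongr
          exact h γ
      _ = Ev (fun t => W t ^ 2) * τ ^ 2 := by rw [← sum_mul, parseval]
      _ ≤ 1 * τ ^ 2 := by
          refine mul_le_mul_of_nonneg_right ?_ (sq_nonneg _)
          rw [Ev, div_le_one hN]
          calc ∑ t, W t ^ 2 ≤ ∑ _t : ZMod N, (1 : ℝ) := by
                refine sum_le_sum fun t _ => ?_
                rw [← sq_abs]
                exact pow_le_one₀ (abs_nonneg _) (hW t)
            _ = N := by simp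
      _ = τ ^ 2 := one_mul _
  rw [h1] at h2
  have h3 : ∑ c, Ev (fun t => W t * v (t + c)) ^ 2 ≤ N * τ ^ 2 := by
    rw [Ev, div_le_iff₀ hN] at h2
    linarith
  have h4 : (∑ c, |Ev (fun t => W t * v (t + c))|) ^ 2 ≤ (N * τ) ^ 2 := by
    calc (∑ c, |Ev (fun t => W t * v (t + c))|) ^ 2 ≤
          (univ : Finset (ZMod N)).card * ∑ c, |Ev (fun t => W t * v (t + c))| ^ 2 := sq_sum_le_card_mul_sum_sq
      _ = N * ∑ c, Ev (fun t => W t * v (t + c)) ^ 2 := by
          rw [card_univ, ZMod.card]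
          simp only [sq_abs]
      _ ≤ N * (N * τ ^ 2) := mul_le_mul_of_nonneg_left h3 hN.le
      _ = (N * τ) ^ 2 := by ring
  exact le_of_sq_le_sq h4 (mul_nonneg hN.le hτ)

theorem uc_tele {N : ℕ} [NeZero N] (f u : ZMod N → ℝ) (hf : ∀ t, |f t| ≤ 1) (hu : ∀ t, |u t| ≤ 1) (τ : ℝ)
    (hτ : 0 ≤ τ) (h : ∀ γ, ‖Ft (fun t => f t - u t) γ‖ ≤ τ) (m : ℕ) :
    ∀ g : ZMod N → ℝ, (∀ t, |g t| ≤ 1) →
    ∑ C : Fin m → ZMod N, |Ev (fun t => g t * ∏ i, f (t + C i)) - Ev (fun t => g t * ∏ i, u (t + C i))| ≤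
      m * τ * (N : ℝ) ^ m := by
  induction m with
  | zero =>
    intro g _
    simp
  | succ m ih =>
    intro g hg
    have hprod : ∀ (w : ZMod N → ℝ) (_ : ∀ t, |w t| ≤ 1) (C : Fin m → ZMod N) (t : ZMod N),
        |∏ i, w (t + C i)| ≤ 1 := by
      intro w hw C t
      rw [abs_prod]
      exact prod_le_one (fun _ _ => abs_nonneg _) (fun _ _ => hw _)
    rw [← (Fin.consEquiv (fun _ : Fin (m + 1) => ZMod N)).sum_comp, Fintype.sum_prod_type]
    have hstep : ∀ (c : ZMod N) (C : Fin m → ZMod N),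
        |Ev (fun t => g t * ∏ i, f (t + (Fin.consEquiv (fun _ : Fin (m + 1) => ZMod N)) (c, C) i)) -
          Ev (fun t => g t * ∏ i, u (t + (Fin.consEquiv (fun _ : Fin (m + 1) => ZMod N)) (c, C) i))| ≤
        |Ev (fun t => (g t * ∏ i, f (t + C i)) * (f (t + c) - u (t + c)))| +
        |Ev (fun t => (g t * u (t + c)) * ∏ i, f (t + C i)) - Ev (fun t => (g t * u (t + c)) * ∏ i, u (t + C i))| := by
      intro c C
      have e : ∀ w : ZMod N → ℝ, Ev (fun t => g t * ∏ i, w (t + (Fin.consEquiv (fun _ : Fin (m + 1) => ZMod N)) (c, C) i)) =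
          Ev (fun t => g t * (w (t + c) * ∏ i, w (t + C i))) := by
        intro w
        simp only [Fin.consEquiv, Equiv.coe_fn_mk, Fin.prod_univ_succ, Fin.cons_zero, Fin.cons_succ]
      rw [e, e]
      refine le_trans (le_of_eq ?_) (abs_add_le _ _)
      congr 1
      simp only [Ev, ← sub_div, ← add_div, ← sum_sub_distrib, ← sum_add_distrib]
      congr 1
      refine sum_congr rfl fun t _ => ?_
      ring
    refine le_trans (sum_le_sum fun c _ => sum_le_sum fun C _ => hstep c C) ?_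
    simp only [sum_add_distrib]
    have hA : ∑ c : ZMod N, ∑ C : Fin m → ZMod N, |Ev (fun t => (g t * ∏ i, f (t + C i)) * (f (t + c) - u (t + c)))| ≤
        (N : ℝ) ^ m * (N * τ) := by
      rw [sum_comm]
      calc ∑ C : Fin m → ZMod N, ∑ c : ZMod N, |Ev (fun t => (g t * ∏ i, f (t + C i)) * (f (t + c) - u (t + c)))| ≤
            ∑ _C : Fin m → ZMod N, N * τ := by
            refine sum_le_sum fun C _ => ?_
            refine uc_one (fun t => g t * ∏ i, f (t + C i)) (fun t => f t - u t) (fun t => ?_) τ hτ h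
            show |g t * ∏ i, f (t + C i)| ≤ 1
            rw [abs_mul]
            exact mul_le_one₀ (hg t) (abs_nonneg _) (hprod f hf C t)
        _ = (N : ℝ) ^ m * (N * τ) := by
            simp
    have hB : ∑ c : ZMod N, ∑ C : Fin m → ZMod N, |Ev (fun t => (g t * u (t + c)) * ∏ i, f (t + C i)) -
        Ev (fun t => (g t * u (t + c)) * ∏ i, u (t + C i))| ≤ N * (m * τ * (N : ℝ) ^ m) := by
      calc ∑ c : ZMod N, ∑ C : Fin m → ZMod N, |Ev (fun t => (g t * u (t + c)) * ∏ i, f (t + C i)) -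
            Ev (fun t => (g t * u (t + c)) * ∏ i, u (t + C i))| ≤ ∑ _c : ZMod N, m * τ * (N : ℝ) ^ m := by
            refine sum_le_sum fun c _ => ih (fun t => g t * u (t + c)) fun t => ?_
            rw [abs_mul]
            exact mul_le_one₀ (hg t) (abs_nonneg _) (hu _)
        _ = N * (m * τ * (N : ℝ) ^ m) := by simp
    refine le_trans (add_le_add hA hB) (le_of_eq ?_)
    push_cast
    ring

theorem unif_corr {N : ℕ} [NeZero N] (f u : ZMod N → ℝ) (hf : ∀ t, |f t| ≤ 1) (hu : ∀ t, |u t| ≤ 1) (τ : ℝ)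
    (hτ : 0 ≤ τ) (h : ∀ γ, ‖Ft (fun t => f t - u t) γ‖ ≤ τ) (m : ℕ) :
    ∑ C : Fin m → ZMod N, |Ev (fun t => ∏ i, f (t + C i)) - Ev (fun t => ∏ i, u (t + C i))| ≤
      m * τ * (N : ℝ) ^ m := by
  have h1 := uc_tele f u hf hu τ hτ h m (fun _ => 1) fun _ => by simp
  simpa only [one_mul] using h1

end Pool.Agent.H62.EX
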