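import Pool.Agent.H62.EX.Bl

/-!
# [H62 EX UN] Bohr boxes and dilates at all scales up to `(log M) ^ A`
-/

set_option autoImplicit false

namespace Pool.Agent.H62.EX

open Finset

theorem gd_mono {k r : ℕ} {W s₀ : ℕ} {χ : ℕ → Fin r} {D : ℕ} {d d' : ℝ} {M : ℕ} {L : ℝ} (hL : 0 ≤ L) (hd : d' ≤ d)
    {a : Fin k → ℕ} (h : Gd W s₀ χ D d M L a) : Gd W s₀ χ D d' M L a := by
  intro G h1 h2
  obtain ⟨q, hq⟩ := h G h1 h2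
  refine ⟨q, le_trans ?_ hq⟩
  have h3 : 0 ≤ min 1 (L / Real.log M) := le_min zero_le_one (div_nonneg hL (Real.log_natCast_nonneg M))
  exact mul_le_mul_of_nonneg_right (mul_le_mul_of_nonneg_right hd (pow_nonneg h3 _)) (Nat.cast_nonneg _)

theorem badbox_mono {k : ℕ} {P P' : (Fin k → ℕ) → Prop} (h : ∀ a, P a → P' a) (z q : ℕ) (α : Fin q → ℝ) :
    (BadBox P' z q α).card ≤ (BadBox P z q α).card := by
  classical
  refine card_le_card fun a ha => ?_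
  unfold BadBox at ha ⊢
  rw [mem_filter] at ha ⊢
  exact ⟨ha.1, ha.2.1, ha.2.2.1, fun h1 => ha.2.2.2 (h a h1)⟩

theorem boxU (k r : ℕ) (hk : 1 ≤ k) : ∃ D : ℕ, ∀ A W s₀ : ℕ, 0 < W → Nat.Coprime s₀ W →
    ∀ F : ℕ → ℝ, (∀ q, 0 < F q) → ∃ (Q : ℕ) (c d B : ℝ), 0 < c ∧ 0 < d ∧
    ∀ (χ : ℕ → Fin r) (M : ℕ) (y : ℝ), B ≤ y → y ≤ Real.log M ^ A →
      ∃ (z q : ℕ) (α : Fin q → ℝ), 1 ≤ q ∧ q ≤ Q ∧ c * y ≤ z ∧ (z : ℝ) ≤ y ∧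
        ((BadBox (fun a : Fin k → ℕ => Gd W s₀ χ D d M y a) z q α).card : ℝ) ≤ F q * (z : ℝ) ^ k := by
  obtain ⟨D, hD⟩ := boxS k r hk
  refine ⟨D, fun A W s₀ hW hs F hF => ?_⟩
  obtain ⟨Q1, c1, d1, B1, hc1, hd1, h1⟩ := hD W s₀ hW hs F hF
  obtain ⟨Q2, c2, d2, B2, hc2, hd2, h2⟩ := boxL k r hk A W s₀ hW hs D F hF
  refine ⟨max Q1 Q2, min c1 c2, min d1 d2, max 0 (max B1 B2), lt_min hc1 hc2, lt_min hd1 hd2, fun χ M y hB hy => ?_⟩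
  have hy0 : 0 ≤ y := (le_max_left _ _).trans hB
  have hB1 : B1 ≤ y := ((le_max_left _ _).trans (le_max_right _ _)).trans hB
  have hB2 : B2 ≤ y := ((le_max_right _ _).trans (le_max_right _ _)).trans hB
  rcases le_or_gt y (Real.log M) with hyM | hyM
  · obtain ⟨z, q, α, hq1, hq2, hz1, hz2, hz3⟩ := h1 χ M y hB1 hyM
    refine ⟨z, q, α, hq1, hq2.trans (le_max_left _ _), ?_, hz2, le_trans ?_ hz3⟩
    · exact (mul_le_mul_of_nonneg_right (min_le_left _ _) hy0).trans hz1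
    · exact_mod_cast badbox_mono (fun a ha => gd_mono hy0 (min_le_left _ _) ha) z q α
  · obtain ⟨z, q, α, hq1, hq2, hz1, hz2, hz3⟩ := h2 χ M y hB2 hyM hy
    refine ⟨z, q, α, hq1, hq2.trans (le_max_right _ _), ?_, hz2, le_trans ?_ hz3⟩
    · exact (mul_le_mul_of_nonneg_right (min_le_right _ _) hy0).trans hz1
    · exact_mod_cast badbox_mono (fun a ha => gd_mono hy0 (min_le_right _ _) ha) z q α

theorem dilU (k r : ℕ) (hk : 1 ≤ k) : ∃ D : ℕ, ∀ A W s₀ : ℕ, 0 < W → Nat.Coprime s₀ W →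
    ∀ F : ℕ → ℝ, (∀ q, 0 < F q) → ∃ (m₁ : ℕ) (c d B : ℝ), 0 < c ∧ 0 < d ∧
    ∀ (χ : ℕ → Fin r) (M : ℕ) (y : ℝ), B ≤ y → y ≤ Real.log M ^ A → ∃ m₀ z : ℕ, m₀ ≤ m₁ ∧ c * y ≤ z ∧ (z : ℝ) ≤ y ∧
      ((BadDil (fun a : Fin k → ℕ => Gd W s₀ χ D d M y a) z m₀).card : ℝ) ≤ F m₀ * (z : ℝ) ^ k := by
  obtain ⟨D, hD⟩ := boxU k r hk
  refine ⟨D, fun A W s₀ hW hs F hF => ?_⟩
  obtain ⟨F', hF', hdil⟩ := box_dil k F hF
  obtain ⟨Q, c, d, B, hc, hd, h⟩ := hD A W s₀ hW hs F' hF'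
  obtain ⟨m₁, hm₁, hdil⟩ := hdil Q
  have hm₁r : (1 : ℝ) ≤ m₁ := by exact_mod_cast hm₁
  refine ⟨m₁, c / m₁, d, max B (m₁ / c), by positivity, hd, fun χ M y hB hy => ?_⟩
  obtain ⟨z, q, α, hq1, hq2, hz1, hz2, hz3⟩ := h χ M y ((le_max_left _ _).trans hB) hy
  have h1 : (m₁ : ℝ) ≤ z := by
    have h2 : m₁ / c ≤ y := (le_max_right _ _).trans hB
    rw [div_le_iff₀ hc] at h2
    linarith
  obtain ⟨m₀, z', hm, hz4, hz5, hz6⟩ := hdil _ z q α hq1 hq2 (by exact_mod_cast h1) hz3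
  refine ⟨m₀, z', hm, ?_, ?_, hz6⟩
  · have h2 : (z : ℝ) ≤ m₁ * z' := by exact_mod_cast hz4
    rw [div_mul_eq_mul_div, div_le_iff₀ (by linarith)]
    linarith
  · have h2 : (z' : ℝ) ≤ z := by exact_mod_cast hz5
    linarith

end Pool.Agent.H62.EX
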