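import Pool.Agent.H34.EQ.Bip

/-!
# [H62 EX XCT] Exact patterns for one bounded multiple, in every cube of `ℤ^k`

For almost all `a` there is ONE multiple `m a` such that for every subset `F` of `{0, .., k}` there are infinitely many `N` with
`N + m a_j` prime exactly for the `j` in `F`.
-/

set_option autoImplicit false

namespace Pool.Agent.H62.EX

open Finset Filter Pool.Agent.H34.RR Pool.Agent.H61.UN Pool.Agent.H21.MT Pool.Agent.H92.MM Pool.Agent.H48.EP

/-- `N + m a_j` is a prime `≡ s₀ (mod W)` of colour `q` for `j ∈ F` and not a prime for `j ∉ F` -/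
def Xpat {k r : ℕ} (W s₀ : ℕ) (χ : ℕ → Fin r) (q : Fin r) (F : Finset (Fin (k + 1))) (m : ℕ) (a : Fin k → ℤ) (N : ℕ) : Prop :=
  ∀ j : Fin (k + 1), ∃ p' : ℕ, (p' : ℤ) = N + m * (Fin.cons 0 a : Fin (k + 1) → ℤ) j ∧ (j ∈ F → Pr W s₀ χ q p') ∧
    (j ∉ F → ¬ p'.Prime)

/-- all patterns occur infinitely often -/
def Xgood {k r : ℕ} (W s₀ : ℕ) (χ : ℕ → Fin r) (m : ℕ) (a : Fin k → ℤ) : Prop :=
  ∀ F : Finset (Fin (k + 1)), ∃ q : Fin r, {N : ℕ | Xpat W s₀ χ q F m a N}.Infinite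

/-- composite points by the Chinese remainder theorem -/
theorem crt_extra {m s : ℕ} (R : ℕ) (hR : 0 < R) (v : Fin m × Fin (s + 1) → ℕ) (hv : Function.Injective v) :
    ∃ (R' N₀ : ℕ), 0 < R' ∧ R ∣ R' ∧ R ∣ N₀ ∧ (∀ p : Fin m × Fin s, Nat.Coprime (v (p.1, p.2.castSucc)) R →
      Nat.Coprime (N₀ + v (p.1, p.2.castSucc)) R') ∧
      ∃ K : ℕ, ∀ N : ℕ, K ≤ N → R' ∣ N → ∀ d : Fin m, ¬ (N + N₀ + v (d, Fin.last s)).Prime := by
  classical
  obtain ⟨K, hK⟩ : ∃ K : ℕ, K = ∑ p, v p + R + 1 := ⟨_, rfl⟩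
  have hvK : ∀ p, v p < K := by
    intro p
    have := single_le_sum (f := v) (fun _ _ => Nat.zero_le _) (mem_univ p)
    omega
  obtain ⟨l, hl⟩ : ∃ l : Fin m → ℕ, l = fun d : Fin m => Nat.nth Nat.Prime (K + (d : ℕ)) := ⟨_, rfl⟩
  have hlp : ∀ d, (l d).Prime := by
    intro d
    rw [hl]
    exact Nat.prime_nth_prime _
  have hlK : ∀ d, K < l d := by
    intro d
    rw [hl]
    have := Nat.add_two_le_nth_prime (K + d)
    show K < Nat.nth Nat.Prime (K + d)
    omega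
  have hinj : Function.Injective l := by
    intro d d' h
    rw [hl] at h
    have h1 : K + (d : ℕ) = K + d' := Nat.nth_injective Nat.infinite_setOfPred_prime h
    exact Fin.ext (by omega)
  have hcop : ∀ d d', d ≠ d' → Nat.Coprime (l d) (l d') := fun d d' h =>
    (Nat.coprime_primes (hlp d) (hlp d')).2 fun h' => h (hinj h')
  have hcopR : ∀ d, Nat.Coprime (l d) R := by
    intro d
    rw [(hlp d).coprime_iff_not_dvd]
    intro h
    have h1 := Nat.le_of_dvd hR h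
    have h2 := hlK d
    omega
  -- the Chinese remainder theorem
  obtain ⟨y, hy⟩ := Nat.chineseRemainderOfFinset (fun o : Option (Fin m) => o.elim 0 (fun d => l d - v (d, Fin.last s)))
    (fun o : Option (Fin m) => o.elim R l) univ (by
      intro o _
      cases o with
      | none => exact hR.ne'
      | some d => exact (hlp d).ne_zero) (by
      intro o _ o' _ hoo
      cases o with
      | none =>
        cases o' with
        | none => exact absurd rfl hoo
        | some d => exact (hcopR d).symm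
      | some d =>
        cases o' with
        | none => exact hcopR d
        | some d' => exact hcop d d' fun h => hoo (by rw [h]))
  have hyR : R ∣ y := by
    have h1 := hy none (mem_univ _)
    exact (Nat.modEq_zero_iff_dvd).1 h1
  have hyl : ∀ d, l d ∣ y + v (d, Fin.last s) := by
    intro d
    have h1 : y ≡ l d - v (d, Fin.last s) [MOD l d] := hy (some d) (mem_univ _)
    have h2 := h1.add_right (v (d, Fin.last s))
    have h3 : l d - v (d, Fin.last s) + v (d, Fin.last s) = l d := by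
      have := hvK (d, Fin.last s)
      have := hlK d
      omega
    rw [h3] at h2
    exact (Nat.modEq_zero_iff_dvd).1 (h2.trans (Nat.modEq_zero_iff_dvd.2 dvd_rfl))
  refine ⟨R * ∏ d, l d, y, Nat.mul_pos hR (prod_pos fun d _ => (hlp d).pos), Dvd.intro _ rfl, hyR, fun p hp => ?_,
    ∑ d, l d + 1, fun N hN hRN d => ?_⟩
  · rw [Nat.coprime_mul_iff_right]
    constructor
    · obtain ⟨y', rfl⟩ := hyR
      rw [Nat.add_comm]
      exact (Nat.coprime_add_mul_left_left _ _ _).2 hp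
    · rw [Nat.coprime_prod_right_iff]
      intro d _
      refine Nat.Coprime.symm ((hlp d).coprime_iff_not_dvd.2 fun h => ?_)
      -- the difference is small and nonzero
      have h1 := hyl d
      have h2 : v (p.1, p.2.castSucc) ≠ v (d, Fin.last s) := by
        intro h3
        have h4 := hv h3
        rw [Prod.mk.injEq] at h4
        exact (Fin.castSucc_lt_last p.2).ne h4.2
      have h5 := hvK (p.1, p.2.castSucc)
      have h6 := hvK (d, Fin.last s)
      have h7 := hlK d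
      rcases lt_or_gt_of_ne h2 with h3 | h3
      · have h8 := Nat.dvd_sub h1 h
        have h9 : y + v (d, Fin.last s) - (y + v (p.1, p.2.castSucc)) = v (d, Fin.last s) - v (p.1, p.2.castSucc) := by omega
        rw [h9] at h8
        have := Nat.le_of_dvd (by omega) h8
        omega
      · have h8 := Nat.dvd_sub h h1
        have h9 : y + v (p.1, p.2.castSucc) - (y + v (d, Fin.last s)) = v (p.1, p.2.castSucc) - v (d, Fin.last s) := by omega
        rw [h9] at h8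
        have := Nat.le_of_dvd (by omega) h8
        omega
  · have h1 : l d ∣ N := (dvd_prod_of_mem l (mem_univ d)).trans ((Dvd.intro_left _ rfl).trans hRN)
    have h2 : l d ∣ N + y + v (d, Fin.last s) := by
      rw [Nat.add_assoc]
      exact dvd_add h1 (hyl d)
    intro h3
    rcases (Nat.dvd_prime h3).1 h2 with h4 | h4
    · exact (hlp d).one_lt.ne' h4
    · have h5 := single_le_sum (f := l) (fun _ _ => Nat.zero_le _) (mem_univ d)
      omega

open Classical in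
/-- **exact patterns, one bounded multiple, every cube of `ℤ^k`** -/
theorem exactIP (k r : ℕ) : ∃ n P : ℕ, 0 < P ∧ ∀ c : Fin n → ℕ, (∀ i, 1 ≤ c i) → ∀ ε : ℝ, 0 < ε → ∃ B : ℕ,
    ∀ W s₀ : ℕ, 0 < W → Nat.Coprime s₀ W → ∀ (χ : ℕ → Fin r) (z : ℕ), B ≤ z → ∀ b : Fin k → ℤ,
      (((Fintype.piFinset (fun j : Fin k => Ioc (b j) (b j + z))).filter (fun a => ¬ ∃ I : Finset (Fin n), I.Nonempty ∧
        Xgood W s₀ χ (P * W * ∑ i ∈ I, c i) a)).card : ℝ) ≤ ε * (z : ℝ) ^ k := by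
  rcases Nat.eq_zero_or_pos r with hr | hr
  · subst hr
    exact ⟨0, 1, one_pos, fun _ _ _ _ => ⟨0, fun _ _ _ _ χ => (χ 0).elim0⟩⟩
  have hr0 : (0 : ℝ) < r := by exact_mod_cast hr
  obtain ⟨n, m, hm, hsys⟩ := Pool.Agent.H34.EQ.sys_words_c k (1 / (100 * (r : ℝ))) (by positivity)
  obtain ⟨s, wd, hs, hsv⟩ := one_prime m hm
  obtain ⟨P, hPd⟩ : ∃ P : ℕ, P = primorial wd := ⟨_, rfl⟩
  have hP : 0 < P := by rw [hPd]; exact primorial_pos wd
  refine ⟨n, P, hP, fun c hc ε hε => ?_⟩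
  obtain ⟨S, hSm, hSI⟩ := hsys c hc
  subst hSm
  -- the number of choices of the subset for each multiplier
  obtain ⟨Nf, hNf⟩ : ∃ Nf : ℕ, Nf = Fintype.card (Finset (Fin n) → Finset (Fin (k + 1))) := ⟨_, rfl⟩
  have hNf0 : (0 : ℝ) < Nf := by
    rw [hNf]
    exact_mod_cast Fintype.card_pos
  obtain ⟨z₀, hz₀⟩ := one_conf S (s + 1) (by omega) (ε / Nf) (by positivity)
  refine ⟨z₀, fun W s₀ hW hs₀ χ z hz b => ?_⟩
  obtain ⟨R, hRd⟩ : ∃ R : ℕ, R = P * W := ⟨_, rfl⟩
  have hR : 0 < R := by rw [hRd]; exact Nat.mul_pos hP hW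
  have hRw : primorial wd ∣ R := by rw [hRd, hPd]; exact Dvd.intro _ rfl
  have hWR : W ∣ R := by rw [hRd]; exact Dvd.intro_left _ rfl
  have : NeZero W := ⟨hW.ne'⟩
  obtain ⟨ρ, hρ1, hρ2, hρ3⟩ := Nat.forall_exists_prime_gt_and_modEq R hW.ne' hs₀
  have hρR := Nat.coprime_of_lt_prime hR.ne' hρ1 hρ2
  by_contra hcon
  rw [not_le] at hcon
  obtain ⟨E, hE⟩ : ∃ E : Finset (Fin k → ℤ), E = (Fintype.piFinset (fun j : Fin k => Ioc (b j) (b j + z))).filter
      (fun a => ¬ ∃ I : Finset (Fin n), I.Nonempty ∧ Xgood W s₀ χ (P * W * ∑ i ∈ I, c i) a) := ⟨_, rfl⟩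
  rw [← hE] at hcon
  -- a bad subset for each multiplier
  have hch : ∀ (a : Fin k → ℤ) (I : Finset (Fin n)), ∃ F : Finset (Fin (k + 1)), a ∈ E → I.Nonempty →
      ∀ q : Fin r, ¬ {N : ℕ | Xpat W s₀ χ q F (P * W * ∑ i ∈ I, c i) a N}.Infinite := by
    intro a I
    by_cases ha : a ∈ E
    · by_cases hI : I.Nonempty
      · have h1 := ha
        rw [hE, mem_filter] at h1
        have h2 : ¬ Xgood W s₀ χ (P * W * ∑ i ∈ I, c i) a := fun h => h1.2 ⟨I, hI, h⟩
        unfold Xgood at h2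
        push Not at h2
        obtain ⟨F, hF⟩ := h2
        exact ⟨F, fun _ _ q => Set.not_infinite.2 (hF q)⟩
      · exact ⟨∅, fun _ h => absurd h hI⟩
    · exact ⟨∅, fun h => absurd h ha⟩
  choose φ hφ using hch
  obtain ⟨f, -, hf⟩ := Finset.exists_le_card_fiber_of_nsmul_le_card_of_maps_to (s := E)
    (t := (univ : Finset (Finset (Fin n) → Finset (Fin (k + 1))))) (f := φ) (b := ε / Nf * (z : ℝ) ^ k)
    (fun _ _ => mem_univ _) univ_nonempty (by
      rw [card_univ, ← hNf, nsmul_eq_mul]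
      refine le_trans (le_of_eq ?_) hcon.le
      field_simp)
  obtain ⟨Ef, hEf⟩ : ∃ Ef : Finset (Fin k → ℤ), Ef = E.filter (fun a => φ a = f) := ⟨_, rfl⟩
  rw [← hEf] at hf
  -- the translate
  obtain ⟨E', hE'⟩ : ∃ E' : Finset (Fin k → ℤ), E' = Ef.image (fun a => a - b) := ⟨_, rfl⟩
  have hEc : E'.card = Ef.card := by
    rw [hE']
    exact card_image_of_injective _ (fun x y h => sub_left_injective h)
  have hEz : ∀ a ∈ E', ∀ i, |a i| ≤ z := by
    intro a ha i
    rw [hE', mem_image] at ha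
    obtain ⟨a', ha', rfl⟩ := ha
    rw [hEf, mem_filter, hE, mem_filter, Fintype.mem_piFinset] at ha'
    have h1 := mem_Ioc.1 (ha'.1.1 i)
    rw [Pi.sub_apply, abs_le]
    constructor
    · have : (0 : ℤ) ≤ z := Nat.cast_nonneg _
      linarith [h1.1]
    · linarith [h1.2]
  obtain ⟨u, -, hu1, hu2⟩ := hz₀ z hz E' hEz (by rw [hEc]; exact hf) (fun v => ∑ i, (S.c v i : ℤ) * b i)
  obtain ⟨w, hw⟩ : ∃ w : Fin S.m × Fin (s + 1) → ℤ, w = fun p => u p + ∑ i, (S.c p.1 i : ℤ) * b i := ⟨_, rfl⟩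
  have hw1 : Function.Injective w := by rw [hw]; exact hu1
  obtain ⟨Mb, hMb⟩ : ∃ Mb : ℤ, Mb = ∑ p, |w p| := ⟨_, rfl⟩
  have hwM : ∀ p, 0 ≤ w p + Mb := by
    intro p
    have h1 := single_le_sum (f := fun p => |w p|) (fun _ _ => abs_nonneg _) (mem_univ p)
    have h2 := neg_abs_le (w p)
    rw [hMb]
    linarith
  obtain ⟨v, hv⟩ : ∃ v : Fin S.m × Fin (s + 1) → ℕ, v = fun p => ρ + R * (w p + Mb).toNat := ⟨_, rfl⟩
  have hvz : ∀ p, (v p : ℤ) = ρ + R * (w p + Mb) := by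
    intro p
    rw [hv]
    push_cast
    rw [Int.toNat_of_nonneg (hwM p)]
  have hRz : (0 : ℤ) < R := by exact_mod_cast hR
  have hv1 : Function.Injective v := by
    intro p p' hpp
    apply hw1
    have h1 : (v p : ℤ) = v p' := by rw [hpp]
    rw [hvz, hvz] at h1
    have h2 : (R : ℤ) * (w p + Mb) = R * (w p' + Mb) := by linarith
    have h3 := mul_left_cancel₀ hRz.ne' h2
    linarith
  have hv2 : ∀ p, v p ≡ ρ [MOD R] := by
    intro p
    rw [hv]
    show (ρ + R * (w p + Mb).toNat) % R = ρ % R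
    rw [Nat.add_mul_mod_self_left]
  have hv3 : ∀ p, Nat.Coprime (v p) R := by
    intro p
    have h4 : Nat.gcd ρ R = 1 := hρR
    show Nat.gcd (v p) R = 1
    rw [← h4]
    exact Nat.ModEq.gcd_eq (hv2 p)
  have hv4 : ∀ (a : Fin S.L) (t : Fin (k + 1) → Fin (s + 1)), ∃ a₁ ∈ Ef, ∀ i : Fin k,
      (v (S.e a i.succ, t i.succ) : ℤ) - (v (S.e a 0, t 0) : ℤ) = ((R * S.μ a : ℕ) : ℤ) * a₁ i := by
    intro a t
    obtain ⟨b', hb', hbd⟩ := hu2 a t
    rw [hE', mem_image] at hb'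
    obtain ⟨a₁, ha₁, rfl⟩ := hb'
    refine ⟨a₁, ha₁, fun i => ?_⟩
    rw [hvz, hvz, hw]
    have h1 := hbd i
    have h2 : ∑ j, (S.c (S.e a i.succ) j : ℤ) * b j = ∑ j, (S.c (S.e a 0) j : ℤ) * b j + S.μ a * b i := by
      rw [← sub_eq_iff_eq_add', ← sum_sub_distrib, sum_eq_single i]
      · rw [S.smp, if_pos rfl]
        push_cast
        ring
      · intro j _ hj
        rw [S.smp, if_neg (Ne.symm hj), Nat.add_zero, sub_self]
      · intro hh
        exact absurd (mem_univ _) hh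
    dsimp only
    rw [h2]
    rw [Pi.sub_apply] at h1
    push_cast
    linear_combination (R : ℤ) * h1
  -- the extra points are composite
  obtain ⟨R', N₁, hR', hRR', hRN, hcop, K, hK⟩ := crt_extra R hR v hv1
  -- primes
  have hp : ∀ N₀ : ℕ, ∃ N : ℕ, N₀ ≤ N ∧ (∀ d, ¬ (N + N₁ + v (d, Fin.last s)).Prime) ∧
      ∃ x : Fin r × Fin S.L × (Fin (k + 1) → Fin s), ∀ j, Pr W s₀ χ x.1 (N + N₁ + v (S.e x.2.1 j, (x.2.2 j).castSucc)) := by
    intro N₀
    obtain ⟨N, hN, hRN', hwc⟩ := hsv R' hR' (hRw.trans hRR') (fun p => N₁ + v (p.1, p.2.castSucc)) (by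
      intro p p' hpp
      have h1 : v (p.1, p.2.castSucc) = v (p'.1, p'.2.castSucc) := by
        simp only at hpp
        omega
      have h2 := hv1 h1
      rw [Prod.mk.injEq] at h2
      exact Prod.ext h2.1 (Fin.castSucc_injective _ h2.2)) (fun p => hcop p (hv3 _)) (max N₀ K)
    obtain ⟨q, a, t, hat⟩ := pick hr S χ N (fun p => N₁ + v (p.1, p.2.castSucc)) hwc
    refine ⟨N, (le_max_left _ _).trans hN, fun d => hK N ((le_max_right _ _).trans hN) hRN' d, (q, a, t), fun j => ?_⟩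
    have h0 := hat j
    simp only [← Nat.add_assoc] at h0
    refine ⟨h0.1, h0.2, ?_⟩
    have h4 : N + N₁ ≡ 0 [MOD W] := Nat.modEq_zero_iff_dvd.2 (hWR.trans (dvd_add (hRR'.trans hRN') hRN))
    have h6 := h4.add ((hv2 (S.e a j, (t j).castSucc)).of_dvd hWR)
    rw [Nat.zero_add] at h6
    exact h6.trans hρ3
  obtain ⟨x, hx⟩ : ∃ x : Fin r × Fin S.L × (Fin (k + 1) → Fin s), ∀ N₀ : ℕ, ∃ N : ℕ, N₀ ≤ N ∧
      (∀ d, ¬ (N + N₁ + v (d, Fin.last s)).Prime) ∧ ∀ j, Pr W s₀ χ x.1 (N + N₁ + v (S.e x.2.1 j, (x.2.2 j).castSucc)) := by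
    by_contra hcon2
    push Not at hcon2
    choose g hg using hcon2
    obtain ⟨N, hN, hd, x, hx⟩ := hp (∑ x, g x)
    have h1 := single_le_sum (f := g) (fun _ _ => Nat.zero_le _) (mem_univ x)
    obtain ⟨j, hj⟩ := hg x N (h1.trans hN) hd
    exact hj (hx j)
  obtain ⟨q, a, t⟩ := x
  obtain ⟨I, hI, hIμ⟩ := hSI a
  -- the subset is determined by the multiplier
  obtain ⟨F, hF⟩ : ∃ F : Finset (Fin (k + 1)), F = f I := ⟨_, rfl⟩
  obtain ⟨t', ht'⟩ : ∃ t' : Fin (k + 1) → Fin (s + 1), t' = fun j => if j ∈ F then (t j).castSucc else Fin.last s := ⟨_, rfl⟩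
  obtain ⟨a₁, ha₁, hd⟩ := hv4 a t'
  rw [hEf, mem_filter] at ha₁
  have hbad := hφ a₁ I ha₁.1 hI q
  rw [ha₁.2, ← hF, ← hIμ, ← hRd] at hbad
  apply hbad
  rw [← Set.not_finite]
  intro hfin
  obtain ⟨Bd, hBd⟩ := hfin.bddAbove
  obtain ⟨N, hN, hcomp, hx2⟩ := hx (Bd + 1)
  have h1 : N + N₁ + v (S.e a 0, t' 0) ≤ Bd := hBd (by
    intro j
    refine ⟨N + N₁ + v (S.e a j, t' j), ?_, fun hj => ?_, fun hj => ?_⟩
    · refine Fin.cases ?_ (fun j => ?_) j
      · rw [Fin.cons_zero, mul_zero, add_zero]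
      · rw [Fin.cons_succ]
        have h3 := hd j
        push_cast
        push_cast at h3
        linarith
    · rw [ht']
      show Pr W s₀ χ q (N + N₁ + v (S.e a j, if j ∈ F then (t j).castSucc else Fin.last s))
      rw [if_pos hj]
      exact hx2 j
    · rw [ht']
      show ¬ (N + N₁ + v (S.e a j, if j ∈ F then (t j).castSucc else Fin.last s)).Prime
      rw [if_neg hj]
      exact hcomp _)
  omega

end Pool.Agent.H62.EX
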